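import Pool.Agent.P8H10.Kras

/-!
# Galois descent for spaces over the algebraic numbers in the algebraic closure of `ℚ_p`
-/

set_option autoImplicit false

namespace Pool.Agent.P8H10

open Polynomial IntermediateField

variable {p : ℕ} [hp : Fact p.Prime]

/-- The field of algebraic numbers in the algebraic closure of `ℚ_p`. -/
noncomputable abbrev QB (p : ℕ) [Fact p.Prime] : IntermediateField ℚ (PadicAlgCl p) :=
  algebraicClosure ℚ (PadicAlgCl p)

theorem mem_QB {x : PadicAlgCl p} : x ∈ QB p ↔ IsAlgebraic ℚ x :=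
  mem_algebraicClosure_iff'.trans isAlgebraic_iff_isIntegral.symm

theorem alg_map {x : PadicAlgCl p} (hx : IsAlgebraic ℚ x) (σ : PadicAlgCl p →+* PadicAlgCl p) :
    IsAlgebraic ℚ (σ x) := hx.algHom (RingHom.toRatAlgHom σ)

theorem smul_def' (c : QB p) (z : PadicAlgCl p) : c • z = (c : PadicAlgCl p) * z := rfl

open scoped Classical in
theorem coeff_basis_alg (R : Finset (PadicAlgCl p)) (hR : ∀ r ∈ R, IsAlgebraic ℚ r)
    {r : PadicAlgCl p} (hr : r ∈ R) (n : ℕ) : (Lagrange.basis R id r).coeff n ∈ QB p := by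
  have h : Lagrange.basis R id r ∈ Polynomial.lifts (algebraMap (QB p) (PadicAlgCl p)) := by
    unfold Lagrange.basis
    refine Subsemiring.prod_mem _ fun j hj => ?_
    unfold Lagrange.basisDivisor
    have hj' := (Finset.mem_erase.1 hj).2
    refine Subsemiring.mul_mem _ ?_ ?_
    · have hc : (id r - id j)⁻¹ ∈ QB p :=
        inv_mem (sub_mem (mem_QB.2 (hR r hr)) (mem_QB.2 (hR j hj')))
      exact Polynomial.C_mem_lifts (algebraMap (QB p) (PadicAlgCl p)) (⟨_, hc⟩ : QB p)
    · have hc : -(id j) ∈ QB p := neg_mem (mem_QB.2 (hR j hj'))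
      have h1 := Subsemiring.add_mem (Polynomial.lifts (algebraMap (QB p) (PadicAlgCl p)))
        (Polynomial.X_mem_lifts _) (Polynomial.C_mem_lifts (algebraMap (QB p) (PadicAlgCl p))
          (⟨_, hc⟩ : QB p))
      have h2 : (X : (PadicAlgCl p)[X]) - C (id j) =
          X + C ((algebraMap (QB p) (PadicAlgCl p)) (⟨_, hc⟩ : QB p)) := by
        rw [sub_eq_add_neg, ← C_neg]
        rfl
      rw [h2]
      exact h1
  rw [Polynomial.lifts_iff_coeff_lifts] at h
  obtain ⟨c, hc⟩ := h n
  rw [← hc]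
  exact c.2

/-- **Galois descent.** A space over the algebraic numbers which is stable under the automorphisms of
the algebraic closure of `ℚ_p` over a field `F ⊇ ℚ_p` is spanned by its elements in `F`. -/
theorem descent (F : IntermediateField ℚ_[p] (PadicAlgCl p))
    (Y : Submodule (QB p) (PadicAlgCl p))
    (hY : ∀ σ : PadicAlgCl p ≃ₐ[F] PadicAlgCl p, ∀ y ∈ Y, σ y ∈ Y) {y : PadicAlgCl p}
    (hy : y ∈ Y) : y ∈ Submodule.span (QB p) {z : PadicAlgCl p | z ∈ Y ∧ z ∈ F} := by
  classical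
  obtain ⟨θ, hθ, hyθ⟩ := exists_alg_gen y
  have hint : IsIntegral F θ := Algebra.IsIntegral.isIntegral θ
  have hy1 : y ∈ F⟮θ⟯ := by
    have h1 : ℚ_[p]⟮θ⟯ ≤ (F⟮θ⟯).restrictScalars ℚ_[p] := by
      rw [IntermediateField.adjoin_simple_le_iff]
      exact mem_adjoin_simple_self F θ
    exact h1 hyθ
  have hy2 : y ∈ Algebra.adjoin F {θ} := by
    rw [← IntermediateField.adjoin_simple_toSubalgebra_of_isAlgebraic hint.isAlgebraic]
    exact hy1
  obtain ⟨q0, hq0⟩ := Algebra.adjoin_singleton_eq_range_aeval F θ ▸ hy2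
  set m := minpoly F θ with hm
  have mmon : m.Monic := minpoly.monic hint
  set q := q0 %ₘ m with hq
  have hqy : aeval θ q = y := by
    rw [hq, Polynomial.aeval_modByMonic_eq_self_of_root (minpoly.aeval F θ)]
    exact hq0
  have hqdeg : q.degree < m.degree := Polynomial.degree_modByMonic_lt _ mmon
  let R : Finset (PadicAlgCl p) := (m.rootSet (PadicAlgCl p)).toFinset
  have hcard : R.card = m.natDegree := by
    rw [Set.toFinset_card]
    exact Polynomial.card_rootSet_eq_natDegree (minpoly.irreducible hint).separable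
      (IsAlgClosed.splits _)
  have hconj : ∀ r ∈ R, ∃ σ : PadicAlgCl p ≃ₐ[F] PadicAlgCl p, σ θ = r := by
    intro r hr
    have h1 : IsConjRoot F θ r := by
      rw [isConjRoot_iff_mem_minpoly_rootSet hint]
      exact Set.mem_toFinset.1 hr
    obtain ⟨σ, hσ⟩ := isConjRoot_iff_exists_algEquiv.1 h1
    refine ⟨σ.symm, ?_⟩
    rw [← hσ]
    simp
  choose! σ hσ using hconj
  have hRalg : ∀ r ∈ R, IsAlgebraic ℚ r := by
    intro r hr
    rw [← hσ r hr]
    exact alg_map hθ ((σ r : PadicAlgCl p →ₐ[F] PadicAlgCl p) : PadicAlgCl p →+* PadicAlgCl p)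
  -- interpolation
  have hev : ∀ r ∈ R, eval (id r) (q.map (algebraMap F (PadicAlgCl p))) = σ r y := by
    intro r hr
    rw [Polynomial.eval_map_algebraMap, ← hqy, ← Polynomial.aeval_algHom_apply, hσ r hr]
    rfl
  have hlag : q.map (algebraMap F (PadicAlgCl p)) =
      Lagrange.interpolate R id fun r => σ r y := by
    refine Lagrange.eq_interpolate_of_eval_eq _ (Set.injOn_id _) ?_ hev
    rw [Polynomial.degree_map, hcard]
    exact lt_of_lt_of_le hqdeg Polynomial.degree_le_natDegree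
  have hcoef : ∀ n, (algebraMap F (PadicAlgCl p)) (q.coeff n) ∈ Y := by
    intro n
    rw [← Polynomial.coeff_map, hlag, Lagrange.interpolate_apply, Polynomial.finsetSum_coeff]
    refine Submodule.sum_mem _ fun r hr => ?_
    rw [Polynomial.coeff_C_mul, mul_comm]
    exact Y.smul_mem (⟨_, coeff_basis_alg R hRalg hr n⟩ : QB p) (hY (σ r) y hy)
  rw [← hqy, Polynomial.aeval_eq_sum_range]
  refine Submodule.sum_mem _ fun i _ => ?_
  have h1 : q.coeff i • θ ^ i =
      (⟨θ ^ i, mem_QB.2 (hθ.pow i)⟩ : QB p) • ((algebraMap F (PadicAlgCl p)) (q.coeff i)) := by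
    rw [smul_def', Algebra.smul_def, mul_comm]
  rw [h1]
  exact Submodule.smul_mem _ _ (Submodule.subset_span ⟨hcoef i, (q.coeff i).2⟩)

end Pool.Agent.P8H10
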