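import Pool.Agent.N131.SR.Ldl
import Pool.Agent.H159R3.NV.Jensen

/-!
The second main theorem on the projective line, with the Wronskian, for functions given by entire coordinates.
-/

set_option autoImplicit false

namespace Pool.Agent.P8H10.GC

open MeasureTheory Set Filter Topology Metric Real ValueDistribution MeromorphicOn
open Pool.Agent.N131.SR (NZ)
open Pool.Agent.Helper160.Nev (circleAverage_mono_codiscrete)
open Pool.Agent.H159R3.NV (L mero_of_diff ci_log ne_cod)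

/-- linear combination -/
def U {ι : Type*} (a b : ι → ℂ) (x y : ℂ → ℂ) (l : ι) (z : ℂ) : ℂ := a l * x z + b l * y z

/-- Wronskian -/
noncomputable def W (x y : ℂ → ℂ) (z : ℂ) : ℂ := x z * deriv y z - deriv x z * y z

/-- the norm -/
noncomputable def nm (x y : ℂ → ℂ) (z : ℂ) : ℝ := max ‖x z‖ ‖y z‖

/-- characteristic function -/
noncomputable def tau (x y : ℂ → ℂ) (r : ℝ) : ℝ := circleAverage (fun z => Real.log (nm x y z)) 0 r

variable {x y : ℂ → ℂ}

lemma U_diff {ι : Type*} (a b : ι → ℂ) (hx : Differentiable ℂ x) (hy : Differentiable ℂ y) (l : ι) :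
    Differentiable ℂ (U a b x y l) := (hx.const_mul _).add (hy.const_mul _)

lemma W_diff (hx : Differentiable ℂ x) (hy : Differentiable ℂ y) : Differentiable ℂ (W x y) := by
  have h1 : Differentiable ℂ (deriv x) := fun z => (hx.analyticAt z).deriv.differentiableAt
  have h2 : Differentiable ℂ (deriv y) := fun z => (hy.analyticAt z).deriv.differentiableAt
  exact (hx.mul h2).sub (h1.mul hy)

lemma nm_pos (hxy : ∀ z, x z ≠ 0 ∨ y z ≠ 0) (z : ℂ) : 0 < nm x y z := by
  rcases hxy z with h | h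
  · exact lt_max_of_lt_left (norm_pos_iff.2 h)
  · exact lt_max_of_lt_right (norm_pos_iff.2 h)

lemma nm_ci (hx : Differentiable ℂ x) (hy : Differentiable ℂ y) (hxy : ∀ z, x z ≠ 0 ∨ y z ≠ 0) (r : ℝ) :
    CircleIntegrable (fun z => Real.log (nm x y z)) 0 r := by
  apply ContinuousOn.circleIntegrable'
  apply ContinuousOn.log
  · exact (hx.continuous.norm.max hy.continuous.norm).continuousOn
  · intro z _
    exact (nm_pos hxy z).ne'

lemma det_W {ι : Type*} (a b : ι → ℂ) (hx : Differentiable ℂ x) (hy : Differentiable ℂ y) (l l' : ι) (z : ℂ) :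
    U a b x y l z * deriv (U a b x y l') z - deriv (U a b x y l) z * U a b x y l' z =
      (a l * b l' - a l' * b l) * W x y z := by
  have h : ∀ l, deriv (U a b x y l) z = a l * deriv x z + b l * deriv y z := by
    intro l
    have e : U a b x y l = fun z => a l * x z + b l * y z := rfl
    rw [e, deriv_fun_add ((hx z).const_mul _) ((hy z).const_mul _), deriv_const_mul _ (hx z),
      deriv_const_mul _ (hy z)]
  rw [h, h]
  simp only [U, W]
  ring

lemma U_ne {ι : Type*} {a b : ι → ℂ} (hx : Differentiable ℂ x) (hy : Differentiable ℂ y) {l l' : ι}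
    (hab : a l * b l' - a l' * b l ≠ 0) (hW : ∃ z, W x y z ≠ 0) : ∃ z, U a b x y l z ≠ 0 := by
  by_contra hcon
  push Not at hcon
  obtain ⟨z, hz⟩ := hW
  have h1 := det_W a b hx hy l l' z
  have h2 : deriv (U a b x y l) z = 0 := by
    have : U a b x y l = fun _ => 0 := funext hcon
    rw [this]
    simp
  rw [hcon z, h2] at h1
  simp only [zero_mul, sub_zero] at h1
  exact mul_ne_zero hab hz h1.symm

/-- the norm is bounded by two linear forms -/
lemma exists_C {ι : Type*} [Finite ι] {a b : ι → ℂ} (hab : ∀ l l', l ≠ l' → a l * b l' - a l' * b l ≠ 0) :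
    ∃ C : ℝ, 1 ≤ C ∧ (∀ l l', l ≠ l' → ∀ u v : ℂ, max ‖u‖ ‖v‖ ≤
      C * max ‖a l * u + b l * v‖ ‖a l' * u + b l' * v‖) ∧
      (∀ l, ∀ u v : ℂ, ‖a l * u + b l * v‖ ≤ C * max ‖u‖ ‖v‖) ∧
      ∀ l l', l ≠ l' → 1 / ‖a l * b l' - a l' * b l‖ ≤ C := by
  classical
  have key : ∀ p : ι × ι, ∃ C : ℝ, 1 ≤ C ∧ (p.1 ≠ p.2 → ∀ u v : ℂ, max ‖u‖ ‖v‖ ≤
      C * max ‖a p.1 * u + b p.1 * v‖ ‖a p.2 * u + b p.2 * v‖) ∧
      (∀ u v : ℂ, ‖a p.1 * u + b p.1 * v‖ ≤ C * max ‖u‖ ‖v‖) ∧
      1 / ‖a p.1 * b p.2 - a p.2 * b p.1‖ ≤ C := by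
    rintro ⟨l, l'⟩
    set D := a l * b l' - a l' * b l with hD
    set S : ℝ := ‖a l‖ + ‖b l‖ + ‖a l'‖ + ‖b l'‖ with hS
    have hS0 : 0 ≤ S := by positivity
    refine ⟨1 + S + 1 / ‖D‖ + S / ‖D‖, ?_, ?_, ?_, ?_⟩
    · have : 0 ≤ S / ‖D‖ := by positivity
      have : 0 ≤ 1 / ‖D‖ := by positivity
      linarith
    · intro hne u v
      have hD0 : D ≠ 0 := hab l l' hne
      have hDp : 0 < ‖D‖ := norm_pos_iff.2 hD0
      set m : ℝ := max ‖a l * u + b l * v‖ ‖a l' * u + b l' * v‖ with hm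
      have hm0 : 0 ≤ m := (norm_nonneg _).trans (le_max_left _ _)
      have e1 : D * u = b l' * (a l * u + b l * v) - b l * (a l' * u + b l' * v) := by rw [hD]; ring
      have e2 : D * v = a l * (a l' * u + b l' * v) - a l' * (a l * u + b l * v) := by rw [hD]; ring
      have h1 : ‖D‖ * ‖u‖ ≤ S * m := by
        rw [← norm_mul, e1]
        refine (norm_sub_le _ _).trans ?_
        rw [norm_mul, norm_mul]
        have i1 : ‖b l'‖ * ‖a l * u + b l * v‖ ≤ ‖b l'‖ * m :=
          mul_le_mul_of_nonneg_left (le_max_left _ _) (norm_nonneg _)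
        have i2 : ‖b l‖ * ‖a l' * u + b l' * v‖ ≤ ‖b l‖ * m :=
          mul_le_mul_of_nonneg_left (le_max_right _ _) (norm_nonneg _)
        have i3 : 0 ≤ (‖a l‖ + ‖a l'‖) * m := by positivity
        rw [hS]; nlinarith
      have h2 : ‖D‖ * ‖v‖ ≤ S * m := by
        rw [← norm_mul, e2]
        refine (norm_sub_le _ _).trans ?_
        rw [norm_mul, norm_mul]
        have i1 : ‖a l'‖ * ‖a l * u + b l * v‖ ≤ ‖a l'‖ * m :=
          mul_le_mul_of_nonneg_left (le_max_left _ _) (norm_nonneg _)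
        have i2 : ‖a l‖ * ‖a l' * u + b l' * v‖ ≤ ‖a l‖ * m :=
          mul_le_mul_of_nonneg_left (le_max_right _ _) (norm_nonneg _)
        have i3 : 0 ≤ (‖b l‖ + ‖b l'‖) * m := by positivity
        rw [hS]; nlinarith
      have h3 : max ‖u‖ ‖v‖ ≤ S / ‖D‖ * m := by
        rw [div_mul_eq_mul_div, le_div_iff₀ hDp, mul_comm]
        rcases max_choice ‖u‖ ‖v‖ with h | h <;> rw [h] <;> assumption
      refine h3.trans (mul_le_mul_of_nonneg_right ?_ hm0)
      have : 0 ≤ 1 / ‖D‖ := by positivity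
      linarith
    · intro u v
      have hm0 : 0 ≤ max ‖u‖ ‖v‖ := (norm_nonneg _).trans (le_max_left _ _)
      calc ‖a l * u + b l * v‖ ≤ ‖a l‖ * ‖u‖ + ‖b l‖ * ‖v‖ := by
            refine (norm_add_le _ _).trans ?_
            rw [norm_mul, norm_mul]
        _ ≤ ‖a l‖ * max ‖u‖ ‖v‖ + ‖b l‖ * max ‖u‖ ‖v‖ :=
            add_le_add (mul_le_mul_of_nonneg_left (le_max_left _ _) (norm_nonneg _))
              (mul_le_mul_of_nonneg_left (le_max_right _ _) (norm_nonneg _))
        _ ≤ S * max ‖u‖ ‖v‖ := by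
            rw [hS]
            have : 0 ≤ (‖a l'‖ + ‖b l'‖) * max ‖u‖ ‖v‖ := by positivity
            nlinarith
        _ ≤ _ := by
            refine mul_le_mul_of_nonneg_right ?_ hm0
            have : 0 ≤ S / ‖D‖ := by positivity
            have : 0 ≤ 1 / ‖D‖ := by positivity
            linarith
    · have : 0 ≤ S / ‖D‖ := by positivity
      change 1 / ‖D‖ ≤ _
      linarith
  choose C hC1 hC using key
  obtain ⟨B, hB⟩ := (Set.finite_range C).bddAbove
  have hB' : ∀ p, C p ≤ B := fun p => hB ⟨p, rfl⟩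
  refine ⟨max 1 B, le_max_left _ _, ?_, ?_, ?_⟩
  · intro l l' hne u v
    refine ((hC (l, l')).1 hne u v).trans (mul_le_mul_of_nonneg_right ((hB' _).trans (le_max_right _ _)) ?_)
    exact (norm_nonneg _).trans (le_max_left _ _)
  · intro l u v
    refine ((hC (l, l)).2.1 u v).trans (mul_le_mul_of_nonneg_right ((hB' _).trans (le_max_right _ _)) ?_)
    exact (norm_nonneg _).trans (le_max_left _ _)
  · intro l l' _
    exact ((hC (l, l')).2.2).trans ((hB' _).trans (le_max_right _ _))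

/-- the pointwise estimate -/
lemma pointwise {p : ℕ} {a b : Fin (p + 2) → ℂ} (hab : ∀ l l', l ≠ l' → a l * b l' - a l' * b l ≠ 0) :
    ∃ C : ℝ, ∀ (x y : ℂ → ℂ), Differentiable ℂ x → Differentiable ℂ y → ∀ z : ℂ, (x z ≠ 0 ∨ y z ≠ 0) →
      (∀ l, U a b x y l z ≠ 0) → W x y z ≠ 0 →
      Real.log ‖W x y z‖ + p * Real.log (nm x y z) ≤ ∑ l, Real.log ‖U a b x y l z‖ +
        ∑ l, log⁺ ‖logDeriv (fun z => U a b x y l z / U a b x y 0 z) z‖ + C := by
  classical
  obtain ⟨C, hC1, hC, -, hCD⟩ := exists_C hab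
  have hC0 : 0 < C := by linarith
  refine ⟨(p + 1) * Real.log C + Real.log (p + 2), ?_⟩
  intro x y hx hy z hxy hU hW
  have hnm : 0 < nm x y z := by
    rcases hxy with h | h
    · exact lt_max_of_lt_left (norm_pos_iff.2 h)
    · exact lt_max_of_lt_right (norm_pos_iff.2 h)
  -- the smallest form
  obtain ⟨l0, -, hl0⟩ := Finset.exists_min_image Finset.univ (fun l => ‖U a b x y l z‖) Finset.univ_nonempty
  have hge : ∀ l, l ≠ l0 → nm x y z ≤ C * ‖U a b x y l z‖ := by
    intro l hl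
    have h1 := hC l l0 hl (x z) (y z)
    have h2 : max ‖a l * x z + b l * y z‖ ‖a l0 * x z + b l0 * y z‖ = ‖a l * x z + b l * y z‖ :=
      max_eq_left (hl0 l (Finset.mem_univ l))
    rw [h2] at h1
    exact h1
  obtain ⟨l1, hl1, hl1'⟩ : ∃ l1 : Fin (p + 2), l1 ≠ 0 ∧ (l0 = 0 ∨ l0 = l1) := by
    by_cases h : l0 = 0
    · exact ⟨1, by simp, Or.inl h⟩
    · exact ⟨l0, h, Or.inr rfl⟩
  set g : Fin (p + 2) → ℂ → ℂ := fun l z => U a b x y l z / U a b x y 0 z with hg
  set R : ℝ := ∑ l, ‖logDeriv (g l) z‖ with hR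
  have hlog : logDeriv (g l1) z = (a 0 * b l1 - a l1 * b 0) * W x y z / (U a b x y 0 z * U a b x y l1 z) := by
    have h1 := det_W a b hx hy 0 l1 z
    have h2 : logDeriv (g l1) z = logDeriv (U a b x y l1) z - logDeriv (U a b x y 0) z := by
      have := logDeriv_div z (hU l1) (hU 0) (U_diff a b hx hy l1 z) (U_diff a b hx hy 0 z)
      exact this
    rw [h2, logDeriv_apply, logDeriv_apply, ← h1]
    have := hU l1
    have := hU 0
    field_simp
  have hdet : a 0 * b l1 - a l1 * b 0 ≠ 0 := hab 0 l1 hl1.symm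
  have hdp : 0 < ‖a 0 * b l1 - a l1 * b 0‖ := norm_pos_iff.2 hdet
  have hWeq : ‖W x y z‖ = ‖logDeriv (g l1) z‖ * (‖U a b x y 0 z‖ * ‖U a b x y l1 z‖) / ‖a 0 * b l1 - a l1 * b 0‖ := by
    rw [hlog, norm_div, norm_mul, norm_mul]
    have := norm_pos_iff.2 (hU l1)
    have := norm_pos_iff.2 (hU 0)
    field_simp
  have hRge : ‖logDeriv (g l1) z‖ ≤ R :=
    Finset.single_le_sum (f := fun l => ‖logDeriv (g l) z‖) (fun l _ => norm_nonneg _) (Finset.mem_univ l1)
  have hRpos : 0 < R := by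
    refine lt_of_lt_of_le ?_ hRge
    rw [norm_pos_iff, hlog]
    exact div_ne_zero (mul_ne_zero hdet hW) (mul_ne_zero (hU 0) (hU l1))
  have hW1 : ‖W x y z‖ ≤ C * R * (‖U a b x y 0 z‖ * ‖U a b x y l1 z‖) := by
    rw [hWeq]
    have h1 : 1 / ‖a 0 * b l1 - a l1 * b 0‖ ≤ C := hCD 0 l1 hl1.symm
    calc ‖logDeriv (g l1) z‖ * (‖U a b x y 0 z‖ * ‖U a b x y l1 z‖) / ‖a 0 * b l1 - a l1 * b 0‖
        = (1 / ‖a 0 * b l1 - a l1 * b 0‖) * ‖logDeriv (g l1) z‖ * (‖U a b x y 0 z‖ * ‖U a b x y l1 z‖) := by ring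
      _ ≤ C * R * (‖U a b x y 0 z‖ * ‖U a b x y l1 z‖) := by
          refine mul_le_mul_of_nonneg_right ?_ (by positivity)
          exact mul_le_mul h1 hRge (norm_nonneg _) hC0.le
  -- the other forms
  set T : Finset (Fin (p + 2)) := (Finset.univ.erase 0).erase l1 with hT
  have hTcard : T.card = p := by
    rw [hT, Finset.card_erase_of_mem (Finset.mem_erase.2 ⟨hl1, Finset.mem_univ _⟩),
      Finset.card_erase_of_mem (Finset.mem_univ _), Finset.card_univ, Fintype.card_fin]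
    omega
  have hprod : ∏ l, ‖U a b x y l z‖ = ‖U a b x y 0 z‖ * (‖U a b x y l1 z‖ * ∏ l ∈ T, ‖U a b x y l z‖) := by
    rw [← Finset.mul_prod_erase Finset.univ (fun l => ‖U a b x y l z‖) (Finset.mem_univ 0),
      ← Finset.mul_prod_erase (Finset.univ.erase 0) (fun l => ‖U a b x y l z‖)
        (Finset.mem_erase.2 ⟨hl1, Finset.mem_univ _⟩)]
  have hnp : nm x y z ^ p ≤ C ^ p * ∏ l ∈ T, ‖U a b x y l z‖ := by
    calc nm x y z ^ p = ∏ _l ∈ T, nm x y z := by rw [Finset.prod_const, hTcard]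
      _ ≤ ∏ l ∈ T, (C * ‖U a b x y l z‖) := by
          refine Finset.prod_le_prod (fun _ _ => hnm.le) fun l hl => hge l ?_
          rw [hT, Finset.mem_erase, Finset.mem_erase] at hl
          rcases hl1' with h | h
          · rw [h]; exact hl.2.1
          · rw [h]; exact hl.1
      _ = C ^ p * ∏ l ∈ T, ‖U a b x y l z‖ := by rw [Finset.prod_mul_distrib, Finset.prod_const, hTcard]
  have hmain : ‖W x y z‖ * nm x y z ^ p ≤ C ^ (p + 1) * R * ∏ l, ‖U a b x y l z‖ := by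
    calc ‖W x y z‖ * nm x y z ^ p ≤ (C * R * (‖U a b x y 0 z‖ * ‖U a b x y l1 z‖)) *
          (C ^ p * ∏ l ∈ T, ‖U a b x y l z‖) :=
          mul_le_mul hW1 hnp (by positivity) (by positivity)
      _ = C ^ (p + 1) * R * ∏ l, ‖U a b x y l z‖ := by rw [hprod]; ring
  have hlm := Real.log_le_log (mul_pos (norm_pos_iff.2 hW) (pow_pos hnm p)) hmain
  rw [Real.log_mul (norm_ne_zero_iff.2 hW) (pow_pos hnm p).ne', Real.log_pow,
    Real.log_mul (by positivity) (Finset.prod_ne_zero_iff.2 fun l _ => norm_ne_zero_iff.2 (hU l)),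
    Real.log_mul (by positivity) hRpos.ne', Real.log_pow,
    Real.log_prod (fun l _ => norm_ne_zero_iff.2 (hU l))] at hlm
  have hR2 : Real.log R ≤ log⁺ R := le_max_right _ _
  have hR3 : log⁺ R ≤ Real.log (p + 2) + ∑ l, log⁺ ‖logDeriv (g l) z‖ := by
    have := posLog_sum (Finset.univ : Finset (Fin (p + 2))) (fun l => ‖logDeriv (g l) z‖)
    refine this.trans (le_of_eq ?_)
    rw [Finset.card_univ, Fintype.card_fin]
    push_cast
    rfl
  push_cast at hlm
  linarith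

end Pool.Agent.P8H10.GC
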