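import Pool.Agent.P8H10.GC1

/-!
The second main theorem on the projective line, integrated.
-/

set_option autoImplicit false

namespace Pool.Agent.P8H10.GC

open MeasureTheory Set Filter Topology Metric Real ValueDistribution MeromorphicOn
open Pool.Agent.N131.SR (NZ)
open Pool.Agent.Helper160.Nev (circleAverage_mono_codiscrete)
open Pool.Agent.H159R3.NV (L mero_of_diff ci_log ci_posLog ne_cod)

variable {x y : ℂ → ℂ}

lemma nz_of_diff {f : ℂ → ℂ} (hf : Differentiable ℂ f) (h0 : ∃ z, f z ≠ 0) : NZ f := by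
  intro z hz
  obtain ⟨w, hw⟩ := h0
  have h1 : AnalyticOnNhd ℂ f univ := fun z _ => hf.analyticAt z
  have h2 : analyticOrderAt f z = ⊤ := by
    rw [(hf.analyticAt z).meromorphicOrderAt_eq] at hz
    cases h3 : analyticOrderAt f z with
    | top => rfl
    | coe n =>
      rw [h3] at hz
      exact absurd hz (by simp)
  rw [analyticOrderAt_eq_top] at h2
  have h4 := h1.eqOn_zero_of_preconnected_of_eventuallyEq_zero isPreconnected_univ (mem_univ z) h2
  exact hw (h4 (mem_univ w))

lemma nz_div {f g : ℂ → ℂ} (hf : Meromorphic f) (hg : Meromorphic g) (h1 : NZ f) (h2 : NZ g) :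
    NZ (fun z => f z / g z) := by
  intro z
  have e : (fun z => f z / g z) = f * g⁻¹ := by
    funext z; simp [div_eq_mul_inv]
  rw [e, meromorphicOrderAt_mul (hf z) (hg z).inv, meromorphicOrderAt_inv]
  obtain ⟨m, hm⟩ := WithTop.ne_top_iff_exists.1 (h1 z)
  obtain ⟨n, hn⟩ := WithTop.ne_top_iff_exists.1 (h2 z)
  rw [← hm, ← hn]
  intro h
  exact absurd h (by exact WithTop.coe_ne_top (a := m + -n))

lemma logCounting_entire {f : ℂ → ℂ} (hf : Differentiable ℂ f) : logCounting f ⊤ = 0 := by
  rw [logCounting_top]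
  have h1 : 0 ≤ divisor f univ := AnalyticOnNhd.divisor_nonneg (fun z _ => hf.analyticAt z)
  rw [negPart_eq_zero.2 h1, map_zero]

lemma char_le {f g : ℂ → ℂ} (hf : Differentiable ℂ f) (hg : Differentiable ℂ g) (hf0 : ∃ z, f z ≠ 0)
    (hg0 : ∃ z, g z ≠ 0) (hx : Differentiable ℂ x) (hy : Differentiable ℂ y)
    (hxy : ∀ z, x z ≠ 0 ∨ y z ≠ 0) {C : ℝ} (hC : 1 ≤ C) (h1 : ∀ z, ‖f z‖ ≤ C * nm x y z)
    (h2 : ∀ z, ‖g z‖ ≤ C * nm x y z) :
    ∃ C0 : ℝ, 0 ≤ C0 ∧ ∀ r : ℝ, 1 ≤ r → characteristic (fun z => f z / g z) ⊤ r ≤ tau x y r + C0 := by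
  have hfm := mero_of_diff hf
  have hgm := mero_of_diff hg
  have e : (fun z => f z / g z) = f * g⁻¹ := by
    funext z; simp [div_eq_mul_inv]
  refine ⟨|Real.log C - Real.log ‖meromorphicTrailingCoeffAt g 0‖|, abs_nonneg _, fun r hr => ?_⟩
  have hr0 : r ≠ 0 := by linarith
  have hc : characteristic (fun z => f z / g z) ⊤ r =
      circleAverage (fun z => log⁺ ‖f z / g z‖) 0 r + logCounting (fun z => f z / g z) ⊤ r := by
    unfold characteristic
    rw [Pi.add_apply, proximity_top]
  have hcount : logCounting (fun z => f z / g z) ⊤ r ≤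
      circleAverage (fun z => Real.log ‖g z‖) 0 r - Real.log ‖meromorphicTrailingCoeffAt g 0‖ := by
    rw [e]
    refine (logCounting_mul_top_le hr hfm (nz_of_diff hf hf0) hgm.inv (fun z => ?_)).trans ?_
    · rw [meromorphicOrderAt_inv]
      intro h
      have := nz_of_diff hg hg0 z
      obtain ⟨n, hn⟩ := WithTop.ne_top_iff_exists.1 this
      rw [← hn] at h
      exact absurd h (by exact WithTop.coe_ne_top (a := -n))
    · rw [Pi.add_apply, logCounting_entire hf, logCounting_inv]
      have h3 := logCounting_zero_sub_logCounting_top_eq_circleAverage_sub_const hgm hr0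
      rw [logCounting_entire hg, sub_zero] at h3
      rw [h3]
      simp
  have hpos : circleAverage (fun z => log⁺ ‖f z / g z‖) 0 r + circleAverage (fun z => Real.log ‖g z‖) 0 r ≤
      tau x y r + Real.log C := by
    have i1 : CircleIntegrable (fun z => log⁺ ‖f z / g z‖) 0 r := by
      have : Meromorphic (fun z => f z / g z) := by rw [e]; exact hfm.mul hgm.inv
      exact ci_posLog this r
    have i2 := ci_log hgm r
    have i3 := nm_ci hx hy hxy r
    have i4 : CircleIntegrable (fun _ : ℂ => Real.log C) 0 r := circleIntegrable_const _ _ _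
    unfold tau
    rw [← circleAverage_fun_add i1 i2]
    have e2 : circleAverage (fun z => Real.log (nm x y z)) 0 r + Real.log C =
        circleAverage (fun z => Real.log (nm x y z) + Real.log C) 0 r := by
      rw [circleAverage_fun_add i3 i4, circleAverage_const]
    rw [e2]
    refine circleAverage_mono_codiscrete hr0 (i1.add i2) (i3.add i4) ?_
    obtain ⟨w, hw⟩ := hg0
    filter_upwards [ne_cod hg hw r] with z hz
    have hgp : 0 < ‖g z‖ := norm_pos_iff.2 hz
    have hn := nm_pos hxy z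
    have hCp : 0 < C := by linarith
    rw [← Real.log_mul hn.ne' hCp.ne', mul_comm (nm x y z) C]
    rcases eq_or_ne (f z) 0 with h0 | h0
    · rw [h0, zero_div, norm_zero]
      have e3 : log⁺ (0 : ℝ) = 0 := by rw [posLog_apply]; simp
      rw [e3, zero_add]
      exact Real.log_le_log hgp (h2 z)
    have hfp : 0 < ‖f z‖ := norm_pos_iff.2 h0
    rw [posLog_apply]
    rcases le_total 0 (Real.log ‖f z / g z‖) with h | h
    · rw [max_eq_right h, norm_div]
      rw [Real.log_div hfp.ne' hgp.ne', sub_add_cancel]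
      exact Real.log_le_log hfp (h1 z)
    · rw [max_eq_left h, zero_add]
      exact Real.log_le_log hgp (h2 z)
  have habs := le_abs_self (Real.log C - Real.log ‖meromorphicTrailingCoeffAt g 0‖)
  rw [hc]
  linarith

/-- **The second main theorem for a curve in the projective line**, with the Wronskian -/
theorem smt_block {p : ℕ} {a b : Fin (p + 2) → ℂ} (hab : ∀ l l', l ≠ l' → a l * b l' - a l' * b l ≠ 0)
    (hx : Differentiable ℂ x) (hy : Differentiable ℂ y) (hxy : ∀ z, x z ≠ 0 ∨ y z ≠ 0) (hW : ∃ z, W x y z ≠ 0) :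
    ∃ (E : Set ℝ) (C : ℝ), volume E < ⊤ ∧ 0 ≤ C ∧ ∀ r, 1 ≤ r → r ∉ E → 0 ≤ tau x y r + C ∧
      L (W x y) r + p * tau x y r ≤ ∑ l, L (U a b x y l) r + C * (1 + log r + log (1 + C + tau x y r)) := by
  classical
  obtain ⟨C1, hC1⟩ := pointwise hab
  obtain ⟨B, hB1, -, hB, -⟩ := exists_C hab
  have hUne : ∀ l, ∃ z, U a b x y l z ≠ 0 := by
    intro l
    by_cases h : l = 0
    · exact U_ne hx hy (l' := 1) (hab l 1 (by rw [h]; simp)) hW
    · exact U_ne hx hy (l' := 0) (hab l 0 h) hW
  have hUd := U_diff a b hx hy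
  set g : Fin (p + 2) → ℂ → ℂ := fun l z => U a b x y l z / U a b x y 0 z with hg
  have hgm : ∀ l, Meromorphic (g l) := fun l => by
    have : g l = U a b x y l * (U a b x y 0)⁻¹ := by funext z; simp [hg, div_eq_mul_inv]
    rw [this]
    exact (mero_of_diff (hUd l)).mul (mero_of_diff (hUd 0)).inv
  have hgz : ∀ l, NZ (g l) := fun l => nz_div (mero_of_diff (hUd l)) (mero_of_diff (hUd 0))
    (nz_of_diff (hUd l) (hUne l)) (nz_of_diff (hUd 0) (hUne 0))
  have hUB : ∀ l z, ‖U a b x y l z‖ ≤ B * nm x y z := fun l z => hB l (x z) (y z)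
  choose E C hE hC hldl using fun l => Pool.Agent.N131.SR.ldl (hgm l) (hgz l)
  choose D hD hchar using fun l => char_le (hUd l) (hUd 0) (hUne l) (hUne 0) hx hy hxy hB1 (hUB l) (hUB 0)
  set K : ℝ := |C1| + ∑ l, C l + ∑ l, D l with hK
  have hsC : 0 ≤ ∑ l, C l := Finset.sum_nonneg fun l _ => hC l
  have hsD : 0 ≤ ∑ l, D l := Finset.sum_nonneg fun l _ => hD l
  have hK0 : 0 ≤ K := by positivity
  have hDK : ∀ l, D l ≤ K := fun l => by
    have := Finset.single_le_sum (f := D) (fun l _ => hD l) (Finset.mem_univ l)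
    have := abs_nonneg C1
    linarith
  refine ⟨⋃ l, E l, K, ?_, hK0, fun r hr hrE => ?_⟩
  · refine lt_of_le_of_lt (measure_iUnion_fintype_le volume E) ?_
    exact ENNReal.sum_lt_top.2 fun l _ => hE l
  have hrE' : ∀ l, r ∉ E l := fun l h => hrE (mem_iUnion.2 ⟨l, h⟩)
  have hr0 : r ≠ 0 := by linarith
  have ht0 : 0 ≤ tau x y r + K := by
    have h1 := hchar 0 r hr
    have h2 : 0 ≤ characteristic (fun z => U a b x y 0 z / U a b x y 0 z) ⊤ r := characteristic_nonneg hr
    have := hDK 0
    linarith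
  refine ⟨ht0, ?_⟩
  -- integrate
  have i1 : CircleIntegrable (fun z => Real.log ‖W x y z‖) 0 r := ci_log (mero_of_diff (W_diff hx hy)) r
  have i2 := nm_ci hx hy hxy r
  have i2' : CircleIntegrable (fun z => (p : ℝ) * Real.log (nm x y z)) 0 r :=
    Pool.Agent.Helper160.Nev.ci_const_mul _ i2
  have i3 : ∀ l, CircleIntegrable (fun z => Real.log ‖U a b x y l z‖) 0 r := fun l => ci_log (mero_of_diff (hUd l)) r
  have hld : ∀ l, Meromorphic (logDeriv (g l)) := fun l => by
    have h1 : Meromorphic (deriv (g l)) := (hgm l).deriv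
    have h2 : logDeriv (g l) = deriv (g l) * (g l)⁻¹ := by
      funext z; simp [logDeriv_apply, div_eq_mul_inv]
    rw [h2]
    exact h1.mul (hgm l).inv
  have i4 : ∀ l, CircleIntegrable (fun z => log⁺ ‖logDeriv (g l) z‖) 0 r := fun l => ci_posLog (hld l) r
  have i5 : CircleIntegrable (fun _ : ℂ => C1) 0 r := circleIntegrable_const _ _ _
  have i3s : CircleIntegrable (fun z => ∑ l, Real.log ‖U a b x y l z‖) 0 r := CircleIntegrable.fun_sum _ fun l _ => i3 l
  have i4s : CircleIntegrable (fun z => ∑ l, log⁺ ‖logDeriv (g l) z‖) 0 r := CircleIntegrable.fun_sum _ fun l _ => i4 l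
  have hint := circleAverage_mono_codiscrete hr0 (i1.add i2') ((i3s.add i4s).add i5) (by
    obtain ⟨w, hw⟩ := hW
    have h1 : ∀ l, ∀ᶠ z in codiscreteWithin (sphere (0 : ℂ) |r|), U a b x y l z ≠ 0 := fun l => by
      obtain ⟨w, hw⟩ := hUne l
      exact ne_cod (hUd l) hw r
    filter_upwards [ne_cod (W_diff hx hy) hw r, eventually_all.2 h1] with z hz hzU
    exact hC1 x y hx hy z (hxy z) hzU hz)
  have e1 : circleAverage (fun z => Real.log ‖W x y z‖ + p * Real.log (nm x y z)) 0 r = L (W x y) r + p * tau x y r := by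
    rw [circleAverage_fun_add i1 i2', Pool.Agent.Helper160.Nev.ca_const_mul]
    rfl
  have e2 : circleAverage (fun z => (∑ l, Real.log ‖U a b x y l z‖ + ∑ l, log⁺ ‖logDeriv (g l) z‖) + C1) 0 r =
      ∑ l, L (U a b x y l) r + ∑ l, proximity (logDeriv (g l)) ⊤ r + C1 := by
    have i34 : CircleIntegrable (fun z => ∑ l, Real.log ‖U a b x y l z‖ + ∑ l, log⁺ ‖logDeriv (g l) z‖) 0 r :=
      i3s.add i4s
    rw [circleAverage_fun_add i34 i5, circleAverage_fun_add i3s i4s, circleAverage_const,
      circleAverage_fun_sum (fun l _ => i3 l), circleAverage_fun_sum (fun l _ => i4 l)]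
    simp only [proximity_top]
    rfl
  have hint' : L (W x y) r + p * tau x y r ≤
      ∑ l, L (U a b x y l) r + ∑ l, proximity (logDeriv (g l)) ⊤ r + C1 := by
    rw [← e1, ← e2]
    exact hint
  have hlr : 0 ≤ Real.log r := Real.log_nonneg hr
  have hlt : 0 ≤ Real.log (1 + K + tau x y r) := Real.log_nonneg (by linarith)
  have hprox : ∀ l, proximity (logDeriv (g l)) ⊤ r ≤ C l * (1 + Real.log r + Real.log (1 + K + tau x y r)) := by
    intro l
    refine (hldl l r hr (hrE' l)).trans (mul_le_mul_of_nonneg_left ?_ (hC l))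
    have h1 := hchar l r hr
    have h2 : 0 ≤ characteristic (g l) ⊤ r := characteristic_nonneg hr
    have h3 := hDK l
    have h4 : Real.log (1 + characteristic (g l) ⊤ r) ≤ Real.log (1 + K + tau x y r) := by
      apply Real.log_le_log (by linarith)
      have : characteristic (g l) ⊤ r ≤ tau x y r + D l := h1
      linarith
    linarith
  have hsum : ∑ l, proximity (logDeriv (g l)) ⊤ r ≤ (∑ l, C l) * (1 + Real.log r + Real.log (1 + K + tau x y r)) := by
    rw [Finset.sum_mul]
    exact Finset.sum_le_sum fun l _ => hprox l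
  have hA : 1 ≤ 1 + Real.log r + Real.log (1 + K + tau x y r) := by linarith
  have hfin : (∑ l, C l) * (1 + Real.log r + Real.log (1 + K + tau x y r)) + C1 ≤
      K * (1 + Real.log r + Real.log (1 + K + tau x y r)) := by
    have h1 : C1 ≤ |C1| * (1 + Real.log r + Real.log (1 + K + tau x y r)) := by
      calc C1 ≤ |C1| * 1 := by rw [mul_one]; exact le_abs_self _
        _ ≤ _ := mul_le_mul_of_nonneg_left hA (abs_nonneg _)
    have h2 : 0 ≤ (∑ l, D l) * (1 + Real.log r + Real.log (1 + K + tau x y r)) := mul_nonneg hsD (by linarith)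
    rw [hK] at *
    nlinarith
  linarith

end Pool.Agent.P8H10.GC
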