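import Pool.Agent.P8H10.GC2

/-!
Orders of vanishing and the counting inequality.
-/

set_option autoImplicit false

namespace Pool.Agent.P8H10.GC

open MeasureTheory Set Filter Topology Metric Real ValueDistribution MeromorphicOn
open Pool.Agent.N131.SR (NZ)
open Pool.Agent.H159R3.NV (L mero_of_diff ci_log ne_cod)

lemma ord_eq {f : ℂ → ℂ} {z : ℂ} (hf : AnalyticAt ℂ f z) :
    (meromorphicOrderAt f z).untop₀ = (analyticOrderNatAt f z : ℤ) := by
  rw [hf.meromorphicOrderAt_eq, analyticOrderNatAt]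
  cases h : analyticOrderAt f z with
  | top => rfl
  | coe n => rfl

/-- a nonnegative combination of divisors -/
lemma div_le {S : Type*} [Fintype S] (F : S → ℂ → ℂ) (hF : ∀ s, Differentiable ℂ (F s)) (n : S → ℤ)
    (h : ∀ z, 0 ≤ ∑ s, n s * (analyticOrderNatAt (F s) z : ℤ)) :
    ∃ C : ℝ, ∀ r : ℝ, 1 ≤ r → C ≤ ∑ s, (n s : ℝ) * L (F s) r := by
  classical
  refine ⟨∑ s, (n s : ℝ) * Real.log ‖meromorphicTrailingCoeffAt (F s) 0‖, fun r hr => ?_⟩
  have hr0 : r ≠ 0 := by linarith
  set Dv : Function.locallyFinsupp ℂ ℤ := ∑ s, n s • divisor (F s) univ with hDv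
  have hD0 : 0 ≤ Dv := by
    intro z
    have h1 : Dv z = ∑ s, n s * (analyticOrderNatAt (F s) z : ℤ) := by
      rw [hDv, Function.locallyFinsuppWithin.coe_sum, Finset.sum_apply]
      refine Finset.sum_congr rfl fun s _ => ?_
      rw [Function.locallyFinsuppWithin.coe_zsmul, Pi.smul_apply, smul_eq_mul,
        divisor_apply (fun z _ => mero_of_diff (hF s) z) (mem_univ z), ord_eq ((hF s).analyticAt z)]
    rw [h1]
    exact h z
  have h2 := Function.locallyFinsuppWithin.logCounting_nonneg hD0 hr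
  have h3 : Function.locallyFinsuppWithin.logCounting Dv r =
      ∑ s, (n s : ℝ) * (L (F s) r - Real.log ‖meromorphicTrailingCoeffAt (F s) 0‖) := by
    rw [hDv, map_sum, Finset.sum_apply]
    refine Finset.sum_congr rfl fun s _ => ?_
    rw [map_zsmul, Pi.smul_apply, Function.locallyFinsuppWithin.logCounting_divisor_eq_circleAverage_sub_const
      (mero_of_diff (hF s)) hr0, zsmul_eq_mul]
    rfl
  rw [h3] at h2
  simp only [mul_sub, Finset.sum_sub_distrib] at h2
  linarith

variable {x y : ℂ → ℂ}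

lemma ne_of_ne {ι : Type*} {a b : ι → ℂ} {l l' : ι} (hab : a l * b l' - a l' * b l ≠ 0) {z : ℂ}
    (hxy : x z ≠ 0 ∨ y z ≠ 0) (h : U a b x y l z = 0) : U a b x y l' z ≠ 0 := by
  intro h'
  have e1 : (a l * b l' - a l' * b l) * x z = b l' * U a b x y l z - b l * U a b x y l' z := by simp only [U]; ring
  have e2 : (a l * b l' - a l' * b l) * y z = a l * U a b x y l' z - a l' * U a b x y l z := by simp only [U]; ring
  rw [h, h'] at e1 e2
  simp only [mul_zero, sub_zero, mul_eq_zero] at e1 e2
  rcases hxy with h1 | h1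
  · exact h1 (e1.resolve_left hab)
  · exact h1 (e2.resolve_left hab)

/-- ramification -/
lemma block_order {p : ℕ} {a b : Fin (p + 2) → ℂ} (hab : ∀ l l', l ≠ l' → a l * b l' - a l' * b l ≠ 0)
    (hx : Differentiable ℂ x) (hy : Differentiable ℂ y) (hxy : ∀ z, x z ≠ 0 ∨ y z ≠ 0)
    (hW : ∃ z, W x y z ≠ 0) (z : ℂ) [Decidable (∃ l, U a b x y l z = 0)] :
    ∑ l, analyticOrderNatAt (U a b x y l) z ≤
      analyticOrderNatAt (W x y) z + (if ∃ l, U a b x y l z = 0 then 1 else 0) := by
  classical
  have hUd := U_diff a b hx hy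
  have hzero : ∀ l, U a b x y l z ≠ 0 → analyticOrderNatAt (U a b x y l) z = 0 := by
    intro l hl
    rw [analyticOrderNatAt, ((hUd l).analyticAt z).analyticOrderAt_eq_zero.2 hl]
    rfl
  by_cases hex : ∃ l, U a b x y l z = 0
  · rw [if_pos hex]
    obtain ⟨l0, hl0⟩ := hex
    obtain ⟨l1, hl1⟩ : ∃ l1 : Fin (p + 2), l0 ≠ l1 := by
      by_cases h : l0 = 0
      · exact ⟨1, by rw [h]; simp⟩
      · exact ⟨0, h⟩
    rw [Finset.sum_eq_single l0 (fun l _ hl => hzero l (ne_of_ne (hab l0 l (Ne.symm hl)) (hxy z) hl0))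
      (fun h => absurd (Finset.mem_univ _) h)]
    have hdet := hab l0 l1 hl1
    have han := (hUd l0).analyticAt z
    have h1 : analyticOrderAt (deriv (U a b x y l0)) z + 1 = analyticOrderAt (U a b x y l0) z := by
      have := han.analyticOrderAt_deriv_add_one
      rw [hl0] at this
      simpa using this
    have h2 : analyticOrderAt (fun z => (a l0 * b l1 - a l1 * b l0) * W x y z) z = analyticOrderAt (W x y) z := by
      have hc : AnalyticAt ℂ (fun _ : ℂ => a l0 * b l1 - a l1 * b l0) z := analyticAt_const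
      have hWa := (W_diff hx hy).analyticAt z
      have e : (fun z => (a l0 * b l1 - a l1 * b l0) * W x y z) = (fun _ : ℂ => a l0 * b l1 - a l1 * b l0) * W x y := rfl
      rw [e, analyticOrderAt_mul hc hWa, hc.analyticOrderAt_eq_zero.2 hdet, zero_add]
    have h3 : (fun z => (a l0 * b l1 - a l1 * b l0) * W x y z) =
        (U a b x y l0 * deriv (U a b x y l1)) - (deriv (U a b x y l0) * U a b x y l1) := by
      funext z
      rw [← det_W a b hx hy l0 l1 z]
      rfl
    have hd0 : AnalyticAt ℂ (deriv (U a b x y l0)) z := han.deriv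
    have hd1 : AnalyticAt ℂ (deriv (U a b x y l1)) z := ((hUd l1).analyticAt z).deriv
    have h4 : analyticOrderAt (deriv (U a b x y l0)) z ≤ analyticOrderAt (W x y) z := by
      rw [← h2, h3, sub_eq_add_neg]
      refine le_trans ?_ le_analyticOrderAt_add
      rw [analyticOrderAt_neg, analyticOrderAt_mul han hd1, analyticOrderAt_mul hd0 ((hUd l1).analyticAt z), ← h1]
      refine le_min ?_ ?_
      · exact (le_self_add).trans (le_self_add)
      · exact le_self_add
    have hWtop : analyticOrderAt (W x y) z ≠ ⊤ := by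
      intro h
      have := nz_of_diff (W_diff hx hy) hW z
      apply this
      rw [((W_diff hx hy).analyticAt z).meromorphicOrderAt_eq, h]
      rfl
    obtain ⟨w, hw⟩ := ENat.ne_top_iff_exists.1 hWtop
    have h5 : analyticOrderAt (U a b x y l0) z ≤ analyticOrderAt (W x y) z + 1 := by
      rw [← h1]
      exact add_le_add h4 le_rfl
    rw [← hw] at h5
    rw [analyticOrderNatAt, analyticOrderNatAt, ← hw]
    have h6 : analyticOrderAt (U a b x y l0) z ≤ ((w + 1 : ℕ) : ℕ∞) := by
      push_cast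
      exact h5
    obtain ⟨u, hu⟩ := ENat.ne_top_iff_exists.1 (ne_top_of_le_ne_top (ENat.coe_ne_top _) h6)
    rw [← hu] at h6 ⊢
    have h7 : u ≤ w + 1 := by exact_mod_cast h6
    exact h7
  · rw [if_neg hex, add_zero]
    push Not at hex
    rw [Finset.sum_eq_zero (fun l _ => hzero l (hex l))]
    exact Nat.zero_le _

end Pool.Agent.P8H10.GC
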