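import Pool.Agent.P8H10.GC3

/-!
Curves in products of projective lines with multiplicities shared between the factors: the core estimate.
-/

set_option autoImplicit false

namespace Pool.Agent.P8H10.GC

open MeasureTheory Set Filter Topology Metric Real ValueDistribution MeromorphicOn
open Pool.Agent.N131.SR (NZ)
open Pool.Agent.Helper160.Nev (circleAverage_mono_codiscrete)
open Pool.Agent.H159R3.NV (L mero_of_diff ci_log ne_cod)

lemma log_le' {M η : ℝ} (hM : 0 ≤ M) (hη : 0 < η) : ∃ K : ℝ, 0 ≤ K ∧ ∀ u : ℝ, 0 < u → M * Real.log u ≤ η * u + K := by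
  set s : ℝ := (M + 1) / η with hs
  have hs0 : 0 < s := by positivity
  refine ⟨M * |Real.log s|, by positivity, fun u hu => ?_⟩
  have h1 : Real.log (u / s) ≤ u / s - 1 := Real.log_le_sub_one_of_pos (by positivity)
  rw [Real.log_div hu.ne' hs0.ne'] at h1
  have h2 : Real.log u ≤ u / s + |Real.log s| := by
    have := le_abs_self (Real.log s)
    linarith
  have h3 : M * (u / s) ≤ η * u := by
    have : M * (u / s) = (M / (M + 1)) * (η * u) := by rw [hs]; field_simp
    rw [this]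
    have h4 : M / (M + 1) ≤ 1 := by rw [div_le_one (by linarith)]; linarith
    calc M / (M + 1) * (η * u) ≤ 1 * (η * u) := mul_le_mul_of_nonneg_right h4 (by positivity)
      _ = η * u := one_mul _
  calc M * Real.log u ≤ M * (u / s + |Real.log s|) := mul_le_mul_of_nonneg_left h2 hM
    _ = M * (u / s) + M * |Real.log s| := by ring
    _ ≤ _ := by linarith

lemma LU_le {p : ℕ} {a b : Fin (p + 2) → ℂ} (hab : ∀ l l', l ≠ l' → a l * b l' - a l' * b l ≠ 0) {x y : ℂ → ℂ}
    (hx : Differentiable ℂ x) (hy : Differentiable ℂ y) (hxy : ∀ z, x z ≠ 0 ∨ y z ≠ 0)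
    (hW : ∃ z, W x y z ≠ 0) : ∃ B : ℝ, 0 ≤ B ∧ ∀ l r, 1 ≤ r → L (U a b x y l) r ≤ tau x y r + B := by
  obtain ⟨C, hC1, -, hC, -⟩ := exists_C hab
  have hUne : ∀ l, ∃ z, U a b x y l z ≠ 0 := by
    intro l
    by_cases h : l = 0
    · exact U_ne hx hy (l' := 1) (hab l 1 (by rw [h]; simp)) hW
    · exact U_ne hx hy (l' := 0) (hab l 0 h) hW
  refine ⟨Real.log C, Real.log_nonneg hC1, fun l r hr => ?_⟩
  have hr0 : r ≠ 0 := by linarith
  have i3 := nm_ci hx hy hxy r
  have i4 : CircleIntegrable (fun _ : ℂ => Real.log C) 0 r := circleIntegrable_const _ _ _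
  have e2 : tau x y r + Real.log C = circleAverage (fun z => Real.log (nm x y z) + Real.log C) 0 r := by
    rw [circleAverage_fun_add i3 i4, circleAverage_const]
    rfl
  rw [e2]
  refine circleAverage_mono_codiscrete hr0 (ci_log (mero_of_diff (U_diff a b hx hy l)) r) (i3.add i4) ?_
  obtain ⟨w, hw⟩ := hUne l
  filter_upwards [ne_cod (U_diff a b hx hy l) hw r] with z hz
  have hn := nm_pos hxy z
  have hCp : 0 < C := by linarith
  rw [← Real.log_mul hn.ne' hCp.ne', mul_comm (nm x y z) C]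
  exact Real.log_le_log (norm_pos_iff.2 hz) (hC l (x z) (y z))

lemma nat_order_pos {f : ℂ → ℂ} (hf : Differentiable ℂ f) (h0 : ∃ z, f z ≠ 0) {z : ℂ} (hz : f z = 0) :
    1 ≤ analyticOrderNatAt f z := by
  have h1 : analyticOrderAt f z ≠ ⊤ := by
    intro h
    apply nz_of_diff hf h0 z
    rw [(hf.analyticAt z).meromorphicOrderAt_eq, h]
    rfl
  have h2 : analyticOrderAt f z ≠ 0 := by
    intro h
    exact ((hf.analyticAt z).analyticOrderAt_eq_zero.1 h) hz
  obtain ⟨n, hn⟩ := ENat.ne_top_iff_exists.1 h1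
  rw [analyticOrderNatAt, ← hn]
  rw [← hn] at h2
  have h3 : n ≠ 0 := by
    intro h
    apply h2
    rw [h]
    rfl
  exact Nat.one_le_iff_ne_zero.2 h3

theorem core {ι : Type*} [Fintype ι] (p : ι → ℕ) (a b : ∀ j, Fin (p j + 2) → ℂ)
    (hab : ∀ j l l', l ≠ l' → a j l * b j l' - a j l' * b j l ≠ 0)
    (e : ∀ j, Fin (p j + 2) → ℕ) (he : ∀ j l, 1 ≤ e j l) (m : ℕ) (c : ι → ℕ) (D : ℕ)
    (hcD : ∑ j, c j ≤ D * m) (hc : ∀ j, D * ∑ l, e j l < c j * p j) (x y : ι → ℂ → ℂ)
    (hx : ∀ j, Differentiable ℂ (x j)) (hy : ∀ j, Differentiable ℂ (y j))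
    (hxy : ∀ j z, x j z ≠ 0 ∨ y j z ≠ 0) (hW : ∀ j, ∃ z, W (x j) (y j) z ≠ 0)
    (hmult : ∀ z, (∑ j, ∑ l, e j l * analyticOrderNatAt (U (a j) (b j) (x j) (y j) l) z = 0) ∨
      m ≤ ∑ j, ∑ l, e j l * analyticOrderNatAt (U (a j) (b j) (x j) (y j) l) z)
    (j0 : ι) (hgrow : ∃ ε C : ℝ, 0 < ε ∧ ∀ r, 1 ≤ r → ε * r - C ≤ tau (x j0) (y j0) r) : False := by
  classical
  set u : ∀ j, Fin (p j + 2) → ℂ → ℂ := fun j l => U (a j) (b j) (x j) (y j) l with hu
  set w : ι → ℂ → ℂ := fun j => W (x j) (y j) with hw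
  have hud : ∀ j l, Differentiable ℂ (u j l) := fun j l => U_diff _ _ (hx j) (hy j) l
  have hwd : ∀ j, Differentiable ℂ (w j) := fun j => W_diff (hx j) (hy j)
  have hune : ∀ j l, ∃ z, u j l z ≠ 0 := by
    intro j l
    by_cases h : l = 0
    · exact U_ne (hx j) (hy j) (l' := 1) (hab j l 1 (by rw [h]; simp)) (hW j)
    · exact U_ne (hx j) (hy j) (l' := 0) (hab j l 0 h) (hW j)
  -- the divisor inequality
  obtain ⟨C0, hC0⟩ := div_le (S := ι ⊕ (Σ j, Fin (p j + 2)))
    (Sum.elim w fun s => u s.1 s.2) (by rintro (j | s); exacts [hwd j, hud s.1 s.2])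
    (Sum.elim (fun j => (c j : ℤ)) fun s => (D : ℤ) * e s.1 s.2 - c s.1) (by
      intro z
      rw [Fintype.sum_sum_type, Fintype.sum_sigma]
      simp only [Sum.elim_inl, Sum.elim_inr]
      have hb : ∀ j, (∑ l, (analyticOrderNatAt (u j l) z : ℤ)) ≤ (analyticOrderNatAt (w j) z : ℤ) +
          (if ∃ l, u j l z = 0 then 1 else 0) := by
        intro j
        have := block_order (hab j) (hx j) (hy j) (hxy j) (hW j) z
        have h2 : ((∑ l, analyticOrderNatAt (u j l) z : ℕ) : ℤ) ≤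
            ((analyticOrderNatAt (w j) z + (if ∃ l, u j l z = 0 then 1 else 0) : ℕ) : ℤ) := by exact_mod_cast this
        push_cast at h2
        exact h2
      have hsum : ∑ j, (c j : ℤ) * (analyticOrderNatAt (w j) z : ℤ) +
          ∑ j, ∑ l, ((D : ℤ) * e j l - c j) * (analyticOrderNatAt (u j l) z : ℤ) =
          ∑ j, (c j : ℤ) * ((analyticOrderNatAt (w j) z : ℤ) - ∑ l, (analyticOrderNatAt (u j l) z : ℤ)) +
          D * ∑ j, ∑ l, (e j l : ℤ) * (analyticOrderNatAt (u j l) z : ℤ) := by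
        rw [Finset.mul_sum, ← Finset.sum_add_distrib, ← Finset.sum_add_distrib]
        refine Finset.sum_congr rfl fun j _ => ?_
        rw [Finset.mul_sum, mul_sub, Finset.mul_sum]
        simp only [sub_mul, Finset.sum_sub_distrib]
        have : ∑ l, (D : ℤ) * (e j l : ℤ) * (analyticOrderNatAt (u j l) z : ℤ) =
            ∑ l, (D : ℤ) * ((e j l : ℤ) * (analyticOrderNatAt (u j l) z : ℤ)) :=
          Finset.sum_congr rfl fun l _ => by ring
        rw [this]
        ring
      rw [hsum]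
      have h1 : ∑ j, (c j : ℤ) * ((analyticOrderNatAt (w j) z : ℤ) - ∑ l, (analyticOrderNatAt (u j l) z : ℤ)) ≥
          - ∑ j, (c j : ℤ) * (if ∃ l, u j l z = 0 then 1 else 0) := by
        rw [ge_iff_le, ← Finset.sum_neg_distrib]
        refine Finset.sum_le_sum fun j _ => ?_
        have := hb j
        have hcj : (0 : ℤ) ≤ c j := Int.natCast_nonneg _
        nlinarith
      rcases hmult z with h | h
      · have h2 : ∀ j l, analyticOrderNatAt (u j l) z = 0 := by
          intro j l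
          have h3 := (Finset.sum_eq_zero_iff.1 h) j (Finset.mem_univ j)
          have h4 := (Finset.sum_eq_zero_iff.1 h3) l (Finset.mem_univ l)
          rcases Nat.mul_eq_zero.1 h4 with h5 | h5
          · have := he j l; omega
          · exact h5
        have h6 : ∀ j, ¬ ∃ l, u j l z = 0 := by
          rintro j ⟨l, hl⟩
          have := nat_order_pos (hud j l) (hune j l) hl
          have := h2 j l
          omega
        have h7 : ∑ j, (c j : ℤ) * (if ∃ l, u j l z = 0 then 1 else 0) = 0 := by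
          refine Finset.sum_eq_zero fun j _ => ?_
          rw [if_neg (h6 j), mul_zero]
        rw [h7] at h1
        have h8 : (0 : ℤ) ≤ D * ∑ j, ∑ l, (e j l : ℤ) * (analyticOrderNatAt (u j l) z : ℤ) := by
          refine mul_nonneg (Int.natCast_nonneg _) (Finset.sum_nonneg fun j _ => Finset.sum_nonneg fun l _ => ?_)
          positivity
        linarith
      · have h2 : ∑ j, (c j : ℤ) * (if ∃ l, u j l z = 0 then 1 else 0) ≤ ∑ j, (c j : ℤ) := by
          refine Finset.sum_le_sum fun j _ => ?_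
          split_ifs
          · simp
          · simp
        have h3 : (∑ j, (c j : ℤ)) ≤ D * m := by exact_mod_cast hcD
        have h4 : (m : ℤ) ≤ ∑ j, ∑ l, (e j l : ℤ) * (analyticOrderNatAt (u j l) z : ℤ) := by
          have : ((m : ℕ) : ℤ) ≤ ((∑ j, ∑ l, e j l * analyticOrderNatAt (u j l) z : ℕ) : ℤ) := by exact_mod_cast h
          push_cast at this
          exact this
        have h5 : (D : ℤ) * m ≤ D * ∑ j, ∑ l, (e j l : ℤ) * (analyticOrderNatAt (u j l) z : ℤ) :=
          mul_le_mul_of_nonneg_left h4 (Int.natCast_nonneg _)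
        linarith)
  have hC0' : ∀ r : ℝ, 1 ≤ r → C0 ≤ ∑ j, ((c j : ℝ) * L (w j) r + ∑ l, ((D : ℝ) * e j l - c j) * L (u j l) r) := by
    intro r hr
    have := hC0 r hr
    rw [Fintype.sum_sum_type, Fintype.sum_sigma, ← Finset.sum_add_distrib] at this
    simp only [Sum.elim_inl, Sum.elim_inr] at this
    push_cast at this
    exact this
  choose E C hE hC hsmt using fun j => smt_block (hab j) (hx j) (hy j) (hxy j) (hW j)
  choose B hB hLU using fun j => LU_le (hab j) (hx j) (hy j) (hxy j) (hW j)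
  -- logarithms
  choose K1 hK1 hK1' using fun j => log_le' (M := (c j : ℝ) * C j) (η := 1 / 2) (by have := hC j; positivity) (by norm_num)
  obtain ⟨ε, Cg, hε, hg⟩ := hgrow
  obtain ⟨K2, hK2, hK2'⟩ := log_le' (M := ∑ j, (c j : ℝ) * C j) (η := ε / 4)
    (Finset.sum_nonneg fun j _ => by have := hC j; positivity) (by linarith)
  -- the final inequality
  set A : ι → ℝ := fun j => ((c j : ℝ) * p j - D * ∑ l, (e j l : ℝ)) * C j + (c j : ℝ) * C j + 1 / 2 + K1 j +
    D * (∑ l, (e j l : ℝ)) * B j with hA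
  have hfin : ∀ r, 1 ≤ r → (∀ j, r ∉ E j) → (1 / 2) * (tau (x j0) (y j0) r + C j0) ≤ (ε / 4) * r + (K2 + ∑ j, A j - C0) := by
    intro r hr hrE
    have hlr : 0 ≤ Real.log r := Real.log_nonneg hr
    have ht : ∀ j, 0 ≤ tau (x j) (y j) r + C j := fun j => (hsmt j r hr (hrE j)).1
    have hj : ∀ j, (c j : ℝ) * L (w j) r + ∑ l, ((D : ℝ) * e j l - c j) * L (u j l) r ≤
        - (1 / 2) * (tau (x j) (y j) r + C j) + (c j : ℝ) * C j * Real.log r + A j := by
      intro j
      have h1 := (hsmt j r hr (hrE j)).2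
      have hcj : (0 : ℝ) ≤ c j := Nat.cast_nonneg _
      have hD : (0 : ℝ) ≤ D := Nat.cast_nonneg _
      have h2 := mul_le_mul_of_nonneg_left h1 hcj
      have h3 : ∑ l, (D : ℝ) * e j l * L (u j l) r ≤ D * (∑ l, (e j l : ℝ)) * (tau (x j) (y j) r + B j) := by
        rw [Finset.mul_sum, Finset.sum_mul]
        refine Finset.sum_le_sum fun l _ => ?_
        exact mul_le_mul_of_nonneg_left (hLU j l r hr) (by positivity)
      have h4 : ∑ l, ((D : ℝ) * e j l - c j) * L (u j l) r =
          ∑ l, (D : ℝ) * e j l * L (u j l) r - c j * ∑ l, L (u j l) r := by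
        simp only [sub_mul, Finset.sum_sub_distrib, Finset.mul_sum]
      have h5 : (c j : ℝ) * C j * Real.log (1 + C j + tau (x j) (y j) r) ≤
          (1 / 2) * (1 + C j + tau (x j) (y j) r) + K1 j := hK1' j _ (by have := ht j; linarith)
      have h6 : (1 : ℝ) ≤ (c j : ℝ) * p j - D * ∑ l, (e j l : ℝ) := by
        have h7 : (D * ∑ l, e j l) + 1 ≤ c j * p j := hc j
        have h8 : (((D * ∑ l, e j l) + 1 : ℕ) : ℝ) ≤ ((c j * p j : ℕ) : ℝ) := by exact_mod_cast h7
        push_cast at h8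
        linarith
      have h9 : tau (x j) (y j) r + C j ≤ ((c j : ℝ) * p j - D * ∑ l, (e j l : ℝ)) * (tau (x j) (y j) r + C j) := by
        calc tau (x j) (y j) r + C j = 1 * (tau (x j) (y j) r + C j) := (one_mul _).symm
          _ ≤ _ := mul_le_mul_of_nonneg_right h6 (ht j)
      rw [h4]
      simp only [hA]
      nlinarith [h2, h3, h5, h9]
    have hsum := (hC0' r hr).trans (Finset.sum_le_sum fun j _ => hj j)
    rw [Finset.sum_add_distrib, Finset.sum_add_distrib, ← Finset.sum_mul, ← Finset.mul_sum] at hsum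
    have h10 : tau (x j0) (y j0) r + C j0 ≤ ∑ j, (tau (x j) (y j) r + C j) :=
      Finset.single_le_sum (f := fun j => tau (x j) (y j) r + C j) (fun j _ => ht j) (Finset.mem_univ j0)
    have h11 := hK2' r (by linarith)
    linarith
  -- a large radius outside the exceptional set
  set R0 : ℝ := max 1 ((2 * (K2 + ∑ j, A j - C0) + Cg - C j0) * (2 / ε) + 1) with hR0
  obtain ⟨r, hr, hrE⟩ : ∃ r, R0 ≤ r ∧ ∀ j, r ∉ E j := by
    by_contra hcon
    push Not at hcon
    have h1 : Ici R0 ⊆ ⋃ j, E j := by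
      intro r hr
      obtain ⟨j, hj⟩ := hcon r hr
      exact mem_iUnion.2 ⟨j, hj⟩
    have h2 : volume (⋃ j, E j) < ⊤ := by
      refine lt_of_le_of_lt (measure_iUnion_fintype_le volume E) ?_
      exact ENNReal.sum_lt_top.2 fun l _ => hE l
    have h3 := measure_mono (μ := volume) h1
    rw [Real.volume_Ici] at h3
    exact absurd (lt_of_le_of_lt h3 h2) (lt_irrefl _)
  have hr1 : 1 ≤ r := (le_max_left _ _).trans hr
  have h1 := hfin r hr1 hrE
  have h2 := hg r hr1
  have h3 : (2 * (K2 + ∑ j, A j - C0) + Cg - C j0) * (2 / ε) + 1 ≤ r := (le_max_right _ _).trans hr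
  have h4 : (2 * (K2 + ∑ j, A j - C0) + Cg - C j0) < (ε / 2) * r := by
    have h5 : (2 * (K2 + ∑ j, A j - C0) + Cg - C j0) * (2 / ε) < r := by linarith
    rw [← lt_div_iff₀ (by positivity)] at h5
    have e1 : r / (2 / ε) = (ε / 2) * r := by field_simp
    rw [e1] at h5
    exact h5
  linarith

end Pool.Agent.P8H10.GC
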