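import Pool.Agent.P8H10.GC4

/-!
Composition with the exponential, and growth.
-/

set_option autoImplicit false

namespace Pool.Agent.P8H10.GC

open MeasureTheory Set Filter Topology Metric Real ValueDistribution MeromorphicOn
open Pool.Agent.N131.SR (NZ count_ge)
open Pool.Agent.Helper160.Nev (circleAverage_mono_codiscrete)
open Pool.Agent.H159R3.NV (L mero_of_diff ci_log ne_cod)

variable {x y : ℂ → ℂ}

/-- composition with exp -/
noncomputable def cx (f : ℂ → ℂ) : ℂ → ℂ := fun z => f (Complex.exp z)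

lemma cx_diff {f : ℂ → ℂ} (hf : Differentiable ℂ f) : Differentiable ℂ (cx f) :=
  hf.comp Complex.differentiable_exp

lemma cx_deriv {f : ℂ → ℂ} (hf : Differentiable ℂ f) (z : ℂ) :
    deriv (cx f) z = deriv f (Complex.exp z) * Complex.exp z := by
  have h := ((hf (Complex.exp z)).hasDerivAt).comp z (Complex.hasDerivAt_exp z)
  exact h.deriv

lemma cx_W (hx : Differentiable ℂ x) (hy : Differentiable ℂ y) (z : ℂ) :
    W (cx x) (cx y) z = Complex.exp z * W x y (Complex.exp z) := by
  unfold W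
  rw [cx_deriv hx, cx_deriv hy]
  unfold cx
  ring

lemma cx_W_ne (hx : Differentiable ℂ x) (hy : Differentiable ℂ y) (hW : ∃ z, W x y z ≠ 0) :
    ∃ z, W (cx x) (cx y) z ≠ 0 := by
  by_contra hcon
  push Not at hcon
  have h1 : ∀ z : ℂ, z ≠ 0 → W x y z = 0 := by
    intro z hz
    have h2 := hcon (Complex.log z)
    rw [cx_W hx hy, Complex.exp_log hz] at h2
    exact (mul_eq_zero.1 h2).resolve_left hz
  obtain ⟨z, hz⟩ := hW
  have hc : Continuous (W x y) := (W_diff hx hy).continuous
  have h3 : W x y = fun _ => (0 : ℂ) := by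
    refine Continuous.ext_on (s := {0}ᶜ) (dense_compl_singleton 0) hc continuous_const ?_
    intro w hw
    exact h1 w hw
  exact hz (by rw [h3])

lemma cx_order {f : ℂ → ℂ} (z : ℂ) :
    analyticOrderNatAt (cx f) z = analyticOrderNatAt f (Complex.exp z) := by
  have h : analyticOrderAt (f ∘ Complex.exp) z = analyticOrderAt f (Complex.exp z) := by
    refine analyticOrderAt_comp_of_deriv_ne_zero (Complex.differentiable_exp.analyticAt z) ?_
    rw [Complex.deriv_exp]
    exact Complex.exp_ne_zero z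
  rw [analyticOrderNatAt, analyticOrderNatAt, ← h]
  rfl

lemma cx_U {ι : Type*} (a b : ι → ℂ) (x y : ℂ → ℂ) (l : ι) : U a b (cx x) (cx y) l = cx (U a b x y l) := rfl

/-- many zeros give growth -/
lemma growth_of_zeros {h : ℂ → ℂ} (hh : Differentiable ℂ h) (h0 : ∃ z, h z ≠ 0)
    (hz : ∀ k : ℕ, h ((k : ℂ) * (2 * π * Complex.I)) = 0) :
    ∃ ε C : ℝ, 0 < ε ∧ ∀ r, 1 ≤ r → ε * r - C ≤ L h r := by
  classical
  set K : ℝ := Real.log ‖meromorphicTrailingCoeffAt h 0‖ with hK
  have hπ : 0 < π := Real.pi_pos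
  have hord : ∀ r, 1 ≤ r → Function.locallyFinsuppWithin.logCounting (divisor h univ) r = L h r - K := by
    intro r hr
    exact Function.locallyFinsuppWithin.logCounting_divisor_eq_circleAverage_sub_const
      (mero_of_diff hh) (by linarith : r ≠ 0)
  have hDnn : 0 ≤ divisor h univ := AnalyticOnNhd.divisor_nonneg (fun z _ => hh.analyticAt z)
  have hD1 : ∀ k : ℕ, (1 : ℝ) ≤ ((divisor h univ ((k : ℂ) * (2 * π * Complex.I)) : ℤ) : ℝ) := by
    intro k
    rw [divisor_apply (fun z _ => mero_of_diff hh z) (mem_univ _), ord_eq (hh.analyticAt _)]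
    have := nat_order_pos hh h0 (hz k)
    exact_mod_cast this
  refine ⟨1 / (2 * π * 3), |K| + 1 + 1, by positivity, fun r hr => ?_⟩
  have hnn : 0 ≤ Function.locallyFinsuppWithin.logCounting (divisor h univ) r :=
    Function.locallyFinsuppWithin.logCounting_nonneg hDnn hr
  have hKa := neg_abs_le K
  by_cases hr2 : r ≤ 2 * π * 3
  · have h1 := hord r hr
    have h2 : 1 / (2 * π * 3) * r ≤ 1 := by
      rw [one_div, inv_mul_le_iff₀ (by positivity)]
      linarith
    linarith
  · push Not at hr2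
    set N : ℕ := ⌊r / (2 * π * 3)⌋₊ with hN
    have hNle : (N : ℝ) ≤ r / (2 * π * 3) := Nat.floor_le (by positivity)
    have hNlt : r / (2 * π * 3) < N + 1 := Nat.lt_floor_add_one _
    have hr3 : 1 ≤ r / (2 * π * 3) := by rw [le_div_iff₀ (by positivity)]; linarith
    have hN1 : 1 ≤ N := by rw [hN]; exact Nat.one_le_floor_iff _ |>.2 hr3
    have hN1' : (1 : ℝ) ≤ N := by exact_mod_cast hN1
    have hR : 1 ≤ r / 3 := by
      rw [le_div_iff₀ (by norm_num)]
      have : (3 : ℝ) < π := Real.pi_gt_three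
      nlinarith
    set G : Finset ℂ := (Finset.range (N + 1)).image (fun k : ℕ => (k : ℂ) * (2 * π * Complex.I)) with hG
    have hinj : Set.InjOn (fun k : ℕ => (k : ℂ) * (2 * π * Complex.I)) (Finset.range (N + 1)) := by
      intro i _ j _ hij
      have h2 : (2 * (π : ℂ) * Complex.I) ≠ 0 := by
        have : (π : ℂ) ≠ 0 := by exact_mod_cast hπ.ne'
        simp [this]
      have h3 := mul_right_cancel₀ h2 hij
      exact_mod_cast h3
    have hcount := count_ge (D := divisor h univ) hDnn hR (by linarith : r / 3 < r) G (by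
      intro u hu
      rw [hG, Finset.mem_image] at hu
      obtain ⟨k, hk, rfl⟩ := hu
      rw [Finset.mem_range] at hk
      have hk' : (k : ℝ) ≤ N := by
        have : k ≤ N := by omega
        exact_mod_cast this
      rw [norm_mul, norm_mul, norm_mul, Complex.norm_I, Complex.norm_natCast, Complex.norm_ofNat,
        Complex.norm_real, Real.norm_of_nonneg hπ.le, mul_one]
      have h1 : (k : ℝ) * (2 * π) ≤ r / (2 * π * 3) * (2 * π) :=
        mul_le_mul_of_nonneg_right (hk'.trans hNle) (by positivity)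
      have h2 : r / (2 * π * 3) * (2 * π) = r / 3 := by field_simp
      linarith)
    rw [hord r hr] at hcount
    have hsum : (N : ℝ) + 1 ≤ ∑ u ∈ G, ((divisor h univ u : ℤ) : ℝ) := by
      rw [hG, Finset.sum_image (fun i hi j hj hij => hinj hi hj hij)]
      calc (N : ℝ) + 1 = ∑ _k ∈ Finset.range (N + 1), (1 : ℝ) := by
            rw [Finset.sum_const, Finset.card_range, nsmul_eq_mul, mul_one]; push_cast; ring
        _ ≤ _ := Finset.sum_le_sum fun k _ => hD1 k
    have hl : 1 ≤ Real.log r - Real.log (r / 3) := by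
      rw [← Real.log_div (by linarith) (by linarith)]
      have e : r / (r / 3) = 3 := by field_simp
      rw [e, Real.le_log_iff_exp_le (by norm_num)]
      linarith [Real.exp_one_lt_d9]
    have h4 : (N : ℝ) + 1 ≤ (∑ u ∈ G, ((divisor h univ u : ℤ) : ℝ)) * (Real.log r - Real.log (r / 3)) := by
      have h5 : 0 ≤ ∑ u ∈ G, ((divisor h univ u : ℤ) : ℝ) := by linarith
      calc (N : ℝ) + 1 ≤ (∑ u ∈ G, ((divisor h univ u : ℤ) : ℝ)) * 1 := by rw [mul_one]; exact hsum
        _ ≤ _ := mul_le_mul_of_nonneg_left hl h5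
    have e2 : 1 / (2 * π * 3) * r = r / (2 * π * 3) := by ring
    rw [e2]
    linarith

lemma growth (hx : Differentiable ℂ x) (hy : Differentiable ℂ y) (hxy : ∀ z, x z ≠ 0 ∨ y z ≠ 0)
    (hW : ∃ z, W x y z ≠ 0) :
    ∃ ε C : ℝ, 0 < ε ∧ ∀ r, 1 ≤ r → ε * r - C ≤ tau (cx x) (cx y) r := by
  classical
  set a : Fin 2 → ℂ := ![y 1, if x 1 = 0 then 0 else 1] with ha
  set b : Fin 2 → ℂ := ![- x 1, if x 1 = 0 then 1 else 0] with hb
  have hdet : a 0 * b 1 - a 1 * b 0 ≠ 0 := by
    by_cases h : x 1 = 0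
    · have := (hxy 1).resolve_left (not_not.2 h)
      simp [ha, hb, h, this]
    · simp [ha, hb, h]
  have hWc := cx_W_ne hx hy hW
  have hcxd := cx_diff hx
  have hcyd := cx_diff hy
  have hcxy : ∀ z, cx x z ≠ 0 ∨ cx y z ≠ 0 := fun z => hxy _
  have h0 : ∃ z, U a b (cx x) (cx y) 0 z ≠ 0 := U_ne hcxd hcyd hdet hWc
  have hz : ∀ k : ℕ, U a b (cx x) (cx y) 0 ((k : ℂ) * (2 * π * Complex.I)) = 0 := by
    intro k
    have e1 : Complex.exp ((k : ℂ) * (2 * π * Complex.I)) = 1 := Complex.exp_nat_mul_two_pi_mul_I k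
    simp only [U, cx, e1, ha, hb]
    simp
    ring
  obtain ⟨ε, C, hε, hg⟩ := growth_of_zeros (U_diff a b hcxd hcyd 0) h0 hz
  have hab : ∀ l l' : Fin (0 + 2), l ≠ l' → a l * b l' - a l' * b l ≠ 0 := by
    intro l l' hll
    fin_cases l <;> fin_cases l'
    · exact absurd rfl hll
    · exact hdet
    · intro h
      apply hdet
      have h' : a 1 * b 0 - a 0 * b 1 = 0 := h
      linear_combination -h'
    · exact absurd rfl hll
  obtain ⟨B, hB, hLU⟩ := LU_le (p := 0) hab hcxd hcyd hcxy hWc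
  refine ⟨ε, C + B, hε, fun r hr => ?_⟩
  have h1 := hg r hr
  have h2 := hLU 0 r hr
  linarith

end Pool.Agent.P8H10.GC
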