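import Pool.Agent.P8H10.GC5

/-!
Entire curves in products of projective lines: the main theorem.
-/

set_option autoImplicit false

namespace Pool.Agent.P8H10.GC

open MeasureTheory Set Filter Topology Metric Real ValueDistribution MeromorphicOn
open Pool.Agent.N131.SR (NZ)

variable {x y : ℂ → ℂ}

lemma order_ne_top {f : ℂ → ℂ} (hf : Differentiable ℂ f) (h0 : ∃ z, f z ≠ 0) (z : ℂ) :
    analyticOrderAt f z ≠ ⊤ := by
  intro h
  apply nz_of_diff hf h0 z
  rw [(hf.analyticAt z).meromorphicOrderAt_eq, h]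
  rfl

lemma const_of_W (hx : Differentiable ℂ x) (hy : Differentiable ℂ y) (hxy : ∀ z, x z ≠ 0 ∨ y z ≠ 0)
    (hW : ∀ z, W x y z = 0) (z z' : ℂ) : x z * y z' = x z' * y z := by
  classical
  set a : Fin 2 → ℂ := ![y z', if x z' = 0 then 0 else 1] with ha
  set b : Fin 2 → ℂ := ![- x z', if x z' = 0 then 1 else 0] with hb
  have hg : U a b x y 1 z' ≠ 0 := by
    by_cases h : x z' = 0
    · have h2 := (hxy z').resolve_left (not_not.2 h)
      simp [U, ha, hb, h, h2]
    · simp [U, ha, hb, h]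
  have hh : U a b x y 0 z' = 0 := by
    simp [U, ha, hb]
    ring
  by_contra hcon
  have h0 : ∃ w, U a b x y 0 w ≠ 0 := by
    refine ⟨z, fun h => hcon ?_⟩
    simp [U, ha, hb] at h
    linear_combination h
  have hd0 := U_diff a b hx hy 0
  have hd1 := U_diff a b hx hy 1
  have e1 : deriv (U a b x y 0) * U a b x y 1 = U a b x y 0 * deriv (U a b x y 1) := by
    funext w
    have h1 := det_W a b hx hy 0 1 w
    rw [hW w, mul_zero, sub_eq_zero] at h1
    exact h1.symm
  have han0 := hd0.analyticAt z'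
  have han1 := hd1.analyticAt z'
  have e2 : analyticOrderAt (deriv (U a b x y 0) * U a b x y 1) z' =
      analyticOrderAt (U a b x y 0 * deriv (U a b x y 1)) z' := by rw [e1]
  rw [analyticOrderAt_mul han0.deriv han1, analyticOrderAt_mul han0 han1.deriv,
    han1.analyticOrderAt_eq_zero.2 hg, add_zero] at e2
  have h1 : analyticOrderAt (deriv (U a b x y 0)) z' + 1 = analyticOrderAt (U a b x y 0) z' := by
    have := han0.analyticOrderAt_deriv_add_one
    rw [hh] at this
    simpa using this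
  have htop := order_ne_top hd0 h0 z'
  rw [← h1] at e2 htop
  cases h3 : analyticOrderAt (deriv (U a b x y 0)) z' with
  | top =>
    rw [h3] at htop
    exact htop rfl
  | coe n =>
    rw [h3] at e2
    cases h4 : analyticOrderAt (deriv (U a b x y 1)) z' with
    | top =>
      rw [h4] at e2
      exact absurd e2 (by rw [add_top]; exact ENat.coe_ne_top n)
    | coe k =>
      rw [h4] at e2
      have h5 : n = n + 1 + k := by exact_mod_cast e2
      omega

lemma order_zero_of_const {ι : Type*} {a b : ι → ℂ} {l : ι} (hxy : ∀ z, x z ≠ 0 ∨ y z ≠ 0)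
    (hc : ∀ z z', x z * y z' = x z' * y z) (hU : ∃ z, U a b x y l z ≠ 0) (z : ℂ) : U a b x y l z ≠ 0 := by
  obtain ⟨z1, hz1⟩ := hU
  intro h
  have h1 : U a b x y l z1 * x z = 0 := by
    have e : U a b x y l z1 * x z = x z1 * U a b x y l z := by
      simp only [U]
      linear_combination (b l) * hc z z1
    rw [e, h, mul_zero]
  have h2 : U a b x y l z1 * y z = 0 := by
    have e : U a b x y l z1 * y z = y z1 * U a b x y l z := by
      simp only [U]
      linear_combination (a l) * hc z1 z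
    rw [e, h, mul_zero]
  rcases hxy z with h3 | h3
  · exact h3 ((mul_eq_zero.1 h1).resolve_left hz1)
  · exact h3 ((mul_eq_zero.1 h2).resolve_left hz1)

theorem multi {ι : Type} [Fintype ι] (p : ι → ℕ) (hp : ∀ j, 1 ≤ p j) (a b : ∀ j, Fin (p j + 2) → ℂ)
    (hab : ∀ j l l', l ≠ l' → a j l * b j l' - a j l' * b j l ≠ 0)
    (e : ∀ j, Fin (p j + 2) → ℕ) (he : ∀ j l, 1 ≤ e j l) (m : ℕ)
    (hm : ∑ j, (∑ l, (e j l : ℝ)) / p j < m) (x y : ι → ℂ → ℂ)
    (hx : ∀ j, Differentiable ℂ (x j)) (hy : ∀ j, Differentiable ℂ (y j))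
    (hxy : ∀ j z, x j z ≠ 0 ∨ y j z ≠ 0)
    (hU : ∀ j l, ∃ z, U (a j) (b j) (x j) (y j) l z ≠ 0)
    (hmult : ∀ z, (∑ j, ∑ l, e j l * analyticOrderNatAt (U (a j) (b j) (x j) (y j) l) z = 0) ∨
      m ≤ ∑ j, ∑ l, e j l * analyticOrderNatAt (U (a j) (b j) (x j) (y j) l) z)
    (j0 : ι) (z z' : ℂ) : x j0 z * y j0 z' = x j0 z' * y j0 z := by
  classical
  by_contra hcon
  have hW0 : ∃ z, W (x j0) (y j0) z ≠ 0 := by
    by_contra h
    push Not at h
    exact hcon (const_of_W (hx j0) (hy j0) (hxy j0) h z z')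
  have hz0 : ∀ j, (¬ ∃ z, W (x j) (y j) z ≠ 0) → ∀ l z, analyticOrderNatAt (U (a j) (b j) (x j) (y j) l) z = 0 := by
    intro j hj l z
    push Not at hj
    have h1 := order_zero_of_const (hxy j) (const_of_W (hx j) (hy j) (hxy j) hj) (hU j l) z
    rw [analyticOrderNatAt, ((U_diff (a j) (b j) (hx j) (hy j) l).analyticAt z).analyticOrderAt_eq_zero.2 h1]
    rfl
  have hsplit : ∀ z, ∑ j, ∑ l, e j l * analyticOrderNatAt (U (a j) (b j) (x j) (y j) l) z =
      ∑ j : {j // ∃ z, W (x j) (y j) z ≠ 0},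
        ∑ l, e j.1 l * analyticOrderNatAt (U (a j.1) (b j.1) (x j.1) (y j.1) l) z := by
    intro z
    rw [← Fintype.sum_subtype_add_sum_subtype (fun j => ∃ z, W (x j) (y j) z ≠ 0)
      (fun j => ∑ l, e j l * analyticOrderNatAt (U (a j) (b j) (x j) (y j) l) z)]
    rw [add_eq_left]
    refine Finset.sum_eq_zero fun j _ => Finset.sum_eq_zero fun l _ => ?_
    rw [hz0 j.1 j.2 l z, mul_zero]
  -- the weights
  set J := {j // ∃ z, W (x j) (y j) z ≠ 0} with hJ
  set s : J → ℝ := fun j => (∑ l, (e j.1 l : ℝ)) / p j.1 with hs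
  have hsum : ∑ j : J, s j < m := by
    refine lt_of_le_of_lt ?_ hm
    rw [← Fintype.sum_subtype_add_sum_subtype (fun j => ∃ z, W (x j) (y j) z ≠ 0)
      (fun j => (∑ l, (e j l : ℝ)) / p j)]
    have h1 : 0 ≤ ∑ j : {j // ¬ ∃ z, W (x j) (y j) z ≠ 0}, (∑ l, (e j.1 l : ℝ)) / p j.1 :=
      Finset.sum_nonneg fun j _ => by positivity
    linarith
  obtain ⟨D, hD⟩ := exists_nat_gt ((Fintype.card J : ℝ) / (m - ∑ j : J, s j))
  have hδ : 0 < (m : ℝ) - ∑ j : J, s j := by linarith
  have hD' : (Fintype.card J : ℝ) < D * (m - ∑ j : J, s j) := by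
    rwa [div_lt_iff₀ hδ] at hD
  have hs0 : ∀ j, 0 ≤ s j := fun j => by positivity
  set c : J → ℕ := fun j => ⌊(D : ℝ) * s j⌋₊ + 1 with hc
  have hcle : ∀ j, (c j : ℝ) ≤ D * s j + 1 := by
    intro j
    simp only [hc]
    push_cast
    have := Nat.floor_le (a := (D : ℝ) * s j) (by have := hs0 j; positivity)
    linarith
  have hclt : ∀ j, (D : ℝ) * s j < c j := by
    intro j
    simp only [hc]
    push_cast
    exact Nat.lt_floor_add_one _
  refine core (ι := J) (fun j => p j.1) (fun j => a j.1) (fun j => b j.1) (fun j => hab j.1)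
    (fun j => e j.1) (fun j => he j.1) m c D ?_ ?_ (fun j => cx (x j.1)) (fun j => cx (y j.1))
    (fun j => cx_diff (hx j.1)) (fun j => cx_diff (hy j.1)) (fun j z => hxy j.1 _)
    (fun j => cx_W_ne (hx j.1) (hy j.1) j.2) ?_ ⟨j0, hW0⟩
    (growth (hx j0) (hy j0) (hxy j0) hW0)
  · have h1 : ((∑ j, c j : ℕ) : ℝ) ≤ ((D * m : ℕ) : ℝ) := by
      push_cast
      calc ∑ j, (c j : ℝ) ≤ ∑ j, ((D : ℝ) * s j + 1) := Finset.sum_le_sum fun j _ => hcle j
        _ = D * ∑ j, s j + Fintype.card J := by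
            rw [Finset.sum_add_distrib, Finset.mul_sum, Finset.sum_const, Finset.card_univ, nsmul_eq_mul, mul_one]
        _ ≤ D * m := by nlinarith
    exact_mod_cast h1
  · intro j
    have h1 := hclt j
    have hpj : (0 : ℝ) < p j.1 := by have := hp j.1; exact_mod_cast this
    have h2 : (D : ℝ) * ∑ l, (e j.1 l : ℝ) < c j * p j.1 := by
      have h3 : (D : ℝ) * s j * p j.1 < c j * p j.1 := mul_lt_mul_of_pos_right h1 hpj
      have h4 : (D : ℝ) * s j * p j.1 = D * ∑ l, (e j.1 l : ℝ) := by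
        simp only [hs]
        field_simp
      linarith
    have h3 : ((D * ∑ l, e j.1 l : ℕ) : ℝ) < ((c j * p j.1 : ℕ) : ℝ) := by
      push_cast
      exact h2
    exact_mod_cast h3
  · intro w
    have h1 := hmult (Complex.exp w)
    rw [hsplit] at h1
    have h2 : ∀ j : J, ∀ l, analyticOrderNatAt (U (a j.1) (b j.1) (cx (x j.1)) (cx (y j.1)) l) w =
        analyticOrderNatAt (U (a j.1) (b j.1) (x j.1) (y j.1) l) (Complex.exp w) := by
      intro j l
      rw [cx_U]
      exact cx_order w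
    simp only [h2]
    exact h1

/-- the order of a product of powers -/
lemma order_prod {S : Type*} (F : S → ℂ → ℂ) (hF : ∀ s, Differentiable ℂ (F s)) (hF0 : ∀ s, ∃ z, F s z ≠ 0)
    (e : S → ℕ) (T : Finset S) (z : ℂ) :
    analyticOrderAt (fun z => ∏ s ∈ T, F s z ^ e s) z = ((∑ s ∈ T, e s * analyticOrderNatAt (F s) z : ℕ) : ℕ∞) := by
  classical
  induction T using Finset.induction_on with
  | empty =>
    simp only [Finset.prod_empty, Finset.sum_empty]
    rw [analyticAt_const.analyticOrderAt_eq_zero.2 one_ne_zero]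
    rfl
  | insert s T hs ih =>
    have e1 : (fun z => ∏ s ∈ insert s T, F s z ^ e s) = (F s ^ e s) * (fun z => ∏ s ∈ T, F s z ^ e s) := by
      funext z
      rw [Finset.prod_insert hs]
      rfl
    have han : AnalyticAt ℂ (fun z => ∏ s ∈ T, F s z ^ e s) z :=
      Finset.analyticAt_fun_prod T fun s _ => ((hF s).analyticAt z).pow _
    rw [e1, analyticOrderAt_mul (((hF s).analyticAt z).pow _) han, ih, Finset.sum_insert hs,
      analyticOrderAt_pow ((hF s).analyticAt z), ← Nat.cast_analyticOrderNatAt (order_ne_top (hF s) (hF0 s) z)]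
    push_cast
    rw [nsmul_eq_mul]

theorem cover {ι : Type} [Fintype ι] (p : ι → ℕ) (hp : ∀ j, 1 ≤ p j) (a b : ∀ j, Fin (p j + 2) → ℂ)
    (hab : ∀ j l l', l ≠ l' → a j l * b j l' - a j l' * b j l ≠ 0)
    (e : ∀ j, Fin (p j + 2) → ℕ) (he : ∀ j l, 1 ≤ e j l) (m : ℕ)
    (hm : ∑ j, (∑ l, (e j l : ℝ)) / p j < m) (x y : ι → ℂ → ℂ)
    (hx : ∀ j, Differentiable ℂ (x j)) (hy : ∀ j, Differentiable ℂ (y j))
    (hxy : ∀ j z, x j z ≠ 0 ∨ y j z ≠ 0) (w : ℂ → ℂ) (hw : Differentiable ℂ w)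
    (hwm : ∀ z, w z ^ m = ∏ j, ∏ l, U (a j) (b j) (x j) (y j) l z ^ e j l) :
    (∀ z, w z = 0) ∨ ∀ j z z', x j z * y j z' = x j z' * y j z := by
  classical
  by_cases hw0 : ∀ z, w z = 0
  · exact Or.inl hw0
  right
  push Not at hw0
  have hm0 : m ≠ 0 := by
    rintro rfl
    have : 0 ≤ ∑ j, (∑ l, (e j l : ℝ)) / p j := Finset.sum_nonneg fun j _ => by positivity
    push_cast at hm
    linarith
  have hU : ∀ j l, ∃ z, U (a j) (b j) (x j) (y j) l z ≠ 0 := by
    intro j l
    by_contra hcon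
    push Not at hcon
    obtain ⟨z, hz⟩ := hw0
    have h1 := hwm z
    rw [Finset.prod_eq_zero (Finset.mem_univ j) (Finset.prod_eq_zero (Finset.mem_univ l)
      (by rw [hcon z]; exact zero_pow (by have := he j l; omega)))] at h1
    exact hz (pow_eq_zero_iff hm0 |>.1 h1)
  refine multi p hp a b hab e he m hm x y hx hy hxy hU fun z => ?_
  have h1 : analyticOrderAt (w ^ m) z = ((∑ j, ∑ l, e j l * analyticOrderNatAt (U (a j) (b j) (x j) (y j) l) z : ℕ) : ℕ∞) := by
    have e1 : w ^ m = fun z => ∏ s ∈ (Finset.univ : Finset (Σ j, Fin (p j + 2))),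
        (U (a s.1) (b s.1) (x s.1) (y s.1) s.2) z ^ e s.1 s.2 := by
      funext z
      rw [Pi.pow_apply, hwm z, Finset.prod_sigma']
      rfl
    rw [e1, order_prod (S := Σ j, Fin (p j + 2)) (fun s => U (a s.1) (b s.1) (x s.1) (y s.1) s.2)
      (fun s => U_diff _ _ (hx s.1) (hy s.1) s.2) (fun s => hU s.1 s.2) (fun s => e s.1 s.2) Finset.univ z]
    congr 1
    rw [Fintype.sum_sigma]
  rw [analyticOrderAt_pow (hw.analyticAt z), ← Nat.cast_analyticOrderNatAt (order_ne_top hw hw0 z), nsmul_eq_mul] at h1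
  have h2 : m * analyticOrderNatAt w z = ∑ j, ∑ l, e j l * analyticOrderNatAt (U (a j) (b j) (x j) (y j) l) z := by
    exact_mod_cast h1
  rw [← h2]
  rcases Nat.eq_zero_or_pos (analyticOrderNatAt w z) with h | h
  · left
    rw [h, mul_zero]
  · right
    exact Nat.le_mul_of_pos_right m h

end Pool.Agent.P8H10.GC
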