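import Pool.Agent.P8H10.Desc
import Pool.Agent.W254.PA.App

/-!
# The Galois action on `p`-adic logarithms
-/

set_option autoImplicit false

namespace Pool.Agent.P8H10

open Module Pool.Agent.W254.PA
open Pool.Agent.W245.PB (IsIwasawaLog)

variable {p : ℕ} [hp : Fact p.Prime]

theorem norm_gal (σ : PadicAlgCl p ≃ₐ[ℚ_[p]] PadicAlgCl p) (x : PadicAlgCl p) :
    ‖σ x‖ = ‖x‖ := by
  rw [← PadicAlgCl.spectralNorm_eq, ← PadicAlgCl.spectralNorm_eq]
  exact (spectralNorm_eq_of_equiv σ x).symm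

theorem continuous_gal (σ : PadicAlgCl p ≃ₐ[ℚ_[p]] PadicAlgCl p) : Continuous σ :=
  (AddMonoidHomClass.isometry_of_norm σ (norm_gal σ)).continuous

/-- uniqueness of the Iwasawa logarithm -/
theorem log_unique {L L' : PadicAlgCl p → PadicAlgCl p} (hL : IsIwasawaLog p L)
    (hL' : IsIwasawaLog p L') {x : PadicAlgCl p} (hx : x ≠ 0) : L x = L' x := by
  have hpne : (p : PadicAlgCl p) ≠ 0 := Nat.cast_ne_zero.2 hp.out.ne_zero
  obtain ⟨N, hN, a, ha⟩ := exists_norm_pow p x hx
  obtain ⟨M, hM, hM2⟩ := exists_pow_near p (x ^ N * (p : PadicAlgCl p) ^ a) ha 1 one_pos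
  set v := x ^ N * (p : PadicAlgCl p) ^ a with hv
  have hv0 : v ≠ 0 := mul_ne_zero (pow_ne_zero _ hx) (zpow_ne_zero _ hpne)
  have key : ∀ l : PadicAlgCl p → PadicAlgCl p, IsIwasawaLog p l →
      l (v ^ M) = ((M * N : ℕ) : PadicAlgCl p) * l x := by
    intro l hl
    rw [hl.pow hv0, hv, hl.mul _ _ (pow_ne_zero _ hx) (zpow_ne_zero _ hpne), hl.pow hx,
      hl.zpow hpne, hl.prime]
    push_cast
    ring
  have h3 : 1 + (v ^ M - 1) = v ^ M := by ring
  have h1 := hL.ser (v ^ M - 1) hM2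
  have h2 := hL'.ser (v ^ M - 1) hM2
  rw [h3] at h1 h2
  have h4 := h1.unique h2
  rw [key L hL, key L' hL'] at h4
  have hMN : ((M * N : ℕ) : PadicAlgCl p) ≠ 0 := by
    have : M * N ≠ 0 := Nat.mul_ne_zero (by omega) (by omega)
    exact_mod_cast this
  exact mul_left_cancel₀ hMN h4

/-- the logarithm commutes with the Galois action -/
theorem log_gal {L : PadicAlgCl p → PadicAlgCl p} (hL : IsIwasawaLog p L)
    (σ : PadicAlgCl p ≃ₐ[ℚ_[p]] PadicAlgCl p) {x : PadicAlgCl p} (hx : x ≠ 0) :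
    L (σ x) = σ (L x) := by
  have h : IsIwasawaLog p (fun y => σ (L (σ.symm y))) := by
    refine ⟨fun y z hy hz => ?_, ?_, fun z hz => ?_⟩
    · simp only [map_mul]
      rw [hL.mul _ _ ((map_ne_zero σ.symm).2 hy) ((map_ne_zero σ.symm).2 hz), map_add]
    · simp only [map_natCast]
      rw [hL.prime, map_zero]
    · have hz' : ‖σ.symm z‖ < 1 := by rw [norm_gal]; exact hz
      have h1 := (hL.ser _ hz').map (σ : PadicAlgCl p →+ PadicAlgCl p) (continuous_gal σ)
      have h2 : σ.symm (1 + z) = 1 + σ.symm z := by rw [map_add, map_one]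
      simp only [h2]
      have h3 : (fun n : ℕ => (-1 : PadicAlgCl p) ^ n * z ^ (n + 1) / ((n : PadicAlgCl p) + 1)) =
          (σ : PadicAlgCl p →+ PadicAlgCl p) ∘ fun n : ℕ =>
            (-1 : PadicAlgCl p) ^ n * σ.symm z ^ (n + 1) / ((n : PadicAlgCl p) + 1) := by
        funext n
        simp [map_div₀]
      rw [h3]
      exact h1
  have h1 := log_unique hL h ((map_ne_zero σ).2 hx)
  simpa using h1

theorem logforms_gal {L : PadicAlgCl p → PadicAlgCl p} (hL : IsIwasawaLog p L)
    (σ : PadicAlgCl p ≃ₐ[ℚ_[p]] PadicAlgCl p) {y : PadicAlgCl p} (hy : y ∈ LtE (logs L)) :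
    σ y ∈ LtE (logs L) := by
  unfold LtE at hy
  refine Submodule.span_induction (p := fun z _ => σ z ∈ LtE (logs L)) ?_ ?_ ?_ ?_ hy
  · rintro z (hz | hz)
    · rw [Set.mem_singleton_iff] at hz
      subst hz
      rw [map_one]
      exact Submodule.subset_span (Or.inl rfl)
    · obtain ⟨α, hα, halg, rfl⟩ := hz
      rw [← log_gal hL σ hα]
      exact Submodule.subset_span (Or.inr ⟨σ α, (map_ne_zero σ).2 hα,
        alg_map halg ((σ : PadicAlgCl p →ₐ[ℚ_[p]] PadicAlgCl p) : PadicAlgCl p →+* PadicAlgCl p),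
        rfl⟩)
  · rw [map_zero]
    exact Submodule.zero_mem _
  · intro z z' _ _ h h'
    rw [map_add]
    exact Submodule.add_mem _ h h'
  · intro a z _ h
    rw [smul_def', map_mul]
    exact Submodule.smul_mem _ (⟨σ a, mem_QB.2 (alg_map (mem_QB.1 a.2)
      ((σ : PadicAlgCl p →ₐ[ℚ_[p]] PadicAlgCl p) : PadicAlgCl p →+* PadicAlgCl p))⟩ : QB p) h

/-- the numbers `y` in the space `V` such that `s y` is in `V` -/
noncomputable def YS (V : Submodule (QB p) (PadicAlgCl p)) (s : PadicAlgCl p) :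
    Submodule (QB p) (PadicAlgCl p) := V ⊓ V.comap (LinearMap.mulLeft (QB p) s)

theorem mem_YS {V : Submodule (QB p) (PadicAlgCl p)} {s y : PadicAlgCl p} :
    y ∈ YS V s ↔ y ∈ V ∧ s * y ∈ V := Iff.rfl

/-- consequence of the strong six exponentials theorem -/
theorem card_le_two {L : PadicAlgCl p → PadicAlgCl p} (hL : IsIwasawaLog p L) {s : PadicAlgCl p}
    (hs : ¬ IsAlgebraic ℚ s) {l : ℕ} (y : Fin l → PadicAlgCl p)
    (hy : LinearIndependent (QB p) y) (hyY : ∀ i, y i ∈ YS (LtE (logs L)) s) : l ≤ 2 := by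
  have h := hyp_padic hL 2 l ![s, -1] ![y, fun i => s * y i] ?_ ?_ ?_ ?_
  · simpa using h
  · rw [LinearIndependent.pair_iff]
    intro a b hab
    rw [smul_def', smul_def'] at hab
    have hb : (b : PadicAlgCl p) = a * s := by linear_combination -hab
    have ha : a = 0 := by
      by_contra hne
      apply hs
      have hne' : (a : PadicAlgCl p) ≠ 0 := by
        intro h0
        exact hne (Subtype.ext h0)
      have : s = (a : PadicAlgCl p)⁻¹ * b := by
        rw [hb]; field_simp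
      rw [this]
      exact (mem_QB.1 a.2).inv.mul (mem_QB.1 b.2)
    refine ⟨ha, ?_⟩
    rw [ha] at hb
    exact Subtype.ext (by simpa using hb)
  · intro i j
    fin_cases i
    · exact (mem_YS.1 (hyY j)).1
    · exact (mem_YS.1 (hyY j)).2
  · intro j
    rw [Fin.sum_univ_two]
    simp
  · have h1 : LinearIndependent (QB p) (fun j (_ : Fin 1) => y j) := by
      rw [Fintype.linearIndependent_iff]
      intro g hg
      refine Fintype.linearIndependent_iff.1 hy g ?_
      have := congrFun hg 0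
      simpa using this
    rw [Fintype.linearIndependent_iff]
    intro g hg
    refine Fintype.linearIndependent_iff.1 hy g ?_
    have := congrFun hg 0
    simpa using this

end Pool.Agent.P8H10
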