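import Pool.Agent.P8H10.Gal1

/-!
# Multipliers of the space of `p`-adic linear forms in logarithms and the Galois action
-/

set_option autoImplicit false

namespace Pool.Agent.P8H10

open Module Pool.Agent.W254.PA Polynomial IntermediateField
open Pool.Agent.W245.PB (IsIwasawaLog)

variable {p : ℕ} [hp : Fact p.Prime]

/-- restriction of scalars of an automorphism -/
noncomputable def resQ (F : IntermediateField ℚ_[p] (PadicAlgCl p))
    (σ : PadicAlgCl p ≃ₐ[F] PadicAlgCl p) : PadicAlgCl p ≃ₐ[ℚ_[p]] PadicAlgCl p :=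
  σ.restrictScalars ℚ_[p]

theorem resQ_apply (F : IntermediateField ℚ_[p] (PadicAlgCl p))
    (σ : PadicAlgCl p ≃ₐ[F] PadicAlgCl p) (x : PadicAlgCl p) : resQ F σ x = σ x := rfl

theorem YS_gal {L : PadicAlgCl p → PadicAlgCl p} (hL : IsIwasawaLog p L) {s y : PadicAlgCl p}
    (σ : PadicAlgCl p ≃ₐ[ℚ_[p]] PadicAlgCl p) (hσ : σ s = s) (hy : y ∈ YS (LtE (logs L)) s) :
    σ y ∈ YS (LtE (logs L)) s := by
  rw [mem_YS] at hy ⊢
  refine ⟨logforms_gal hL σ hy.1, ?_⟩
  have := logforms_gal hL σ hy.2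
  rwa [map_mul, hσ] at this

/-- the multipliers are spanned by their elements in `ℚ_p(s)` -/
theorem YS_descent {L : PadicAlgCl p → PadicAlgCl p} (hL : IsIwasawaLog p L) {s y : PadicAlgCl p}
    (hy : y ∈ YS (LtE (logs L)) s) :
    y ∈ Submodule.span (QB p) {z : PadicAlgCl p | z ∈ YS (LtE (logs L)) s ∧ z ∈ ℚ_[p]⟮s⟯} := by
  refine descent ℚ_[p]⟮s⟯ _ (fun σ z hz => ?_) hy
  have h1 : resQ ℚ_[p]⟮s⟯ σ s = s := by
    rw [resQ_apply]
    exact σ.commutes (⟨s, mem_adjoin_simple_self _ _⟩ : ℚ_[p]⟮s⟯)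
  have := YS_gal hL (resQ ℚ_[p]⟮s⟯ σ) h1 hz
  rwa [resQ_apply] at this

/-- semilinearity -/
theorem map_span (σ : PadicAlgCl p ≃ₐ[ℚ_[p]] PadicAlgCl p) (W : Set (PadicAlgCl p))
    {y : PadicAlgCl p} (hy : y ∈ Submodule.span (QB p) W) :
    σ y ∈ Submodule.span (QB p) (σ '' W) := by
  refine Submodule.span_induction (p := fun z _ => σ z ∈ Submodule.span (QB p) (σ '' W))
    ?_ ?_ ?_ ?_ hy
  · intro z hz
    exact Submodule.subset_span ⟨z, hz, rfl⟩
  · rw [map_zero]
    exact Submodule.zero_mem _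
  · intro z z' _ _ h h'
    rw [map_add]
    exact Submodule.add_mem _ h h'
  · intro a z _ h
    rw [smul_def', map_mul]
    exact Submodule.smul_mem _ (⟨σ a, mem_QB.2 (alg_map (mem_QB.1 a.2)
      ((σ : PadicAlgCl p →ₐ[ℚ_[p]] PadicAlgCl p) : PadicAlgCl p →+* PadicAlgCl p))⟩ : QB p) h

open scoped Classical in
/-- all conjugates of the multipliers lie in a space of bounded dimension -/
theorem conj_mem {L : PadicAlgCl p → PadicAlgCl p} (hL : IsIwasawaLog p L) (s : PadicAlgCl p) :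
    ∃ g : PadicAlgCl p → (PadicAlgCl p ≃ₐ[ℚ_[p]] PadicAlgCl p),
      ∀ W : Finset (PadicAlgCl p), YS (LtE (logs L)) s ≤ Submodule.span (QB p) (W : Set _) →
      ∀ y ∈ YS (LtE (logs L)) s, ∀ σ : PadicAlgCl p ≃ₐ[ℚ_[p]] PadicAlgCl p,
        σ y ∈ Submodule.span (QB p)
          ((((minpoly ℚ_[p] s).rootSet (PadicAlgCl p)).toFinset.biUnion
            fun r => W.image (g r) : Finset (PadicAlgCl p)) : Set (PadicAlgCl p)) := by
  have hint : IsIntegral ℚ_[p] s := Algebra.IsIntegral.isIntegral s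
  have h : ∀ r : PadicAlgCl p, ∃ σ : PadicAlgCl p ≃ₐ[ℚ_[p]] PadicAlgCl p,
      r ∈ (minpoly ℚ_[p] s).rootSet (PadicAlgCl p) → σ s = r := by
    intro r
    by_cases hr : r ∈ (minpoly ℚ_[p] s).rootSet (PadicAlgCl p)
    · have h1 : IsConjRoot ℚ_[p] s r := by
        rw [isConjRoot_iff_mem_minpoly_rootSet hint]
        exact hr
      obtain ⟨σ, hσ⟩ := isConjRoot_iff_exists_algEquiv.1 h1
      refine ⟨σ.symm, fun _ => ?_⟩
      rw [← hσ]
      simp
    · exact ⟨AlgEquiv.refl, fun h => absurd h hr⟩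
  choose g hg using h
  refine ⟨g, fun W hW y hy σ => ?_⟩
  have hr : σ s ∈ (minpoly ℚ_[p] s).rootSet (PadicAlgCl p) := by
    rw [← isConjRoot_iff_mem_minpoly_rootSet hint]
    exact isConjRoot_iff_exists_algEquiv.2 ⟨σ.symm, by simp⟩
  have hgr := hg _ hr
  set τ : PadicAlgCl p ≃ₐ[ℚ_[p]] PadicAlgCl p := σ.trans (g (σ s)).symm with hτ
  have hτs : τ s = s := by
    rw [hτ, AlgEquiv.trans_apply, AlgEquiv.symm_apply_eq]
    exact hgr.symm
  have h1 : τ y ∈ Submodule.span (QB p) (W : Set _) := hW (YS_gal hL τ hτs hy)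
  have h2 := map_span (g (σ s)) _ h1
  have h3 : g (σ s) (τ y) = σ y := by
    rw [hτ, AlgEquiv.trans_apply, AlgEquiv.apply_symm_apply]
  rw [h3] at h2
  refine Submodule.span_mono ?_ h2
  rintro z ⟨w, hw, rfl⟩
  rw [Finset.mem_coe, Finset.mem_biUnion]
  exact ⟨σ s, Set.mem_toFinset.2 hr, Finset.mem_image.2 ⟨w, hw, rfl⟩⟩

open scoped Classical in
theorem card_conj (s : PadicAlgCl p) :
    ((minpoly ℚ_[p] s).rootSet (PadicAlgCl p)).toFinset.card = (minpoly ℚ_[p] s).natDegree := by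
  have hint : IsIntegral ℚ_[p] s := Algebra.IsIntegral.isIntegral s
  rw [Set.toFinset_card]
  exact Polynomial.card_rootSet_eq_natDegree (minpoly.irreducible hint).separable
    (IsAlgClosed.splits _)

/-- the multipliers of a transcendental number have a spanning set with two elements; if `v ≠ 0` is a
multiplier, it can be chosen as one of them -/
theorem exists_span {L : PadicAlgCl p → PadicAlgCl p} (hL : IsIwasawaLog p L) {s : PadicAlgCl p}
    (hs : ¬ IsAlgebraic ℚ s) {v : PadicAlgCl p} (hv : v ≠ 0) (hvY : v ∈ YS (LtE (logs L)) s) :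
    ∃ w : PadicAlgCl p, YS (LtE (logs L)) s ≤ Submodule.span (QB p) {v, w} := by
  classical
  by_cases h : ∃ w ∈ YS (LtE (logs L)) s, w ∉ Submodule.span (QB p) {v}
  · obtain ⟨w, hw, hwv⟩ := h
    refine ⟨w, fun y hy => ?_⟩
    by_contra hyn
    have h1 : LinearIndependent (QB p) ![y, w, v] := by
      change LinearIndependent (QB p) (Fin.cons y (Fin.cons w ![v] : Fin 2 → PadicAlgCl p) :
        Fin 3 → PadicAlgCl p)
      rw [linearIndependent_finCons, linearIndependent_finCons]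
      refine ⟨⟨?_, ?_⟩, ?_⟩
      · rw [linearIndependent_unique_iff]
        exact hv
      · simpa using hwv
      · have h3 : Set.range (Fin.cons w ![v] : Fin 2 → PadicAlgCl p) = {v, w} := by
          change Set.range ![w, v] = _
          simp [Set.pair_comm]
        rw [h3]
        exact hyn
    have h2 := card_le_two hL hs ![y, w, v] h1 (by
      intro i
      fin_cases i
      · exact hy
      · exact hw
      · exact hvY)
    omega
  · push Not at h
    refine ⟨0, fun y hy => ?_⟩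
    exact Submodule.span_mono (by simp) (h y hy)

theorem card_le_of_mem {l : ℕ} (f : Fin l → PadicAlgCl p) (hf : LinearIndependent (QB p) f)
    (W : Finset (PadicAlgCl p)) (h : ∀ i, f i ∈ Submodule.span (QB p) (W : Set _)) :
    l ≤ W.card := by
  have h1 := linearIndependent_le_span' f hf (W : Set (PadicAlgCl p)) (by
    rintro _ ⟨i, rfl⟩
    exact h i)
  simpa using h1

/-- **the degree of a multiplier** -/
theorem card_conj_le {L : PadicAlgCl p → PadicAlgCl p} (hL : IsIwasawaLog p L) {s y : PadicAlgCl p}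
    (hs : ¬ IsAlgebraic ℚ s) (hy : y ∈ YS (LtE (logs L)) s) {l : ℕ}
    (σ : Fin l → (PadicAlgCl p ≃ₐ[ℚ_[p]] PadicAlgCl p))
    (hli : LinearIndependent (QB p) fun i => σ i y) :
    l ≤ 2 * (minpoly ℚ_[p] s).natDegree := by
  classical
  rcases Nat.eq_zero_or_pos l with hl | hl
  · omega
  have hy0 : y ≠ 0 := by
    rintro rfl
    exact hli.ne_zero ⟨0, hl⟩ (map_zero _)
  obtain ⟨w, hw⟩ := exists_span hL hs hy0 hy
  obtain ⟨g, hg⟩ := conj_mem hL s
  have h1 := card_le_of_mem _ hli _ (fun i => hg {y, w} (by simpa using hw) y hy (σ i))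
  refine h1.trans (Finset.card_biUnion_le.trans ?_)
  calc ∑ r ∈ ((minpoly ℚ_[p] s).rootSet (PadicAlgCl p)).toFinset,
        (Finset.image (g r) {y, w}).card
      ≤ ∑ r ∈ ((minpoly ℚ_[p] s).rootSet (PadicAlgCl p)).toFinset, 2 :=
        Finset.sum_le_sum fun r _ => Finset.card_image_le.trans Finset.card_le_two
    _ = 2 * (minpoly ℚ_[p] s).natDegree := by
        rw [Finset.sum_const, card_conj, smul_eq_mul, mul_comm]

/-- **products**: if `1` is a multiplier -/
theorem card_conj_le_one {L : PadicAlgCl p → PadicAlgCl p} (hL : IsIwasawaLog p L)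
    {s y : PadicAlgCl p} (hs : ¬ IsAlgebraic ℚ s) (h1s : (1 : PadicAlgCl p) ∈ YS (LtE (logs L)) s)
    (hy : y ∈ YS (LtE (logs L)) s) {l : ℕ}
    (σ : Fin l → (PadicAlgCl p ≃ₐ[ℚ_[p]] PadicAlgCl p))
    (hli : LinearIndependent (QB p)
      (Fin.cons 1 fun i => σ i y : Fin (l + 1) → PadicAlgCl p)) :
    l ≤ (minpoly ℚ_[p] s).natDegree := by
  classical
  obtain ⟨w, hw⟩ := exists_span hL hs one_ne_zero h1s
  obtain ⟨g, hg⟩ := conj_mem hL s
  have hsub : (((minpoly ℚ_[p] s).rootSet (PadicAlgCl p)).toFinset.biUnion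
      fun r => Finset.image (g r) {1, w}) ⊆
      insert 1 (((minpoly ℚ_[p] s).rootSet (PadicAlgCl p)).toFinset.image fun r => g r w) := by
    intro z hz
    rw [Finset.mem_biUnion] at hz
    obtain ⟨r, hr, hz⟩ := hz
    rw [Finset.mem_image] at hz
    obtain ⟨v, hv, rfl⟩ := hz
    rw [Finset.mem_insert, Finset.mem_singleton] at hv
    rcases hv with rfl | rfl
    · simp
    · exact Finset.mem_insert_of_mem (Finset.mem_image.2 ⟨r, hr, rfl⟩)
  have h1 := card_le_of_mem _ hli
    (insert 1 (((minpoly ℚ_[p] s).rootSet (PadicAlgCl p)).toFinset.image fun r => g r w)) (by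
      intro i
      refine Fin.cases ?_ (fun j => ?_) i
      · rw [Fin.cons_zero]
        exact Submodule.subset_span (by simp)
      · rw [Fin.cons_succ]
        refine Submodule.span_mono ?_ (hg {1, w} (by simpa using hw) y hy (σ j))
        exact_mod_cast hsub)
  have h2 := (Finset.card_insert_le (1 : PadicAlgCl p)
    (((minpoly ℚ_[p] s).rootSet (PadicAlgCl p)).toFinset.image fun r => g r w))
  have h3 : (((minpoly ℚ_[p] s).rootSet (PadicAlgCl p)).toFinset.image fun r => g r w).card ≤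
      (minpoly ℚ_[p] s).natDegree := by
    rw [← card_conj]
    exact Finset.card_image_le
  omega

end Pool.Agent.P8H10
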