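import Pool.Agent.P8H10.Gal2

/-!
# Multiplicatively independent numbers and their `p`-adic logarithms; products of two logarithms
-/

set_option autoImplicit false

namespace Pool.Agent.P8H10

open Module Pool.Agent.W254.PA Polynomial IntermediateField NormedSpace
open Pool.Agent.W245.PB (IsIwasawaLog)

variable {p : ℕ} [hp : Fact p.Prime]

theorem p_ne (p : ℕ) [hp : Fact p.Prime] : (p : PadicAlgCl p) ≠ 0 :=
  Nat.cast_ne_zero.2 hp.out.ne_zero

/-- the kernel of the logarithm -/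
theorem log_kernel {L : PadicAlgCl p → PadicAlgCl p} (hL : IsIwasawaLog p L) {x : PadicAlgCl p}
    (hx : x ≠ 0) (h0 : L x = 0) : ∃ (N : ℕ) (a : ℤ), 1 ≤ N ∧ x ^ N = (p : PadicAlgCl p) ^ a := by
  obtain ⟨δ, hδ, h⟩ := exp_log_near p (ic p) norm_ic L hL.mul 2 (1 / 2) (by norm_num) (by
    intro z hz
    exact log_series_le p hz.le (hL.ser z (by linarith)))
  obtain ⟨N, hN, a, ha⟩ := exists_norm_pow p x hx
  obtain ⟨M, hM, hM2⟩ := exists_pow_near p (x ^ N * (p : PadicAlgCl p) ^ a) ha δ hδ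
  set v := x ^ N * (p : PadicAlgCl p) ^ a with hv
  have hv0 : v ≠ 0 := mul_ne_zero (pow_ne_zero _ hx) (zpow_ne_zero _ (p_ne p))
  have hLv : L (v ^ M) = 0 := by
    rw [hL.pow hv0, hv, hL.mul _ _ (pow_ne_zero _ hx) (zpow_ne_zero _ (p_ne p)), hL.pow hx,
      hL.zpow (p_ne p), hL.prime, h0]
    simp
  obtain ⟨-, h2⟩ := h (v ^ M - 1) hM2
  have h3 : 1 + (v ^ M - 1) = v ^ M := by ring
  rw [h3, hLv, map_zero, exp_zero] at h2
  have h4 : ic p (v ^ M - 1) = 0 := left_eq_add.mp h2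
  have h5 : v ^ M = 1 := sub_eq_zero.mp ((map_eq_zero (ic p)).mp h4)
  refine ⟨N * M, -(a * M), Nat.mul_pos hN hM, ?_⟩
  rw [hv, mul_pow, ← pow_mul, ← zpow_natCast ((p : PadicAlgCl p) ^ a) M, ← zpow_mul] at h5
  rw [zpow_neg]
  exact eq_inv_of_mul_eq_one_left h5

/-- the logarithms of numbers which are, together with `p`, multiplicatively independent -/
theorem indep_of_mult {L : PadicAlgCl p → PadicAlgCl p} (hL : IsIwasawaLog p L) {l : ℕ}
    (α : Fin l → PadicAlgCl p) (hα : ∀ i, α i ≠ 0)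
    (hm : ∀ (n : Fin l → ℤ) (a : ℤ), ∏ i, α i ^ n i = (p : PadicAlgCl p) ^ a → n = 0) :
    LinearIndependent ℚ fun i => L (α i) := by
  classical
  rw [Fintype.linearIndependent_iff]
  intro z hz i
  -- common denominators
  let D : ℕ := ∏ j, (z j).den
  have hD : (D : ℚ) ≠ 0 := by
    have : D ≠ 0 := Finset.prod_ne_zero_iff.2 fun j _ => (z j).den_pos.ne'
    exact_mod_cast this
  let m : Fin l → ℤ := fun j => (∏ i ∈ Finset.univ.erase j, ((z i).den : ℤ)) * (z j).num
  have hmz : ∀ j, (m j : ℚ) = D * z j := by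
    intro j
    simp only [m, D]
    rw [← Finset.prod_erase_mul _ _ (Finset.mem_univ j)]
    push_cast
    have h1 := Rat.mul_den_eq_num (z j)
    rw [← h1]
    ring
  have h1 : L (∏ i, α i ^ m i) = 0 := by
    rw [hL.prod _ _ (fun j _ => zpow_ne_zero _ (hα j))]
    have h2 : ∀ j, L (α j ^ m j) = (D : PadicAlgCl p) * (z j • L (α j)) := by
      intro j
      rw [hL.zpow (hα j), Algebra.smul_def]
      have : ((m j : ℤ) : PadicAlgCl p) = (D : PadicAlgCl p) * (algebraMap ℚ (PadicAlgCl p)) (z j) := by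
        have h3 := congrArg (algebraMap ℚ (PadicAlgCl p)) (hmz j)
        simpa using h3
      rw [this]
      ring
    simp only [h2]
    rw [← Finset.mul_sum, hz, mul_zero]
  obtain ⟨N, a, hN, hNa⟩ := log_kernel hL (Finset.prod_ne_zero_iff.2 fun j _ =>
    zpow_ne_zero _ (hα j)) h1
  have h2 := hm (fun j => m j * N) a (by
    rw [← hNa, ← Finset.prod_pow]
    refine Finset.prod_congr rfl fun j _ => ?_
    rw [zpow_mul, zpow_natCast])
  have h3 := congrFun h2 i
  simp only [Pi.zero_apply, mul_eq_zero] at h3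
  have h4 : m i = 0 := by
    rcases h3 with h | h
    · exact h
    · have : N = 0 := by exact_mod_cast h
      omega
  have h5 := hmz i
  rw [h4] at h5
  have h6 : (D : ℚ) * z i = 0 := by rw [← h5]; simp
  exact (mul_eq_zero.1 h6).resolve_left hD

theorem indep_cons {L : PadicAlgCl p → PadicAlgCl p} (hL : IsIwasawaLog p L) {l : ℕ}
    (α : Fin l → PadicAlgCl p) (hα : ∀ i, α i ≠ 0) (halg : ∀ i, IsAlgebraic ℚ (α i))
    (hli : LinearIndependent ℚ fun i => L (α i)) :
    LinearIndependent (QB p) (Fin.cons 1 fun i => L (α i) : Fin (l + 1) → PadicAlgCl p) := by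
  have h := optP_indep hL α hα halg hli
  have h1 := h.comp (finSuccEquiv l) (finSuccEquiv l).injective
  have h2 : ((fun o : Option (Fin l) => o.elim 1 (fun i => L (α i))) ∘ (finSuccEquiv l)) =
      (Fin.cons 1 fun i => L (α i) : Fin (l + 1) → PadicAlgCl p) := by
    funext i
    refine Fin.cases ?_ (fun j => ?_) i
    · simp
    · simp
  rw [h2] at h1
  exact h1

/-- the degree of the logarithm is at most the degree of the number -/
theorem natDegree_log_le {L : PadicAlgCl p → PadicAlgCl p} (hL : IsIwasawaLog p L)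
    {β : PadicAlgCl p} (hβ : β ≠ 0) :
    (minpoly ℚ_[p] (L β)).natDegree ≤ (minpoly ℚ_[p] β).natDegree := by
  classical
  rw [← card_conj, ← card_conj]
  have h : ((minpoly ℚ_[p] (L β)).rootSet (PadicAlgCl p)).toFinset ⊆
      ((minpoly ℚ_[p] β).rootSet (PadicAlgCl p)).toFinset.image L := by
    intro z hz
    rw [Set.mem_toFinset, ← isConjRoot_iff_mem_minpoly_rootSet
      (Algebra.IsIntegral.isIntegral (L β))] at hz
    obtain ⟨σ, hσ⟩ := isConjRoot_iff_exists_algEquiv.1 hz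
    rw [Finset.mem_image]
    refine ⟨σ.symm β, ?_, ?_⟩
    · rw [Set.mem_toFinset, ← isConjRoot_iff_mem_minpoly_rootSet
        (Algebra.IsIntegral.isIntegral β)]
      exact isConjRoot_iff_exists_algEquiv.2 ⟨σ, by simp⟩
    · rw [log_gal hL σ.symm hβ, ← hσ]
      simp
  exact (Finset.card_le_card h).trans Finset.card_image_le

/-- **products of two logarithms** -/
theorem product_not_mem {L : PadicAlgCl p → PadicAlgCl p} (hL : IsIwasawaLog p L)
    {α β : PadicAlgCl p} (hα : α ≠ 0) (hβ : β ≠ 0) (halg : IsAlgebraic ℚ α)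
    (hbalg : IsAlgebraic ℚ β) (hLβ : L β ≠ 0) {l : ℕ}
    (hl : (minpoly ℚ_[p] β).natDegree < l)
    (σ : Fin l → (PadicAlgCl p ≃ₐ[ℚ_[p]] PadicAlgCl p))
    (hm : ∀ (n : Fin l → ℤ) (a : ℤ), ∏ i, (σ i α) ^ n i = (p : PadicAlgCl p) ^ a → n = 0) :
    L α * L β ∉ LtE (logs L) := by
  intro hmem
  have hσα : ∀ i, σ i α ≠ 0 := fun i => (map_ne_zero (σ i)).2 hα
  have h1 := indep_cons hL (fun i => σ i α) hσα
    (fun i => alg_map halg
      ((σ i : PadicAlgCl p →ₐ[ℚ_[p]] PadicAlgCl p) : PadicAlgCl p →+* PadicAlgCl p))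
    (indep_of_mult hL _ hσα hm)
  have h2 : (fun i => L (σ i α)) = fun i => σ i (L α) := by
    funext i
    exact log_gal hL (σ i) hα
  rw [h2] at h1
  have h3 := card_conj_le_one hL (log_transcendentalP hL hβ hbalg hLβ)
    (s := L β) (y := L α) (mem_YS.2 ⟨one_memP, by rw [mul_one]; exact log_memP hβ hbalg⟩)
    (mem_YS.2 ⟨log_memP hα halg, by rw [mul_comm]; exact hmem⟩) σ h1
  have h4 := natDegree_log_le hL hβ
  omega

end Pool.Agent.P8H10
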