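import Pool.Agent.P8H10.Gal3

/-!
# Counterexamples to the strong four exponentials conjecture and the Galois action
-/

set_option autoImplicit false

namespace Pool.Agent.P8H10

open Module Pool.Agent.W254.PA Polynomial IntermediateField
open Pool.Agent.W245.PB (IsIwasawaLog)

variable {p : ℕ} [hp : Fact p.Prime]

/-- counterexamples with entries in `V` -/
def IsCtr (V : Submodule (QB p) (PadicAlgCl p)) (M : Matrix (Fin 2) (Fin 2) (PadicAlgCl p)) :
    Prop :=
  (∀ i j, M i j ∈ V) ∧ LinearIndependent (QB p) M.row ∧ LinearIndependent (QB p) M.col ∧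
    M.det = 0

theorem not_alg_pair {x y : PadicAlgCl p} (hx : x ≠ 0) (h : ∀ c d : QB p,
    (c : PadicAlgCl p) * x + d * y = 0 → c = 0 ∧ d = 0) : ¬ IsAlgebraic ℚ (y / x) := by
  intro halg
  have h1 := h (⟨y / x, mem_QB.2 halg⟩ : QB p) (-1) (by
    push_cast
    field_simp
    ring)
  have h2 := h1.2
  rw [neg_eq_zero] at h2
  exact one_ne_zero h2

theorem pair_indep_of {s : PadicAlgCl p} (hs : ¬ IsAlgebraic ℚ s) {c d : QB p}
    (h : (c : PadicAlgCl p) + d * s = 0) : c = 0 ∧ d = 0 := by
  have hd : d = 0 := by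
    by_contra hne
    have hne' : (d : PadicAlgCl p) ≠ 0 := fun h0 => hne (Subtype.ext h0)
    apply hs
    have : s = -((c : PadicAlgCl p) * (d : PadicAlgCl p)⁻¹) := by
      field_simp
      linear_combination h
    rw [this]
    exact ((mem_QB.1 c.2).mul (mem_QB.1 d.2).inv).neg
  refine ⟨?_, hd⟩
  rw [hd] at h
  exact Subtype.ext (by simpa using h)

theorem ctr_data {V : Submodule (QB p) (PadicAlgCl p)} {M : Matrix (Fin 2) (Fin 2) (PadicAlgCl p)}
    (h : IsCtr V M) : (∀ i j, M i j ≠ 0) ∧ (∀ i, LinearIndependent (QB p) (M i)) ∧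
      ∀ s : PadicAlgCl p, (∀ j, M 1 j = s * M 0 j) → ¬ IsAlgebraic ℚ s := by
  obtain ⟨hV, hr, hc, hdet⟩ := h
  rw [Matrix.det_fin_two] at hdet
  rw [Fintype.linearIndependent_iff] at hr hc
  have hr' : ∀ c d : QB p, (∀ j, (c : PadicAlgCl p) * M 0 j + d * M 1 j = 0) → c = 0 ∧ d = 0 := by
    intro c d hcd
    have h1 := hr ![c, d] (by
      funext j
      simp [Fin.sum_univ_two, Matrix.row, smul_def', hcd j])
    exact ⟨h1 0, h1 1⟩
  have hc' : ∀ c d : QB p, (∀ i, (c : PadicAlgCl p) * M i 0 + d * M i 1 = 0) → c = 0 ∧ d = 0 := by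
    intro c d hcd
    have h1 := hc ![c, d] (by
      funext j
      simp [Fin.sum_univ_two, Matrix.col, smul_def', hcd j])
    exact ⟨h1 0, h1 1⟩
  have hrow : ∀ i, ∃ j, M i j ≠ 0 := by
    intro i
    by_contra hcon
    push Not at hcon
    fin_cases i
    · exact one_ne_zero (hr' 1 0 (fun j => by simpa using hcon j)).1
    · exact one_ne_zero (hr' 0 1 (fun j => by simpa using hcon j)).2
  have hcol : ∀ j, ∃ i, M i j ≠ 0 := by
    intro j
    by_contra hcon
    push Not at hcon
    fin_cases j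
    · exact one_ne_zero (hc' 1 0 (fun i => by simpa using hcon i)).1
    · exact one_ne_zero (hc' 0 1 (fun i => by simpa using hcon i)).2
  -- all entries are nonzero
  have hall : ∀ i j, M i j ≠ 0 := by
    have e : M 0 0 * M 1 1 = M 0 1 * M 1 0 := by linear_combination hdet
    have key : (M 0 0 ≠ 0 ∧ M 1 1 ≠ 0) ∧ (M 0 1 ≠ 0 ∧ M 1 0 ≠ 0) := by
      obtain ⟨i0, h0⟩ := hrow 0
      obtain ⟨i1, h1⟩ := hrow 1
      obtain ⟨j0, g0⟩ := hcol 0
      obtain ⟨j1, g1⟩ := hcol 1
      by_cases hz : M 0 0 * M 1 1 = 0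
      · exfalso
        have hz' : M 0 1 * M 1 0 = 0 := by rw [← e]; exact hz
        rcases mul_eq_zero.1 hz with a | a <;> rcases mul_eq_zero.1 hz' with b | b
        · fin_cases i0
          · exact h0 a
          · exact h0 b
        · fin_cases j0
          · exact g0 a
          · exact g0 b
        · fin_cases j1
          · exact g1 b
          · exact g1 a
        · fin_cases i1
          · exact h1 b
          · exact h1 a
      · have hz' : M 0 1 * M 1 0 ≠ 0 := by rw [← e]; exact hz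
        exact ⟨mul_ne_zero_iff.1 hz, mul_ne_zero_iff.1 hz'⟩
    intro i j
    fin_cases i <;> fin_cases j
    · exact key.1.1
    · exact key.2.1
    · exact key.2.2
    · exact key.1.2
  have hrat : M 1 1 * M 0 0 = M 1 0 * M 0 1 := by linear_combination hdet
  refine ⟨hall, fun i => ?_, fun s hs halg => ?_⟩
  · have hj : ∀ c d : QB p, (c : PadicAlgCl p) * M i 0 + d * M i 1 = 0 → c = 0 ∧ d = 0 := by
      intro c d hcd
      refine hc' c d fun k => ?_
      have h00 := hall 0 0
      have h10 := hall 1 0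
      have h01 := hall 0 1
      fin_cases i <;> fin_cases k
      · exact hcd
      · simp only [Fin.zero_eta, Fin.mk_one] at hcd ⊢
        have : M 0 0 * ((c : PadicAlgCl p) * M 1 0 + d * M 1 1) = 0 := by
          linear_combination M 1 0 * hcd + (d : PadicAlgCl p) * hrat
        exact (mul_eq_zero.1 this).resolve_left h00
      · simp only [Fin.zero_eta, Fin.mk_one] at hcd ⊢
        have : M 1 0 * ((c : PadicAlgCl p) * M 0 0 + d * M 0 1) = 0 := by
          linear_combination M 0 0 * hcd - (d : PadicAlgCl p) * hrat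
        exact (mul_eq_zero.1 this).resolve_left h10
      · exact hcd
    rw [Fintype.linearIndependent_iff]
    intro g hg
    rw [Fin.sum_univ_two, smul_def', smul_def'] at hg
    have h1 := hj _ _ hg
    intro k
    fin_cases k
    · exact h1.1
    · exact h1.2
  · have h1 := hr' (⟨s, mem_QB.2 halg⟩ : QB p) (-1) (fun j => by
      push_cast
      rw [hs j]
      ring)
    have h2 := h1.2
    rw [neg_eq_zero] at h2
    exact one_ne_zero h2

theorem IsCtr.transpose {V : Submodule (QB p) (PadicAlgCl p)}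
    {M : Matrix (Fin 2) (Fin 2) (PadicAlgCl p)} (h : IsCtr V M) : IsCtr V M.transpose := by
  refine ⟨fun i j => h.1 j i, ?_, ?_, by rw [Matrix.det_transpose]; exact h.2.2.2⟩
  · exact h.2.2.1
  · exact h.2.1

/-- **the descent of counterexamples** -/
theorem ctr_descent {L : PadicAlgCl p → PadicAlgCl p} (hL : IsIwasawaLog p L)
    {M : Matrix (Fin 2) (Fin 2) (PadicAlgCl p)} (h : IsCtr (LtE (logs L)) M) {s : PadicAlgCl p}
    (hs : ∀ j, M 1 j = s * M 0 j) :
    ∃ B : Matrix (Fin 2) (Fin 2) (QB p), B.det ≠ 0 ∧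
      IsCtr (LtE (logs L)) (M * B.map (algebraMap (QB p) (PadicAlgCl p))) ∧
      ∀ i j, (M * B.map (algebraMap (QB p) (PadicAlgCl p))) i j ∈ ℚ_[p]⟮s⟯ := by
  obtain ⟨hall, hli, hsalg⟩ := ctr_data h
  have hs' := hsalg s hs
  have hs0 : s ≠ 0 := by
    rintro rfl
    exact hs' isAlgebraic_zero
  have hY : ∀ j, M 0 j ∈ YS (LtE (logs L)) s := fun j =>
    mem_YS.2 ⟨h.1 0 j, by rw [← hs j]; exact h.1 1 j⟩
  -- the multipliers are spanned by the first row
  have hspan : ∀ y ∈ YS (LtE (logs L)) s, ∃ c d : QB p,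
      (c : PadicAlgCl p) * M 0 0 + d * M 0 1 = y := by
    intro y hy
    have h1 : y ∈ Submodule.span (QB p) {M 0 0, M 0 1} := by
      by_contra hyn
      have h1 : LinearIndependent (QB p) ![y, M 0 0, M 0 1] := by
        change LinearIndependent (QB p) (Fin.cons y ![M 0 0, M 0 1] : Fin 3 → PadicAlgCl p)
        rw [linearIndependent_finCons]
        refine ⟨?_, ?_⟩
        · have h2 : ![M 0 0, M 0 1] = M 0 := by
            funext j
            fin_cases j <;> rfl
          rw [h2]
          exact hli 0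
        · rw [Matrix.range_cons_cons_empty]
          exact hyn
      have h2 := card_le_two hL hs' _ h1 (by
        intro i
        fin_cases i
        · exact hy
        · exact hY 0
        · exact hY 1)
      omega
    rw [Submodule.mem_span_pair] at h1
    obtain ⟨c, d, hcd⟩ := h1
    exact ⟨c, d, hcd⟩
  set Z : Set (PadicAlgCl p) := {z | z ∈ YS (LtE (logs L)) s ∧ z ∈ ℚ_[p]⟮s⟯} with hZ
  have hdesc : ∀ y ∈ YS (LtE (logs L)) s, y ∈ Submodule.span (QB p) Z := fun y hy =>
    YS_descent hL hy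
  -- first vector
  have hz1 : ∃ z1 ∈ Z, z1 ≠ 0 := by
    by_contra hcon
    push Not at hcon
    have h1 : Submodule.span (QB p) Z ≤ ⊥ := by
      rw [Submodule.span_le]
      intro z hz
      exact hcon z hz
    exact hall 0 0 ((Submodule.mem_bot _).1 (h1 (hdesc _ (hY 0))))
  obtain ⟨z1, hz1, hz10⟩ := hz1
  have hz2 : ∃ z2 ∈ Z, z2 ∉ Submodule.span (QB p) {z1} := by
    by_contra hcon
    push Not at hcon
    have h1 : Submodule.span (QB p) Z ≤ Submodule.span (QB p) {z1} := by
      rw [Submodule.span_le]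
      intro z hz
      exact hcon z hz
    have h2 := h1 (hdesc _ (hY 0))
    have h3 := h1 (hdesc _ (hY 1))
    rw [Submodule.mem_span_singleton] at h2 h3
    obtain ⟨a, ha⟩ := h2
    obtain ⟨b, hb⟩ := h3
    have h4 := Fintype.linearIndependent_iff.1 (hli 0) ![b, -a] (by
      rw [Fin.sum_univ_two]
      simp only [Matrix.cons_val_zero, Matrix.cons_val_one, smul_def'] at *
      rw [← ha, ← hb]
      push_cast
      ring)
    have h5 := h4 1
    simp only [Matrix.cons_val_one, Matrix.cons_val_fin_one, neg_eq_zero] at h5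
    rw [h5] at ha
    exact hall 0 0 (by rw [← ha]; simp)
  obtain ⟨z2, hz2, hz2n⟩ := hz2
  obtain ⟨c1, d1, e1⟩ := hspan z1 hz1.1
  obtain ⟨c2, d2, e2⟩ := hspan z2 hz2.1
  have hind : ∀ c d : QB p, (c : PadicAlgCl p) * z1 + d * z2 = 0 → c = 0 ∧ d = 0 := by
    intro c d hcd
    have hd : d = 0 := by
      by_contra hne
      have hne' : (d : PadicAlgCl p) ≠ 0 := fun h0 => hne (Subtype.ext h0)
      apply hz2n
      rw [Submodule.mem_span_singleton]
      refine ⟨-(d⁻¹ * c), ?_⟩
      rw [smul_def']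
      push_cast
      field_simp
      linear_combination -hcd
    refine ⟨?_, hd⟩
    rw [hd] at hcd
    have : (c : PadicAlgCl p) * z1 = 0 := by simpa using hcd
    exact Subtype.ext ((mul_eq_zero.1 this).resolve_right hz10)
  have hM0 : ∀ i j, (M * (!![c1, c2; d1, d2] : Matrix (Fin 2) (Fin 2) (QB p)).map
      (algebraMap (QB p) (PadicAlgCl p))) i j = ![1, s] i * ![z1, z2] j := by
    intro i j
    rw [Matrix.mul_apply, Fin.sum_univ_two]
    fin_cases i <;> fin_cases j
    · simp only [Fin.zero_eta, Fin.mk_one, Matrix.map_apply, Matrix.of_apply, Matrix.cons_val',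
        Matrix.cons_val_zero, Matrix.cons_val_one, Matrix.cons_val_fin_one, one_mul]
      rw [← e1]
      change M 0 0 * (c1 : PadicAlgCl p) + M 0 1 * (d1 : PadicAlgCl p) = _
      ring
    · simp only [Fin.zero_eta, Fin.mk_one, Matrix.map_apply, Matrix.of_apply, Matrix.cons_val',
        Matrix.cons_val_zero, Matrix.cons_val_one, Matrix.cons_val_fin_one, one_mul]
      rw [← e2]
      change M 0 0 * (c2 : PadicAlgCl p) + M 0 1 * (d2 : PadicAlgCl p) = _
      ring
    · simp only [Fin.zero_eta, Fin.mk_one, Matrix.map_apply, Matrix.of_apply, Matrix.cons_val',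
        Matrix.cons_val_zero, Matrix.cons_val_one, Matrix.cons_val_fin_one, one_mul]
      rw [← e1, hs 0, hs 1]
      change s * M 0 0 * (c1 : PadicAlgCl p) + s * M 0 1 * (d1 : PadicAlgCl p) = _
      ring
    · simp only [Fin.zero_eta, Fin.mk_one, Matrix.map_apply, Matrix.of_apply, Matrix.cons_val',
        Matrix.cons_val_zero, Matrix.cons_val_one, Matrix.cons_val_fin_one, one_mul]
      rw [← e2, hs 0, hs 1]
      change s * M 0 0 * (c2 : PadicAlgCl p) + s * M 0 1 * (d2 : PadicAlgCl p) = _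
      ring
  refine ⟨!![c1, c2; d1, d2], ?_, ⟨?_, ?_, ?_, ?_⟩, ?_⟩
  · -- the determinant of `B`
    rw [Matrix.det_fin_two_of]
    intro hdet
    have hdet' : (c1 : PadicAlgCl p) * d2 - c2 * d1 = 0 := by
      have := congrArg (algebraMap (QB p) (PadicAlgCl p)) hdet
      simpa using this
    have ha := hind c2 (-c1) (by
      push_cast
      rw [← e1, ← e2]
      linear_combination (-M 0 1) * hdet')
    have hb := hind d2 (-d1) (by
      push_cast
      rw [← e1, ← e2]
      linear_combination (M 0 0) * hdet')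
    have hc1 : c1 = 0 := neg_eq_zero.1 ha.2
    have hd1 : d1 = 0 := neg_eq_zero.1 hb.2
    rw [hc1, hd1] at e1
    apply hz10
    rw [← e1]
    simp
  · intro i j
    rw [hM0]
    fin_cases i <;> fin_cases j
    · simpa using (mem_YS.1 hz1.1).1
    · simpa using (mem_YS.1 hz2.1).1
    · simpa using (mem_YS.1 hz1.1).2
    · simpa using (mem_YS.1 hz2.1).2
  · rw [Fintype.linearIndependent_iff]
    intro g hg
    have h0 := congrFun hg 0
    simp only [Matrix.row, Fin.sum_univ_two, Pi.add_apply, Pi.smul_apply, hM0, smul_def',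
      Pi.zero_apply, Matrix.cons_val_zero, Matrix.cons_val_one, Matrix.cons_val_fin_one] at h0
    have h1 : z1 * ((g 0 : PadicAlgCl p) + g 1 * s) = 0 := by linear_combination h0
    have h2 := pair_indep_of hs' ((mul_eq_zero.1 h1).resolve_left hz10)
    intro k
    fin_cases k
    · exact h2.1
    · exact h2.2
  · rw [Fintype.linearIndependent_iff]
    intro g hg
    have h0 := congrFun hg 0
    simp only [Matrix.col, Fin.sum_univ_two, Pi.add_apply, Pi.smul_apply, hM0, smul_def',
      Matrix.transpose_apply,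
      Pi.zero_apply, Matrix.cons_val_zero, Matrix.cons_val_one, Matrix.cons_val_fin_one] at h0
    have h2 := hind (g 0) (g 1) (by linear_combination h0)
    intro k
    fin_cases k
    · exact h2.1
    · exact h2.2
  · rw [Matrix.det_fin_two]
    simp only [hM0, Matrix.cons_val_zero, Matrix.cons_val_one, Matrix.cons_val_fin_one]
    ring
  · intro i j
    rw [hM0]
    have hsF : s ∈ ℚ_[p]⟮s⟯ := mem_adjoin_simple_self _ _
    refine mul_mem ?_ ?_
    · fin_cases i
      · exact one_mem _
      · exact hsF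
    · fin_cases j
      · exact hz1.2
      · exact hz2.2

theorem natDegree_le_finrank (F : IntermediateField ℚ_[p] (PadicAlgCl p))
    [FiniteDimensional ℚ_[p] F] {s : PadicAlgCl p} (hs : s ∈ F) :
    (minpoly ℚ_[p] s).natDegree ≤ finrank ℚ_[p] F := by
  have h := minpoly.natDegree_le (A := ℚ_[p]) (⟨s, hs⟩ : F)
  have h2 : minpoly ℚ_[p] (⟨s, hs⟩ : F) = minpoly ℚ_[p] s :=
    (minpoly.algebraMap_eq (algebraMap F (PadicAlgCl p)).injective (⟨s, hs⟩ : F)).symm
  rwa [h2] at h

/-- **the conjugates of the entries of a counterexample** -/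
theorem ctr_conj {L : PadicAlgCl p → PadicAlgCl p} (hL : IsIwasawaLog p L)
    {M : Matrix (Fin 2) (Fin 2) (PadicAlgCl p)} (h : IsCtr (LtE (logs L)) M) (i j k : Fin 2)
    {l : ℕ} (σ : Fin l → (PadicAlgCl p ≃ₐ[ℚ_[p]] PadicAlgCl p))
    (hli : LinearIndependent (QB p) fun m => σ m (M i j)) :
    l ≤ 2 * finrank ℚ_[p] (IntermediateField.adjoin ℚ_[p] {M 0 k, M 1 k}) := by
  obtain ⟨hall, -, hsalg⟩ := ctr_data h
  have hdet := h.2.2.2
  rw [Matrix.det_fin_two] at hdet
  have e : M 0 0 * M 1 1 = M 0 1 * M 1 0 := by linear_combination hdet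
  have h0k := hall 0 k
  have h1k := hall 1 k
  have hs : ∀ j, M 1 j = (M 1 k / M 0 k) * M 0 j := by
    intro j
    field_simp
    fin_cases j <;> fin_cases k
    · rfl
    · simp only [Fin.zero_eta, Fin.mk_one]
      linear_combination -e
    · simp only [Fin.zero_eta, Fin.mk_one]
      linear_combination e
    · rfl
  have hsna := hsalg _ hs
  have hsna' : ¬ IsAlgebraic ℚ (M 0 k / M 1 k) := by
    intro hcon
    apply hsna
    have := hcon.inv
    rwa [inv_div] at this
  have : FiniteDimensional ℚ_[p] (IntermediateField.adjoin ℚ_[p] {M 0 k, M 1 k}) := by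
    refine IntermediateField.finiteDimensional_adjoin fun x _ => ?_
    exact Algebra.IsIntegral.isIntegral x
  have hm0 : M 0 k ∈ IntermediateField.adjoin ℚ_[p] {M 0 k, M 1 k} :=
    IntermediateField.subset_adjoin _ _ (by simp)
  have hm1 : M 1 k ∈ IntermediateField.adjoin ℚ_[p] {M 0 k, M 1 k} :=
    IntermediateField.subset_adjoin _ _ (by simp)
  fin_cases i
  · have h1 := card_conj_le hL hsna (y := M 0 j)
      (mem_YS.2 ⟨h.1 0 j, by rw [← hs j]; exact h.1 1 j⟩) σ hli
    have h2 := natDegree_le_finrank _ (div_mem hm1 hm0)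
    omega
  · have hs2 : M 0 k / M 1 k * M 1 j = M 0 j := by
      rw [hs j]
      field_simp
    have h1 := card_conj_le hL hsna' (y := M 1 j)
      (mem_YS.2 ⟨h.1 1 j, by rw [hs2]; exact h.1 0 j⟩) σ hli
    have h2 := natDegree_le_finrank _ (div_mem hm0 hm1)
    omega

/-- the conjugates of the entries, in terms of the quotient of the rows -/
theorem ctr_conj_ratio {L : PadicAlgCl p → PadicAlgCl p} (hL : IsIwasawaLog p L)
    {M : Matrix (Fin 2) (Fin 2) (PadicAlgCl p)} (h : IsCtr (LtE (logs L)) M) {s : PadicAlgCl p}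
    (hs : ∀ j, M 1 j = s * M 0 j) (i j : Fin 2)
    {l : ℕ} (σ : Fin l → (PadicAlgCl p ≃ₐ[ℚ_[p]] PadicAlgCl p))
    (hli : LinearIndependent (QB p) fun m => σ m (M i j)) :
    l ≤ 2 * finrank ℚ_[p] ℚ_[p]⟮s⟯ := by
  obtain ⟨hall, -, hsalg⟩ := ctr_data h
  have hsna := hsalg _ hs
  have hs0 : s ≠ 0 := by
    rintro rfl
    exact hsna isAlgebraic_zero
  have hsna' : ¬ IsAlgebraic ℚ s⁻¹ := by
    intro hcon
    apply hsna
    have := hcon.inv
    rwa [inv_inv] at this
  have : FiniteDimensional ℚ_[p] ℚ_[p]⟮s⟯ :=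
    IntermediateField.adjoin.finiteDimensional (Algebra.IsIntegral.isIntegral s)
  have hsF : s ∈ ℚ_[p]⟮s⟯ := mem_adjoin_simple_self _ _
  fin_cases i
  · have h1 := card_conj_le hL hsna (y := M 0 j)
      (mem_YS.2 ⟨h.1 0 j, by rw [← hs j]; exact h.1 1 j⟩) σ hli
    have h2 := natDegree_le_finrank _ hsF
    omega
  · have hs2 : s⁻¹ * M 1 j = M 0 j := by
      rw [hs j, inv_mul_cancel_left₀ hs0]
    have h1 := card_conj_le hL hsna' (y := M 1 j)
      (mem_YS.2 ⟨h.1 1 j, by rw [hs2]; exact h.1 0 j⟩) σ hli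
    have h2 := natDegree_le_finrank _ (inv_mem hsF)
    omega

end Pool.Agent.P8H10
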