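import Pool.Agent.P8H10.Gal3

/-!
# An example: the logarithm of `2 + i` for `p ≡ 3 mod 4`
-/

set_option autoImplicit false

namespace Pool.Agent.P8H10

open Module Pool.Agent.W254.PA Polynomial IntermediateField
open Pool.Agent.W245.PB (IsIwasawaLog)

theorem four_ne : (4 : ZMod 5) ≠ 0 := by decide

theorem gauss_pow {R : Type*} [CommRing R] [CharZero R] {I : R} (hI : I * I = -1) {k : ℕ}
    (hk : 1 ≤ k) : (2 + I) ^ k ≠ (2 - I) ^ k := by
  intro h
  let r : { r : R // r * r = ((-1 : ℤ) : R) } := ⟨I, by rw [hI]; simp⟩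
  have hinj : Function.Injective (Zsqrtd.lift r) := by
    refine Zsqrtd.lift_injective r fun n hn => ?_
    have := mul_self_nonneg n
    omega
  let a : ℤ√(-1) := ⟨2, 1⟩
  let b : ℤ√(-1) := ⟨2, -1⟩
  have ha : Zsqrtd.lift r a = 2 + I := by
    simp [Zsqrtd.lift, a, r]
  have hb : Zsqrtd.lift r b = 2 - I := by
    simp [Zsqrtd.lift, b, r, sub_eq_add_neg]
  have h1 : a ^ k = b ^ k := by
    apply hinj
    rw [map_pow, map_pow, ha, hb]
    exact h
  let t : { r : ZMod 5 // r * r = ((-1 : ℤ) : ZMod 5) } := ⟨2, by decide⟩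
  have h2 := congrArg (Zsqrtd.lift t) h1
  have ha' : Zsqrtd.lift t a = 4 := by
    simp only [Zsqrtd.lift, a, t]
    decide
  have hb' : Zsqrtd.lift t b = 0 := by
    simp only [Zsqrtd.lift, b, t]
    decide
  rw [map_pow, map_pow, ha', hb', zero_pow (by omega)] at h2
  have : Fact (Nat.Prime 5) := ⟨by norm_num⟩
  exact four_ne (pow_eq_zero_iff (by omega) |>.1 h2)

theorem zpow_prime_eq {p q : ℕ} (hp : p.Prime) (hq : q.Prime) (hpq : p ≠ q) {m a : ℤ}
    (h : (q : ℚ) ^ m = (p : ℚ) ^ a) : m = 0 ∧ a = 0 := by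
  have := Fact.mk hp
  have := Fact.mk hq
  have h1 := congrArg (padicValRat q) h
  have h2 := congrArg (padicValRat p) h
  have hq0 : (q : ℚ) ≠ 0 := by exact_mod_cast hq.ne_zero
  have hp0 : (p : ℚ) ≠ 0 := by exact_mod_cast hp.ne_zero
  rw [padicValRat.zpow, padicValRat.zpow] at h1 h2
  have e1 : padicValRat q (p : ℚ) = 0 := by
    rw [padicValRat.of_nat, padicValNat.eq_zero_of_not_dvd]
    · rfl
    · intro hd
      exact hpq ((Nat.prime_dvd_prime_iff_eq hq hp).1 hd).symm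
  have e2 : padicValRat p (q : ℚ) = 0 := by
    rw [padicValRat.of_nat, padicValNat.eq_zero_of_not_dvd]
    · rfl
    · intro hd
      exact hpq ((Nat.prime_dvd_prime_iff_eq hp hq).1 hd)
  rw [padicValRat.self hq.one_lt, e1] at h1
  rw [padicValRat.self hp.one_lt, e2] at h2
  constructor <;> omega

variable {p : ℕ} [hp : Fact p.Prime]

theorem exists_conj {I : PadicAlgCl p} (hI : I * I = -1) (hp4 : p % 4 = 3) :
    ∃ σ : PadicAlgCl p ≃ₐ[ℚ_[p]] PadicAlgCl p, σ I = -I := by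
  have hint : IsIntegral ℚ_[p] I := Algebra.IsIntegral.isIntegral I
  have hnot : I ∉ (⊥ : Subalgebra ℚ_[p] (PadicAlgCl p)) := by
    intro hmem
    rw [Algebra.mem_bot] at hmem
    obtain ⟨r, hr⟩ := hmem
    have h1 : r * r = -1 := by
      apply (algebraMap ℚ_[p] (PadicAlgCl p)).injective
      rw [map_mul, hr, hI, map_neg, map_one]
    have h2 : ‖r‖ = 1 := by
      have h3 := congrArg norm h1
      rw [norm_mul, norm_neg, norm_one] at h3
      nlinarith [norm_nonneg r]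
    let u : ℤ_[p] := ⟨r, h2.le⟩
    have h3 : u * u = -1 := by
      apply Subtype.ext
      exact h1
    have h4 := congrArg (PadicInt.toZMod (p := p)) h3
    rw [map_mul, map_neg, map_one] at h4
    exact (ZMod.exists_sq_eq_neg_one_iff (p := p)).1 ⟨_, h4.symm⟩ hp4
  obtain ⟨x', hne, hconj⟩ := (notMem_iff_exists_ne_and_isConjRoot
    (minpoly.irreducible hint).separable (IsAlgClosed.splits _)).mp hnot
  obtain ⟨σ, hσ⟩ := isConjRoot_iff_exists_algEquiv.mp hconj
  refine ⟨σ.symm, ?_⟩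
  rw [← hσ]
  rw [AlgEquiv.symm_apply_apply]
  have h5 : σ x' * σ x' = -1 := by rw [hσ]; exact hI
  have h6 : x' * x' = -1 := by
    apply σ.injective
    rw [map_mul, h5, map_neg, map_one]
  have h7 : (x' - I) * (x' + I) = 0 := by linear_combination h6 - hI
  rcases mul_eq_zero.1 h7 with h | h
  · exact absurd (sub_eq_zero.1 h).symm hne
  · rw [hσ]
    exact eq_neg_of_add_eq_zero_left h

theorem gauss_mult {I : PadicAlgCl p} (hI : I * I = -1) (hp4 : p % 4 = 3) (n : Fin 2 → ℤ)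
    (a : ℤ) (h : (2 + I) ^ n 0 * (2 - I) ^ n 1 = (p : PadicAlgCl p) ^ a) : n = 0 := by
  obtain ⟨σ, hσ⟩ := exists_conj hI hp4
  have h5 : (2 + I) * (2 - I) = 5 := by linear_combination -hI
  have h1 : (2 + I) ≠ 0 := by
    intro h0
    rw [h0, zero_mul] at h5
    exact (by norm_num : (5 : PadicAlgCl p) ≠ 0) h5.symm
  have h2 : (2 - I) ≠ 0 := by
    intro h0
    rw [h0, mul_zero] at h5
    exact (by norm_num : (5 : PadicAlgCl p) ≠ 0) h5.symm
  have h3 := congrArg σ h
  rw [map_mul, map_zpow₀, map_zpow₀, map_zpow₀, map_add, map_sub, hσ, map_natCast,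
    map_ofNat, sub_neg_eq_add, ← sub_eq_add_neg] at h3
  have h4 : ((5 : ℕ) : PadicAlgCl p) ^ (n 0 + n 1) = ((p : ℕ) : PadicAlgCl p) ^ (a + a) := by
    rw [zpow_add₀ (p_ne p), ← h]
    nth_rewrite 2 [h]
    rw [← h3]
    push_cast
    rw [← h5, mul_zpow, zpow_add₀ h1, zpow_add₀ h2]
    ring
  have h6 : ((5 : ℕ) : ℚ) ^ (n 0 + n 1) = ((p : ℕ) : ℚ) ^ (a + a) := by
    apply (algebraMap ℚ (PadicAlgCl p)).injective
    rw [map_zpow₀, map_zpow₀, map_natCast, map_natCast]
    exact h4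
  obtain ⟨h7, h8⟩ := zpow_prime_eq hp.out (by norm_num : Nat.Prime 5) (by
    rintro rfl
    omega) h6
  have ha : a = 0 := by omega
  have hn1 : n 1 = -n 0 := by omega
  rw [ha, hn1, zpow_zero, zpow_neg] at h
  have h9 : (2 + I) ^ n 0 = (2 - I) ^ n 0 :=
    (mul_inv_eq_one₀ (zpow_ne_zero _ h2)).1 h
  have h0 : n 0 = 0 := by
    by_contra hne
    obtain ⟨k, hk | hk⟩ := (n 0).eq_nat_or_neg
    · rw [hk, zpow_natCast, zpow_natCast] at h9
      exact gauss_pow hI (by omega) h9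
    · rw [hk, zpow_neg, zpow_neg, zpow_natCast, zpow_natCast] at h9
      exact gauss_pow hI (by omega) (inv_injective h9)
  funext i
  fin_cases i
  · exact h0
  · simp [hn1, h0]

/-- the product of `log_p (2 + i)` and `log_p β` for a rational number `β`, `p ≡ 3 mod 4` -/
theorem gauss_product {L : PadicAlgCl p → PadicAlgCl p} (hL : IsIwasawaLog p L)
    {I : PadicAlgCl p} (hI : I * I = -1) (hp4 : p % 4 = 3) {β : PadicAlgCl p}
    (hβalg : IsAlgebraic ℚ β) (hβ : ∃ b : ℚ_[p], (b : PadicAlgCl p) = β) (hβ0 : β ≠ 0)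
    (hLβ : L β ≠ 0) :
    L (2 + I) * L β ∉ LtE (logs L) := by
  obtain ⟨σ, hσ⟩ := exists_conj hI hp4
  have h5 : (2 + I) * (2 - I) = 5 := by linear_combination -hI
  have h1 : (2 + I) ≠ 0 := by
    intro h0
    rw [h0, zero_mul] at h5
    exact (by norm_num : (5 : PadicAlgCl p) ≠ 0) h5.symm
  have hIalg : IsAlgebraic ℚ I := by
    refine ⟨X ^ 2 + 1, ?_, ?_⟩
    · exact (Polynomial.monic_X_pow_add_C (1 : ℚ) (by norm_num)).ne_zero
    · simp only [map_add, map_pow, aeval_X, map_one]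
      rw [sq, hI]
      ring
  have halg : IsAlgebraic ℚ (2 + I) := by
    refine IsAlgebraic.add ?_ hIalg
    exact_mod_cast isAlgebraic_natCast (R := ℚ) (A := PadicAlgCl p) 2
  refine product_not_mem hL h1 hβ0 halg hβalg hLβ (l := 2) ?_ ![AlgEquiv.refl, σ] ?_
  · obtain ⟨b, rfl⟩ := hβ
    have : (minpoly ℚ_[p] ((b : ℚ_[p]) : PadicAlgCl p)).natDegree = 1 := by
      rw [minpoly.eq_X_sub_C]
      exact natDegree_X_sub_C b
    omega
  · intro n a h
    refine gauss_mult hI hp4 n a ?_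
    rw [← h, Fin.prod_univ_two]
    simp only [Matrix.cons_val_zero, Matrix.cons_val_one, Matrix.cons_val_fin_one,
      AlgEquiv.coe_refl, id_eq, map_add, map_ofNat, hσ, sub_eq_add_neg]

end Pool.Agent.P8H10
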