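import Mathlib

/-!
# Every element of the algebraic closure of `ℚ_p` lies in a field generated by an algebraic number
-/

set_option autoImplicit false

namespace Pool.Agent.P8H10

open Polynomial IntermediateField

variable {p : ℕ} [hp : Fact p.Prime]

/-- Every element of the algebraic closure of `ℚ_p` lies in the extension of `ℚ_p` generated by some
algebraic number (Krasner's lemma and continuity of roots). -/
theorem exists_alg_gen (y : PadicAlgCl p) :
    ∃ θ : PadicAlgCl p, IsAlgebraic ℚ θ ∧ y ∈ ℚ_[p]⟮θ⟯ := by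
  classical
  have hint : IsIntegral ℚ_[p] y := Algebra.IsIntegral.isIntegral y
  set f := minpoly ℚ_[p] y with hf
  have fmon : f.Monic := minpoly.monic hint
  have fa0 : f.aeval y = 0 := minpoly.aeval _ _
  have fdeg : f.natDegree ≠ 0 := (minpoly.natDegree_pos hint).ne'
  let S : Finset (PadicAlgCl p) := {x ∈ (f.rootSet (PadicAlgCl p)).toFinset | x ≠ y}
  let δ : ℝ := if hS : S.Nonempty then Finset.min' (S.image fun x => ‖y - x‖)
      (Finset.image_nonempty.mpr hS) else 1
  have norm_sub_le : ∀ a' : PadicAlgCl p, IsConjRoot ℚ_[p] y a' → y ≠ a' → δ ≤ ‖y - a'‖ := by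
    intro a' conj ne
    have hmem : a' ∈ S := by
      simp only [S, Finset.mem_filter, Set.mem_toFinset]
      exact ⟨(isConjRoot_iff_mem_minpoly_rootSet hint).1 conj, ne.symm⟩
    have hS : S.Nonempty := ⟨a', hmem⟩
    simp only [hS, ↓reduceDIte, δ]
    exact Finset.min'_le _ _ (Finset.mem_image_of_mem _ hmem)
  have δpos : 0 < δ := by
    by_cases hS : S.Nonempty
    · simp only [hS, ↓reduceDIte, δ]
      rw [Finset.lt_min'_iff]
      intro z hz
      obtain ⟨x, hx, rfl⟩ := Finset.mem_image.1 hz
      simp only [S, Finset.mem_filter] at hx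
      rw [norm_pos_iff, sub_ne_zero]
      exact hx.2.symm
    · simp only [hS, ↓reduceDIte, δ]
      exact one_pos
  have hε : 0 < (δ / (max ‖y‖ 1)) ^ f.natDegree / (f.natDegree + 1) := by positivity
  have hd : DenseRange (algebraMap ℚ ℚ_[p]) := by
    have h := Padic.denseRange_ratCast p
    convert h using 1
    ext x
    simp
  obtain ⟨g, gmon, gdeg, gcoeff⟩ :=
    exists_monic_and_natDegree_eq_and_norm_map_algebraMap_coeff_sub_lt hd fmon hε
  obtain ⟨b, hb, hab⟩ := exists_aroots_norm_sub_lt_of_norm_coeff_sub_lt (K := ℚ_[p])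
      (L := PadicAlgCl p) (a := y)
      hε fa0 fmon (gmon.map _) (gdeg ▸ (g.natDegree_map _)) gcoeff
      (IsAlgClosed.splits _)
  have hab : ‖y - b‖ < δ := by
    rw [← Real.rpow_natCast, ← mul_comm_div, div_self, one_mul,
        ← Real.rpow_mul (div_pos δpos (by positivity)).le, mul_inv_cancel₀] at hab
    · simpa [mul_assoc, div_mul_cancel₀ _ (by positivity : (max ‖y‖ 1) > 0).ne'] using hab
    · simp [fdeg]
    · positivity
  simp only [Polynomial.mem_roots', ne_eq, Polynomial.map_eq_zero, Polynomial.IsRoot.def,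
    Polynomial.eval_map_algebraMap] at hb
  have hb2 : (g.map (algebraMap ℚ ℚ_[p])).aeval b = 0 := hb.2
  refine ⟨b, ⟨g, gmon.ne_zero, ?_⟩, ?_⟩
  · rw [Polynomial.aeval_map_algebraMap] at hb2
    exact hb2
  · exact IsKrasner.krasner (minpoly.irreducible hint).separable (IsAlgClosed.splits _)
      ⟨(g.map _), gmon.map _, hb.2⟩ fun a' h1 h2 => lt_of_lt_of_le hab (norm_sub_le a' h1 h2)

end Pool.Agent.P8H10
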