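import Mathlib

/-!
# Quadratic relations between five conjugate numbers with sum zero

Let `τ` be an automorphism of a field `Ω` and let `x_0, …, x_4` be numbers with `τ x_i = x_{i + 1}` (indices
modulo five), with sum zero, such that `x_0, …, x_3` are linearly independent over the algebraic numbers.
A singular `2 × 2` matrix whose entries are combinations of the `x_i` with coefficients in a field `k` of
algebraic numbers fixed by `τ`, over which the fifth cyclotomic polynomial is irreducible, has dependent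
rows or columns.
-/

set_option autoImplicit false

namespace Pool.Agent.P8H10

open Polynomial

section conj

variable {k Ω : Type*} [Field k] [Field Ω] [Algebra k Ω]

/-- conjugation: polynomials over `k` vanishing at one root of the fifth cyclotomic polynomial vanish at
all the roots -/
theorem conj_root (hirr : Irreducible (cyclotomic 5 k)) {P : k[X]} {x y : Ω}
    (hx : aeval x (cyclotomic 5 k) = 0) (hy : aeval y (cyclotomic 5 k) = 0)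
    (h : aeval x P = 0) : aeval y P = 0 := by
  have h1 : minpoly k x = cyclotomic 5 k :=
    (minpoly.eq_of_irreducible_of_monic hirr hx (cyclotomic.monic 5 k)).symm
  have h2 : cyclotomic 5 k ∣ P := by
    rw [← h1]
    exact minpoly.dvd k x h
  obtain ⟨Q, rfl⟩ := h2
  rw [map_mul, hy, zero_mul]

theorem cyc5_eval (x : Ω) :
    aeval x (cyclotomic 5 k) = 1 + x + x ^ 2 + x ^ 3 + x ^ 4 := by
  have : Fact (Nat.Prime 5) := ⟨by norm_num⟩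
  rw [cyclotomic_prime, map_sum]
  simp [Finset.sum_range_succ]

/-- the polynomial with coefficients `a` -/
noncomputable def pol (a : Fin 5 → k) : k[X] := ∑ i, C (a i) * X ^ (i : ℕ)

/-- the value of the polynomial -/
noncomputable def av (a : Fin 5 → k) (w : Ω) : Ω := algebraMap k Ω (a 0) + algebraMap k Ω (a 1) * w +
      algebraMap k Ω (a 2) * w ^ 2 + algebraMap k Ω (a 3) * w ^ 3 +
      algebraMap k Ω (a 4) * w ^ 4

theorem pol_eval (a : Fin 5 → k) (w : Ω) : aeval w (pol a) = av a w := by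
  unfold pol av
  rw [map_sum, Fin.sum_univ_five]
  simp

end conj

section alg

variable {k Ω : Type*} [Field k] [Field Ω] [Algebra k Ω]

/-- the resolvent -/
def ev (w : Ω) (x : ℕ → Ω) : Ω := x 0 + w ^ 4 * x 1 + w ^ 3 * x 2 + w ^ 2 * x 3 + w * x 4

theorem ev_shift (w : Ω) (hw : w ^ 5 = 1) (x : ℕ → Ω) (hx : x 5 = x 0) :
    ev w (fun i => x (i + 1)) = w * ev w x := by
  unfold ev
  simp only [zero_add]
  rw [show 4 + 1 = 5 from rfl, hx, show 3 + 1 = 4 from rfl, show 2 + 1 = 3 from rfl,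
    show 1 + 1 = 2 from rfl]
  linear_combination (-x 1) * hw

theorem ev_shift_iter (w : Ω) (hw : w ^ 5 = 1) (x : ℕ → Ω) (hx : ∀ i, x (i + 5) = x i) (m : ℕ) :
    ev w (fun i => x (i + m)) = w ^ m * ev w x := by
  induction m with
  | zero => simp
  | succ m ih =>
    have h := ev_shift w hw (fun i => x (i + m)) (by
      simp only [zero_add]
      rw [add_comm 5 m]
      exact hx m)
    rw [pow_succ', mul_assoc, ← ih, ← h]
    congr 1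
    funext i
    congr 1
    omega

theorem inversion {z : Ω} (hs : 1 + z + z ^ 2 + z ^ 3 + z ^ 4 = 0) (x : ℕ → Ω)
    (a : Fin 5 → k) :
    av a 1 * ev 1 x + av a z * ev z x + av a (z ^ 2) * ev (z ^ 2) x + av a (z ^ 3) * ev (z ^ 3) x +
      av a (z ^ 4) * ev (z ^ 4) x =
    5 * (algebraMap k Ω (a 0) * x 0 + algebraMap k Ω (a 1) * x 1 + algebraMap k Ω (a 2) * x 2 +
      algebraMap k Ω (a 3) * x 3 + algebraMap k Ω (a 4) * x 4) := by
  have h1 : 1 + z ^ 1 + (z ^ 2) ^ 1 + (z ^ 3) ^ 1 + (z ^ 4) ^ 1 = 0 := by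
    linear_combination ((1) * z ^ 0) * hs
  have h2 : 1 + z ^ 2 + (z ^ 2) ^ 2 + (z ^ 3) ^ 2 + (z ^ 4) ^ 2 = 0 := by
    linear_combination ((1) * z ^ 0 + (-1) * z ^ 1 + (1) * z ^ 2 + (-1) * z ^ 3 + (1) * z ^ 4) * hs
  have h3 : 1 + z ^ 3 + (z ^ 2) ^ 3 + (z ^ 3) ^ 3 + (z ^ 4) ^ 3 = 0 := by
    linear_combination ((1) * z ^ 0 + (-1) * z ^ 1 + (1) * z ^ 3 + (-1) * z ^ 4 + (1) * z ^ 5 + (-1) * z ^ 7 + (1) * z ^ 8) * hs
  have h4 : 1 + z ^ 4 + (z ^ 2) ^ 4 + (z ^ 3) ^ 4 + (z ^ 4) ^ 4 = 0 := by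
    linear_combination ((1) * z ^ 0 + (-1) * z ^ 1 + (1) * z ^ 4 + (-1) * z ^ 6 + (1) * z ^ 8 + (-1) * z ^ 11 + (1) * z ^ 12) * hs
  have h6 : 1 + z ^ 6 + (z ^ 2) ^ 6 + (z ^ 3) ^ 6 + (z ^ 4) ^ 6 = 0 := by
    linear_combination ((1) * z ^ 0 + (-1) * z ^ 1 + (1) * z ^ 5 + (-1) * z ^ 7 + (1) * z ^ 10 + (-1) * z ^ 13 + (1) * z ^ 15 + (-1) * z ^ 19 + (1) * z ^ 20) * hs
  have h7 : 1 + z ^ 7 + (z ^ 2) ^ 7 + (z ^ 3) ^ 7 + (z ^ 4) ^ 7 = 0 := by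
    linear_combination ((1) * z ^ 0 + (-1) * z ^ 1 + (1) * z ^ 5 + (-1) * z ^ 6 + (1) * z ^ 7 + (-1) * z ^ 8 + (1) * z ^ 10 + (-1) * z ^ 11 + (1) * z ^ 12 + (-1) * z ^ 13 + (1) * z ^ 14 + (-1) * z ^ 16 + (1) * z ^ 17 + (-1) * z ^ 18 + (1) * z ^ 19 + (-1) * z ^ 23 + (1) * z ^ 24) * hs
  have h8 : 1 + z ^ 8 + (z ^ 2) ^ 8 + (z ^ 3) ^ 8 + (z ^ 4) ^ 8 = 0 := by
    linear_combination ((1) * z ^ 0 + (-1) * z ^ 1 + (1) * z ^ 5 + (-1) * z ^ 6 + (1) * z ^ 8 + (-1) * z ^ 9 + (1) * z ^ 10 + (-1) * z ^ 11 + (1) * z ^ 13 + (-1) * z ^ 14 + (1) * z ^ 15 + (-1) * z ^ 17 + (1) * z ^ 18 + (-1) * z ^ 19 + (1) * z ^ 20 + (-1) * z ^ 22 + (1) * z ^ 23 + (-1) * z ^ 27 + (1) * z ^ 28) * hs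
  have h5 : 1 + z ^ 5 + (z ^ 2) ^ 5 + (z ^ 3) ^ 5 + (z ^ 4) ^ 5 = 5 := by
    linear_combination ((-4) * z ^ 0 + (4) * z ^ 1 + (-3) * z ^ 5 + (3) * z ^ 6 + (-2) * z ^ 10 + (2) * z ^ 11 + (-1) * z ^ 15 + (1) * z ^ 16) * hs
  unfold av ev
  generalize algebraMap k Ω (a 0) = a0
  generalize algebraMap k Ω (a 1) = a1
  generalize algebraMap k Ω (a 2) = a2
  generalize algebraMap k Ω (a 3) = a3
  generalize algebraMap k Ω (a 4) = a4
  generalize x 0 = x0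
  generalize x 1 = x1
  generalize x 2 = x2
  generalize x 3 = x3
  generalize x 4 = x4
  linear_combination (a1 * x0 + a0 * x4) * h1 + (a2 * x0 + a1 * x4 + a0 * x3) * h2 +
    (a3 * x0 + a2 * x4 + a1 * x3 + a0 * x2) * h3 +
    (a4 * x0 + a3 * x4 + a2 * x3 + a1 * x2 + a0 * x1) * h4 +
    (a4 * x4 + a3 * x3 + a2 * x2 + a1 * x1) * h5 +
    (a4 * x3 + a3 * x2 + a2 * x1) * h6 + (a4 * x2 + a3 * x1) * h7 + (a4 * x1) * h8

/-- a trigonometric polynomial which vanishes at the fifth roots of unity -/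
def Van (z S0 S1 S2 S3 S4 : Ω) : Prop :=
  ∀ m : ℕ, m < 5 → S0 + z ^ m * S1 + (z ^ m) ^ 2 * S2 + (z ^ m) ^ 3 * S3 + (z ^ m) ^ 4 * S4 = 0

theorem Van.zero [CharZero Ω] {z S0 S1 S2 S3 S4 : Ω} (hs : 1 + z + z ^ 2 + z ^ 3 + z ^ 4 = 0)
    (h : Van z S0 S1 S2 S3 S4) : S0 = 0 := by
  have h0 := h 0 (by norm_num)
  have h1 := h 1 (by norm_num)
  have h2 := h 2 (by norm_num)
  have h3 := h 3 (by norm_num)
  have h4 := h 4 (by norm_num)
  simp only [pow_zero, pow_one, one_pow, one_mul] at h0 h1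
  have hz5 : z ^ 5 = 1 := by linear_combination (z - 1) * hs
  have h5 : (5 : Ω) ≠ 0 := by norm_num
  have e0 : 5 * S0 = 0 := by
    linear_combination h0 + h1 + h2 + h3 + h4 - (S1 + S2 + S3 + S4) * hs -
      (S2 * (z + z ^ 3) + S3 * (z + z ^ 4 + z ^ 2 * (z ^ 5 + 1)) +
        S4 * (z ^ 3 + z ^ 2 * (z ^ 5 + 1) + z * (z ^ 10 + z ^ 5 + 1))) * hz5
  exact (mul_eq_zero.1 e0).resolve_left h5

theorem Van.rot {z S0 S1 S2 S3 S4 : Ω} (hs : 1 + z + z ^ 2 + z ^ 3 + z ^ 4 = 0)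
    (h : Van z S0 S1 S2 S3 S4) : Van z S1 S2 S3 S4 S0 := by
  intro m hm
  have hz5 : z ^ 5 = 1 := by linear_combination (z - 1) * hs
  have hw : (z ^ m) ^ 5 = 1 := by rw [← pow_mul, mul_comm, pow_mul, hz5, one_pow]
  have h1 := h m hm
  linear_combination (z ^ m) ^ 4 * h1 -
    (S1 + z ^ m * S2 + (z ^ m) ^ 2 * S3 + (z ^ m) ^ 3 * S4) * hw

/-- the isotypic components of a quadratic relation -/
theorem components [CharZero Ω] {z : Ω} (hs : 1 + z + z ^ 2 + z ^ 3 + z ^ 4 = 0)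
    (u1 u2 u3 u4 v1 v2 v3 v4 r1 r2 r3 r4 s1 s2 s3 s4 : Ω)
    (h : ∀ m : ℕ, m < 5 →
      (z ^ m * u1 + (z ^ m) ^ 2 * u2 + (z ^ m) ^ 3 * u3 + (z ^ m) ^ 4 * u4) *
        (z ^ m * v1 + (z ^ m) ^ 2 * v2 + (z ^ m) ^ 3 * v3 + (z ^ m) ^ 4 * v4) =
      (z ^ m * r1 + (z ^ m) ^ 2 * r2 + (z ^ m) ^ 3 * r3 + (z ^ m) ^ 4 * r4) *
        (z ^ m * s1 + (z ^ m) ^ 2 * s2 + (z ^ m) ^ 3 * s3 + (z ^ m) ^ 4 * s4)) :
    (u3 * v3 + u2 * v4 + u4 * v2 - (r3 * s3 + r2 * s4 + r4 * s2) = 0) ∧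
    (u1 * v1 + u3 * v4 + u4 * v3 - (r1 * s1 + r3 * s4 + r4 * s3) = 0) ∧
    (u4 * v4 + u1 * v2 + u2 * v1 - (r4 * s4 + r1 * s2 + r2 * s1) = 0) ∧
    (u2 * v2 + u1 * v3 + u3 * v1 - (r2 * s2 + r1 * s3 + r3 * s1) = 0) := by
  have hz5 : z ^ 5 = 1 := by linear_combination (z - 1) * hs
  have hV : Van z (u1 * v4 + u2 * v3 + u3 * v2 + u4 * v1 - (r1 * s4 + r2 * s3 + r3 * s2 + r4 * s1))
      (u3 * v3 + u2 * v4 + u4 * v2 - (r3 * s3 + r2 * s4 + r4 * s2))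
      (u1 * v1 + u3 * v4 + u4 * v3 - (r1 * s1 + r3 * s4 + r4 * s3))
      (u4 * v4 + u1 * v2 + u2 * v1 - (r4 * s4 + r1 * s2 + r2 * s1))
      (u2 * v2 + u1 * v3 + u3 * v1 - (r2 * s2 + r1 * s3 + r3 * s1)) := by
    intro m hm
    have hw : (z ^ m) ^ 5 = 1 := by rw [← pow_mul, mul_comm, pow_mul, hz5, one_pow]
    have h1 := h m hm
    generalize z ^ m = w at hw h1
    linear_combination h1 -
      ((u1 * v4 + u2 * v3 + u3 * v2 + u4 * v1 - (r1 * s4 + r2 * s3 + r3 * s2 + r4 * s1)) +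
      w * (u3 * v3 + u2 * v4 + u4 * v2 - (r3 * s3 + r2 * s4 + r4 * s2)) +
      w ^ 2 * (u3 * v4 + u4 * v3 - (r3 * s4 + r4 * s3)) + w ^ 3 * (u4 * v4 - r4 * s4)) * hw
  exact ⟨(hV.rot hs).zero hs, ((hV.rot hs).rot hs).zero hs, (((hV.rot hs).rot hs).rot hs).zero hs,
    ((((hV.rot hs).rot hs).rot hs).rot hs).zero hs⟩

end alg

end Pool.Agent.P8H10
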