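import Pool.Agent.P8H10.Quin1

/-!
# Singular two by two matrices with entries in the space spanned by five conjugate numbers
-/

set_option autoImplicit false

namespace Pool.Agent.P8H10

open Polynomial

section

variable {k Ω : Type*} [Field k] [Field Ω] [Algebra k Ω]

/-- the linear combination -/
noncomputable def lc (x : ℕ → Ω) (a : Fin 5 → k) : Ω :=
  algebraMap k Ω (a 0) * x 0 + algebraMap k Ω (a 1) * x 1 + algebraMap k Ω (a 2) * x 2 +
      algebraMap k Ω (a 3) * x 3 + algebraMap k Ω (a 4) * x 4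

/-- linear independence of `x 0, …, x 3` over the algebraic numbers -/
def Ind4 (x : ℕ → Ω) [Algebra ℚ Ω] : Prop :=
  ∀ c0 c1 c2 c3 : Ω, IsAlgebraic ℚ c0 → IsAlgebraic ℚ c1 → IsAlgebraic ℚ c2 → IsAlgebraic ℚ c3 →
    c0 * x 0 + c1 * x 1 + c2 * x 2 + c3 * x 3 = 0 → c0 = 0 ∧ c1 = 0 ∧ c2 = 0 ∧ c3 = 0

variable [CharZero Ω]

/-- the situation -/
structure Sit (k : Type*) {Ω : Type*} [Field k] [Field Ω] [Algebra k Ω] [CharZero Ω]
    (x : ℕ → Ω) (z : Ω) : Prop where
  irr : Irreducible (cyclotomic 5 k)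
  alg : ∀ c : k, IsAlgebraic ℚ (algebraMap k Ω c)
  zalg : IsAlgebraic ℚ z
  hs : 1 + z + z ^ 2 + z ^ 3 + z ^ 4 = 0
  per : ∀ i, x (i + 5) = x i
  sum : ∀ i, x i + x (i + 1) + x (i + 2) + x (i + 3) + x (i + 4) = 0
  ind : Ind4 x

variable {x : ℕ → Ω} {z : Ω}

theorem Sit.z5 (S : Sit k x z) : z ^ 5 = 1 := by linear_combination (z - 1) * S.hs

theorem Sit.root (S : Sit k x z) : aeval z (cyclotomic 5 k) = 0 := by
  rw [cyc5_eval]; exact S.hs

theorem Sit.root2 (S : Sit k x z) : aeval (z ^ 2) (cyclotomic 5 k) = 0 := by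
  rw [cyc5_eval]
  linear_combination S.hs + (z + z ^ 3) * S.z5

theorem Sit.root3 (S : Sit k x z) : aeval (z ^ 3) (cyclotomic 5 k) = 0 := by
  rw [cyc5_eval]
  linear_combination S.hs + (z + z ^ 4 + z ^ 2 * (z ^ 5 + 1)) * S.z5

theorem Sit.root4 (S : Sit k x z) : aeval (z ^ 4) (cyclotomic 5 k) = 0 := by
  rw [cyc5_eval]
  linear_combination S.hs + (z ^ 3 + z ^ 2 * (z ^ 5 + 1) + z * (z ^ 10 + z ^ 5 + 1)) * S.z5

theorem one_not_root {w : Ω} (hw : aeval w (cyclotomic 5 k) = 0) : w ≠ 1 := by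
  rintro rfl
  rw [cyc5_eval] at hw
  norm_num at hw

omit [CharZero Ω] in
theorem root_pow5 {w : Ω} (hw : aeval w (cyclotomic 5 k) = 0) : w ^ 5 = 1 := by
  rw [cyc5_eval] at hw
  linear_combination (w - 1) * hw

theorem Sit.ev_ne (S : Sit k x z) {w : Ω} (hw : aeval w (cyclotomic 5 k) = 0)
    (hwa : IsAlgebraic ℚ w) : ev w x ≠ 0 := by
  intro h
  have h1 := S.sum 0
  simp only [zero_add] at h1
  have h2 := S.ind (1 - w) (w ^ 4 - w) (w ^ 3 - w) (w ^ 2 - w)
    (isAlgebraic_one.sub hwa) ((hwa.pow 4).sub hwa) ((hwa.pow 3).sub hwa) ((hwa.pow 2).sub hwa) (by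
      unfold ev at h
      linear_combination h - w * h1)
  exact one_not_root hw (sub_eq_zero.1 h2.1).symm

theorem Sit.lc_shift (S : Sit k x z) (a : Fin 5 → k) (m : ℕ) :
    5 * lc (fun i => x (i + m)) a =
      z ^ m * (av a z * ev z x) + (z ^ m) ^ 2 * (av a (z ^ 2) * ev (z ^ 2) x) +
      (z ^ m) ^ 3 * (av a (z ^ 3) * ev (z ^ 3) x) + (z ^ m) ^ 4 * (av a (z ^ 4) * ev (z ^ 4) x) := by
  have h := inversion S.hs (fun i => x (i + m)) a
  have h0 : ev 1 (fun i => x (i + m)) = 0 := by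
    unfold ev
    have := S.sum m
    simp only [one_pow, one_mul, zero_add]
    rw [add_comm 1 m, add_comm 2 m, add_comm 3 m, add_comm 4 m]
    exact this
  rw [h0, mul_zero, zero_add, ev_shift_iter z S.z5 x S.per m,
    ev_shift_iter (z ^ 2) (root_pow5 S.root2) x S.per m,
    ev_shift_iter (z ^ 3) (root_pow5 S.root3) x S.per m,
    ev_shift_iter (z ^ 4) (root_pow5 S.root4) x S.per m] at h
  unfold lc
  rw [← h]
  ring

theorem Sit.lc_eq (S : Sit k x z) (a : Fin 5 → k) :
    5 * lc x a = av a z * ev z x + av a (z ^ 2) * ev (z ^ 2) x + av a (z ^ 3) * ev (z ^ 3) x +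
      av a (z ^ 4) * ev (z ^ 4) x := by
  have h := S.lc_shift a 0
  simpa using h

theorem Sit.av_alg (S : Sit k x z) (a : Fin 5 → k) {w : Ω} (hw : IsAlgebraic ℚ w) :
    IsAlgebraic ℚ (av a w) := by
  unfold av
  exact ((((S.alg _).add ((S.alg _).mul hw)).add ((S.alg _).mul (hw.pow 2))).add
    ((S.alg _).mul (hw.pow 3))).add ((S.alg _).mul (hw.pow 4))

theorem Sit.av_ne (S : Sit k x z) {a : Fin 5 → k} (ha : lc x a ≠ 0) {w : Ω}
    (hw : aeval w (cyclotomic 5 k) = 0) : av a w ≠ 0 := by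
  intro h
  rw [← pol_eval] at h
  have h1 := conj_root S.irr hw S.root h
  have h2 := conj_root S.irr hw S.root2 h
  have h3 := conj_root S.irr hw S.root3 h
  have h4 := conj_root S.irr hw S.root4 h
  rw [pol_eval] at h1 h2 h3 h4
  have h5 := S.lc_eq a
  rw [h1, h2, h3, h4] at h5
  apply ha
  have : (5 : Ω) * lc x a = 0 := by rw [h5]; ring
  exact (mul_eq_zero.1 this).resolve_left (by norm_num)

/-- dependent columns -/
theorem Sit.dep (S : Sit k x z) {a b : Fin 5 → k} (ha : lc x a ≠ 0)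
    (h : av a z * av b (z ^ 2) = av a (z ^ 2) * av b z) :
    ∃ u : k, lc x b = algebraMap k Ω u * lc x a := by
  have e8 : (z ^ 4) ^ 2 = z ^ 3 := by linear_combination z ^ 3 * S.z5
  have e4 : (z ^ 2) ^ 2 = z ^ 4 := by ring
  have hP : aeval z (pol a * (pol b).comp (X ^ 2) - (pol a).comp (X ^ 2) * pol b : k[X]) = 0 := by
    rw [map_sub, map_mul, map_mul, aeval_comp, aeval_comp, map_pow, aeval_X, pol_eval, pol_eval,
      pol_eval, pol_eval, h, sub_self]
  have h2 := conj_root S.irr S.root S.root2 hP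
  have h4 := conj_root S.irr S.root S.root4 hP
  rw [map_sub, map_mul, map_mul, aeval_comp, aeval_comp, map_pow, aeval_X, pol_eval, pol_eval,
      pol_eval, pol_eval, e4] at h2
  rw [map_sub, map_mul, map_mul, aeval_comp, aeval_comp, map_pow, aeval_X, pol_eval, pol_eval,
      pol_eval, pol_eval, e8] at h4
  have a1 := S.av_ne ha S.root
  have a2 := S.av_ne ha S.root2
  have a3 := S.av_ne ha S.root3
  have a4 := S.av_ne ha S.root4
  set u : Ω := av b z / av a z with hu
  have b1 : av b z = u * av a z := by rw [hu]; field_simp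
  have b2 : av b (z ^ 2) = u * av a (z ^ 2) := by
    rw [hu]; field_simp; linear_combination h
  have b4 : av b (z ^ 4) = u * av a (z ^ 4) := by
    have : av a (z ^ 2) * (av b (z ^ 4) - u * av a (z ^ 4)) = 0 := by
      linear_combination h2 + av a (z ^ 4) * b2
    exact sub_eq_zero.1 ((mul_eq_zero.1 this).resolve_left a2)
  have b3 : av b (z ^ 3) = u * av a (z ^ 3) := by
    have : av a (z ^ 4) * (av b (z ^ 3) - u * av a (z ^ 3)) = 0 := by
      linear_combination h4 + av a (z ^ 3) * b4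
    exact sub_eq_zero.1 ((mul_eq_zero.1 this).resolve_left a4)
  have hb : lc x b = u * lc x a := by
    have h5 : (5 : Ω) * (lc x b - u * lc x a) = 0 := by
      linear_combination S.lc_eq b - u * S.lc_eq a + ev z x * b1 + ev (z ^ 2) x * b2 +
        ev (z ^ 3) x * b3 + ev (z ^ 4) x * b4
    exact sub_eq_zero.1 ((mul_eq_zero.1 h5).resolve_left (by norm_num))
  have hua : IsAlgebraic ℚ u := by
    rw [hu, div_eq_mul_inv]
    exact (S.av_alg b S.zalg).mul (S.av_alg a S.zalg).inv
  have hsum := S.sum 0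
  simp only [zero_add] at hsum
  have hind := S.ind
    (algebraMap k Ω (b 0 - b 4) - u * algebraMap k Ω (a 0 - a 4))
    (algebraMap k Ω (b 1 - b 4) - u * algebraMap k Ω (a 1 - a 4))
    (algebraMap k Ω (b 2 - b 4) - u * algebraMap k Ω (a 2 - a 4))
    (algebraMap k Ω (b 3 - b 4) - u * algebraMap k Ω (a 3 - a 4))
    ((S.alg _).sub (hua.mul (S.alg _))) ((S.alg _).sub (hua.mul (S.alg _)))
    ((S.alg _).sub (hua.mul (S.alg _))) ((S.alg _).sub (hua.mul (S.alg _))) (by
      unfold lc at hb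
      simp only [map_sub]
      linear_combination hb - (algebraMap k Ω (b 4) - u * algebraMap k Ω (a 4)) * hsum)
  have key : ∀ i : Fin 5, algebraMap k Ω (b i - b 4) = u * algebraMap k Ω (a i - a 4) := by
    intro i
    fin_cases i
    · exact sub_eq_zero.1 hind.1
    · exact sub_eq_zero.1 hind.2.1
    · exact sub_eq_zero.1 hind.2.2.1
    · exact sub_eq_zero.1 hind.2.2.2
    · simp
  have hex : ∃ i : Fin 5, a i - a 4 ≠ 0 := by
    by_contra hcon
    push Not at hcon
    apply ha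
    have g : ∀ i, a i = a 4 := fun i => sub_eq_zero.1 (hcon i)
    unfold lc
    rw [g 0, g 1, g 2, g 3]
    linear_combination algebraMap k Ω (a 4) * hsum
  obtain ⟨i, hi⟩ := hex
  refine ⟨(b i - b 4) / (a i - a 4), ?_⟩
  have hi' : algebraMap k Ω (a i - a 4) ≠ 0 := by
    intro h0
    exact hi ((algebraMap k Ω).injective (by rw [h0, map_zero]))
  have : algebraMap k Ω ((b i - b 4) / (a i - a 4)) = u := by
    rw [map_div₀, key i]
    field_simp
  rw [this]
  exact hb

/-- **Main algebraic result.** -/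
theorem Sit.main (S : Sit k x z) (a b c d : Fin 5 → k)
    (h : ∀ m : ℕ, lc (fun i => x (i + m)) a * lc (fun i => x (i + m)) d =
      lc (fun i => x (i + m)) b * lc (fun i => x (i + m)) c) :
    (∃ u v : k, (u ≠ 0 ∨ v ≠ 0) ∧ algebraMap k Ω u * lc x a + algebraMap k Ω v * lc x b = 0 ∧
      algebraMap k Ω u * lc x c + algebraMap k Ω v * lc x d = 0) ∨
    (∃ u v : k, (u ≠ 0 ∨ v ≠ 0) ∧ algebraMap k Ω u * lc x a + algebraMap k Ω v * lc x c = 0 ∧
      algebraMap k Ω u * lc x b + algebraMap k Ω v * lc x d = 0) := by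
  have h00 := h 0
  simp only [add_zero] at h00
  by_cases ha : lc x a = 0
  · rw [ha, zero_mul] at h00
    rcases mul_eq_zero.1 h00.symm with hb | hc
    · right
      exact ⟨1, 0, Or.inl one_ne_zero, by simp [ha], by simp [hb]⟩
    · left
      exact ⟨1, 0, Or.inl one_ne_zero, by simp [ha], by simp [hc]⟩
  -- the components
  have hcomp := components S.hs (av a z * ev z x) (av a (z ^ 2) * ev (z ^ 2) x)
    (av a (z ^ 3) * ev (z ^ 3) x) (av a (z ^ 4) * ev (z ^ 4) x)
    (av d z * ev z x) (av d (z ^ 2) * ev (z ^ 2) x)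
    (av d (z ^ 3) * ev (z ^ 3) x) (av d (z ^ 4) * ev (z ^ 4) x)
    (av b z * ev z x) (av b (z ^ 2) * ev (z ^ 2) x)
    (av b (z ^ 3) * ev (z ^ 3) x) (av b (z ^ 4) * ev (z ^ 4) x)
    (av c z * ev z x) (av c (z ^ 2) * ev (z ^ 2) x)
    (av c (z ^ 3) * ev (z ^ 3) x) (av c (z ^ 4) * ev (z ^ 4) x) (by
      intro m _
      rw [← S.lc_shift a m, ← S.lc_shift b m, ← S.lc_shift c m, ← S.lc_shift d m]
      linear_combination 25 * h m)
  obtain ⟨c1, c2, c3, c4⟩ := hcomp
  have E1 := S.ev_ne S.root S.zalg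
  have E2 := S.ev_ne S.root2 (S.zalg.pow 2)
  have E3 := S.ev_ne S.root3 (S.zalg.pow 3)
  have E4 := S.ev_ne S.root4 (S.zalg.pow 4)
  set e1 := ev z x with he1
  set e2 := ev (z ^ 2) x with he2
  set e3 := ev (z ^ 3) x with he3
  set e4 := ev (z ^ 4) x with he4
  -- the norms
  have hN : ∀ w : Ω, aeval w (pol a * pol d - pol b * pol c : k[X]) =
      av a w * av d w - av b w * av c w := by
    intro w
    rw [map_sub, map_mul, map_mul, pol_eval, pol_eval, pol_eval, pol_eval]
  by_cases hN1 : av a z * av d z - av b z * av c z = 0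
  · -- all norms vanish
    rw [← hN] at hN1
    have hN2 := conj_root S.irr S.root S.root2 hN1
    have hN4 := conj_root S.irr S.root S.root4 hN1
    rw [hN] at hN1 hN2 hN4
    have h12 : av a z * av d (z ^ 2) + av a (z ^ 2) * av d z - av b z * av c (z ^ 2) -
        av b (z ^ 2) * av c z = 0 := by
      have : e1 * e2 * (av a z * av d (z ^ 2) + av a (z ^ 2) * av d z - av b z * av c (z ^ 2) -
        av b (z ^ 2) * av c z) = 0 := by
        linear_combination c3 - e4 ^ 2 * hN4
      exact (mul_eq_zero.1 this).resolve_left (mul_ne_zero E1 E2)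
    have hprod : (av a z * av b (z ^ 2) - av a (z ^ 2) * av b z) *
        (av a z * av c (z ^ 2) - av a (z ^ 2) * av c z) = 0 := by
      linear_combination (-av a z ^ 2) * hN2 - av a (z ^ 2) ^ 2 * hN1 +
        av a z * av a (z ^ 2) * h12
    rcases mul_eq_zero.1 hprod with hp | hp
    · left
      obtain ⟨u, hu⟩ := S.dep ha (sub_eq_zero.1 hp)
      refine ⟨u, -1, Or.inr (by simp), ?_, ?_⟩
      · rw [hu, map_neg, map_one]; ring
      · have : lc x a * (lc x d - algebraMap k Ω u * lc x c) = 0 := by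
          rw [hu] at h00
          linear_combination h00
        have h1 := (mul_eq_zero.1 this).resolve_left ha
        rw [map_neg, map_one]
        linear_combination -h1
    · right
      obtain ⟨u, hu⟩ := S.dep ha (sub_eq_zero.1 hp)
      refine ⟨u, -1, Or.inr (by simp), ?_, ?_⟩
      · rw [hu, map_neg, map_one]; ring
      · have : lc x a * (lc x d - algebraMap k Ω u * lc x b) = 0 := by
          rw [hu] at h00
          linear_combination h00
        have h1 := (mul_eq_zero.1 this).resolve_left ha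
        rw [map_neg, map_one]
        linear_combination -h1
  · -- no norm vanishes
    exfalso
    have hne : ∀ w : Ω, aeval w (cyclotomic 5 k) = 0 → av a w * av d w - av b w * av c w ≠ 0 := by
      intro w hw h0
      rw [← hN] at h0
      have h1 := conj_root S.irr hw S.root h0
      rw [hN] at h1
      exact hN1 h1
    have n2 := hne _ S.root2
    have n3 := hne _ S.root3
    set N1 := av a z * av d z - av b z * av c z with hN1d
    set N2 := av a (z ^ 2) * av d (z ^ 2) - av b (z ^ 2) * av c (z ^ 2) with hN2d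
    set N3 := av a (z ^ 3) * av d (z ^ 3) - av b (z ^ 3) * av c (z ^ 3) with hN3d
    set N24 := av a (z ^ 2) * av d (z ^ 4) + av a (z ^ 4) * av d (z ^ 2) -
      av b (z ^ 2) * av c (z ^ 4) - av b (z ^ 4) * av c (z ^ 2) with hN24d
    set N34 := av a (z ^ 3) * av d (z ^ 4) + av a (z ^ 4) * av d (z ^ 3) -
      av b (z ^ 3) * av c (z ^ 4) - av b (z ^ 4) * av c (z ^ 3) with hN34d
    set N13 := av a z * av d (z ^ 3) + av a (z ^ 3) * av d z -
      av b z * av c (z ^ 3) - av b (z ^ 3) * av c z with hN13d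
    have r1 : N3 * e3 ^ 2 + N24 * (e2 * e4) = 0 := by
      rw [hN3d, hN24d]; linear_combination c1
    have r2 : N1 * e1 ^ 2 + N34 * (e3 * e4) = 0 := by
      rw [hN1d, hN34d]; linear_combination c2
    have r4 : N2 * e2 ^ 2 + N13 * (e1 * e3) = 0 := by
      rw [hN2d, hN13d]; linear_combination c4
    have n24 : N24 ≠ 0 := by
      intro h0
      rw [h0, zero_mul, add_zero] at r1
      exact mul_ne_zero n3 (pow_ne_zero 2 E3) r1
    have key : N1 * N2 ^ 2 * N24 * e2 ^ 5 = N34 * N13 ^ 2 * N3 * e3 ^ 5 := by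
      linear_combination N1 * N24 * e2 * (N2 * e2 ^ 2 - N13 * (e1 * e3)) * r4 +
        N24 * e2 * N13 ^ 2 * e3 ^ 2 * r2 - N34 * N13 ^ 2 * e3 ^ 3 * r1
    have zal := S.zalg
    have alN : ∀ w w' : Ω, IsAlgebraic ℚ w → IsAlgebraic ℚ w' →
        IsAlgebraic ℚ (av a w * av d w' + av a w' * av d w - av b w * av c w' -
          av b w' * av c w) := fun w w' hw hw' =>
      ((((S.av_alg a hw).mul (S.av_alg d hw')).add ((S.av_alg a hw').mul (S.av_alg d hw))).sub
        ((S.av_alg b hw).mul (S.av_alg c hw'))).sub ((S.av_alg b hw').mul (S.av_alg c hw))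
    have alN' : ∀ w : Ω, IsAlgebraic ℚ w →
        IsAlgebraic ℚ (av a w * av d w - av b w * av c w) := fun w hw =>
      ((S.av_alg a hw).mul (S.av_alg d hw)).sub ((S.av_alg b hw).mul (S.av_alg c hw))
    have hρ : IsAlgebraic ℚ (e2 / e3) := by
      have h1 : (e2 / e3) ^ 5 = N34 * N13 ^ 2 * N3 * (N1 * N2 ^ 2 * N24)⁻¹ := by
        rw [div_pow]
        field_simp
        linear_combination key
      have h2 : IsAlgebraic ℚ ((e2 / e3) ^ 5) := by
        rw [h1]
        exact (((alN _ _ (zal.pow 3) (zal.pow 4)).mul ((alN _ _ zal (zal.pow 3)).pow 2)).mul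
          (alN' _ (zal.pow 3))).mul (((alN' _ zal).mul ((alN' _ (zal.pow 2)).pow 2)).mul
          (alN _ _ (zal.pow 2) (zal.pow 4))).inv
      exact h2.of_pow (by norm_num)
    set ρ := e2 / e3 with hρd
    have he : e2 = ρ * e3 := by rw [hρd]; field_simp
    have hsum := S.sum 0
    simp only [zero_add] at hsum
    have hz5 := S.z5
    have hind := S.ind ((1 - z ^ 2) - ρ * (1 - z ^ 3)) ((z ^ 3 - z ^ 2) - ρ * (z ^ 2 - z ^ 3))
      ((z - z ^ 2) - ρ * (z ^ 4 - z ^ 3)) ((z ^ 4 - z ^ 2) - ρ * (z - z ^ 3))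
      ((isAlgebraic_one.sub (zal.pow 2)).sub (hρ.mul (isAlgebraic_one.sub (zal.pow 3))))
      (((zal.pow 3).sub (zal.pow 2)).sub (hρ.mul ((zal.pow 2).sub (zal.pow 3))))
      ((zal.sub (zal.pow 2)).sub (hρ.mul ((zal.pow 4).sub (zal.pow 3))))
      (((zal.pow 4).sub (zal.pow 2)).sub (hρ.mul (zal.sub (zal.pow 3)))) (by
        rw [he2, he3] at he
        unfold ev at he
        linear_combination he - (z ^ 2 - ρ * z ^ 3) * hsum -
          (x 1 * z ^ 3 + x 2 * z - ρ * (x 1 * z ^ 2 * (z ^ 5 + 1) + x 2 * z ^ 4 + x 3 * z)) * hz5)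
    obtain ⟨i0, i1, i2, -⟩ := hind
    have hz23 : z ^ 3 - z ^ 2 ≠ 0 := by
      intro h0
      have h1 : z ^ 2 * (z - 1) = 0 := by linear_combination h0
      have hz0 : z ≠ 0 := by
        rintro rfl
        norm_num at hz5
      have h2 := (mul_eq_zero.1 h1).resolve_left (pow_ne_zero 2 hz0)
      exact one_not_root S.root (sub_eq_zero.1 h2)
    have hρ1 : ρ = -1 := by
      have : (z ^ 3 - z ^ 2) * (1 + ρ) = 0 := by linear_combination i1
      have := (mul_eq_zero.1 this).resolve_left hz23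
      linear_combination this
    rw [hρ1] at i0 i2
    have h5 : (5 : Ω) = 0 := by
      linear_combination 2 * i0 - i2 + S.hs
    norm_num at h5

end

end Pool.Agent.P8H10
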