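import Pool.Agent.P8H10.Quin2
import Pool.Agent.P8H10.Gal3

/-!
# The `p`-adic four exponentials conjecture in four-dimensional spaces of logarithms with an automorphism
of order five
-/

set_option autoImplicit false

namespace Pool.Agent.P8H10

open Module Polynomial
open Pool.Agent.W245.PB (IsIwasawaLog brumer)

section general

variable {k Ω : Type*} [Field k] [Field Ω] [Algebra k Ω] [CharZero Ω] [IsAlgClosed Ω]

/-- **General form.** -/
theorem quintic_general (halg : ∀ c : k, IsAlgebraic ℚ (algebraMap k Ω c))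
    (hirr : Irreducible (cyclotomic 5 k)) (τ : Ω →+* Ω)
    (hτ : ∀ c : k, τ (algebraMap k Ω c) = algebraMap k Ω c) (x : ℕ → Ω)
    (hx : ∀ n, τ (x n) = x (n + 1)) (hsum : x 0 + x 1 + x 2 + x 3 + x 4 = 0) (hind : Ind4 x)
    (M : Matrix (Fin 2) (Fin 2) Ω) (hM : ∀ i j, ∃ a : Fin 5 → k, M i j = lc x a)
    (hdet : M.det = 0) :
    (∃ u v : k, (u ≠ 0 ∨ v ≠ 0) ∧
      ∀ i, algebraMap k Ω u * M i 0 + algebraMap k Ω v * M i 1 = 0) ∨
    (∃ u v : k, (u ≠ 0 ∨ v ≠ 0) ∧
      ∀ j, algebraMap k Ω u * M 0 j + algebraMap k Ω v * M 1 j = 0) := by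
  have hsum' : ∀ i, x i + x (i + 1) + x (i + 2) + x (i + 3) + x (i + 4) = 0 := by
    intro i
    induction i with
    | zero => simpa using hsum
    | succ n ih =>
      have h1 := congrArg τ ih
      rw [map_add, map_add, map_add, map_add, hx, hx, hx, hx, hx, map_zero] at h1
      rw [← h1]
  have hper : ∀ i, x (i + 5) = x i := by
    intro i
    have h1 := hsum' i
    have h2 := hsum' (i + 1)
    rw [show i + 1 + 1 = i + 2 by omega, show i + 1 + 2 = i + 3 by omega,
      show i + 1 + 3 = i + 4 by omega, show i + 1 + 4 = i + 5 by omega] at h2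
    linear_combination h2 - h1
  obtain ⟨z, hz⟩ : ∃ z : Ω, (cyclotomic 5 ℚ).aeval z = 0 := by
    have hdeg : (cyclotomic 5 ℚ).degree ≠ 0 := by
      rw [degree_cyclotomic]
      decide
    exact IsAlgClosed.exists_aeval_eq_zero Ω _ hdeg
  have hzalg : IsAlgebraic ℚ z := ⟨cyclotomic 5 ℚ, cyclotomic_ne_zero 5 ℚ, hz⟩
  have hz' : 1 + z + z ^ 2 + z ^ 3 + z ^ 4 = 0 := by rw [← cyc5_eval (k := ℚ)]; exact hz
  have S : Sit k x z := ⟨hirr, halg, hzalg, hz', hper, hsum', hind⟩
  choose a ha using hM
  have hshift : ∀ (m : ℕ) (b : Fin 5 → k), (τ^[m]) (lc x b) = lc (fun i => x (i + m)) b := by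
    intro m b
    induction m with
    | zero => simp
    | succ m ih =>
      rw [Function.iterate_succ_apply', ih]
      unfold lc
      simp only [map_add, map_mul, hτ, hx]
      rfl
  have hmul : ∀ (m : ℕ) (u v : Ω), (τ^[m]) (u * v) = (τ^[m]) u * (τ^[m]) v := by
    intro m
    induction m with
    | zero => intro u v; rfl
    | succ m ih =>
      intro u v
      rw [Function.iterate_succ_apply', ih, map_mul, Function.iterate_succ_apply',
        Function.iterate_succ_apply']
  rw [Matrix.det_fin_two] at hdet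
  have h0 : lc x (a 0 0) * lc x (a 1 1) = lc x (a 0 1) * lc x (a 1 0) := by
    rw [← ha, ← ha, ← ha, ← ha]
    linear_combination hdet
  have hall : ∀ m : ℕ, lc (fun i => x (i + m)) (a 0 0) * lc (fun i => x (i + m)) (a 1 1) =
      lc (fun i => x (i + m)) (a 0 1) * lc (fun i => x (i + m)) (a 1 0) := by
    intro m
    rw [← hshift, ← hshift, ← hshift, ← hshift, ← hmul, ← hmul, h0]
  rcases S.main _ _ _ _ hall with ⟨u, v, huv, h1, h2⟩ | ⟨u, v, huv, h1, h2⟩
  · left
    refine ⟨u, v, huv, fun i => ?_⟩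
    fin_cases i
    · simpa [ha] using h1
    · simpa [ha] using h2
  · right
    refine ⟨u, v, huv, fun j => ?_⟩
    fin_cases j
    · simpa [ha] using h1
    · simpa [ha] using h2

end general

section padic

variable {p : ℕ} [hp : Fact p.Prime]

/-- the conjugates of an element with `1 + τ + τ ^ 2 + τ ^ 3 + τ ^ 4 = 0` -/
theorem indep_rat {Ω : Type*} [Field Ω] [CharZero Ω] (τ : Ω →+* Ω) (x : ℕ → Ω)
    (hx : ∀ n, τ (x n) = x (n + 1)) (hsum : x 0 + x 1 + x 2 + x 3 + x 4 = 0) (h0 : x 0 ≠ 0) :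
    LinearIndependent ℚ (fun i : Fin 4 => x i) := by
  let T : Ω →ₗ[ℚ] Ω := (RingHom.toRatAlgHom τ).toLinearMap
  have hT : ∀ n : ℕ, (T ^ n) (x 0) = x n := by
    intro n
    induction n with
    | zero => rfl
    | succ n ih =>
      rw [pow_succ', Module.End.mul_apply, ih]
      exact hx n
  have hΦ : aeval T (cyclotomic 5 ℚ) (x 0) = 0 := by
    have : Fact (Nat.Prime 5) := ⟨by norm_num⟩
    rw [cyclotomic_prime, map_sum, LinearMap.sum_apply]
    simp only [map_pow, aeval_X, hT, Finset.sum_range_succ, Finset.sum_range_zero, zero_add]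
    exact hsum
  have hirr : Irreducible (cyclotomic 5 ℚ) := cyclotomic.irreducible_rat (by norm_num)
  rw [Fintype.linearIndependent_iff]
  intro g hg
  let P : ℚ[X] := ∑ i : Fin 4, C (g i) * X ^ (i : ℕ)
  have hP : aeval T P (x 0) = 0 := by
    rw [← hg]
    simp only [P, map_sum, LinearMap.sum_apply, map_mul, aeval_C, map_pow, aeval_X,
      Module.End.mul_apply, hT, Module.algebraMap_end_apply]
  have hPd : P.degree < 4 := by
    simp only [P]
    refine lt_of_le_of_lt (degree_sum_le _ _) ?_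
    rw [Finset.sup_lt_iff (by exact bot_lt_iff_ne_bot.2 (by decide))]
    intro i _
    refine lt_of_le_of_lt (degree_C_mul_X_pow_le _ _) ?_
    exact_mod_cast i.2
  have hPz : P = 0 := by
    by_contra hne
    have hnd : ¬ cyclotomic 5 ℚ ∣ P := by
      intro hd
      have h1 := degree_le_of_dvd hd hne
      rw [degree_cyclotomic, show Nat.totient 5 = 4 by decide] at h1
      exact absurd (lt_of_le_of_lt h1 hPd) (by simp)
    obtain ⟨U, W, hUW⟩ := (hirr.coprime_iff_not_dvd.2 hnd)
    have h1 := congrArg (fun R : ℚ[X] => aeval T R (x 0)) hUW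
    simp only [map_add, map_mul, LinearMap.add_apply, Module.End.mul_apply, hΦ, hP, map_zero,
      map_one, Module.End.one_apply, add_zero] at h1
    exact h0 h1.symm
  intro i
  have h1 := congrArg (fun R : ℚ[X] => R.coeff i) hPz
  simp only [P, finsetSum_coeff, coeff_C_mul, coeff_X_pow, coeff_zero] at h1
  rw [Finset.sum_eq_single i] at h1
  · simpa using h1
  · intro j _ hj
    rw [if_neg, mul_zero]
    intro h2
    exact hj (Fin.ext h2.symm)
  · simp

/-- rational combinations of four conjugates -/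
theorem exists_lc {Ω : Type*} [Field Ω] [CharZero Ω] (V : Submodule ℚ Ω) [Module.Finite ℚ V]
    (hV : finrank ℚ V ≤ 4) (x : ℕ → Ω) (hxV : ∀ n, x n ∈ V)
    (hli : LinearIndependent ℚ (fun i : Fin 4 => x i)) {y : Ω} (hy : y ∈ V) :
    ∃ a : Fin 5 → ℚ, y = lc x a := by
  have hspan : y ∈ Submodule.span ℚ (Set.range fun i : Fin 4 => x i) := by
    by_contra hyn
    have h5 : LinearIndependent ℚ (Fin.cons y (fun i : Fin 4 => x i) : Fin 5 → Ω) :=
      linearIndependent_finCons.2 ⟨hli, hyn⟩
    have hmem : ∀ i : Fin 5, (Fin.cons y (fun i : Fin 4 => x i) : Fin 5 → Ω) i ∈ V := by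
      intro i
      refine Fin.cases ?_ (fun j => ?_) i
      · exact hy
      · exact hxV _
    have h6 : LinearIndependent ℚ (fun i : Fin 5 => (⟨_, hmem i⟩ : V)) :=
      LinearIndependent.of_comp V.subtype h5
    have h7 := h6.fintype_card_le_finrank
    simp at h7
    omega
  rw [Submodule.mem_span_range_iff_exists_fun] at hspan
  obtain ⟨c, hc⟩ := hspan
  refine ⟨![c 0, c 1, c 2, c 3, 0], ?_⟩
  rw [← hc, Fin.sum_univ_four]
  simp only [Algebra.smul_def]
  unfold lc
  simp

/-- conjugates of logarithms: independence over the algebraic numbers -/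
theorem ind4_log {L : PadicAlgCl p → PadicAlgCl p} (hL : IsIwasawaLog p L)
    (x : ℕ → PadicAlgCl p)
    (hlog : ∀ n, ∃ α : PadicAlgCl p, α ≠ 0 ∧ IsAlgebraic ℚ α ∧ x n = L α)
    (hli : LinearIndependent ℚ (fun i : Fin 4 => x i)) : Ind4 x := by
  choose α hα0 halg hα using hlog
  intro c0 c1 c2 c3 h0 h1 h2 h3 hsum
  have hli' : LinearIndependent ℚ (fun i : Fin 4 => L (α i)) := by
    have : (fun i : Fin 4 => L (α i)) = fun i : Fin 4 => x i := by
      funext i
      rw [hα]
    rw [this]
    exact hli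
  have h := brumer hL (ι := Fin 4) (fun i => α i) (fun i => hα0 i) (fun i => halg i) hli' 0
    isAlgebraic_zero ![c0, c1, c2, c3] (by
      intro i
      fin_cases i
      · exact h0
      · exact h1
      · exact h2
      · exact h3) (by
      rw [Fin.sum_univ_four, zero_add]
      simp only [← hα]
      exact hsum)
  exact ⟨h.2 0, h.2 1, h.2 2, h.2 3⟩

/-- **The four exponentials conjecture in spaces with an automorphism of order five.** -/
theorem quintic_padic {L : PadicAlgCl p → PadicAlgCl p} (hL : IsIwasawaLog p L)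
    (V : Submodule ℚ (PadicAlgCl p)) [Module.Finite ℚ V] (hV : finrank ℚ V ≤ 4)
    (hlog : ∀ y ∈ V, ∃ α : PadicAlgCl p, α ≠ 0 ∧ IsAlgebraic ℚ α ∧ y = L α)
    (τ : PadicAlgCl p →+* PadicAlgCl p) (hτ : ∀ y ∈ V, τ y ∈ V)
    (hsum : ∀ y ∈ V, y + τ y + τ (τ y) + τ (τ (τ y)) + τ (τ (τ (τ y))) = 0)
    (M : Matrix (Fin 2) (Fin 2) (PadicAlgCl p)) (hM : ∀ i j, M i j ∈ V) (hdet : M.det = 0) :
    ∃ w v : Fin 2 → ℚ, w ≠ 0 ∧ v ≠ 0 ∧
      ∑ i, ∑ j, (w i : PadicAlgCl p) * M i j * (v j : PadicAlgCl p) = 0 := by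
  by_cases hzero : ∀ i j, M i j = 0
  · refine ⟨fun _ => 1, fun _ => 1, ?_, ?_, ?_⟩
    · intro h
      exact one_ne_zero (congrFun h 0)
    · intro h
      exact one_ne_zero (congrFun h 0)
    · simp [hzero]
  push Not at hzero
  obtain ⟨i0, j0, hij⟩ := hzero
  set y := M i0 j0 with hy
  let x : ℕ → PadicAlgCl p := fun n => (τ^[n]) y
  have hx : ∀ n, τ (x n) = x (n + 1) := fun n => (Function.iterate_succ_apply' τ n y).symm
  have hxV : ∀ n, x n ∈ V := by
    intro n
    induction n with
    | zero => exact hM _ _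
    | succ n ih => rw [← hx]; exact hτ _ ih
  have hs : x 0 + x 1 + x 2 + x 3 + x 4 = 0 := hsum y (hM _ _)
  have hli := indep_rat τ x hx hs hij
  have hind := ind4_log hL x (fun n => hlog _ (hxV n)) hli
  have h := quintic_general (k := ℚ) (fun c => isAlgebraic_algebraMap c)
    (cyclotomic.irreducible_rat (by norm_num)) τ (fun c => by simp) x hx hs hind M
    (fun i j => exists_lc V hV x hxV hli (hM i j)) hdet
  rcases h with ⟨u, v, huv, h⟩ | ⟨u, v, huv, h⟩
  · refine ⟨fun _ => 1, ![u, v], ?_, ?_, ?_⟩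
    · intro h
      exact one_ne_zero (congrFun h 0)
    · intro h0
      have h1 := congrFun h0 0
      have h2 := congrFun h0 1
      simp at h1 h2
      rcases huv with h | h
      · exact h h1
      · exact h h2
    · have e0 := h 0
      have e1 := h 1
      simp only [eq_ratCast] at e0 e1
      simp only [Fin.sum_univ_two, Matrix.cons_val_zero, Matrix.cons_val_one,
        Matrix.cons_val_fin_one, Rat.cast_one, one_mul]
      linear_combination e0 + e1
  · refine ⟨![u, v], fun _ => 1, ?_, ?_, ?_⟩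
    · intro h0
      have h1 := congrFun h0 0
      have h2 := congrFun h0 1
      simp at h1 h2
      rcases huv with h | h
      · exact h h1
      · exact h h2
    · intro h
      exact one_ne_zero (congrFun h 0)
    · have e0 := h 0
      have e1 := h 1
      simp only [eq_ratCast] at e0 e1
      simp only [Fin.sum_univ_two, Matrix.cons_val_zero, Matrix.cons_val_one,
        Matrix.cons_val_fin_one, Rat.cast_one, mul_one]
      linear_combination e0 + e1

end padic

end Pool.Agent.P8H10
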