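import Pool.Agent.P8H10.Quin3

/-!
# The `p`-adic four exponentials conjecture for the units of a cyclic quintic field
-/

set_option autoImplicit false

namespace Pool.Agent.P8H10

open Module Polynomial NumberField
open Pool.Agent.W245.PB (IsIwasawaLog)

variable {p : ℕ} [hp : Fact p.Prime]

/-- the rational space of all logarithms of algebraic numbers -/
noncomputable def logSpace {L : PadicAlgCl p → PadicAlgCl p} (hL : IsIwasawaLog p L) :
    Submodule ℚ (PadicAlgCl p) where
  carrier := {y | ∃ α : PadicAlgCl p, α ≠ 0 ∧ IsAlgebraic ℚ α ∧ y = L α}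
  add_mem' := by
    rintro _ _ ⟨α, hα, hαa, rfl⟩ ⟨β, hβ, hβa, rfl⟩
    exact ⟨α * β, mul_ne_zero hα hβ, hαa.mul hβa, (hL.mul α β hα hβ).symm⟩
  zero_mem' := ⟨1, one_ne_zero, isAlgebraic_one, hL.one.symm⟩
  smul_mem' := by
    rintro q _ ⟨α, hα, hαa, rfl⟩
    obtain ⟨β, hβ⟩ := IsAlgClosed.exists_pow_nat_eq (α ^ q.num) q.den_pos
    have hαz : α ^ q.num ≠ 0 := zpow_ne_zero _ hα
    have hβ0 : β ≠ 0 := by
      rintro rfl
      rw [zero_pow q.den_nz] at hβ
      exact hαz hβ.symm
    have hβa : IsAlgebraic ℚ β := by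
      refine IsAlgebraic.of_pow q.den_pos ?_
      rw [hβ]
      exact Pool.Agent.W245.PB.isAlgebraic_zpow hαa _
    refine ⟨β, hβ0, hβa, ?_⟩
    have h1 : (q.den : PadicAlgCl p) * L β = q.num * L α := by
      rw [← hL.pow hβ0, hβ, hL.zpow hα]
    have hd : (q.den : PadicAlgCl p) ≠ 0 := Nat.cast_ne_zero.2 q.den_nz
    rw [Algebra.smul_def]
    have h2 : (algebraMap ℚ (PadicAlgCl p)) q = (q.num : PadicAlgCl p) / q.den := by
      rw [eq_ratCast]
      exact_mod_cast congrArg (Rat.cast (K := PadicAlgCl p)) (Rat.num_div_den q).symm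
    rw [h2]
    field_simp
    linear_combination -h1

theorem log_neg_one {L : PadicAlgCl p → PadicAlgCl p} (hL : IsIwasawaLog p L) :
    L (-1) = 0 := by
  have h := hL.mul (-1) (-1) (by norm_num) (by norm_num)
  rw [neg_mul_neg, one_mul, hL.one] at h
  have : (2 : PadicAlgCl p) * L (-1) = 0 := by linear_combination -h
  exact (mul_eq_zero.1 this).resolve_left (by norm_num)

section units

variable {k : Type} [Field k] [NumberField k] (ι : k →+* PadicAlgCl p)

/-- the rational span of the logarithms of the units -/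
noncomputable def unitSpace (L : PadicAlgCl p → PadicAlgCl p) : Submodule ℚ (PadicAlgCl p) :=
  Submodule.span ℚ (Set.range fun u : (𝓞 k)ˣ => L (ι (u : k)))

omit [NumberField k] in
theorem unit_ne (u : (𝓞 k)ˣ) : ι (u : k) ≠ 0 := by
  rw [_root_.map_ne_zero]
  exact Units.coe_ne_zero u

theorem log_torsion {L : PadicAlgCl p → PadicAlgCl p} (hL : IsIwasawaLog p L) {u : (𝓞 k)ˣ}
    (hu : u ∈ Units.torsion k) : L (ι (u : k)) = 0 := by
  have h1 : IsOfFinOrder u := hu
  obtain ⟨n, hn, hun⟩ := isOfFinOrder_iff_pow_eq_one.1 h1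
  have h2 : (ι (u : k)) ^ n = 1 := by
    rw [← map_pow, ← Units.coe_pow, hun]
    simp
  have h3 := hL.pow (unit_ne ι u) n
  rw [h2, hL.one] at h3
  exact (mul_eq_zero.1 h3.symm).resolve_left (Nat.cast_ne_zero.2 hn.ne')

theorem unitSpace_fin {L : PadicAlgCl p → PadicAlgCl p} (hL : IsIwasawaLog p L) :
    Module.Finite ℚ (unitSpace ι L) ∧ finrank ℚ (unitSpace ι L) ≤ Units.rank k := by
  classical
  have hle : unitSpace ι L ≤ Submodule.span ℚ
      (Finset.univ.image (fun i : Fin (Units.rank k) => L (ι (Units.fundSystem k i : k))) :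
        Finset (PadicAlgCl p)) := by
    unfold unitSpace
    rw [Submodule.span_le]
    rintro _ ⟨u, rfl⟩
    obtain ⟨⟨ζ, e⟩, h, -⟩ := Units.exist_unique_eq_mul_prod k u
    have h1 : (ι (u : k)) = ι ((ζ : (𝓞 k)ˣ) : k) *
        ∏ i, (ι (Units.fundSystem k i : k)) ^ (e i) := by
      let φ : (𝓞 k)ˣ →* (PadicAlgCl p)ˣ :=
        _root_.Units.map ((ι : k →* PadicAlgCl p).comp (algebraMap (𝓞 k) k : (𝓞 k) →* k))
      have hφ : ∀ v : (𝓞 k)ˣ, ((φ v : (PadicAlgCl p)ˣ) : PadicAlgCl p) = ι (v : k) := fun v => rfl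
      have h2 := congrArg φ h
      rw [map_mul, map_prod] at h2
      simp only [map_zpow] at h2
      have h3 := congrArg (Units.val : (PadicAlgCl p)ˣ → PadicAlgCl p) h2
      rw [_root_.Units.val_mul, _root_.Units.coe_prod, hφ, hφ] at h3
      rw [h3]
      congr 1
      refine Finset.prod_congr rfl fun i _ => ?_
      rw [_root_.Units.val_zpow_eq_zpow_val, hφ]
    change L (ι (u : k)) ∈ _
    rw [h1, hL.mul _ _ (unit_ne ι _) (Finset.prod_ne_zero_iff.2 fun i _ =>
      zpow_ne_zero _ (unit_ne ι _)), log_torsion ι hL ζ.2, zero_add,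
      hL.prod _ _ (fun i _ => zpow_ne_zero _ (unit_ne ι _))]
    refine Submodule.sum_mem _ fun i _ => ?_
    rw [hL.zpow (unit_ne ι _)]
    have h3 : ((e i : ℤ) : PadicAlgCl p) * L (ι (Units.fundSystem k i : k)) =
        ((e i : ℤ) : ℚ) • L (ι (Units.fundSystem k i : k)) := by
      rw [Algebra.smul_def]
      simp
    rw [h3]
    exact Submodule.smul_mem _ _ (Submodule.subset_span (by simp))
  have hfin : Module.Finite ℚ (Submodule.span ℚ
      ((Finset.univ.image (fun i : Fin (Units.rank k) => L (ι (Units.fundSystem k i : k))) :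
        Finset (PadicAlgCl p)) : Set (PadicAlgCl p))) :=
    Module.Finite.span_of_finite ℚ (Finset.finite_toSet _)
  refine ⟨Submodule.finiteDimensional_of_le hle, ?_⟩
  refine (Submodule.finrank_mono hle).trans ?_
  refine (finrank_span_finset_le_card _).trans ?_
  refine Finset.card_image_le.trans ?_
  simp

theorem rank_le (hk : finrank ℚ k = 5) : Units.rank k ≤ 4 := by
  unfold Units.rank
  have h1 := InfinitePlace.card_eq_nrRealPlaces_add_nrComplexPlaces k
  have h2 := InfinitePlace.card_add_two_mul_card_eq_rank k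
  rw [hk] at h2
  omega

/-- a Galois automorphism of the local field induces an automorphism of `k` -/
theorem exists_gal [IsGalois ℚ k] (hns : ∃ y : k, ∀ b : ℚ_[p], (b : PadicAlgCl p) ≠ ι y) :
    ∃ (τ : PadicAlgCl p ≃ₐ[ℚ_[p]] PadicAlgCl p) (g : k ≃ₐ[ℚ] k), g ≠ 1 ∧
      ∀ y : k, τ (ι y) = ι (g y) := by
  obtain ⟨y, hy⟩ := hns
  have hint : IsIntegral ℚ_[p] (ι y) := Algebra.IsIntegral.isIntegral (ι y)
  have hnot : ι y ∉ (⊥ : Subalgebra ℚ_[p] (PadicAlgCl p)) := by
    intro hmem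
    rw [Algebra.mem_bot] at hmem
    obtain ⟨r, hr⟩ := hmem
    exact hy r hr
  obtain ⟨x', hne, hconj⟩ := (notMem_iff_exists_ne_and_isConjRoot
    (minpoly.irreducible hint).separable (IsAlgClosed.splits _)).mp hnot
  obtain ⟨σ, hσ⟩ := isConjRoot_iff_exists_algEquiv.mp hconj
  let τ := σ.symm
  have hτ : τ (ι y) = x' := by
    rw [← hσ]
    exact AlgEquiv.symm_apply_apply σ x'
  let : Algebra k (PadicAlgCl p) := ι.toAlgebra
  have : IsScalarTower ℚ k (PadicAlgCl p) := IsScalarTower.of_algebraMap_eq' (by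
    ext; simp)
  let τQ : PadicAlgCl p ≃ₐ[ℚ] PadicAlgCl p := τ.restrictScalars ℚ
  let g : k ≃ₐ[ℚ] k := τQ.restrictNormal k
  have hg : ∀ y : k, τ (ι y) = ι (g y) := by
    intro y
    exact (AlgEquiv.restrictNormal_commutes τQ k y).symm
  refine ⟨τ, g, ?_, hg⟩
  intro h1
  have h2 := hg y
  rw [h1, hτ] at h2
  exact hne h2.symm

theorem prod_gal [IsGalois ℚ k] (hk : finrank ℚ k = 5) (g : k ≃ₐ[ℚ] k) (hg : g ≠ 1) (y : k) :
    y * g y * g (g y) * g (g (g y)) * g (g (g (g y))) = algebraMap ℚ k (Algebra.norm ℚ y) := by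
  classical
  have hcard : Nat.card (k ≃ₐ[ℚ] k) = 5 := by rw [IsGalois.card_aut_eq_finrank, hk]
  have : Fact (Nat.Prime 5) := ⟨by norm_num⟩
  have hord : orderOf g = 5 := orderOf_eq_prime (by rw [← hcard]; exact pow_card_eq_one') hg
  rw [Algebra.norm_eq_prod_automorphisms]
  have himg : (Finset.univ : Finset (k ≃ₐ[ℚ] k)) = (Finset.range 5).image (fun i => g ^ i) := by
    symm
    rw [← Finset.card_eq_iff_eq_univ, Finset.card_image_of_injOn, Finset.card_range,
      ← hcard, Nat.card_eq_fintype_card]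
    intro i hi j hj hij
    have hi' : i < orderOf g := by rw [hord]; simpa using hi
    have hj' : j < orderOf g := by rw [hord]; simpa using hj
    exact pow_injOn_Iio_orderOf hi' hj' hij
  rw [himg, Finset.prod_image]
  · simp only [Finset.prod_range_succ, Finset.prod_range_zero, one_mul, pow_zero,
      AlgEquiv.one_apply, pow_succ, AlgEquiv.mul_apply]
  · intro i hi j hj hij
    have hi' : i < orderOf g := by rw [hord]; simpa using hi
    have hj' : j < orderOf g := by rw [hord]; simpa using hj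
    exact pow_injOn_Iio_orderOf hi' hj' hij

/-- **Units of cyclic quintic fields.** -/
theorem units_quintic [IsGalois ℚ k] (hk : finrank ℚ k = 5)
    {L : PadicAlgCl p → PadicAlgCl p} (hL : IsIwasawaLog p L)
    (hns : ∃ y : k, ∀ b : ℚ_[p], (b : PadicAlgCl p) ≠ ι y)
    (M : Matrix (Fin 2) (Fin 2) (PadicAlgCl p)) (hM : ∀ i j, M i j ∈ unitSpace ι L)
    (hdet : M.det = 0) :
    ∃ w v : Fin 2 → ℚ, w ≠ 0 ∧ v ≠ 0 ∧
      ∑ i, ∑ j, (w i : PadicAlgCl p) * M i j * (v j : PadicAlgCl p) = 0 := by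
  obtain ⟨τ, g, hg, hτ⟩ := exists_gal ι hns
  obtain ⟨hfin, hrk⟩ := unitSpace_fin ι hL
  let gu : (𝓞 k)ˣ → (𝓞 k)ˣ := fun u =>
    Units.map (RingOfIntegers.mapRingHom (g : k →+* k)).toMonoidHom u
  have hgu : ∀ u : (𝓞 k)ˣ, ((gu u : (𝓞 k)ˣ) : k) = g (u : k) := fun u => rfl
  have hgen : ∀ u : (𝓞 k)ˣ, τ (L (ι (u : k))) = L (ι ((gu u : (𝓞 k)ˣ) : k)) := by
    intro u
    rw [hgu, ← hτ, log_gal hL τ (unit_ne ι u)]
  let τr : PadicAlgCl p →+* PadicAlgCl p :=
    ((τ : PadicAlgCl p →ₐ[ℚ_[p]] PadicAlgCl p) : PadicAlgCl p →+* PadicAlgCl p)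
  have hτr : ∀ y, τr y = τ y := fun y => rfl
  refine quintic_padic hL (unitSpace ι L) (hrk.trans (rank_le hk)) ?_ τr ?_ ?_ M hM hdet
  · intro y hy
    have hle : unitSpace ι L ≤ logSpace hL := by
      unfold unitSpace
      rw [Submodule.span_le]
      rintro _ ⟨u, rfl⟩
      refine ⟨ι (u : k), unit_ne ι u, ?_, rfl⟩
      have h1 : IsAlgebraic ℚ (u : k) := Algebra.IsAlgebraic.isAlgebraic _
      exact h1.algHom (RingHom.toRatAlgHom ι)
    exact hle hy
  · intro y hy
    unfold unitSpace at hy ⊢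
    refine Submodule.span_induction (p := fun y _ => τr y ∈ Submodule.span ℚ
      (Set.range fun u : (𝓞 k)ˣ => L (ι (u : k)))) ?_ ?_ ?_ ?_ hy
    · rintro _ ⟨u, rfl⟩
      rw [hτr, hgen]
      exact Submodule.subset_span ⟨gu u, rfl⟩
    · rw [map_zero]
      exact Submodule.zero_mem _
    · intro y y' _ _ h h'
      rw [map_add]
      exact Submodule.add_mem _ h h'
    · intro a y _ h
      rw [Algebra.smul_def, map_mul, eq_ratCast, map_ratCast]
      have := Submodule.smul_mem _ a h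
      rwa [Algebra.smul_def, eq_ratCast] at this
  · intro y hy
    unfold unitSpace at hy
    refine Submodule.span_induction (p := fun y _ =>
      y + τr y + τr (τr y) + τr (τr (τr y)) + τr (τr (τr (τr y))) = 0) ?_ ?_ ?_ ?_ hy
    · rintro _ ⟨u, rfl⟩
      simp only [hτr, hgen]
      rw [← hL.mul _ _ (unit_ne ι _) (unit_ne ι _),
        ← hL.mul _ _ (mul_ne_zero (unit_ne ι _) (unit_ne ι _)) (unit_ne ι _),
        ← hL.mul _ _ (mul_ne_zero (mul_ne_zero (unit_ne ι _) (unit_ne ι _)) (unit_ne ι _))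
          (unit_ne ι _),
        ← hL.mul _ _ (mul_ne_zero (mul_ne_zero (mul_ne_zero (unit_ne ι _) (unit_ne ι _))
          (unit_ne ι _)) (unit_ne ι _)) (unit_ne ι _)]
      rw [← map_mul, ← map_mul, ← map_mul, ← map_mul]
      simp only [hgu]
      rw [prod_gal hk g hg]
      have h1 := NumberField.Units.norm k u
      rcases (abs_eq (zero_le_one)).1 h1 with h2 | h2
      · rw [h2, map_one, map_one, hL.one]
      · rw [h2, map_neg, map_one, map_neg, map_one, log_neg_one hL]
    · simp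
    · intro y y' _ _ h h'
      simp only [map_add]
      linear_combination h + h'
    · intro a y _ h
      simp only [Algebra.smul_def, map_mul, eq_ratCast, map_ratCast]
      linear_combination (a : PadicAlgCl p) * h

end units

end Pool.Agent.P8H10
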