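import Mathlib

/-!
# The resultant of two polynomials without common factor over a factorial ring
-/

set_option autoImplicit false

open Polynomial

namespace Pool.Agent.P8H10.ZM

theorem resultant_ne_zero_of_isRelPrime {R : Type*} [CommRing R] [IsDomain R] [UniqueFactorizationMonoid R]
    {F G : R[X]} (hF : F ≠ 0) (h : IsRelPrime F G) : resultant F G F.natDegree G.natDegree ≠ 0 := by
  classical
  let K := FractionRing R
  have hinj : Function.Injective (algebraMap R K) := IsFractionRing.injective R K
  intro h0
  have h1 : resultant (F.map (algebraMap R K)) (G.map (algebraMap R K)) = 0 := by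
    rw [natDegree_map_eq_of_injective hinj, natDegree_map_eq_of_injective hinj, resultant_map_map, h0, map_zero]
  rw [resultant_eq_zero_iff] at h1
  refine h1.2 (isCoprime_of_irreducible_dvd ?_ fun π hπ hπF hπG => ?_)
  · rintro ⟨h2, -⟩
    exact hF ((Polynomial.map_eq_zero_iff hinj).1 h2)
  obtain ⟨f, hf, u, hu⟩ := UniqueFactorizationMonoid.exists_prime_factors F hF
  have hπp := hπ.prime
  have h3 : π ∣ (f.map (Polynomial.map (algebraMap R K))).prod := by
    rw [← hu, Polynomial.map_mul] at hπF
    have h4 : IsUnit ((u : R[X]).map (algebraMap R K)) := u.isUnit.map (Polynomial.mapRingHom (algebraMap R K))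
    have h5 := (h4.dvd_mul_right).1 hπF
    have h6 : (f.prod).map (algebraMap R K) = (f.map (Polynomial.map (algebraMap R K))).prod := by
      have := map_multiset_prod (Polynomial.mapRingHom (algebraMap R K)) f
      exact this
    rwa [h6] at h5
  obtain ⟨g, hg, hπb⟩ := Prime.exists_mem_multiset_map_dvd hπp h3
  have hgi := (hf g hg).irreducible
  have hgd : g.natDegree ≠ 0 := by
    intro hd
    have e := eq_C_of_natDegree_eq_zero hd
    have h6 : g.coeff 0 ≠ 0 := fun h7 => hgi.ne_zero (by rw [e, h7, C_0])
    rw [e, Polynomial.map_C] at hπb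
    have h8 : IsUnit (C (algebraMap R K (g.coeff 0))) :=
      isUnit_C.2 (isUnit_iff_ne_zero.2 fun h9 => h6 (hinj (h9.trans (map_zero _).symm)))
    exact hπ.not_isUnit (isUnit_of_dvd_unit hπb h8)
  have hgp : g.IsPrimitive := hgi.isPrimitive hgd
  have hgK : Irreducible (g.map (algebraMap R K)) := hgp.irreducible_iff_irreducible_map_fraction_map.1 hgi
  have h9 : Associated π (g.map (algebraMap R K)) := hπ.associated_of_dvd hgK hπb
  have h10 : g ∣ G := hgp.dvd_of_fraction_map_dvd_fraction_map (K := K) (h9.symm.dvd.trans hπG)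
  have h11 : g ∣ F := by
    rw [← hu]
    exact (Multiset.dvd_prod hg).mul_right _
  exact hgi.not_isUnit (h h11 h10)

end Pool.Agent.P8H10.ZM
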