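import Pool.Agent.P8H10.ZJoint
import Pool.Agent.R352.Q.Three

/-!
# The measure of the incomplete zeta values `C_3(x)`
-/

set_option autoImplicit false

open Finset Pool.Agent.R356 Pool.Agent.N743.SS Pool.Agent.R352.E Pool.Agent.R352.Q

namespace Pool.Agent.P8H10.ZM

open PowerSeries in
lemma Zk3_eq {x : ℝ} (hx : 0 < x) : Zk 3 x = 3 * EE 3 x * (1 - Real.exp (-x)) ^ 2 -
    3 * EE 1 x * EE 2 x * (1 - Real.exp (-x)) + EE 1 x ^ 3 := by
  have ha0 := (const_pos hx).ne'
  have h := deriv_As hx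
  have key : ∀ n : ℕ, coeff (n + 1) (As x) * ((n : ℝ) + 1) = ∑ i ∈ Finset.range (n + 1),
      coeff i (As x) * coeff (n - i) (Ls x) := by
    intro n
    have h1 := congrArg (coeff n) h
    rw [coeff_derivative, coeff_mul, Finset.Nat.sum_antidiagonal_eq_sum_range_succ
      (fun i j => coeff i (As x) * coeff j (Ls x))] at h1
    exact h1
  have h0 := key 0
  have h1 := key 1
  have h2 := key 2
  simp only [Finset.sum_range_succ, Finset.sum_range_zero, zero_add, Nat.sub_self, Nat.sub_zero,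
    Nat.cast_zero, Nat.cast_one, Nat.cast_ofNat] at h0 h1 h2
  have hA0 : coeff 0 (As x) = 1 - Real.exp (-x) := by rw [coeff_zero_eq_constantCoeff_apply, const_As]
  have c1 : coeff 1 (As x) = -EE 1 x := by rw [As, coeff_mk]; ring
  have c2 : coeff 2 (As x) = EE 2 x := by rw [As, coeff_mk]; ring
  have c3 : coeff 3 (As x) = -EE 3 x := by rw [As, coeff_mk]; ring
  have d1 : (1 : ℕ) + 1 = 2 := rfl
  have d2 : (2 : ℕ) + 1 = 3 := rfl
  have d3 : (2 : ℕ) - 1 = 1 := rfl
  rw [hA0, c1] at h0
  rw [hA0, d1, c1, c2] at h1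
  rw [hA0, d2, d3, c1, c2, c3] at h2
  show (-1) ^ 3 * ((1 - Real.exp (-x)) ^ 3 * coeff 2 (Ls x)) = _
  generalize 1 - Real.exp (-x) = a at *
  generalize coeff 0 (Ls x) = l0 at *
  generalize coeff 1 (Ls x) = l1 at *
  generalize coeff 2 (Ls x) = l2 at *
  linear_combination a ^ 2 * h2 + (EE 1 x * a) * h1 + (EE 1 x ^ 2 - EE 2 x * a) * h0

/-- a common denominator -/
lemma exists_den {k : ℕ} (x : Fin k → ℚ) (hinj : Function.Injective x) (hpos : ∀ i, 0 < x i) :
    ∃ (q : ℕ) (mm : Fin k → ℕ), 1 ≤ q ∧ Function.Injective mm ∧ (∀ i, 1 ≤ mm i) ∧ ∀ i, (mm i : ℝ) / q = x i := by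
  set q : ℕ := ∏ i, (x i).den with hqd
  have hq : 1 ≤ q := Nat.one_le_iff_ne_zero.2 (Finset.prod_ne_zero_iff.2 fun i _ => (x i).den_ne_zero)
  have hq' : (q : ℝ) ≠ 0 := by positivity
  have hm : ∀ i, ∃ m : ℕ, 1 ≤ m ∧ (m : ℝ) / q = x i := by
    intro i
    obtain ⟨c, hc⟩ := Finset.dvd_prod_of_mem (fun i => (x i).den) (Finset.mem_univ i)
    have hc' : q = (x i).den * c := hc
    have hnum : 0 < (x i).num := Rat.num_pos.2 (hpos i)
    have hc0 : c ≠ 0 := by
      rintro rfl
      rw [mul_zero] at hc'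
      omega
    refine ⟨(x i).num.toNat * c, ?_, ?_⟩
    · have h1 : 1 ≤ (x i).num.toNat := by omega
      exact Nat.one_le_iff_ne_zero.2 (Nat.mul_ne_zero (by omega) hc0)
    · have h2 : (((x i).num.toNat : ℕ) : ℝ) = ((x i).num : ℝ) := by
        have : (((x i).num.toNat : ℕ) : ℤ) = (x i).num := Int.toNat_of_nonneg hnum.le
        exact_mod_cast this
      have h3 : ((x i : ℚ) : ℝ) = ((x i).num : ℝ) / ((x i).den : ℝ) := by
        exact_mod_cast (Rat.num_div_den (x i)).symm
      rw [hc', h3]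
      push_cast
      rw [h2]
      have : ((x i).den : ℝ) ≠ 0 := by exact_mod_cast (x i).den_ne_zero
      have : (c : ℝ) ≠ 0 := by exact_mod_cast hc0
      field_simp
  choose mm hmm using hm
  have hinj' : Function.Injective mm := by
    intro i j hij
    apply hinj
    have h1 := (hmm i).2
    rw [hij, (hmm j).2] at h1
    exact_mod_cast h1.symm
  exact ⟨q, mm, hq, hinj', fun i => (hmm i).1, fun i => (hmm i).2⟩

/-- `e` and the numbers `C_3(x)` are algebraically independent -/
lemma AI_three (T : Finset ℚ) (hT : ∀ x ∈ T, 0 < x) :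
    AlgebraicIndependent ℚ (fun o : Option T => o.elim (Real.exp 1) (fun x => Zk 3 (x : ℚ))) := by
  let f : Option T → Option {p : ℕ × ℚ // 2 ≤ p.1 ∧ 0 < p.2} :=
    Option.map fun x => ⟨(3, (x : ℚ)), by norm_num, hT x x.2⟩
  have hf : Function.Injective f := by
    refine Option.map_injective ?_
    intro p p' h
    simp only [Subtype.mk.injEq, Prod.mk.injEq, true_and] at h
    exact Subtype.ext h
  have h2 := AI_Z.comp f hf
  convert h2 using 1
  ext o
  cases o <;> simp [f]

/-- the polynomials for the numbers `C_3(x)` -/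
noncomputable def GZ {k : ℕ} (q : ℕ) (mm : Fin k → ℕ) {T : Finset ℚ} (e : T ≃ Fin k) :
    Option T → MvPolynomial (Option (Fin 3 × Fin k)) ℤ :=
  fun o => o.elim (MvPolynomial.X none ^ q) fun x =>
    3 * MvPolynomial.X (some (2, e x)) * (1 - MvPolynomial.X none ^ mm (e x)) ^ 2 -
      3 * MvPolynomial.X (some (0, e x)) * MvPolynomial.X (some (1, e x)) * (1 - MvPolynomial.X none ^ mm (e x)) +
      MvPolynomial.X (some (0, e x)) ^ 3

/-- **The measure** of `e` and the numbers `C_3(x)` -/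
theorem measM_Z (T : Finset ℚ) (hT : ∀ x ∈ T, 0 < x) :
    MeasM (fun o : Option T => o.elim (Real.exp 1) (fun x => Zk 3 (x : ℚ))) := by
  classical
  let e : T ≃ Fin T.card := T.equivFin
  obtain ⟨q, mm, hq, hinj, hpos, hmm⟩ := exists_den (fun i => ((e.symm i : T) : ℚ))
    (fun i j hij => e.symm.injective (Subtype.ext hij)) (fun i => hT _ (e.symm i).2)
  have hq0 : (q : ℝ) ≠ 0 := by positivity
  have hx : ∀ x : T, (mm (e x) : ℝ) / q = ((x : ℚ) : ℝ) := by
    intro x
    rw [hmm (e x), e.symm_apply_apply]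
  have hbase := measM_EE 3 T.card mm hinj hpos hq
  have h1 : MeasM (fun o : Option T => o.elim ((Real.exp 1)⁻¹) (fun x => Zk 3 (x : ℚ))) := by
    refine measM_subst hbase (GZ q mm e) (fun o => ?_) ?_
    · cases o with
      | none =>
        simp only [GZ, Option.elim, map_pow, MvPolynomial.aeval_X]
        rw [← Real.exp_nat_mul, ← Real.exp_neg]
        congr 1
        field_simp
      | some x =>
        have hxp : (0 : ℝ) < ((x : ℚ) : ℝ) := by exact_mod_cast hT x x.2
        have he : Real.exp (-1 / q) ^ mm (e x) = Real.exp (-((x : ℚ) : ℝ)) := by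
          rw [← Real.exp_nat_mul, ← hx x]
          congr 1
          ring
        simp only [GZ, Option.elim, map_pow, map_add, map_sub, map_mul, map_one, map_ofNat, MvPolynomial.aeval_X]
        rw [he, Zk3_eq hxp, hx x]
        norm_num
    · refine Pool.Agent.R352.E.indep_of_span (AI_three T hT) (fun o => ?_) le_rfl
      cases o with
      | none =>
        have h2 : Real.exp 1 = ((Real.exp 1)⁻¹)⁻¹ := (inv_inv _).symm
        simp only [Option.elim]
        rw [h2]
        exact (clF _).inv_mem (subset_clF _ ⟨none, by simp⟩)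
      | some x => exact subset_clF _ ⟨some x, rfl⟩
  refine measM_inv h1 none ?_ ?_ ?_
  · simp only [Option.elim]
    positivity
  · simp
  · intro j hj
    cases j with
    | none => exact absurd rfl hj
    | some x => rfl

/-- `C_3(x)`, with `C_3(0) = 0` -/
noncomputable def Cz (x : ℚ) : ℝ := if x = 0 then 0 else Zk 3 x

/-- the tails, `R_3(0) = ζ(3)` -/
noncomputable def Rz (x : ℚ) : ℝ := zt 3 - Cz x

/-- the shifted family -/
noncomputable def ωz (S : Finset ℚ) (x₀ : ℚ) : Option S → ℝ :=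
  fun o => o.elim (Real.exp 1) fun x => Cz x₀ - Cz (x : ℚ)

lemma AI_shift_zero (S : Finset ℚ) (x₀ : ℚ) (hS : ∀ x ∈ S, 0 ≤ x) (h0 : 0 ≤ x₀) (hx : x₀ ∉ S)
    (h : x₀ = 0 ∨ (0 : ℚ) ∈ S) : AlgebraicIndependent ℚ (ωz S x₀) := by
  classical
  let T : Finset ℚ := (insert x₀ S).erase 0
  have hTpos : ∀ x ∈ T, 0 < x := by
    intro x hxT
    rw [Finset.mem_erase, Finset.mem_insert] at hxT
    rcases hxT.2 with h1 | h1
    · rw [h1] at hxT ⊢
      exact lt_of_le_of_ne h0 (Ne.symm hxT.1)
    · exact lt_of_le_of_ne (hS x h1) (Ne.symm hxT.1)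
  have hcard : T.card = S.card := by
    have h1 : (0 : ℚ) ∈ insert x₀ S := by
      rcases h with h | h
      · rw [h]; exact Finset.mem_insert_self _ _
      · exact Finset.mem_insert_of_mem h
    rw [Finset.card_erase_of_mem h1, Finset.card_insert_of_notMem hx, Nat.add_sub_cancel]
  refine Pool.Agent.R352.E.indep_of_span (AI_three T hTpos) (fun o => ?_) ?_
  · have he : Real.exp 1 ∈ clF (Set.range (ωz S x₀)) := subset_clF _ ⟨none, rfl⟩
    have hC0 : Cz x₀ ∈ clF (Set.range (ωz S x₀)) := by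
      rcases h with h | h
      · rw [h, Cz, if_pos rfl]; exact (clF _).zero_mem
      · refine subset_clF _ ⟨some ⟨0, h⟩, ?_⟩
        simp [ωz, Cz]
    cases o with
    | none => exact he
    | some x =>
      have hxT := x.2
      rw [Finset.mem_erase, Finset.mem_insert] at hxT
      have hZ : Zk 3 ((x : ℚ) : ℝ) = Cz x := by rw [Cz, if_neg hxT.1]
      show Zk 3 ((x : ℚ) : ℝ) ∈ _
      rw [hZ]
      rcases hxT.2 with h1 | h1
      · rw [h1]; exact hC0
      · have h2 : Cz (x : ℚ) = Cz x₀ - (Cz x₀ - Cz (x : ℚ)) := by ring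
        rw [h2]
        exact (clF _).sub_mem hC0 (subset_clF _ ⟨some ⟨x, h1⟩, rfl⟩)
  · simp [hcard]

lemma AI_om (S : Finset ℚ) (x₀ : ℚ) (hS : ∀ x ∈ S, 0 ≤ x) (h0 : 0 ≤ x₀) (hx : x₀ ∉ S) :
    AlgebraicIndependent ℚ (ωz S x₀) := by
  classical
  by_cases h : x₀ = 0 ∨ (0 : ℚ) ∈ S
  · exact AI_shift_zero S x₀ hS h0 hx h
  · push Not at h
    have h1 := AI_shift_zero (insert 0 S) x₀ (by
        intro x hxS
        rcases Finset.mem_insert.1 hxS with h2 | h2
        · rw [h2]
        · exact hS x h2) h0 (by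
        rw [Finset.mem_insert]
        rintro (h2 | h2)
        · exact h.1 h2
        · exact hx h2) (Or.inr (Finset.mem_insert_self _ _))
    let f : Option S → Option (insert 0 S : Finset ℚ) := Option.map fun x => ⟨x, Finset.mem_insert_of_mem x.2⟩
    have hf : Function.Injective f := by
      refine Option.map_injective ?_
      intro a b hab
      simp only [Subtype.mk.injEq] at hab
      exact Subtype.ext hab
    have h2 := h1.comp f hf
    convert h2 using 1
    ext o
    cases o <;> simp [f, ωz]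

/-- the measure of the shifted family -/
theorem measM_om (S : Finset ℚ) (x₀ : ℚ) (hS : ∀ x ∈ S, 0 ≤ x) (h0 : 0 ≤ x₀) (hx : x₀ ∉ S) :
    MeasM (ωz S x₀) := by
  classical
  let T : Finset ℚ := (insert x₀ S).erase 0
  have hTpos : ∀ x ∈ T, 0 < x := by
    intro x hxT
    rw [Finset.mem_erase, Finset.mem_insert] at hxT
    rcases hxT.2 with h1 | h1
    · rw [h1] at hxT ⊢
      exact lt_of_le_of_ne h0 (Ne.symm hxT.1)
    · exact lt_of_le_of_ne (hS x h1) (Ne.symm hxT.1)
  let c : ℚ → MvPolynomial (Option T) ℤ := fun x => if h : x ∈ T then MvPolynomial.X (some ⟨x, h⟩) else 0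
  have hc : ∀ x ∈ insert x₀ S, MvPolynomial.aeval
      (fun o : Option T => o.elim (Real.exp 1) (fun x => Zk 3 (x : ℚ))) (c x) = Cz x := by
    intro x hxS
    by_cases h : x ∈ T
    · have h1 : x ≠ 0 := (Finset.mem_erase.1 h).1
      simp only [c, dif_pos h, MvPolynomial.aeval_X, Option.elim]
      rw [Cz, if_neg h1]
    · have h1 : x = 0 := by
        by_contra h1
        exact h (Finset.mem_erase.2 ⟨h1, hxS⟩)
      simp only [c, dif_neg h, map_zero]
      rw [Cz, if_pos h1]
  refine measM_subst (measM_Z T hTpos)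
    (fun o : Option S => o.elim (MvPolynomial.X none) fun x => c x₀ - c x) (fun o => ?_) (AI_om S x₀ hS h0 hx)
  cases o with
  | none => simp [ωz]
  | some x =>
    show Cz x₀ - Cz (x : ℚ) = MvPolynomial.aeval
      (fun o : Option T => o.elim (Real.exp 1) (fun x => Zk 3 (x : ℚ))) (c x₀ - c x)
    rw [map_sub, hc x₀ (Finset.mem_insert_self _ _), hc x (Finset.mem_insert_of_mem x.2)]

end Pool.Agent.P8H10.ZM
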