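import Pool.Agent.P8H10.ZFam

/-!
# The measure of `e` and the incomplete zeta values `C_k(x)`
-/

set_option autoImplicit false

open Finset Pool.Agent.R356 Pool.Agent.N743.SS Pool.Agent.R352.E Pool.Agent.R352.Q

namespace Pool.Agent.P8H10.ZM

open PowerSeries in
lemma bpolys (J n : ℕ) : ∃ G : ℕ → MvPolynomial (Fin (J + 1)) ℤ, ∀ m < n, m + 1 ≤ J → ∀ x : ℝ, 0 < x →
    (1 - Real.exp (-x)) ^ (m + 1) * coeff m (Ls x) =
      MvPolynomial.aeval (fun l : Fin (J + 1) => coeff (l : ℕ) (As x)) (G m) := by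
  classical
  induction n with
  | zero => exact ⟨fun _ => 0, fun m hm => absurd hm (by omega)⟩
  | succ j ih =>
    obtain ⟨G, hG⟩ := ih
    by_cases hj : j + 1 ≤ J
    · let g : MvPolynomial (Fin (J + 1)) ℤ :=
        ((j + 1 : ℕ) : MvPolynomial (Fin (J + 1)) ℤ) * (MvPolynomial.X 0 ^ j * MvPolynomial.X ⟨j + 1, by omega⟩) -
          ∑ i : Fin j, MvPolynomial.X ⟨(i : ℕ) + 1, by have := i.2; omega⟩ * MvPolynomial.X 0 ^ (i : ℕ) * G (j - 1 - i)
      refine ⟨Function.update G j g, fun m hm hmJ x hx => ?_⟩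
      rcases Nat.lt_succ_iff_lt_or_eq.1 hm with h | rfl
      · rw [Function.update_of_ne h.ne]
        exact hG m h hmJ x hx
      · rw [Function.update_self]
        have hA0 : coeff 0 (As x) = 1 - Real.exp (-x) := by rw [coeff_zero_eq_constantCoeff_apply, const_As]
        have h1 := congrArg (coeff m) (deriv_As hx)
        rw [coeff_derivative, coeff_mul, Finset.Nat.sum_antidiagonal_eq_sum_range_succ
          (fun i j => coeff i (As x) * coeff j (Ls x)), Finset.sum_range_succ', Nat.sub_zero, hA0] at h1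
        have h2 : ∀ i ∈ Finset.range m, coeff (i + 1) (As x) * (1 - Real.exp (-x)) ^ i *
            MvPolynomial.aeval (fun l : Fin (J + 1) => coeff (l : ℕ) (As x)) (G (m - 1 - i)) =
            (1 - Real.exp (-x)) ^ m * (coeff (i + 1) (As x) * coeff (m - (i + 1)) (Ls x)) := by
          intro i hi
          rw [Finset.mem_range] at hi
          rw [← hG (m - 1 - i) (by omega) (by omega) x hx]
          have e1 : m - 1 - i = m - (i + 1) := by omega
          have e2 : (1 - Real.exp (-x)) ^ m = (1 - Real.exp (-x)) ^ i * (1 - Real.exp (-x)) ^ (m - 1 - i + 1) := by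
            rw [← pow_add]
            congr 1
            omega
          rw [e2, e1]
          ring
        have h3 : MvPolynomial.aeval (fun l : Fin (J + 1) => coeff (l : ℕ) (As x)) g =
            ((m + 1 : ℕ) : ℝ) * ((1 - Real.exp (-x)) ^ m * coeff (m + 1) (As x)) -
              ∑ i ∈ Finset.range m, (1 - Real.exp (-x)) ^ m * (coeff (i + 1) (As x) * coeff (m - (i + 1)) (Ls x)) := by
          rw [← Finset.sum_congr rfl h2, ← Fin.sum_univ_eq_sum_range
            (fun i => coeff (i + 1) (As x) * (1 - Real.exp (-x)) ^ i *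
              MvPolynomial.aeval (fun l : Fin (J + 1) => coeff (l : ℕ) (As x)) (G (m - 1 - i))) m]
          simp only [g, map_sub, map_mul, map_pow, map_natCast, map_sum, MvPolynomial.aeval_X, Fin.val_zero, hA0]
        rw [h3, ← Finset.mul_sum]
        push_cast
        linear_combination (-(1 - Real.exp (-x)) ^ m) * h1
    · refine ⟨G, fun m hm hmJ x hx => hG m ?_ hmJ x hx⟩
      omega

/-- the numbers `C_k(x)` as polynomials -/
lemma Zk_poly (J : ℕ) : ∃ G : ℕ → MvPolynomial (Fin (J + 1)) ℤ, ∀ k, 1 ≤ k → k ≤ J → ∀ x : ℝ, 0 < x →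
    Zk k x = MvPolynomial.aeval (fun l : Fin (J + 1) => PowerSeries.coeff (l : ℕ) (As x)) (G k) := by
  obtain ⟨G, hG⟩ := bpolys J J
  refine ⟨fun k => (-1) ^ k * G (k - 1), fun k hk hkJ x hx => ?_⟩
  have h1 := hG (k - 1) (by omega) (by omega) x hx
  rw [Nat.sub_add_cancel hk] at h1
  rw [map_mul, ← h1, Zk, map_pow, map_neg, map_one]

/-- **The measure** of `e` and the numbers `C_k(x)` -/
theorem measM_ZS (S : Finset (ℕ × ℚ)) (hS : ∀ p ∈ S, 2 ≤ p.1 ∧ 0 < p.2) :
    MeasM (fun o : Option S => o.elim (Real.exp 1) (fun p => Zk p.1.1 p.1.2)) := by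
  classical
  let T : Finset ℚ := S.image Prod.snd
  have hT : ∀ x ∈ T, 0 < x := by
    intro x hx
    obtain ⟨p, hp, rfl⟩ := Finset.mem_image.1 hx
    exact (hS p hp).2
  let J : ℕ := S.sup Prod.fst
  have hJ : ∀ p ∈ S, p.1 ≤ J := fun p hp => Finset.le_sup (f := Prod.fst) hp
  let e : T ≃ Fin T.card := T.equivFin
  have hmem : ∀ p : S, p.1.2 ∈ T := fun p => Finset.mem_image_of_mem _ p.2
  obtain ⟨q, mm, hq, hinj, hpos, hmm⟩ := exists_den (fun i => ((e.symm i : T) : ℚ))
    (fun i j hij => e.symm.injective (Subtype.ext hij)) (fun i => hT _ (e.symm i).2)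
  have hq0 : (q : ℝ) ≠ 0 := by positivity
  have hx : ∀ x : T, (mm (e x) : ℝ) / q = ((x : ℚ) : ℝ) := by
    intro x
    rw [hmm (e x), e.symm_apply_apply]
  have hbase := measM_EE J T.card mm hinj hpos hq
  obtain ⟨G, hG⟩ := Zk_poly J
  let V : Fin T.card → Fin (J + 1) → MvPolynomial (Option (Fin J × Fin T.card)) ℤ := fun i l =>
    if h : (l : ℕ) = 0 then 1 - MvPolynomial.X none ^ mm i else
      (-1) ^ (l : ℕ) * MvPolynomial.X (some (⟨(l : ℕ) - 1, by have := l.2; omega⟩, i))
  have h1 : MeasM (fun o : Option S => o.elim ((Real.exp 1)⁻¹) (fun p => Zk p.1.1 p.1.2)) := by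
    refine measM_subst hbase (fun o : Option S => o.elim (MvPolynomial.X none ^ q) fun p =>
      MvPolynomial.aeval (V (e ⟨p.1.2, hmem p⟩)) (G p.1.1)) (fun o => ?_) ?_
    · cases o with
      | none =>
        simp only [Option.elim, map_pow, MvPolynomial.aeval_X]
        rw [← Real.exp_nat_mul, ← Real.exp_neg]
        congr 1
        field_simp
      | some p =>
        have hxp : (0 : ℝ) < ((p.1.2 : ℚ) : ℝ) := by exact_mod_cast (hS p.1 p.2).2
        have hxm := hx ⟨p.1.2, hmem p⟩
        simp only at hxm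
        have he : Real.exp (-1 / q) ^ mm (e ⟨p.1.2, hmem p⟩) = Real.exp (-((p.1.2 : ℚ) : ℝ)) := by
          rw [← Real.exp_nat_mul, ← hxm]
          congr 1
          ring
        show Zk p.1.1 ((p.1.2 : ℚ) : ℝ) = MvPolynomial.aeval _ (MvPolynomial.aeval (V (e ⟨p.1.2, hmem p⟩)) (G p.1.1))
        have hk := hS p.1 p.2
        rw [hG p.1.1 (by omega) (hJ p.1 p.2) _ hxp]
        have h2 : ∀ Q : MvPolynomial (Fin (J + 1)) ℤ, MvPolynomial.aeval
            (fun o : Option (Fin J × Fin T.card) => o.elim (Real.exp (-1 / q)) (fun p => EE (p.1 + 1) ((mm p.2 : ℝ) / q)))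
            (MvPolynomial.aeval (V (e ⟨p.1.2, hmem p⟩)) Q) =
            MvPolynomial.aeval (fun l : Fin (J + 1) => PowerSeries.coeff (l : ℕ) (As ((p.1.2 : ℚ) : ℝ))) Q := by
          intro Q
          have h3 : (MvPolynomial.aeval (fun o : Option (Fin J × Fin T.card) => o.elim (Real.exp (-1 / q))
              (fun p => EE (p.1 + 1) ((mm p.2 : ℝ) / q))) : MvPolynomial (Option (Fin J × Fin T.card)) ℤ →ₐ[ℤ] ℝ).comp
              (MvPolynomial.aeval (V (e ⟨p.1.2, hmem p⟩))) =
              MvPolynomial.aeval (fun l : Fin (J + 1) => PowerSeries.coeff (l : ℕ) (As ((p.1.2 : ℚ) : ℝ))) := by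
            apply MvPolynomial.algHom_ext
            intro l
            rw [AlgHom.comp_apply, MvPolynomial.aeval_X, MvPolynomial.aeval_X]
            by_cases hl : (l : ℕ) = 0
            · simp only [V, dif_pos hl, map_sub, map_one, map_pow, MvPolynomial.aeval_X, Option.elim]
              rw [he, hl, PowerSeries.coeff_zero_eq_constantCoeff_apply, const_As]
            · simp only [V, dif_neg hl, map_mul, map_pow, map_neg, map_one, MvPolynomial.aeval_X, Option.elim]
              rw [As, PowerSeries.coeff_mk, hxm, Nat.sub_add_cancel (by omega)]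
          exact congrArg (fun φ : MvPolynomial (Fin (J + 1)) ℤ →ₐ[ℤ] ℝ => φ Q) h3
        exact (h2 _).symm
    · refine Pool.Agent.R352.E.indep_of_span (AI_sub S hS) (fun o => ?_) le_rfl
      cases o with
      | none =>
        have h2 : Real.exp 1 = ((Real.exp 1)⁻¹)⁻¹ := (inv_inv _).symm
        simp only [Option.elim]
        rw [h2]
        exact (clF _).inv_mem (subset_clF _ ⟨none, by simp⟩)
      | some x => exact subset_clF _ ⟨some x, rfl⟩
  refine measM_inv h1 none ?_ ?_ ?_
  · simp only [Option.elim]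
    positivity
  · simp
  · intro j hj
    cases j with
    | none => exact absurd rfl hj
    | some x => rfl

end Pool.Agent.P8H10.ZM
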