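import Mathlib

/-!
# Cramer's rule with Gram matrices
-/

set_option autoImplicit false

open Finset

namespace Pool.Agent.P8H10.UN

/-- rows which span -/
lemma exists_rows {β τ : Type} [Fintype β] (v : β → τ → ℝ) (e : τ → ℝ)
    (he : e ∈ Submodule.span ℝ (Set.range v)) :
    ∃ (r : ℕ) (a : Fin r → β), r ≤ Fintype.card β ∧ LinearIndependent ℝ (fun k => v (a k)) ∧
      e ∈ Submodule.span ℝ (Set.range fun k => v (a k)) := by
  classical
  obtain ⟨κ, a, ha, hs, hl⟩ := exists_linearIndependent' ℝ v
  have hfin : Finite κ := Finite.of_injective a ha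
  cases nonempty_fintype κ
  let g := Fintype.equivFin κ
  refine ⟨Fintype.card κ, fun k => a (g.symm k), Fintype.card_le_of_injective a ha, ?_, ?_⟩
  · exact hl.comp g.symm g.symm.injective
  · have h1 : (Set.range fun k => v (a (g.symm k))) = Set.range (v ∘ a) := by
      ext y
      constructor
      · rintro ⟨k, rfl⟩
        exact ⟨g.symm k, rfl⟩
      · rintro ⟨k, rfl⟩
        exact ⟨g k, by simp⟩
    rw [h1, hs]
    exact he

/-- the Gram matrix -/
def gram {R : Type*} [CommRing R] {τ : Type} [Fintype τ] {r : ℕ} (V : Fin r → τ → R) : Matrix (Fin r) (Fin r) R :=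
  Matrix.of fun k l => ∑ t, V k t * V l t

lemma gram_map {R S : Type*} [CommRing R] [CommRing S] (φ : R →+* S) {τ : Type} [Fintype τ] {r : ℕ}
    (V : Fin r → τ → R) : φ (gram V).det = (gram fun k t => φ (V k t)).det := by
  rw [RingHom.map_det]
  congr 1
  ext k l
  simp [gram, Matrix.map_apply, RingHom.mapMatrix_apply]

lemma gram_det_ne {τ : Type} [Fintype τ] {r : ℕ} (V : Fin r → τ → ℝ) (h : LinearIndependent ℝ V) :
    (gram V).det ≠ 0 := by
  classical
  intro h0
  obtain ⟨w, hw, hw0⟩ := Matrix.exists_vecMul_eq_zero_iff.2 h0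
  apply hw
  have h1 : ∀ l, ∑ k, w k * ∑ t, V k t * V l t = 0 := by
    intro l
    have := congrFun hw0 l
    simpa [Matrix.vecMul, dotProduct, gram] using this
  have h2 : ∑ t, (∑ k, w k * V k t) ^ 2 = 0 := by
    have h3 : ∑ l, w l * ∑ k, w k * ∑ t, V k t * V l t = 0 := by
      refine Finset.sum_eq_zero fun l _ => ?_
      rw [h1, mul_zero]
    rw [← h3]
    simp only [sq, Finset.mul_sum, Finset.sum_mul]
    rw [Finset.sum_comm]
    refine Finset.sum_congr rfl fun l _ => ?_
    rw [Finset.sum_comm]
    refine Finset.sum_congr rfl fun k _ => ?_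
    refine Finset.sum_congr rfl fun t _ => ?_
    ring
  have h4 : ∀ t, ∑ k, w k * V k t = 0 := by
    intro t
    have h5 := (Finset.sum_eq_zero_iff_of_nonneg (fun t _ => sq_nonneg _)).1 h2 t (Finset.mem_univ t)
    exact pow_eq_zero_iff (two_ne_zero) |>.1 h5
  have h6 : ∑ k, w k • V k = 0 := by
    ext t
    simpa using h4 t
  exact funext fun k => Fintype.linearIndependent_iff.1 h w h6 k

/-- the coefficients of the relation -/
def cof {R : Type*} [CommRing R] {τ : Type} [Fintype τ] {r : ℕ} (V : Fin r → τ → R) (e : τ → R) (k : Fin r) : R :=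
  ∑ l, (∑ t, e t * V l t) * (gram V).adjugate l k

/-- **Cramer's rule** for a vector of the span of rows -/
lemma cramer_gram {τ : Type} [Fintype τ] {r : ℕ} (V : Fin r → τ → ℝ) (e : τ → ℝ)
    (he : e ∈ Submodule.span ℝ (Set.range V)) (t : τ) :
    (gram V).det * e t = ∑ k, cof V e k * V k t := by
  classical
  rw [Submodule.mem_span_range_iff_exists_fun] at he
  obtain ⟨b, rfl⟩ := he
  have h1 : ∀ l, ∑ t, (∑ k, b k • V k) t * V l t = ∑ k, b k * gram V k l := by
    intro l
    simp only [Finset.sum_apply, Pi.smul_apply, smul_eq_mul, gram, Matrix.of_apply, Finset.mul_sum, Finset.sum_mul]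
    rw [Finset.sum_comm]
    refine Finset.sum_congr rfl fun k _ => Finset.sum_congr rfl fun t _ => ?_
    ring
  have h2 : ∀ k, cof V (∑ k, b k • V k) k = (gram V).det * b k := by
    intro k
    unfold cof
    have h3 : ∀ l, (∑ t, (∑ k, b k • V k) t * V l t) * (gram V).adjugate l k =
        ∑ j, b j * (gram V j l * (gram V).adjugate l k) := by
      intro l
      rw [h1, Finset.sum_mul]
      exact Finset.sum_congr rfl fun j _ => by ring
    rw [Finset.sum_congr rfl fun l _ => h3 l, Finset.sum_comm]
    have h4 : ∀ j, ∑ l, b j * (gram V j l * (gram V).adjugate l k) = b j * ((gram V).det * (1 : Matrix (Fin r) (Fin r) ℝ) j k) := by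
      intro j
      rw [← Finset.mul_sum]
      congr 1
      have h5 := congrFun (congrFun (Matrix.mul_adjugate (gram V)) j) k
      rw [Matrix.mul_apply] at h5
      rw [h5]
      simp
    rw [Finset.sum_congr rfl fun j _ => h4 j]
    simp [Matrix.one_apply]
    ring
  simp only [h2]
  simp only [Finset.sum_apply, Pi.smul_apply, smul_eq_mul, Finset.mul_sum]
  exact Finset.sum_congr rfl fun k _ => by ring

end Pool.Agent.P8H10.UN
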