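import Pool.Agent.P8H10.ZPair
import Pool.Agent.P8H10.ZCop

/-!
# Joint measures for the numbers `u + ω_s`
-/

set_option autoImplicit false

open Finset Polynomial Pool.Agent.R356 Pool.Agent.N743.SS

namespace Pool.Agent.P8H10.ZM

section Sub

variable {ι κ : Type}

/-- polynomials of bounded degree with coefficients of bounded degree -/
def ndF (ι : Type) (n : ℕ) : AddSubgroup (MvPolynomial ι ℤ)[X] where
  carrier := {F | F.natDegree ≤ n ∧ ∀ i, (F.coeff i).totalDegree ≤ n}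
  add_mem' {a b} ha hb := ⟨(natDegree_add_le _ _).trans (max_le ha.1 hb.1), fun i => by
    rw [coeff_add]
    exact (MvPolynomial.totalDegree_add _ _).trans (max_le (ha.2 i) (hb.2 i))⟩
  zero_mem' := by simp
  neg_mem' {a} ha := by
    refine ⟨?_, fun i => ?_⟩
    · rw [natDegree_neg]; exact ha.1
    · rw [coeff_neg, MvPolynomial.totalDegree_neg]; exact ha.2 i

lemma ndF_mul {m n : ℕ} {F G : (MvPolynomial ι ℤ)[X]} (hF : F ∈ ndF ι m) (hG : G ∈ ndF ι n) :
    F * G ∈ ndF ι (m + n) :=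
  ⟨natDegree_mul_le.trans (Nat.add_le_add hF.1 hG.1), cdeg_mul hF.2 hG.2⟩

lemma ndF_C {p : MvPolynomial ι ℤ} {n : ℕ} (hp : p.totalDegree ≤ n) : C p ∈ ndF ι n := by
  refine ⟨by simp, fun i => ?_⟩
  rw [coeff_C]
  split_ifs
  · exact hp
  · simp

lemma ndF_X {n : ℕ} (hn : 1 ≤ n) : (X : (MvPolynomial ι ℤ)[X]) ∈ ndF ι n := by
  refine ⟨natDegree_X_le.trans hn, fun i => ?_⟩
  rw [coeff_X]
  split_ifs <;> simp

lemma lenM_X_le (i : ι) : lenM (MvPolynomial.X i : MvPolynomial ι ℤ) ≤ 1 := by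
  classical
  unfold lenM
  rw [MvPolynomial.support_X, Finset.sum_singleton, MvPolynomial.coeff_X]
  simp

lemma len_X_le : len lenM (X : (MvPolynomial ι ℤ)[X]) ≤ 1 := by
  rw [len_eq isLenM X 2 (by rw [natDegree_X]; norm_num), Finset.sum_range_succ, Finset.sum_range_one, coeff_X_zero,
    coeff_X_one, isLenM.zero, zero_add]
  exact isLenM.one

/-- bounds for the polynomials which are substituted -/
lemma subst_bounds [Fintype κ] (Γ : κ → (MvPolynomial ι ℤ)[X]) (hΓ : ∀ k, Γ k ∈ ndF ι 1)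
    (hlen : ∀ k, len lenM (Γ k) ≤ 2) (P : MvPolynomial κ ℤ) (D : ℕ) (hD : P.totalDegree ≤ D) (H : ℝ)
    (hH : ∀ s, |((P.coeff s : ℤ) : ℝ)| ≤ H) :
    (MvPolynomial.aeval Γ P).natDegree ≤ D ∧ (∀ i, ((MvPolynomial.aeval Γ P).coeff i).totalDegree ≤ D) ∧
      ∀ i, lenM ((MvPolynomial.aeval Γ P).coeff i) ≤ (max 1 (nmon κ D : ℝ) * 2 ^ D) * H := by
  have h1 := filt_aeval (ndF ι) (by
      rw [← C_1]
      exact ndF_C (by simp))
    (fun m n hmn a ha => ⟨ha.1.trans hmn, fun i => (ha.2 i).trans hmn⟩)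
    (fun m n a b ha hb => ndF_mul ha hb) Γ 1 hΓ P D hD
  rw [one_mul] at h1
  refine ⟨h1.1, h1.2, fun i => ?_⟩
  have h2 := isLen_aevalM isLenM.poly Γ 2 (by norm_num) hlen P D hD
  refine ((le_len isLenM _ i).trans h2).trans ?_
  have hH0 : 0 ≤ H := (abs_nonneg _).trans (hH 0)
  have h3 : lenM P ≤ max 1 (nmon κ D : ℝ) * H :=
    (lenM_le P D hD H hH).trans (mul_le_mul_of_nonneg_right (le_max_right _ _) hH0)
  calc lenM P * 2 ^ D ≤ (max 1 (nmon κ D : ℝ) * H) * 2 ^ D :=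
        mul_le_mul_of_nonneg_right h3 (by positivity)
    _ = _ := by ring

/-- value of the substituted polynomial -/
lemma subst_val (x : ι → ℝ) (Γ : κ → (MvPolynomial ι ℤ)[X]) (y : κ → ℝ) (v : ℝ)
    (hy : ∀ k, ((Γ k).map (evx x)).eval v = y k) (P : MvPolynomial κ ℤ) :
    (((MvPolynomial.aeval Γ P).map (evx x)).eval v) = MvPolynomial.aeval y P := by
  have h1 : ((Polynomial.evalRingHom v).comp (Polynomial.mapRingHom (evx x))).comp
      (MvPolynomial.aeval Γ : MvPolynomial κ ℤ →ₐ[ℤ] (MvPolynomial ι ℤ)[X]).toRingHom =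
      (MvPolynomial.aeval y : MvPolynomial κ ℤ →ₐ[ℤ] ℝ).toRingHom := by
    refine MvPolynomial.ringHom_ext (fun r => ?_) (fun i => ?_)
    · simp
    · simp [← hy i]
  have h2 := RingHom.congr_fun h1 P
  exact h2

/-- value of the substituted polynomial, complex version -/
lemma subst_valc (x : ι → ℝ) (Γ : κ → (MvPolynomial ι ℤ)[X]) (y : κ → ℂ) (v : ℂ)
    (hy : ∀ k, ((Γ k).map (evc x)).eval v = y k) (P : MvPolynomial κ ℤ) :
    (((MvPolynomial.aeval Γ P).map (evc x)).eval v) = MvPolynomial.aeval y P := by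
  have h1 : ((Polynomial.evalRingHom v).comp (Polynomial.mapRingHom (evc x))).comp
      (MvPolynomial.aeval Γ : MvPolynomial κ ℤ →ₐ[ℤ] (MvPolynomial ι ℤ)[X]).toRingHom =
      (MvPolynomial.aeval y : MvPolynomial κ ℤ →ₐ[ℤ] ℂ).toRingHom := by
    refine MvPolynomial.ringHom_ext (fun r => ?_) (fun i => ?_)
    · simp
    · simp [← hy i]
  have h2 := RingHom.congr_fun h1 P
  exact h2

end Sub

variable {S : Type}

/-- a bound for the numbers -/
lemma exists_bound {ι : Type} [Fintype ι] (x : ι → ℝ) : ∃ B : ℝ, 1 ≤ B ∧ ∀ i, |x i| ≤ B :=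
  ⟨1 + ∑ i, |x i|, by
    have : 0 ≤ ∑ i, |x i| := Finset.sum_nonneg fun i _ => abs_nonneg _
    linarith, fun i => by
    have := Finset.single_le_sum (f := fun i => |x i|) (fun i _ => abs_nonneg _) (Finset.mem_univ i)
    linarith⟩

/-- the general form of the joint measure: two families of values, the resultant being nonzero -/
theorem joint_core {ι κ₁ κ₂ : Type} [Fintype ι] [Fintype κ₁] [Fintype κ₂] (x : ι → ℝ) (hx : MeasM x) (v : ℝ)
    (Γ₁ : κ₁ → (MvPolynomial ι ℤ)[X]) (Γ₂ : κ₂ → (MvPolynomial ι ℤ)[X])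
    (h₁ : ∀ k, Γ₁ k ∈ ndF ι 1) (h₁' : ∀ k, len lenM (Γ₁ k) ≤ 2)
    (h₂ : ∀ k, Γ₂ k ∈ ndF ι 1) (h₂' : ∀ k, len lenM (Γ₂ k) ≤ 2) (y₁ : κ₁ → ℝ) (y₂ : κ₂ → ℝ)
    (hy₁ : ∀ k, ((Γ₁ k).map (evx x)).eval v = y₁ k) (hy₂ : ∀ k, ((Γ₂ k).map (evx x)).eval v = y₂ k) (D : ℕ) :
    ∃ κ c : ℝ, 0 < κ ∧ 0 < c ∧ ∀ (P : MvPolynomial κ₁ ℤ) (Q : MvPolynomial κ₂ ℤ),
      MvPolynomial.aeval Γ₁ P ≠ 0 → resultant (MvPolynomial.aeval Γ₁ P) (MvPolynomial.aeval Γ₂ Q)
        (MvPolynomial.aeval Γ₁ P).natDegree (MvPolynomial.aeval Γ₂ Q).natDegree ≠ 0 →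
      P.totalDegree ≤ D → Q.totalDegree ≤ D → ∀ H : ℝ, 1 ≤ H →
      (∀ s, |((P.coeff s : ℤ) : ℝ)| ≤ H) → (∀ s, |((Q.coeff s : ℤ) : ℝ)| ≤ H) →
      c * H ^ (-κ) ≤ max |MvPolynomial.aeval y₁ P| |MvPolynomial.aeval y₂ Q| := by
  obtain ⟨B, hB1, hB⟩ := exists_bound x
  obtain ⟨κ, c, hκ, hc, hp⟩ := pair_measure x hx B hB1 hB v D
  obtain ⟨N, hN⟩ : ∃ N : ℝ, N = max (max 1 (nmon κ₁ D : ℝ) * 2 ^ D) (max 1 (nmon κ₂ D : ℝ) * 2 ^ D) := ⟨_, rfl⟩
  have hN1 : 1 ≤ N := by
    rw [hN]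
    refine le_max_of_le_left ?_
    exact one_le_mul_of_one_le_of_one_le (le_max_left _ _) (one_le_pow₀ (by norm_num))
  refine ⟨κ, c * N ^ (-κ), hκ, by positivity, fun P Q hP0 hres hPD hQD H hH1 hPH hQH => ?_⟩
  obtain ⟨a1, a2, a3⟩ := subst_bounds Γ₁ h₁ h₁' P D hPD H hPH
  obtain ⟨b1, b2, b3⟩ := subst_bounds Γ₂ h₂ h₂' Q D hQD H hQH
  have hNH : 1 ≤ N * H := one_le_mul_of_one_le_of_one_le hN1 hH1
  have h3 := hp _ _ hP0 a1 b1 a2 b2 hres (N * H) hNH
    (fun i => (a3 i).trans (mul_le_mul_of_nonneg_right (by rw [hN]; exact le_max_left _ _) (by linarith)))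
    (fun i => (b3 i).trans (mul_le_mul_of_nonneg_right (by rw [hN]; exact le_max_right _ _) (by linarith)))
  rw [subst_val x Γ₁ y₁ v hy₁, subst_val x Γ₂ y₂ v hy₂, rpow_neg_mul hN1 (by linarith), ← mul_assoc] at h3
  exact h3

/-- the polynomials for the number `u` -/
noncomputable def Γu (S : Type) : Fin 2 → (MvPolynomial (Option S) ℤ)[X] :=
  ![C (MvPolynomial.X none), X]

/-- the polynomials for the numbers `u + ω_s` -/
noncomputable def Γs (S : Type) : Option S → (MvPolynomial (Option S) ℤ)[X] :=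
  fun o => o.elim (C (MvPolynomial.X none)) fun s => X + C (MvPolynomial.X (some s))

lemma Γu_nd (k : Fin 2) : Γu S k ∈ ndF (Option S) 1 := by
  fin_cases k
  · exact ndF_C (by simp)
  · exact ndF_X le_rfl

lemma Γu_len (k : Fin 2) : len lenM (Γu S k) ≤ 2 := by
  fin_cases k
  · show len lenM (C (MvPolynomial.X none)) ≤ 2
    rw [len_C isLenM]
    exact (lenM_X_le _).trans (by norm_num)
  · exact len_X_le.trans (by norm_num)

lemma Γs_nd (k : Option S) : Γs S k ∈ ndF (Option S) 1 := by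
  cases k with
  | none => exact ndF_C (by simp)
  | some s => exact add_mem (ndF_X le_rfl) (ndF_C (by simp))

lemma Γs_len (k : Option S) : len lenM (Γs S k) ≤ 2 := by
  cases k with
  | none =>
    show len lenM (C (MvPolynomial.X none)) ≤ 2
    rw [len_C isLenM]
    exact (lenM_X_le _).trans (by norm_num)
  | some s =>
    show len lenM (X + C (MvPolynomial.X (some s))) ≤ 2
    refine (isLenM.poly.add _ _).trans ?_
    rw [len_C isLenM]
    have := lenM_X_le (some s)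
    have := len_X_le (ι := Option S)
    linarith

/-- the family `e`, `u + ω_s` -/
noncomputable def yfam (ω : Option S → ℝ) (u : ℝ) : Option S → ℝ :=
  fun o => o.elim (ω none) fun s => u + ω (some s)

lemma Γu_val (ω : Option S → ℝ) (u : ℝ) (k : Fin 2) : ((Γu S k).map (evx ω)).eval u = ![ω none, u] k := by
  fin_cases k <;> simp [Γu]

lemma Γs_val (ω : Option S → ℝ) (u : ℝ) (k : Option S) : ((Γs S k).map (evx ω)).eval u = yfam ω u k := by
  cases k <;> simp [Γs, yfam]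

lemma Γu_ne {P : MvPolynomial (Fin 2) ℤ} (hP : P ≠ 0) : MvPolynomial.aeval (Γu S) P ≠ 0 := by
  have h1 : (MvPolynomial.aeval (Γu S) : MvPolynomial (Fin 2) ℤ →ₐ[ℤ] _) =
      (MvPolynomial.optionEquivLeft ℤ (Option S)).toAlgHom.comp (MvPolynomial.rename ![some none, none]) := by
    refine MvPolynomial.algHom_ext fun i => ?_
    fin_cases i
    · simp [Γu]
    · simp [Γu]
  rw [h1]
  intro h0
  have h2 : MvPolynomial.optionEquivLeft ℤ (Option S) (MvPolynomial.rename ![some none, none] P) = 0 := h0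
  rw [EmbeddingLike.map_eq_zero_iff] at h2
  refine hP (MvPolynomial.rename_injective _ ?_ (h2.trans (map_zero _).symm))
  intro a b hab
  fin_cases a <;> fin_cases b <;> simp_all

lemma evc_inj {ι : Type} {ω : ι → ℝ} (hAI : AlgebraicIndependent ℚ ω) : Function.Injective (evc ω) := by
  have h2 : AlgebraicIndependent ℤ ω := hAI.restrictScalars (RingHom.injective_int (algebraMap ℤ ℚ))
  rw [injective_iff_map_eq_zero]
  intro p hp
  have h3 : ((MvPolynomial.aeval ω p : ℝ) : ℂ) = 0 := hp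
  exact h2.eq_zero_of_aeval_eq_zero p (by exact_mod_cast h3)

/-- the numbers `e, β + ω_s` are algebraically independent if `β` is algebraic over `ℚ(e)` -/
lemma AI_shift [Fintype S] {ω : Option S → ℝ} (hAI : AlgebraicIndependent ℚ ω) (β : ℂ)
    (hβ : β ∈ clK {(ω none : ℂ)}) :
    AlgebraicIndependent ℚ (fun o : Option S => o.elim (ω none : ℂ) fun s => β + (ω (some s) : ℂ)) := by
  have hAIc : AlgebraicIndependent ℚ (fun o : Option S => (ω o : ℂ)) :=
    hAI.map' (f := (Algebra.ofId ℝ ℂ).restrictScalars ℚ) Complex.ofReal_injective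
  refine indep_of_spanK hAIc (fun o => ?_) le_rfl
  have he : (ω none : ℂ) ∈ clK (Set.range fun o : Option S => o.elim (ω none : ℂ) fun s => β + (ω (some s) : ℂ)) :=
    subset_clK _ ⟨none, rfl⟩
  cases o with
  | none => exact he
  | some s =>
    have h1 : β ∈ clK (Set.range fun o : Option S => o.elim (ω none : ℂ) fun s => β + (ω (some s) : ℂ)) :=
      clK_le (Set.singleton_subset_iff.2 he) hβ
    have h2 : β + (ω (some s) : ℂ) ∈
        clK (Set.range fun o : Option S => o.elim (ω none : ℂ) fun s => β + (ω (some s) : ℂ)) :=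
      subset_clK _ ⟨some s, rfl⟩
    have h3 : (ω (some s) : ℂ) = (β + (ω (some s) : ℂ)) - β := by ring
    show (ω (some s) : ℂ) ∈ _
    rw [h3]
    exact (clK _).sub_mem h2 h1

/-- nonvanishing, separated version -/
lemma res_sep [Fintype S] {ω : Option S → ℝ} (hAI : AlgebraicIndependent ℚ ω) {P : MvPolynomial (Fin 2) ℤ}
    {Q : MvPolynomial (Option S) ℤ} (hP : P ≠ 0) (hQ : Q ≠ 0) :
    resultant (MvPolynomial.aeval (Γu S) P) (MvPolynomial.aeval (Γs S) Q)
      (MvPolynomial.aeval (Γu S) P).natDegree (MvPolynomial.aeval (Γs S) Q).natDegree ≠ 0 := by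
  have hinj := evc_inj hAI
  obtain ⟨F, hF⟩ : ∃ F, F = MvPolynomial.aeval (Γu S) P := ⟨_, rfl⟩
  obtain ⟨G, hG⟩ : ∃ G, G = MvPolynomial.aeval (Γs S) Q := ⟨_, rfl⟩
  rw [← hF, ← hG]
  have hF0 : F ≠ 0 := by rw [hF]; exact Γu_ne hP
  have hFc : F.map (evc ω) ≠ 0 := fun h => hF0 ((Polynomial.map_eq_zero_iff hinj).1 h)
  intro h0
  have h1 : resultant (F.map (evc ω)) (G.map (evc ω)) (F.map (evc ω)).natDegree G.natDegree = 0 := by
    rw [natDegree_map_eq_of_injective hinj, resultant_map_map, h0, map_zero]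
  rw [resultant_eq_prod_eval _ _ _ natDegree_map_le (IsAlgClosed.splits _), mul_eq_zero] at h1
  have h2 := h1.resolve_left (pow_ne_zero _ (leadingCoeff_ne_zero.2 hFc))
  rw [Multiset.prod_eq_zero_iff, Multiset.mem_map] at h2
  obtain ⟨β, hβ, hβ0⟩ := h2
  have hβr : (F.map (evc ω)).eval β = 0 := (mem_roots hFc).1 hβ
  have hβc : β ∈ clK {(ω none : ℂ)} := by
    rw [mem_clK]
    let A := Algebra.adjoin ℚ {(ω none : ℂ)}
    let e' : A := ⟨(ω none : ℂ), Algebra.subset_adjoin rfl⟩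
    let p : A[X] := MvPolynomial.aeval ![C e', X] P
    have h3 : p.map (algebraMap A ℂ) = F.map (evc ω) := by
      have h4 : (Polynomial.mapRingHom (algebraMap A ℂ)).comp
          (MvPolynomial.aeval ![C e', X] : MvPolynomial (Fin 2) ℤ →ₐ[ℤ] A[X]).toRingHom =
          (Polynomial.mapRingHom (evc ω)).comp
          (MvPolynomial.aeval (Γu S) : MvPolynomial (Fin 2) ℤ →ₐ[ℤ] (MvPolynomial (Option S) ℤ)[X]).toRingHom := by
        refine MvPolynomial.ringHom_ext (fun r => ?_) (fun i => ?_)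
        · simp
        · fin_cases i
          · simp [Γu, e', A]
          · simp [Γu]
      have h5 := RingHom.congr_fun h4 P
      rw [hF]
      exact h5
    refine ⟨p, fun hp => hFc ?_, ?_⟩
    · rw [← h3, hp, Polynomial.map_zero]
    · rw [← hβr, ← h3, eval_map_algebraMap]
  have hAIg := AI_shift hAI β hβc
  have h6 : AlgebraicIndependent ℤ (fun o : Option S => o.elim (ω none : ℂ) fun s => β + (ω (some s) : ℂ)) :=
    hAIg.restrictScalars (RingHom.injective_int (algebraMap ℤ ℚ))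
  refine hQ (h6.eq_zero_of_aeval_eq_zero Q ?_)
  rw [← hβ0, hG]
  symm
  refine subst_valc ω (Γs S) _ β (fun k => ?_) Q
  cases k <;> simp [Γs]

/-- **Joint measure**, separated version -/
theorem joint_sep [Fintype S] {ω : Option S → ℝ} (hM : MeasM ω) (hAI : AlgebraicIndependent ℚ ω) (u : ℝ) (D : ℕ) :
    ∃ κ c : ℝ, 0 < κ ∧ 0 < c ∧ ∀ (P : MvPolynomial (Fin 2) ℤ) (Q : MvPolynomial (Option S) ℤ), P ≠ 0 → Q ≠ 0 →
      P.totalDegree ≤ D → Q.totalDegree ≤ D → ∀ H : ℝ,
      (∀ s, |((P.coeff s : ℤ) : ℝ)| ≤ H) → (∀ s, |((Q.coeff s : ℤ) : ℝ)| ≤ H) →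
      c * H ^ (-κ) ≤ max |MvPolynomial.aeval ![ω none, u] P| |MvPolynomial.aeval (yfam ω u) Q| := by
  obtain ⟨κ, c, hκ, hc, h⟩ := joint_core ω hM u (Γu S) (Γs S) Γu_nd Γu_len Γs_nd Γs_len ![ω none, u] (yfam ω u)
    (Γu_val ω u) (Γs_val ω u) D
  exact ⟨κ, c, hκ, hc, fun P Q hP hQ hPD hQD H hPH hQH =>
    h P Q (Γu_ne hP) (res_sep hAI hP hQ) hPD hQD H (one_le_of_mcoeff hP hPH) hPH hQH⟩

/-- the polynomials for all numbers -/
noncomputable def Γc (S : Type) : Option (Option S) → (MvPolynomial (Option S) ℤ)[X] :=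
  fun o => o.elim (C (MvPolynomial.X none)) fun o => o.elim X fun s => X + C (MvPolynomial.X (some s))

lemma Γc_nd (k : Option (Option S)) : Γc S k ∈ ndF (Option S) 1 := by
  match k with
  | none => exact ndF_C (by simp)
  | some none => exact ndF_X le_rfl
  | some (some s) => exact add_mem (ndF_X le_rfl) (ndF_C (by simp))

lemma Γc_len (k : Option (Option S)) : len lenM (Γc S k) ≤ 2 := by
  match k with
  | none =>
    show len lenM (C (MvPolynomial.X none)) ≤ 2
    rw [len_C isLenM]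
    exact (lenM_X_le _).trans (by norm_num)
  | some none => exact len_X_le.trans (by norm_num)
  | some (some s) =>
    show len lenM (X + C (MvPolynomial.X (some s))) ≤ 2
    refine (isLenM.poly.add _ _).trans ?_
    rw [len_C isLenM]
    have := lenM_X_le (some s)
    have := len_X_le (ι := Option S)
    linarith

/-- the family `e, u, u + ω_s` -/
noncomputable def zfam (ω : Option S → ℝ) (u : ℝ) : Option (Option S) → ℝ :=
  fun o => o.elim (ω none) fun o => o.elim u fun s => u + ω (some s)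

lemma Γc_val (ω : Option S → ℝ) (u : ℝ) (k : Option (Option S)) : ((Γc S k).map (evx ω)).eval u = zfam ω u k := by
  match k with
  | none => simp [Γc, zfam]
  | some none => simp [Γc, zfam]
  | some (some s) => simp [Γc, zfam]

/-- the inverse of the substitution -/
noncomputable def Γcinv (S : Type) : (MvPolynomial (Option S) ℤ)[X] →+* MvPolynomial (Option (Option S)) ℤ :=
  Polynomial.eval₂RingHom (MvPolynomial.aeval (fun o : Option S => o.elim (MvPolynomial.X none)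
    (fun s => MvPolynomial.X (some (some s)) - MvPolynomial.X (some none))) :
      MvPolynomial (Option S) ℤ →ₐ[ℤ] MvPolynomial (Option (Option S)) ℤ).toRingHom (MvPolynomial.X (some none))

/-- the substitution is an isomorphism -/
noncomputable def Γce (S : Type) : MvPolynomial (Option (Option S)) ℤ ≃+* (MvPolynomial (Option S) ℤ)[X] :=
  RingEquiv.ofRingHom (MvPolynomial.aeval (Γc S) : MvPolynomial (Option (Option S)) ℤ →ₐ[ℤ] _).toRingHom (Γcinv S)
    (by
      refine Polynomial.ringHom_ext' ?_ ?_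
      · refine MvPolynomial.ringHom_ext (fun r => ?_) (fun i => ?_)
        · simp
        · cases i <;> simp [Γcinv, Γc]
      · simp [Γcinv, Γc])
    (by
      refine MvPolynomial.ringHom_ext (fun r => ?_) (fun i => ?_)
      · simp
      · match i with
        | none => simp [Γcinv, Γc]
        | some none => simp [Γcinv, Γc]
        | some (some s) => simp [Γcinv, Γc])

/-- **Joint measure**, version for polynomials without common factor -/
theorem joint_cop [Fintype S] {ω : Option S → ℝ} (hM : MeasM ω) (u : ℝ) (D : ℕ) :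
    ∃ κ c : ℝ, 0 < κ ∧ 0 < c ∧ ∀ (P Q : MvPolynomial (Option (Option S)) ℤ), P ≠ 0 → IsRelPrime P Q →
      P.totalDegree ≤ D → Q.totalDegree ≤ D → ∀ H : ℝ,
      (∀ s, |((P.coeff s : ℤ) : ℝ)| ≤ H) → (∀ s, |((Q.coeff s : ℤ) : ℝ)| ≤ H) →
      c * H ^ (-κ) ≤ max |MvPolynomial.aeval (zfam ω u) P| |MvPolynomial.aeval (zfam ω u) Q| := by
  obtain ⟨κ, c, hκ, hc, h⟩ := joint_core ω hM u (Γc S) (Γc S) Γc_nd Γc_len Γc_nd Γc_len (zfam ω u) (zfam ω u)
    (Γc_val ω u) (Γc_val ω u) D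
  refine ⟨κ, c, hκ, hc, fun P Q hP hPQ hPD hQD H hPH hQH => ?_⟩
  have h1 : MvPolynomial.aeval (Γc S) P ≠ 0 := by
    show Γce S P ≠ 0
    exact (EmbeddingLike.map_ne_zero_iff).2 hP
  have h2 : IsRelPrime (MvPolynomial.aeval (Γc S) P) (MvPolynomial.aeval (Γc S) Q) := by
    show IsRelPrime (Γce S P) (Γce S Q)
    intro d hd1 hd2
    have h3 : (Γce S).symm d ∣ P := by
      have := map_dvd (Γce S).symm hd1
      rwa [RingEquiv.symm_apply_apply] at this
    have h4 : (Γce S).symm d ∣ Q := by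
      have := map_dvd (Γce S).symm hd2
      rwa [RingEquiv.symm_apply_apply] at this
    have h5 := (hPQ h3 h4).map (Γce S)
    rwa [RingEquiv.apply_symm_apply] at h5
  exact h P Q h1 (resultant_ne_zero_of_isRelPrime h1 h2) hPD hQD H (one_le_of_mcoeff hP hPH) hPH hQH

end Pool.Agent.P8H10.ZM
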