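import Pool.Agent.P8H10.ZFamG
import Pool.Agent.P8H10.MatF
import Pool.Agent.R352.Q.Ind
import Pool.Agent.Q163.LE.Meas

/-!
# Incomplete zeta values over simultaneously Liouville fields
-/

set_option autoImplicit false

open MeasureTheory Set

namespace Pool.Agent.P8H10.MF

open Pool.Agent.N743.SS Pool.Agent.P8H10.ZM Pool.Agent.R356

/-- **A family with a measure of algebraic independence is algebraically independent over every simultaneously
Liouville field.** -/
theorem AI_of_measM {F : Subfield ℝ} (hF : Pool.Agent.Q163.LE.SimLiouville F) {ι : Type} [Fintype ι] {x : ι → ℝ}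
    (h : MeasM x) : AlgebraicIndependent F x := by
  classical
  rw [algebraicIndependent_iff]
  intro P hP
  by_contra hP0
  obtain ⟨r, c, hr, hc, hm⟩ := h P.totalDegree
  let e : P.support ≃ Fin P.support.card := P.support.equivFin
  let mo : Fin P.support.card → ι →₀ ℕ := fun k => (e.symm k : ι →₀ ℕ)
  have hmo : Function.Injective mo := Subtype.val_injective.comp e.symm.injective
  have hlin : LinearIndependent F (fun k : Fin P.support.card => (mo k).prod fun i n => x i ^ n) := by
    refine Pool.Agent.Q163.LE.lin_indep hF _ ⌈r⌉₊ c hc fun z H hz hH hzH => ?_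
    let Q : MvPolynomial ι ℤ := ∑ k, MvPolynomial.monomial (mo k) (z k)
    have hcoef : ∀ k, Q.coeff (mo k) = z k := by
      intro k
      show MvPolynomial.coeff (mo k) (∑ k, MvPolynomial.monomial (mo k) (z k)) = _
      rw [MvPolynomial.coeff_sum, Finset.sum_eq_single k]
      · rw [MvPolynomial.coeff_monomial, if_pos rfl]
      · intro k' _ hne
        rw [MvPolynomial.coeff_monomial, if_neg (fun h => hne (hmo h))]
      · intro h; exact absurd (Finset.mem_univ _) h
    have hQ0 : Q ≠ 0 := by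
      intro h0
      apply hz
      funext k
      have h1 := hcoef k
      rw [h0, MvPolynomial.coeff_zero] at h1
      exact h1.symm
    have hQH : ∀ t, |((Q.coeff t : ℤ) : ℝ)| ≤ H := by
      intro t
      by_cases ht : ∃ k, mo k = t
      · obtain ⟨k, rfl⟩ := ht
        rw [hcoef k]
        exact hzH k
      · have h1 : Q.coeff t = 0 := by
          show MvPolynomial.coeff t (∑ k, MvPolynomial.monomial (mo k) (z k)) = 0
          rw [MvPolynomial.coeff_sum]
          refine Finset.sum_eq_zero fun k _ => ?_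
          rw [MvPolynomial.coeff_monomial, if_neg (fun h => ht ⟨k, h⟩)]
        rw [h1, Int.cast_zero, abs_zero]
        linarith
    have hQD : Q.totalDegree ≤ P.totalDegree := by
      refine MvPolynomial.totalDegree_finsetSum_le fun k _ => ?_
      refine (MvPolynomial.totalDegree_monomial_le _ _).trans ?_
      exact MvPolynomial.le_totalDegree (e.symm k).2
    have h1 := hm Q hQ0 hQD H hQH
    have e1 : MvPolynomial.aeval x Q = ∑ k, (z k : ℝ) * (mo k).prod fun i n => x i ^ n := by
      show MvPolynomial.aeval x (∑ k, MvPolynomial.monomial (mo k) (z k)) = _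
      rw [map_sum]
      refine Finset.sum_congr rfl fun k _ => ?_
      rw [MvPolynomial.aeval_monomial]
      simp
    rw [e1] at h1
    refine le_trans ?_ h1
    have hH0 : (0 : ℝ) < H := by linarith
    rw [div_eq_mul_inv]
    refine mul_le_mul_of_nonneg_left ?_ hc.le
    rw [← Real.rpow_natCast, ← Real.rpow_neg hH0.le]
    exact Real.rpow_le_rpow_of_exponent_le hH (neg_le_neg (Nat.le_ceil r))
  rw [Fintype.linearIndependent_iff] at hlin
  have hsum : ∑ k, P.coeff (mo k) • ((mo k).prod fun i n => x i ^ n) = 0 := by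
    rw [← hP, MvPolynomial.aeval_def, MvPolynomial.eval₂_eq']
    rw [← Finset.sum_coe_sort P.support, ← e.symm.sum_comp]
    refine Finset.sum_congr rfl fun k _ => ?_
    rw [Algebra.smul_def, Finsupp.prod_fintype _ _ (fun _ => pow_zero _)]
  obtain ⟨s, hs⟩ := MvPolynomial.ne_zero_iff.1 hP0
  have hs' : s ∈ P.support := MvPolynomial.mem_support_iff.2 hs
  have h2 := hlin (fun k => P.coeff (mo k)) hsum (e ⟨s, hs'⟩)
  simp only [mo, Equiv.symm_apply_apply] at h2
  exact hs h2

/-- counting -/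
lemma count_gen {F : Subfield ℝ} {ι κ : Type*} [Fintype ι] [Fintype κ] {x : ι → ℝ} (hx : AlgebraicIndependent F x) {y : κ → ℝ} {a : ℝ}
    (S : Finset κ) (hS : ∀ k ∈ S, y k ∈ clF F {a}) (h : ∀ i, x i ∈ clF F ({a} ∪ range y)) :
    Fintype.card ι + S.card ≤ 1 + Fintype.card κ := by
  classical
  have h1 : clF F ({a} ∪ range y) ≤ clF F ({a} ∪ y '' (Sᶜ : Finset κ)) := by
    refine clF_le ?_
    rintro z (hz | ⟨k, rfl⟩)
    · exact subset_clF _ (Or.inl hz)
    · by_cases hk : k ∈ S
      · exact clF_mono subset_union_left (hS k hk)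
      · refine subset_clF _ (Or.inr ⟨k, ?_, rfl⟩)
        simpa using hk
  have h2 := card_le hx (fun i => h1 (h i))
  have h3 : ({a} ∪ y '' (Sᶜ : Finset κ) : Set ℝ).encard ≤ ((1 + (Sᶜ : Finset κ).card : ℕ) : ℕ∞) := by
    refine (encard_union_le _ _).trans ?_
    rw [encard_singleton]
    have e : (((Sᶜ : Finset κ) : Set κ)).encard = ((Sᶜ : Finset κ).card : ℕ∞) := encard_coe_eq_coe_finsetCard _
    rw [Nat.cast_add, Nat.cast_one, ← e]
    exact add_le_add le_rfl (encard_image_le _ _)
  have h4 : (Fintype.card ι : ℕ∞) ≤ ((1 + (Sᶜ : Finset κ).card : ℕ) : ℕ∞) := h2.trans ((Matroid.eRk_le_encard _ _).trans h3)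
  have h5 : Fintype.card ι ≤ 1 + (Sᶜ : Finset κ).card := by exact_mod_cast h4
  rw [Finset.card_compl] at h5
  have h6 := Finset.card_le_univ S
  omega

section

open Pool.Agent.R352.Q (Zk Rk)
open Pool.Agent.R352.E (zt)

variable {F : Subfield ℝ} (hF : Pool.Agent.Q163.LE.SimLiouville F)

include hF

lemma AI_sub (S : Finset (ℕ × ℚ)) (hS : ∀ p ∈ S, 2 ≤ p.1 ∧ 0 < p.2) :
    AlgebraicIndependent F (fun o : Option S => o.elim (Real.exp 1) (fun p => Zk p.1.1 p.1.2)) :=
  AI_of_measM hF (measM_ZS S hS)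

/-- **Algebraic independence** of `e` and the incomplete zeta values over `F` -/
theorem AI_Z : AlgebraicIndependent F (fun o : Option {p : ℕ × ℚ // 2 ≤ p.1 ∧ 0 < p.2} =>
    o.elim (Real.exp 1) (fun p => Zk p.1.1 p.1.2)) := by
  classical
  refine algebraicIndependent_of_finite_type fun t ht => ?_
  let s : Finset (ℕ × ℚ) := (ht.toFinset.biUnion fun o => o.elim ∅ (fun p => {p.1})).filter
    (fun p => 2 ≤ p.1 ∧ 0 < p.2)
  have hs : ∀ p : {p : ℕ × ℚ // 2 ≤ p.1 ∧ 0 < p.2}, some p ∈ t → p.1 ∈ s := by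
    intro p hp
    refine Finset.mem_filter.2 ⟨Finset.mem_biUnion.2 ⟨some p, ht.mem_toFinset.2 hp, ?_⟩, p.2⟩
    simp
  have h := AI_sub hF s (fun p hp => (Finset.mem_filter.1 hp).2)
  let f : t → Option s := fun o =>
    match o with
    | ⟨none, _⟩ => none
    | ⟨some p, hp⟩ => some ⟨p.1, hs p hp⟩
  have hf : Function.Injective f := by
    rintro ⟨o, ho⟩ ⟨o', ho'⟩ hoo
    cases o with
    | none =>
      cases o' with
      | none => rfl
      | some p' => exact absurd hoo (by simp [f])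
    | some p =>
      cases o' with
      | none => exact absurd hoo (by simp [f])
      | some p' =>
        simp only [f, Option.some.injEq, Subtype.mk.injEq] at hoo
        have : p = p' := Subtype.ext hoo
        subst this
        rfl
  have h2 := h.comp f hf
  convert h2 using 1
  ext ⟨o, ho⟩
  cases o with
  | none => rfl
  | some p => rfl

omit hF in
lemma Zk_mem {k : ℕ} {x : ℝ} {T : Set ℝ} (h1 : zt k ∈ clF F T) (h2 : Rk k x ∈ clF F T) : Zk k x ∈ clF F T := by
  have : Zk k x = zt k - Rk k x := by rw [Rk]; ring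
  rw [this]
  exact (clF F T).sub_mem h1 h2

/-- a lower bound for the transcendence degree -/
theorem trdegR {r : ℕ} (y : Fin r → ℝ) (S : Finset (ℕ × ℚ))
    (hS : ∀ p ∈ S, 2 ≤ p.1 ∧ 0 < p.2 ∧ zt p.1 ∈ clF F ({Real.exp 1} ∪ range y)) :
    ((S.card + 1 : ℕ) : Cardinal) ≤ Algebra.trdeg F (IntermediateField.adjoin F
      ({Real.exp 1} ∪ range y ∪ (fun p : ℕ × ℚ => Rk p.1 p.2) '' (S : Set (ℕ × ℚ)))) := by
  have h := AI_sub hF S (fun p hp => ⟨(hS p hp).1, (hS p hp).2.1⟩)
  have h2 := trdeg_ge h (A := {Real.exp 1} ∪ range y ∪ (fun p : ℕ × ℚ => Rk p.1 p.2) '' (S : Set (ℕ × ℚ))) ?_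
  · refine le_trans (le_of_eq ?_) h2
    simp
  · intro o
    have he : Real.exp 1 ∈ clF F ({Real.exp 1} ∪ range y ∪ (fun p : ℕ × ℚ => Rk p.1 p.2) '' (S : Set (ℕ × ℚ))) :=
      subset_clF _ (Or.inl (Or.inl rfl))
    cases o with
    | none => exact he
    | some p =>
      exact Zk_mem (clF_mono subset_union_left (hS p.1 p.2).2.2) (subset_clF _ (Or.inr ⟨p.1, p.2, rfl⟩))

/-- counting -/
theorem countR {r : ℕ} (y : Fin r → ℝ) (t : Finset (Fin r ⊕ (ℕ × ℚ)))
    (ht : ∀ i ∈ t, Sum.elim y (fun p => Rk p.1 p.2) i ∈ clF F {Real.exp 1})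
    (ht' : ∀ p : ℕ × ℚ, Sum.inr p ∈ t → 2 ≤ p.1 ∧ 0 < p.2 ∧ zt p.1 ∈ clF F ({Real.exp 1} ∪ range y)) : t.card ≤ r := by
  classical
  let S : Finset (ℕ × ℚ) := t.biUnion fun i => Sum.elim (fun _ => ∅) (fun p => {p}) i
  have hSm : ∀ p : ℕ × ℚ, Sum.inr p ∈ t → p ∈ S := fun p hp => Finset.mem_biUnion.2 ⟨_, hp, by simp⟩
  have hSm' : ∀ p ∈ S, Sum.inr p ∈ t := by
    intro p hp
    obtain ⟨i, hi, hxi⟩ := Finset.mem_biUnion.1 hp
    rcases i with i | q
    · simp at hxi
    · simp at hxi
      subst hxi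
      exact hi
  have hAI := AI_sub hF S (fun p hp => ⟨(ht' p (hSm' p hp)).1, (ht' p (hSm' p hp)).2.1⟩)
  let emb : Fin r ⊕ S → Fin r ⊕ (ℕ × ℚ) := Sum.map id Subtype.val
  have hemb : Function.Injective emb := Function.Injective.sumMap Function.injective_id Subtype.val_injective
  let S' : Finset (Fin r ⊕ S) := t.preimage emb hemb.injOn
  have hS'card : S'.card = t.card := by
    rw [Finset.card_preimage, Finset.filter_true_of_mem]
    intro i hi
    rcases i with i | p
    · exact ⟨Sum.inl i, rfl⟩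
    · exact ⟨Sum.inr ⟨p, hSm p hi⟩, rfl⟩
  have key := count_gen hAI (y := fun k => Sum.elim y (fun p => Rk p.1 p.2) (emb k)) (a := Real.exp 1) S'
    (fun k hk => ht _ (Finset.mem_preimage.1 hk)) ?_
  · simp only [Fintype.card_option, Fintype.card_fin, Fintype.card_coe, Fintype.card_sum, hS'card] at key
    omega
  · intro o
    cases o with
    | none => exact subset_clF _ (Or.inl rfl)
    | some p =>
      refine Zk_mem (clF_mono ?_ (ht' p.1 (hSm' p.1 p.2)).2.2) (subset_clF _ (Or.inr ⟨Sum.inr p, rfl⟩))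
      refine union_subset_union_right _ ?_
      rintro _ ⟨i, rfl⟩
      exact ⟨Sum.inl i, rfl⟩

/-- if the zeta values are algebraic over `ℚ(e)`, the tails are algebraically independent -/
theorem AI_R (K : Set ℕ) (hK : ∀ k ∈ K, 2 ≤ k ∧ zt k ∈ clF F {Real.exp 1}) :
    AlgebraicIndependent F (fun o : Option {p : ℕ × ℚ // p.1 ∈ K ∧ 0 < p.2} =>
      o.elim (Real.exp 1) (fun p => Rk p.1.1 p.1.2)) := by
  classical
  refine algebraicIndependent_of_finite_type fun t ht => ?_
  let G : Set (Option {p : ℕ × ℚ // p.1 ∈ K ∧ 0 < p.2}) := insert none t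
  have hG : G.Finite := ht.insert _
  have := hG.fintype
  have key : AlgebraicIndependent F (fun o : G => (o : Option {p : ℕ × ℚ // p.1 ∈ K ∧ 0 < p.2}).elim (Real.exp 1)
      (fun p => Rk p.1.1 p.1.2)) := by
    let f : G → Option {p : ℕ × ℚ // 2 ≤ p.1 ∧ 0 < p.2} := fun o =>
      (o : Option {p : ℕ × ℚ // p.1 ∈ K ∧ 0 < p.2}).map fun p => ⟨p.1, (hK _ p.2.1).1, p.2.2⟩
    have hf : Function.Injective f := by
      intro o o' hoo
      refine Subtype.ext (Option.map_injective ?_ hoo)
      intro a b hab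
      simp only [Subtype.mk.injEq] at hab
      exact Subtype.ext hab
    refine indep_of_span ((AI_Z hF).comp f hf) (fun o => ?_) le_rfl
    have he : Real.exp 1 ∈ clF F (range fun o : G => (o : Option {p : ℕ × ℚ // p.1 ∈ K ∧ 0 < p.2}).elim (Real.exp 1)
        (fun p => Rk p.1.1 p.1.2)) := subset_clF _ ⟨⟨none, Or.inl rfl⟩, rfl⟩
    obtain ⟨o, ho⟩ := o
    cases o with
    | none => exact he
    | some p =>
      exact Zk_mem (clF_le (singleton_subset_iff.2 he) (hK _ p.2.1).2) (subset_clF _ ⟨⟨some p, ho⟩, rfl⟩)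
  have h2 := key.comp (fun o : t => (⟨o.1, Or.inr o.2⟩ : G)) (by
    intro a b hab
    have := congrArg Subtype.val hab
    exact Subtype.ext this)
  exact h2

end

end Pool.Agent.P8H10.MF
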