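import Pool.Agent.P8H10.ZFam
import Pool.Agent.N743.Alg

/-!
# The joint measure of `ζ(3)` and the tails `R_3(x)`
-/

set_option autoImplicit false

open Finset MeasureTheory Set Pool.Agent.R356 Pool.Agent.N743 Pool.Agent.N743.SS Pool.Agent.R352.E Pool.Agent.R352.Q

namespace Pool.Agent.P8H10.ZM

lemma coeff_rename_bound {σ τ : Type} (f : σ → τ) (hf : Function.Injective f) (P : MvPolynomial σ ℤ) (H : ℝ)
    (h0 : 0 ≤ H) (hH : ∀ s, |((P.coeff s : ℤ) : ℝ)| ≤ H) (t : τ →₀ ℕ) :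
    |(((MvPolynomial.rename f P).coeff t : ℤ) : ℝ)| ≤ H := by
  by_cases ht : ∃ s : σ →₀ ℕ, s.mapDomain f = t
  · obtain ⟨s, rfl⟩ := ht
    rw [MvPolynomial.coeff_rename_mapDomain f hf]
    exact hH s
  · rw [MvPolynomial.coeff_rename_eq_zero f P t fun u hu => absurd ⟨u, hu⟩ ht]
    simpa using h0

/-- the family `e, R(x)` -/
noncomputable def fz (T : Finset ℚ) : Option T → ℝ := fun o => o.elim (Real.exp 1) fun x => Rz (x : ℚ)

theorem z_sep (S : Finset ℚ) (x₀ : ℚ) (hS : ∀ x ∈ S, 0 ≤ x) (h0 : 0 ≤ x₀) (hx : x₀ ∉ S) (D : ℕ) :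
    ∃ κ c : ℝ, 0 < κ ∧ 0 < c ∧ ∀ (P : MvPolynomial (Fin 2) ℤ) (Q : MvPolynomial (Option S) ℤ), P ≠ 0 → Q ≠ 0 →
      P.totalDegree ≤ D → Q.totalDegree ≤ D → ∀ H : ℝ,
      (∀ s, |((P.coeff s : ℤ) : ℝ)| ≤ H) → (∀ s, |((Q.coeff s : ℤ) : ℝ)| ≤ H) →
      c * H ^ (-κ) ≤ max |MvPolynomial.aeval ![Real.exp 1, Rz x₀] P| |MvPolynomial.aeval (fz S) Q| := by
  have h := joint_sep (measM_om S x₀ hS h0 hx) (AI_om S x₀ hS h0 hx) (Rz x₀) D
  have e1 : yfam (ωz S x₀) (Rz x₀) = fz S := by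
    funext o
    cases o with
    | none => rfl
    | some x =>
      show Rz x₀ + (Cz x₀ - Cz (x : ℚ)) = Rz (x : ℚ)
      rw [Rz, Rz]
      ring
  rw [e1] at h
  exact h

/-- the renaming of the variables -/
noncomputable def gren (T : Finset ℚ) (x₀ : ℚ) : Option T → Option (Option (T.erase x₀ : Finset ℚ)) :=
  Option.map fun x => if h : (x : ℚ) = x₀ then none else some ⟨x, Finset.mem_erase.2 ⟨h, x.2⟩⟩

lemma gren_inj (T : Finset ℚ) (x₀ : ℚ) : Function.Injective (gren T x₀) := by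
  refine Option.map_injective ?_
  intro a b hab
  by_cases ha : (a : ℚ) = x₀
  · by_cases hb : (b : ℚ) = x₀
    · exact Subtype.ext (ha.trans hb.symm)
    · simp [ha, hb] at hab
  · by_cases hb : (b : ℚ) = x₀
    · simp [ha, hb] at hab
    · simp only [dif_neg ha, dif_neg hb, Option.some.injEq, Subtype.mk.injEq] at hab
      exact Subtype.ext hab

lemma gren_surj (T : Finset ℚ) {x₀ : ℚ} (hx : x₀ ∈ T) : Function.Surjective (gren T x₀) := by
  intro o
  match o with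
  | none => exact ⟨none, rfl⟩
  | some none => exact ⟨some ⟨x₀, hx⟩, by simp [gren]⟩
  | some (some y) =>
    have hy := Finset.mem_erase.1 y.2
    exact ⟨some ⟨y, hy.2⟩, by simp [gren, hy.1]⟩

theorem z_cop (T : Finset ℚ) (hT : ∀ x ∈ T, 0 ≤ x) (D : ℕ) :
    ∃ κ c : ℝ, 0 < κ ∧ 0 < c ∧ ∀ (P Q : MvPolynomial (Option T) ℤ), P ≠ 0 → IsRelPrime P Q →
      P.totalDegree ≤ D → Q.totalDegree ≤ D → ∀ H : ℝ,
      (∀ s, |((P.coeff s : ℤ) : ℝ)| ≤ H) → (∀ s, |((Q.coeff s : ℤ) : ℝ)| ≤ H) →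
      c * H ^ (-κ) ≤ max |MvPolynomial.aeval (fz T) P| |MvPolynomial.aeval (fz T) Q| := by
  classical
  rcases T.eq_empty_or_nonempty with rfl | ⟨x₀, hx₀⟩
  · have h := measM_om ∅ 0 (fun x hx => absurd hx (Finset.notMem_empty x)) le_rfl (Finset.notMem_empty _)
    have e1 : ωz ∅ 0 = fz ∅ := by
      funext o
      cases o with
      | none => rfl
      | some x => exact absurd x.2 (Finset.notMem_empty _)
    rw [e1] at h
    obtain ⟨κ, c, hκ, hc, h⟩ := h D
    exact ⟨κ, c, hκ, hc, fun P Q hP _ hPD _ H hPH _ => (h P hP hPD H hPH).trans (le_max_left _ _)⟩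
  · obtain ⟨κ, c, hκ, hc, h⟩ := joint_cop (measM_om (T.erase x₀) x₀ (fun x hx => hT x (Finset.mem_of_mem_erase hx))
      (hT x₀ hx₀) (Finset.notMem_erase _ _)) (Rz x₀) D
    refine ⟨κ, c, hκ, hc, fun P Q hP hPQ hPD hQD H hPH hQH => ?_⟩
    have hH0 : 0 ≤ H := (abs_nonneg _).trans (hPH 0)
    have e1 : zfam (ωz (T.erase x₀) x₀) (Rz x₀) ∘ gren T x₀ = fz T := by
      funext o
      cases o with
      | none => rfl
      | some x =>
        by_cases hx : (x : ℚ) = x₀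
        · simp [gren, fz, zfam, hx]
        · simp only [gren, Function.comp_apply, Option.map_some, dif_neg hx, zfam, Option.elim, ωz, fz]
          rw [Rz, Rz]
          ring
    let g : Option T ≃ Option (Option (T.erase x₀ : Finset ℚ)) :=
      Equiv.ofBijective (gren T x₀) ⟨gren_inj T x₀, gren_surj T hx₀⟩
    let E := MvPolynomial.renameEquiv ℤ g
    have hE : ∀ p, E p = MvPolynomial.rename (gren T x₀) p := fun p => rfl
    have h1 : IsRelPrime (MvPolynomial.rename (gren T x₀) P) (MvPolynomial.rename (gren T x₀) Q) := by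
      rw [← hE, ← hE]
      intro d hd1 hd2
      have h3 : E.symm d ∣ P := by
        have := map_dvd E.symm hd1
        rwa [AlgEquiv.symm_apply_apply] at this
      have h4 : E.symm d ∣ Q := by
        have := map_dvd E.symm hd2
        rwa [AlgEquiv.symm_apply_apply] at this
      have h5 := (hPQ h3 h4).map E
      rwa [AlgEquiv.apply_symm_apply] at h5
    have h2 := h (MvPolynomial.rename (gren T x₀) P) (MvPolynomial.rename (gren T x₀) Q)
      (fun h0 => hP (MvPolynomial.rename_injective _ (gren_inj T x₀) (h0.trans (map_zero _).symm))) h1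
      ((MvPolynomial.totalDegree_rename_le _ _).trans hPD) ((MvPolynomial.totalDegree_rename_le _ _).trans hQD) H
      (coeff_rename_bound _ (gren_inj T x₀) P H hH0 hPH) (coeff_rename_bound _ (gren_inj T x₀) Q H hH0 hQH)
    rw [MvPolynomial.aeval_rename, MvPolynomial.aeval_rename, e1] at h2
    exact h2

/-- polynomials in one variable -/
lemma uni_bounds {σ : Type} (i : σ) (P : Polynomial ℤ) (hP : P ≠ 0) (D : ℕ) (hD : P.natDegree ≤ D) (H : ℝ)
    (hH : ∀ k, |((P.coeff k : ℤ) : ℝ)| ≤ H) :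
    Polynomial.aeval (MvPolynomial.X i : MvPolynomial σ ℤ) P ≠ 0 ∧
    (Polynomial.aeval (MvPolynomial.X i : MvPolynomial σ ℤ) P).totalDegree ≤ D ∧
    ∀ s, |(((Polynomial.aeval (MvPolynomial.X i : MvPolynomial σ ℤ) P).coeff s : ℤ) : ℝ)| ≤ H := by
  classical
  have hH0 : 0 ≤ H := (abs_nonneg _).trans (hH 0)
  have hexp : Polynomial.aeval (MvPolynomial.X i : MvPolynomial σ ℤ) P =
      ∑ k ∈ P.support, MvPolynomial.monomial (Finsupp.single i k) (P.coeff k) := by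
    rw [Polynomial.aeval_def, Polynomial.eval₂_eq_sum, Polynomial.sum]
    refine Finset.sum_congr rfl fun k _ => ?_
    rw [MvPolynomial.X_pow_eq_monomial]
    show MvPolynomial.C (P.coeff k) * _ = _
    rw [MvPolynomial.C_mul_monomial, mul_one]
  have hcoeff : ∀ k, (Polynomial.aeval (MvPolynomial.X i : MvPolynomial σ ℤ) P).coeff (Finsupp.single i k) =
      P.coeff k := by
    intro k
    rw [hexp, MvPolynomial.coeff_sum]
    by_cases hk : k ∈ P.support
    · rw [Finset.sum_eq_single k]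
      · rw [MvPolynomial.coeff_monomial, if_pos rfl]
      · intro j _ hj
        rw [MvPolynomial.coeff_monomial, if_neg]
        intro h
        exact hj (Finsupp.single_injective i h)
      · intro h; exact absurd hk h
    · rw [Polynomial.notMem_support_iff.1 hk]
      refine Finset.sum_eq_zero fun j hj => ?_
      rw [MvPolynomial.coeff_monomial, if_neg]
      intro h
      rw [Finsupp.single_injective i h] at hj
      exact hk hj
  refine ⟨fun h0 => hP ?_, ?_, fun s => ?_⟩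
  · ext k
    rw [← hcoeff, h0]
    simp
  · rw [hexp]
    refine MvPolynomial.totalDegree_finsetSum_le fun k hk => ?_
    refine (MvPolynomial.totalDegree_monomial_le _ _).trans ?_
    rw [Finsupp.sum_single_index rfl]
    exact (Polynomial.le_natDegree_of_mem_supp k hk).trans hD
  · by_cases hs : ∃ k, Finsupp.single i k = s
    · obtain ⟨k, rfl⟩ := hs
      rw [hcoeff]
      exact hH k
    · have h0 : (Polynomial.aeval (MvPolynomial.X i : MvPolynomial σ ℤ) P).coeff s = 0 := by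
        rw [hexp, MvPolynomial.coeff_sum]
        refine Finset.sum_eq_zero fun j _ => ?_
        rw [MvPolynomial.coeff_monomial, if_neg]
        exact fun h => hs ⟨j, h⟩
      rw [h0]
      simpa using hH0

lemma aeval_uni {σ : Type} (i : σ) (x : σ → ℝ) (P : Polynomial ℤ) :
    MvPolynomial.aeval x (Polynomial.aeval (MvPolynomial.X i : MvPolynomial σ ℤ) P) = Polynomial.aeval (x i) P := by
  rw [← Polynomial.aeval_algHom_apply, MvPolynomial.aeval_X]

theorem z_joint {x y : ℚ} (hx : 0 ≤ x) (hy : 0 ≤ y) (hxy : x ≠ y) : JointR (Rz x) (Rz y) := by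
  intro D
  obtain ⟨κ, c, hκ, hc, h⟩ := z_sep {y} x (by
    intro z hz
    rw [Finset.mem_singleton] at hz
    rw [hz]; exact hy) hx (by
    rw [Finset.mem_singleton]; exact hxy) D
  refine ⟨κ, c, hκ, hc, fun P Q hP hQ hPD hQD H hPH hQH => ?_⟩
  obtain ⟨a1, a2, a3⟩ := uni_bounds (1 : Fin 2) P hP D hPD H hPH
  obtain ⟨b1, b2, b3⟩ := uni_bounds (some (⟨y, Finset.mem_singleton_self y⟩ : ({y} : Finset ℚ))) Q hQ D hQD H hQH
  have h2 := h _ _ a1 b1 a2 b2 H a3 b3
  rw [aeval_uni, aeval_uni] at h2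
  exact h2

/-- the dichotomy of scales -/
theorem z_dich (T : Finset ℚ) (hT : ∀ x ∈ T, 0 ≤ x) (d : ℕ) (M : ℝ) (hM : 1 < M) :
    ∃ θ₀ : ℝ, 0 < θ₀ ∧ ∀ θ : ℝ, 0 < θ → θ ≤ θ₀ →
      Dichotomy (fun x : T => AlgDeg d (Rz x)) (fun X (x : T) => AlgNear d θ X (Rz x)) M :=
  dichotomy_alg (fun x : T => Rz x) (fun x y hxy => z_joint (hT x x.2) (hT y y.2) fun h => hxy (Subtype.ext h)) d M hM

/-- the integral over the octant -/
lemma three_full : ∫ t in cube 3 (Ioi 0), Real.log (t 0 * t 1 / t 2 ^ 2) ^ 3 * Real.exp (-(t 0 + t 1 + t 2)) =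
    12 * zt 3 := by
  have h1 : ((∫ t in cube 3 (Ioi 0), Real.log (t 0 * t 1 / t 2 ^ 2) ^ 3 *
      Real.exp (-(t 0 + t 1 + t 2)) : ℝ) : ℂ) = ((12 * zt 3 : ℝ) : ℂ) := by
    rw [show ((∫ t in cube 3 (Ioi 0), Real.log (t 0 * t 1 / t 2 ^ 2) ^ 3 *
      Real.exp (-(t 0 + t 1 + t 2)) : ℝ) : ℂ) = ∫ t in cube 3 (Ioi 0), ((Real.log (t 0 * t 1 / t 2 ^ 2) ^ 3 *
        Real.exp (-(t 0 + t 1 + t 2)) : ℝ) : ℂ) from integral_ofReal.symm]
    have h2 : ∫ t in cube 3 (Ioi 0), ((Real.log (t 0 * t 1 / t 2 ^ 2) ^ 3 *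
        Real.exp (-(t 0 + t 1 + t 2)) : ℝ) : ℂ) =
        ∫ t in cube 3 (Ioi 0), FI 3 (![1, 1, -2] : Fin 3 → ℂ) t := by
      refine setIntegral_congr_fun (meas_cube 3 measurableSet_Ioi) fun t ht => ?_
      exact (FI_three t fun j => ht j (Set.mem_univ j)).symm
    rw [h2, cube, cube_three subset_rfl deriv_Fs_Ioi, const_Fs_Ioi]
    have h3 : PowerSeries.coeff 2 PC = (-1) ^ 3 * zt 3 := coeff_PC (k := 3) (by norm_num)
    rw [h3]
    congr 1
    norm_num
  exact_mod_cast h1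

/-- the tails as integrals -/
theorem tail_eq (x : ℚ) (hx : 0 ≤ x) :
    1 / 12 * ∫ t in {t : Fin 3 → ℝ | (∀ j, 0 < t j) ∧ ∃ j, (x : ℝ) ≤ t j},
      Real.log (t 0 * t 1 / t 2 ^ 2) ^ 3 * Real.exp (-(t 0 + t 1 + t 2)) = Rz x := by
  rcases hx.eq_or_lt with rfl | hx
  · have h1 : {t : Fin 3 → ℝ | (∀ j, 0 < t j) ∧ ∃ j, ((0 : ℚ) : ℝ) ≤ t j} = cube 3 (Ioi 0) := by
      ext t
      simp only [cube, Set.mem_ofPred_eq, Set.mem_univ_pi, Set.mem_Ioi]
      constructor
      · exact fun h => h.1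
      · exact fun h => ⟨h, 0, by simpa using (h 0).le⟩
    rw [h1, three_full, Rz, Cz, if_pos rfl]
    ring
  · have hx' : (0 : ℝ) < x := by exact_mod_cast hx
    have h1 : {t : Fin 3 → ℝ | (∀ j, 0 < t j) ∧ ∃ j, (x : ℝ) ≤ t j} = cube 3 (Ioi 0) \ cube 3 (Ioo 0 (x : ℝ)) := by
      ext t
      simp only [cube, Set.mem_sdiff, Set.mem_ofPred_eq, Set.mem_univ_pi, Set.mem_Ioi, Set.mem_Ioo]
      constructor
      · rintro ⟨h1, j, h2⟩
        exact ⟨h1, fun h => absurd (h j).2 (not_lt.2 h2)⟩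
      · rintro ⟨h1, h2⟩
        push Not at h2
        obtain ⟨j, hj⟩ := h2
        exact ⟨h1, j, hj (h1 j)⟩
    rw [h1, three_rest hx', Rz, Cz, if_neg hx.ne', Rk]
    ring

end Pool.Agent.P8H10.ZM
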