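import Pool.Agent.P8H10.ZSub
import Pool.Agent.P8H10.ZFamG
import Pool.Agent.P8H10.ZRes

/-!
# Systems of polynomials at `e`, real numbers `y_j` and the tails `R_k(x)`
-/

set_option autoImplicit false

open Finset Pool.Agent.R356 Pool.Agent.N743.SS Pool.Agent.P8H10.ZM Pool.Agent.R352.Q Pool.Agent.R352.E

namespace Pool.Agent.P8H10.UN

/-- `zt k` is a polynomial with rational coefficients in the numbers `y_j` -/
def ZetaPoly {r : ℕ} (y : Fin r → ℝ) (k : ℕ) : Prop :=
  ∃ (d : ℕ) (Z : MvPolynomial (Fin r) ℤ), d ≠ 0 ∧ (d : ℝ) * zt k = MvPolynomial.aeval y Z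

lemma common {r : ℕ} (y : Fin r → ℝ) (S : Finset (ℕ × ℚ)) (h : ∀ p : S, ZetaPoly y p.1.1) :
    ∃ (d : ℕ) (Z : S → MvPolynomial (Fin r) ℤ), 1 ≤ d ∧ ∀ p : S, (d : ℝ) * zt p.1.1 = MvPolynomial.aeval y (Z p) := by
  classical
  choose dp Zp hd hZ using h
  refine ⟨∏ p, dp p, fun p => ((∏ q ∈ Finset.univ.erase p, dp q : ℕ) : MvPolynomial (Fin r) ℤ) * Zp p, ?_, fun p => ?_⟩
  · exact Nat.one_le_iff_ne_zero.2 (Finset.prod_ne_zero_iff.2 fun p _ => hd p)
  · rw [map_mul, map_natCast, ← hZ p, ← Finset.prod_erase_mul _ _ (Finset.mem_univ p)]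
    push_cast
    ring

/-- the point -/
noncomputable def pt {r : ℕ} (y : Fin r → ℝ) (S : Finset (ℕ × ℚ)) : Option (Fin r ⊕ S) → ℝ :=
  fun o => o.elim (Real.exp 1) (Sum.elim y fun p => Rk p.1.1 p.1.2)

/-- the relations -/
noncomputable def Γm {r : ℕ} (S : Finset (ℕ × ℚ)) (d : ℕ) (Z : S → MvPolynomial (Fin r) ℤ) :
    Option (Fin r ⊕ S) → MvPolynomial (Fin r) (MvPolynomial (Option S) ℤ) :=
  fun o => o.elim (MvPolynomial.C ((d : MvPolynomial (Option S) ℤ) * MvPolynomial.X none))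
    (Sum.elim (fun j => (d : MvPolynomial (Fin r) (MvPolynomial (Option S) ℤ)) * MvPolynomial.X j)
      fun p => MvPolynomial.map (Int.castRingHom _) (Z p) -
        MvPolynomial.C ((d : MvPolynomial (Option S) ℤ) * MvPolynomial.X (some p)))

lemma eval₂_cast {r : ℕ} {A R : Type} [CommRing A] [CommRing R] (φ : A →+* R) (z : Fin r → R)
    (Z : MvPolynomial (Fin r) ℤ) :
    MvPolynomial.eval₂ φ z (MvPolynomial.map (Int.castRingHom A) Z) = MvPolynomial.aeval z Z := by
  rw [MvPolynomial.eval₂_map, MvPolynomial.aeval_def]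
  congr 1
  exact RingHom.ext_int _ _

/-- the family `e`, `C_k(x)` -/
noncomputable def cf (S : Finset (ℕ × ℚ)) : Option S → ℝ := fun o => o.elim (Real.exp 1) (fun p => Zk p.1.1 p.1.2)

/-- **The main estimate** -/
theorem main_sys {r : ℕ} (y : Fin r → ℝ) (S : Finset (ℕ × ℚ)) (hS : ∀ p ∈ S, 2 ≤ p.1 ∧ 0 < p.2)
    (hζ : ∀ p : S, ZetaPoly y p.1.1) (α : Type) [Fintype α] (D : ℕ) :
    ∃ κ c : ℝ, 0 < κ ∧ 0 < c ∧ ∀ P : α → MvPolynomial (Option (Fin r ⊕ S)) ℤ, (∀ i, (P i).totalDegree ≤ D) →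
      ∀ H : ℝ, 1 ≤ H → (∀ i s, |(((P i).coeff s : ℤ) : ℝ)| ≤ H) →
      (∀ w : Option (Fin r ⊕ S) → ℂ, w none = ((Real.exp 1 : ℝ) : ℂ) →
        (∀ p : S, ((Zk p.1.1 p.1.2 : ℝ) : ℂ) ∈ IntermediateField.adjoin ℚ (Set.range w)) →
        ∃ i, MvPolynomial.aeval w (P i) ≠ 0) →
      ∃ i, c * H ^ (-κ) ≤ |MvPolynomial.aeval (pt y S) (P i)| := by
  classical
  obtain ⟨d, Z, hd, hZ⟩ := common y S hζ
  obtain ⟨B, hB1, hB⟩ := exists_bound (cf S)
  have hd0 : (d : ℂ) ≠ 0 := by
    have : d ≠ 0 := by omega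
    exact_mod_cast this
  obtain ⟨κ, c, hκ, hc, h⟩ := sys_subst (α := α) (cf S) (measM_ZS S hS) B hB1 hB y (Γm S d Z) d hd (pt y S) (fun k => by
    rcases k with _ | (j | p)
    · show MvPolynomial.eval₂ (evx (cf S)) y (MvPolynomial.C _) = d * Real.exp 1
      rw [MvPolynomial.eval₂_C, map_mul, map_natCast]
      congr 1
      show MvPolynomial.aeval (cf S) (MvPolynomial.X none) = _
      rw [MvPolynomial.aeval_X]
      rfl
    · show MvPolynomial.eval₂ (evx (cf S)) y (_ * _) = d * y j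
      rw [MvPolynomial.eval₂_mul, MvPolynomial.eval₂_X, ← MvPolynomial.coe_eval₂Hom, map_natCast]
    · show MvPolynomial.eval₂ (evx (cf S)) y (_ - MvPolynomial.C _) = d * Rk p.1.1 p.1.2
      rw [MvPolynomial.eval₂_sub, MvPolynomial.eval₂_C, eval₂_cast, ← hZ p, map_mul, map_natCast, Rk, mul_sub]
      congr 2
      show MvPolynomial.aeval (cf S) (MvPolynomial.X (some p)) = _
      rw [MvPolynomial.aeval_X]
      rfl) D
  refine ⟨κ, c, hκ, hc, fun P hPD H hH hPH hw => h P hPD H hH hPH fun z w hzw => ?_⟩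
  have e0 : w none = ((Real.exp 1 : ℝ) : ℂ) := by
    have h1 := hzw none
    have h2 : MvPolynomial.eval₂ (evc (cf S)) z (Γm S d Z none) = d * ((Real.exp 1 : ℝ) : ℂ) := by
      show MvPolynomial.eval₂ (evc (cf S)) z (MvPolynomial.C _) = _
      rw [MvPolynomial.eval₂_C, map_mul, map_natCast]
      congr 1
      show ((MvPolynomial.aeval (cf S) (MvPolynomial.X none) : ℝ) : ℂ) = _
      rw [MvPolynomial.aeval_X]
      rfl
    rw [h2] at h1
    exact (mul_left_cancel₀ hd0 h1).symm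
  have e1 : ∀ j, w (some (Sum.inl j)) = z j := by
    intro j
    have h1 := hzw (some (Sum.inl j))
    have h2 : MvPolynomial.eval₂ (evc (cf S)) z (Γm S d Z (some (Sum.inl j))) = d * z j := by
      show MvPolynomial.eval₂ (evc (cf S)) z (_ * _) = _
      rw [MvPolynomial.eval₂_mul, MvPolynomial.eval₂_X, ← MvPolynomial.coe_eval₂Hom, map_natCast]
    rw [h2] at h1
    exact (mul_left_cancel₀ hd0 h1).symm
  refine hw w e0 fun p => ?_
  have h1 := hzw (some (Sum.inr p))
  have h2 : MvPolynomial.eval₂ (evc (cf S)) z (Γm S d Z (some (Sum.inr p))) =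
      MvPolynomial.aeval z (Z p) - d * ((Zk p.1.1 p.1.2 : ℝ) : ℂ) := by
    show MvPolynomial.eval₂ (evc (cf S)) z (_ - MvPolynomial.C _) = _
    rw [MvPolynomial.eval₂_sub, MvPolynomial.eval₂_C, eval₂_cast, map_mul, map_natCast]
    congr 2
    show ((MvPolynomial.aeval (cf S) (MvPolynomial.X (some p)) : ℝ) : ℂ) = _
    rw [MvPolynomial.aeval_X]
    rfl
  rw [h2] at h1
  have h3 : ((Zk p.1.1 p.1.2 : ℝ) : ℂ) = MvPolynomial.aeval z (Z p) / d - w (some (Sum.inr p)) := by
    field_simp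
    linear_combination -h1
  rw [h3]
  have hmem : ∀ o, w o ∈ IntermediateField.adjoin ℚ (Set.range w) := fun o =>
    IntermediateField.subset_adjoin ℚ _ ⟨o, rfl⟩
  refine sub_mem (div_mem ?_ (natCast_mem _ d)) (hmem _)
  have h4 : z = fun j => w (some (Sum.inl j)) := funext fun j => (e1 j).symm
  rw [h4, MvPolynomial.aeval_def, MvPolynomial.eval₂_eq]
  refine sum_mem fun s _ => mul_mem ?_ (prod_mem fun j _ => pow_mem (hmem _) _)
  exact intCast_mem _ _

/-- algebraically independent numbers in a field -/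
lemma trdeg_geC {κ : Type} [Fintype κ] {x : κ → ℂ} (hx : AlgebraicIndependent ℚ x) {A : Set ℂ}
    (h : ∀ i, x i ∈ IntermediateField.adjoin ℚ A) :
    ((Fintype.card κ : ℕ) : Cardinal) ≤ Algebra.trdeg ℚ (IntermediateField.adjoin ℚ A) := by
  let f : κ → IntermediateField.adjoin ℚ A := fun i => ⟨x i, h i⟩
  have hf : AlgebraicIndependent ℚ f := AlgebraicIndependent.of_comp (IntermediateField.val _) hx
  have h2 := hf.cardinalMk_le_trdeg
  rw [Cardinal.mk_fintype] at h2
  exact h2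

lemma AI_cf (S : Finset (ℕ × ℚ)) (hS : ∀ p ∈ S, 2 ≤ p.1 ∧ 0 < p.2) :
    AlgebraicIndependent ℚ (fun o : Option S => ((cf S o : ℝ) : ℂ)) :=
  (AI_sub S hS).map' (f := (Algebra.ofId ℝ ℂ).restrictScalars ℚ) Complex.ofReal_injective

/-- **Systems whose common zeros have small transcendence degree** -/
theorem main_trdeg {r : ℕ} (y : Fin r → ℝ) (S : Finset (ℕ × ℚ)) (hS : ∀ p ∈ S, 2 ≤ p.1 ∧ 0 < p.2)
    (hζ : ∀ p : S, ZetaPoly y p.1.1) (α : Type) [Fintype α] (D : ℕ) :
    ∃ κ c : ℝ, 0 < κ ∧ 0 < c ∧ ∀ P : α → MvPolynomial (Option (Fin r ⊕ S)) ℤ, (∀ i, (P i).totalDegree ≤ D) →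
      ∀ H : ℝ, 1 ≤ H → (∀ i s, |(((P i).coeff s : ℤ) : ℝ)| ≤ H) →
      (∀ w : Option (Fin r ⊕ S) → ℂ, w none = ((Real.exp 1 : ℝ) : ℂ) → (∀ i, MvPolynomial.aeval w (P i) = 0) →
        Algebra.trdeg ℚ (IntermediateField.adjoin ℚ (Set.range w)) ≤ S.card) →
      ∃ i, c * H ^ (-κ) ≤ |MvPolynomial.aeval (pt y S) (P i)| := by
  classical
  obtain ⟨κ, c, hκ, hc, h⟩ := main_sys y S hS hζ α D
  refine ⟨κ, c, hκ, hc, fun P hPD H hH hPH hw => h P hPD H hH hPH fun w hw0 hwp => ?_⟩
  by_contra hcon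
  push Not at hcon
  have h1 := hw w hw0 hcon
  have h2 := trdeg_geC (AI_cf S hS) (A := Set.range w) (fun o => by
    cases o with
    | none =>
      show ((Real.exp 1 : ℝ) : ℂ) ∈ _
      rw [← hw0]
      exact IntermediateField.subset_adjoin ℚ _ ⟨none, rfl⟩
    | some p => exact hwp p)
  have h3 := h2.trans h1
  rw [Fintype.card_option, Fintype.card_coe] at h3
  have h4 : S.card + 1 ≤ S.card := by exact_mod_cast h3
  omega

/-- zeros of polynomials over `ℤ[e]` -/
lemma alg_of_zero (β : ℂ) (P : MvPolynomial (Fin 2) ℤ) (hP : P ≠ 0) (h : MvPolynomial.aeval ![((Real.exp 1 : ℝ) : ℂ), β] P = 0)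
    (he : Transcendental ℚ ((Real.exp 1 : ℝ) : ℂ)) : β ∈ clK {((Real.exp 1 : ℝ) : ℂ)} := by
  rw [mem_clK]
  by_contra hβ
  have h1 : AlgebraicIndependent ℚ (fun _ : Unit => ((Real.exp 1 : ℝ) : ℂ)) := algebraicIndependent_unique_type_iff.2 he
  have h2 : Set.range (fun _ : Unit => ((Real.exp 1 : ℝ) : ℂ)) = {((Real.exp 1 : ℝ) : ℂ)} := by
    ext x; simp
  have h3 := (h1.option_iff_transcendental β).2 (by rw [h2]; exact hβ)
  have h4 : AlgebraicIndependent ℤ (fun o : Option Unit => o.elim β fun _ => ((Real.exp 1 : ℝ) : ℂ)) :=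
    h3.restrictScalars (RingHom.injective_int (algebraMap ℤ ℚ))
  apply hP
  have h5 : Function.Injective (![some (), none] : Fin 2 → Option Unit) := by
    intro a b hab
    fin_cases a <;> fin_cases b <;> simp_all
  refine MvPolynomial.rename_injective _ h5 ?_
  rw [map_zero]
  refine h4.eq_zero_of_aeval_eq_zero _ ?_
  rw [MvPolynomial.aeval_rename, ← h]
  congr 2
  ext i
  fin_cases i <;> rfl

/-- **Separate polynomials** -/
theorem main_count {r : ℕ} (y : Fin r → ℝ) (S : Finset (ℕ × ℚ)) (hS : ∀ p ∈ S, 2 ≤ p.1 ∧ 0 < p.2)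
    (hζ : ∀ p : S, ZetaPoly y p.1.1) (i : Fin (r + 1) → Fin r ⊕ S) (hi : Function.Injective i) (D : ℕ) :
    ∃ κ c : ℝ, 0 < κ ∧ 0 < c ∧ ∀ P : Fin (r + 1) → MvPolynomial (Fin 2) ℤ, (∀ j, P j ≠ 0) →
      (∀ j, (P j).totalDegree ≤ D) → ∀ H : ℝ, (∀ j s, |(((P j).coeff s : ℤ) : ℝ)| ≤ H) →
      ∃ j, c * H ^ (-κ) ≤ |MvPolynomial.aeval ![Real.exp 1, pt y S (some (i j))] (P j)| := by
  classical
  obtain ⟨κ, c, hκ, hc, h⟩ := main_sys y S hS hζ (Fin (r + 1)) D
  refine ⟨κ, c, hκ, hc, fun P hP hPD H hPH => ?_⟩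
  have hH : 1 ≤ H := one_le_of_mcoeff (hP 0) (hPH 0)
  have hinj : ∀ j, Function.Injective (![none, some (i j)] : Fin 2 → Option (Fin r ⊕ S)) := by
    intro j a b hab
    fin_cases a <;> fin_cases b <;> simp_all
  obtain ⟨j, hj⟩ := h (fun j => MvPolynomial.rename ![none, some (i j)] (P j))
    (fun j => (MvPolynomial.totalDegree_rename_le _ _).trans (hPD j)) H hH
    (fun j s => coeff_rename_bound _ (hinj j) (P j) H (by linarith) (hPH j) s) (fun w hw0 hwp => by
      by_contra hcon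
      push Not at hcon
      have he : Transcendental ℚ ((Real.exp 1 : ℝ) : ℂ) := by
        have h1 := (AI_cf S hS).transcendental none
        exact h1
      -- the numbers which are algebraic over `ℚ(e)`
      have h1 : ∀ j, w (some (i j)) ∈ clK {((Real.exp 1 : ℝ) : ℂ)} := by
        intro j
        refine alg_of_zero _ (P j) (hP j) ?_ he
        have h2 := hcon j
        rw [MvPolynomial.aeval_rename] at h2
        rw [← h2]
        congr 2
        ext k
        fin_cases k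
        · exact hw0.symm
        · rfl
      let T : Set ℂ := insert ((Real.exp 1 : ℝ) : ℂ) ((fun k => w (some k)) '' (Set.range i)ᶜ)
      have h2 : Set.range w ⊆ clK T := by
        rintro _ ⟨o, rfl⟩
        cases o with
        | none =>
          rw [hw0]
          exact subset_clK _ (Set.mem_insert _ _)
        | some k =>
          by_cases hk : k ∈ Set.range i
          · obtain ⟨j, rfl⟩ := hk
            exact clK_le (Set.singleton_subset_iff.2 (subset_clK _ (Set.mem_insert _ _))) (h1 j)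
          · exact subset_clK _ (Set.mem_insert_of_mem _ ⟨k, hk, rfl⟩)
      have hadj : ∀ v ∈ IntermediateField.adjoin ℚ (Set.range w), v ∈ clK T := by
        intro v hv
        have h3 : IntermediateField.adjoin ℚ (Set.range w) ≤ (clK T).toIntermediateField (fun q => by
            rw [eq_ratCast]
            exact SubfieldClass.ratCast_mem _ _) :=
          IntermediateField.adjoin_le_iff.2 h2
        exact h3 hv
      have h4 := card_le_rk (AI_cf S hS) (T := T) (fun o => by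
        cases o with
        | none => exact subset_clK _ (Set.mem_insert _ _)
        | some p => exact hadj _ (hwp p))
      have h5 : (AlgebraicIndependent.matroid ℚ ℂ).eRk T ≤ T.encard := Matroid.eRk_le_encard _ _
      have h6 : T.encard ≤ ((Set.range i)ᶜ).encard + 1 := by
        refine (Set.encard_insert_le _ _).trans ?_
        gcongr
        exact Set.encard_image_le _ _
      have h7 : ((Set.range i)ᶜ).encard + ((r + 1 : ℕ) : ℕ∞) = ((r + S.card : ℕ) : ℕ∞) := by
        have h8 : (Set.range i).encard = ((r + 1 : ℕ) : ℕ∞) := by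
          rw [← Set.image_univ, hi.injOn.encard_image, Set.encard_univ, ENat.card_eq_coe_fintype_card, Fintype.card_fin]
        rw [← h8, add_comm, Set.encard_add_encard_compl, Set.encard_univ, ENat.card_eq_coe_fintype_card]
        simp
      rw [Fintype.card_option, Fintype.card_coe] at h4
      have h9 := h4.trans (h5.trans h6)
      have hfin : ((Set.range i)ᶜ).encard ≠ ⊤ := by
        rw [Set.encard_ne_top_iff]
        exact Set.toFinite _
      obtain ⟨m, hm⟩ := ENat.ne_top_iff_exists.1 hfin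
      rw [← hm] at h7 h9
      have h10 : m + (r + 1) = r + S.card := by exact_mod_cast h7
      have h11 : S.card + 1 ≤ m + 1 := by exact_mod_cast h9
      omega)
  refine ⟨j, ?_⟩
  rw [MvPolynomial.aeval_rename] at hj
  have e1 : pt y S ∘ ![none, some (i j)] = ![Real.exp 1, pt y S (some (i j))] := by
    ext k
    fin_cases k <;> rfl
  rw [e1] at hj
  exact hj

end Pool.Agent.P8H10.UN
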