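import Mathlib

/-!
# Algebraic independence in a field: as many elements which span independent elements are independent
-/

set_option autoImplicit false

open Set

namespace Pool.Agent.P8H10.ZM

variable {K : Type} [Field K] [Algebra ℚ K]

lemma mem_clK_iff {S : Set K} {x : K} :
    x ∈ (AlgebraicIndependent.matroid ℚ K).closure S ↔ IsAlgebraic (Algebra.adjoin ℚ S) x := by
  rw [AlgebraicIndependent.matroid_closure_eq]
  exact Iff.rfl

/-- the numbers which are algebraic over the field generated by `S` -/
noncomputable def clK (S : Set K) : Subfield K where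
  carrier := (AlgebraicIndependent.matroid ℚ K).closure S
  mul_mem' := fun ha hb => mem_clK_iff.2 ((mem_clK_iff.1 ha).mul (mem_clK_iff.1 hb))
  one_mem' := mem_clK_iff.2 isAlgebraic_one
  add_mem' := fun ha hb => mem_clK_iff.2 ((mem_clK_iff.1 ha).add (mem_clK_iff.1 hb))
  zero_mem' := mem_clK_iff.2 isAlgebraic_zero
  neg_mem' := fun ha => mem_clK_iff.2 (mem_clK_iff.1 ha).neg
  inv_mem' := fun _ ha => mem_clK_iff.2 (mem_clK_iff.1 ha).inv

lemma mem_clK {S : Set K} {x : K} : x ∈ clK S ↔ IsAlgebraic (Algebra.adjoin ℚ S) x := mem_clK_iff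

lemma subset_clK (S : Set K) : S ⊆ clK S :=
  Matroid.subset_closure (AlgebraicIndependent.matroid ℚ K) S (subset_univ _)

lemma clK_mono {S T : Set K} (h : S ⊆ T) : clK S ≤ clK T :=
  Matroid.closure_subset_closure (AlgebraicIndependent.matroid ℚ K) h

lemma clK_le {S T : Set K} (h : S ⊆ clK T) : clK S ≤ clK T :=
  Matroid.closure_subset_closure_of_subset_closure h

lemma card_le_rk {ι : Type*} [Fintype ι] {x : ι → K} (hx : AlgebraicIndependent ℚ x) {T : Set K}
    (h : ∀ i, x i ∈ clK T) :
    (Fintype.card ι : ℕ∞) ≤ (AlgebraicIndependent.matroid ℚ K).eRk T := by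
  have h1 : (AlgebraicIndependent.matroid ℚ K).Indep (range x) := hx.to_subtype_range
  have h2 : range x ⊆ (AlgebraicIndependent.matroid ℚ K).closure T := by
    rintro _ ⟨i, rfl⟩
    exact h i
  calc (Fintype.card ι : ℕ∞) = (range x).encard := by
        rw [← image_univ, hx.injective.injOn.encard_image, encard_univ, ENat.card_eq_coe_fintype_card]
    _ ≤ (AlgebraicIndependent.matroid ℚ K).eRk ((AlgebraicIndependent.matroid ℚ K).closure T) :=
        h1.encard_le_eRk_of_subset h2
    _ = (AlgebraicIndependent.matroid ℚ K).eRk T := Matroid.eRk_closure_eq _ T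

/-- as many elements which span independent elements are independent -/
lemma indep_of_spanK {ι κ : Type*} [Fintype ι] [Fintype κ] {x : ι → K} (hx : AlgebraicIndependent ℚ x)
    {y : κ → K} (h : ∀ i, x i ∈ clK (range y)) (hc : Fintype.card κ ≤ Fintype.card ι) :
    AlgebraicIndependent ℚ y := by
  have h1 := card_le_rk hx h
  have h2 : (range y).encard ≤ Fintype.card κ := by
    rw [← image_univ, ← ENat.card_eq_coe_fintype_card, ← encard_univ]
    exact encard_image_le _ _
  have h3 : (Fintype.card κ : ℕ∞) ≤ (range y).encard :=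
    (by exact_mod_cast hc : (Fintype.card κ : ℕ∞) ≤ Fintype.card ι).trans
      (h1.trans (Matroid.eRk_le_encard _ _))
  have hfin : (range y).Finite := finite_range y
  have h4 : (AlgebraicIndependent.matroid ℚ K).Indep (range y) := by
    refine ((AlgebraicIndependent.matroid ℚ K).isRkFinite_of_finite hfin).indep_of_encard_le_eRk ?_
    exact h2.trans ((by exact_mod_cast hc : (Fintype.card κ : ℕ∞) ≤ Fintype.card ι).trans h1)
  have hinj : Function.Injective y := by
    rw [← injOn_univ]
    refine Finite.injOn_of_encard_image_eq finite_univ ?_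
    rw [image_univ]
    refine le_antisymm (h2.trans ?_) ?_
    · rw [encard_univ, ENat.card_eq_coe_fintype_card]
    · rw [encard_univ, ENat.card_eq_coe_fintype_card]; exact h3
  exact (algebraicIndependent_subtype_range hinj).1 h4

end Pool.Agent.P8H10.ZM
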