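import Pool.Agent.N743.SS.Pair
import Pool.Agent.P8H10.ZMat

/-!
# Measures of algebraic independence: substitution and inversion
-/

set_option autoImplicit false

open Finset Pool.Agent.R356 Pool.Agent.N743.SS

namespace Pool.Agent.P8H10.ZM

section Len

variable {R : Type*} [CommRing R] {f : R → ℝ} {ι : Type}

/-- the size of a value of a polynomial -/
lemma isLen_aevalM (h : IsLen f) (a : ι → R) (B : ℝ) (hB : 1 ≤ B) (ha : ∀ i, f (a i) ≤ B)
    (p : MvPolynomial ι ℤ) (D : ℕ) (hD : p.totalDegree ≤ D) :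
    f (MvPolynomial.aeval a p) ≤ lenM p * B ^ D := by
  rw [MvPolynomial.aeval_def, MvPolynomial.eval₂_eq]
  refine (h.sum _ _).trans ?_
  unfold lenM
  rw [sum_mul]
  refine sum_le_sum fun s hs => ?_
  refine (h.mul _ _).trans (mul_le_mul (isLen_intCast h _) ?_ (h.nonneg _) (abs_nonneg _))
  refine (h.prod _ _).trans ?_
  have h1 : ∏ i ∈ s.support, f (a i ^ s i) ≤ ∏ i ∈ s.support, B ^ s i := by
    refine prod_le_prod (fun i _ => h.nonneg _) fun i _ => ?_
    exact (isLen_pow h _ _).trans (pow_le_pow_left₀ (h.nonneg _) (ha i) _)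
  refine h1.trans ?_
  rw [prod_pow_eq_pow_sum]
  refine pow_le_pow_right₀ hB ?_
  exact (MvPolynomial.le_totalDegree hs).trans hD

/-- values of polynomials and filtrations -/
lemma filt_aeval (A : ℕ → AddSubgroup R) (h1 : (1 : R) ∈ A 0) (hmono : ∀ m n, m ≤ n → A m ≤ A n)
    (hm : ∀ m n a b, a ∈ A m → b ∈ A n → a * b ∈ A (m + n)) (a : ι → R) (E : ℕ) (ha : ∀ i, a i ∈ A E)
    (p : MvPolynomial ι ℤ) (D : ℕ) (hD : p.totalDegree ≤ D) : MvPolynomial.aeval a p ∈ A (E * D) := by
  classical
  have hpow : ∀ (b : R), b ∈ A E → ∀ k : ℕ, b ^ k ∈ A (E * k) := by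
    intro b hb k
    induction k with
    | zero => simpa using h1
    | succ k ih => rw [pow_succ, Nat.mul_succ]; exact hm _ _ _ _ ih hb
  rw [MvPolynomial.aeval_def, MvPolynomial.eval₂_eq]
  refine sum_mem fun s hs => ?_
  have h2 : ∀ t : Finset ι, ∏ i ∈ t, a i ^ s i ∈ A (E * ∑ i ∈ t, s i) := by
    intro t
    induction t using Finset.induction_on with
    | empty => simpa using h1
    | insert i t hi ih =>
      rw [prod_insert hi, sum_insert hi, Nat.mul_add]
      exact hm _ _ _ _ (hpow _ (ha i) _) ih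
  have h3 : E * ∑ i ∈ s.support, s i ≤ E * D :=
    Nat.mul_le_mul_left _ ((MvPolynomial.le_totalDegree hs).trans hD)
  have h4 := hmono _ _ h3 (h2 s.support)
  have h5 : (algebraMap ℤ R) (p.coeff s) * ∏ i ∈ s.support, a i ^ s i =
      p.coeff s • ∏ i ∈ s.support, a i ^ s i := by
    rw [zsmul_eq_mul]; simp
  rw [h5]
  exact zsmul_mem h4 _

end Len

open Classical in
/-- exponents at most `D` -/
noncomputable def boxM (κ : Type) [Fintype κ] (D : ℕ) : Finset (κ →₀ ℕ) :=
  (Fintype.piFinset fun _ : κ => Finset.range (D + 1)).map Finsupp.equivFunOnFinite.symm.toEmbedding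

/-- the number of monomials -/
noncomputable def nmon (κ : Type) [Fintype κ] (D : ℕ) : ℕ := (boxM κ D).card

lemma lenM_le {κ : Type} [Fintype κ] (p : MvPolynomial κ ℤ) (D : ℕ) (hD : p.totalDegree ≤ D) (H : ℝ)
    (hH : ∀ s, |((p.coeff s : ℤ) : ℝ)| ≤ H) : lenM p ≤ nmon κ D * H := by
  classical
  have hsub : p.support ⊆ boxM κ D := by
    intro s hs
    rw [boxM, Finset.mem_map]
    refine ⟨fun i => s i, ?_, by ext; simp⟩
    rw [Fintype.mem_piFinset]
    intro i
    rw [Finset.mem_range, Nat.lt_succ_iff]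
    have h1 := (MvPolynomial.le_totalDegree hs).trans hD
    rw [Finsupp.sum_fintype _ _ (fun _ => rfl)] at h1
    have h2 : s i ≤ ∑ j, s j := Finset.single_le_sum (f := fun j => s j) (fun _ _ => Nat.zero_le _) (Finset.mem_univ i)
    exact h2.trans h1
  rw [lenM_eq p _ hsub, nmon, ← nsmul_eq_mul]
  exact Finset.sum_le_card_nsmul _ _ _ fun s _ => hH s

/-- polynomials of bounded total degree -/
def tdF (ι : Type) (n : ℕ) : AddSubgroup (MvPolynomial ι ℤ) where
  carrier := {P | P.totalDegree ≤ n}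
  add_mem' {a b} ha hb := (MvPolynomial.totalDegree_add _ _).trans (max_le ha hb)
  zero_mem' := by simp
  neg_mem' {a} ha := by
    show (-a).totalDegree ≤ n
    rw [MvPolynomial.totalDegree_neg]; exact ha

lemma totalDegree_aeval {ι κ : Type} (G : κ → MvPolynomial ι ℤ) (E : ℕ) (hG : ∀ k, (G k).totalDegree ≤ E)
    (p : MvPolynomial κ ℤ) (D : ℕ) (hD : p.totalDegree ≤ D) : (MvPolynomial.aeval G p).totalDegree ≤ E * D :=
  filt_aeval (tdF ι) (by show (1 : MvPolynomial ι ℤ).totalDegree ≤ 0; simp)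
    (fun m n hmn a ha => le_trans (show a.totalDegree ≤ m from ha) hmn)
    (fun m n a b ha hb => (MvPolynomial.totalDegree_mul _ _).trans (Nat.add_le_add ha hb)) G E hG p D hD

lemma rpow_neg_mul {K H κ : ℝ} (hK : 1 ≤ K) (hH : 0 < H) :
    (K * H) ^ (-κ) = K ^ (-κ) * H ^ (-κ) := Real.mul_rpow (by linarith) hH.le

/-- **Substitution**: algebraically independent integer polynomials in the numbers of a family with a measure
have a measure. -/
theorem measM_subst {ι κ : Type} [Fintype κ] {x : ι → ℝ} (h : MeasM x) (G : κ → MvPolynomial ι ℤ) {y : κ → ℝ}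
    (hy : ∀ k, y k = MvPolynomial.aeval x (G k)) (hAI : AlgebraicIndependent ℚ y) : MeasM y := by
  classical
  intro D
  obtain ⟨E, hE⟩ : ∃ E : ℕ, ∀ k, (G k).totalDegree ≤ E :=
    ⟨∑ k, (G k).totalDegree, fun k => Finset.single_le_sum (f := fun k => (G k).totalDegree)
      (fun _ _ => Nat.zero_le _) (Finset.mem_univ k)⟩
  obtain ⟨L, hL1, hL⟩ : ∃ L : ℝ, 1 ≤ L ∧ ∀ k, lenM (G k) ≤ L :=
    ⟨1 + ∑ k, lenM (G k), by
      have : 0 ≤ ∑ k, lenM (G k) := Finset.sum_nonneg fun k _ => lenM_nonneg _
      linarith, fun k => by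
      have := Finset.single_le_sum (f := fun k => lenM (G k)) (fun k _ => lenM_nonneg _) (Finset.mem_univ k)
      linarith⟩
  obtain ⟨r, c, hr, hc, hm⟩ := h (E * D)
  obtain ⟨N, hN⟩ : ∃ N : ℝ, N = max 1 (nmon κ D : ℝ) * L ^ D := ⟨_, rfl⟩
  have hN1 : 1 ≤ N := by
    rw [hN]
    exact one_le_mul_of_one_le_of_one_le (le_max_left _ _) (one_le_pow₀ hL1)
  refine ⟨r, c * N ^ (-r), hr, by positivity, fun P hP hD H hH => ?_⟩
  have hH1 := one_le_of_mcoeff hP hH
  have hval : MvPolynomial.aeval x (MvPolynomial.aeval G P) = MvPolynomial.aeval y P := by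
    have h1 : (MvPolynomial.aeval x : MvPolynomial ι ℤ →ₐ[ℤ] ℝ).comp (MvPolynomial.aeval G) =
        MvPolynomial.aeval y := by
      apply MvPolynomial.algHom_ext
      intro k
      simp [hy k]
    rw [← h1]
    rfl
  have hne : MvPolynomial.aeval y P ≠ 0 := by
    have h2 : AlgebraicIndependent ℤ y := hAI.restrictScalars (RingHom.injective_int (algebraMap ℤ ℚ))
    intro h0
    exact hP (h2.eq_zero_of_aeval_eq_zero P h0)
  have hne2 : MvPolynomial.aeval G P ≠ 0 := by
    intro h0
    rw [h0, map_zero] at hval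
    exact hne hval.symm
  have hlen : lenM (MvPolynomial.aeval G P) ≤ N * H := by
    refine (isLen_aevalM isLenM G L hL1 hL P D hD).trans ?_
    have h3 : lenM P ≤ max 1 (nmon κ D : ℝ) * H :=
      (lenM_le P D hD H hH).trans (mul_le_mul_of_nonneg_right (le_max_right _ _) (by linarith))
    calc lenM P * L ^ D ≤ (max 1 (nmon κ D : ℝ) * H) * L ^ D :=
          mul_le_mul_of_nonneg_right h3 (by positivity)
      _ = N * H := by rw [hN]; ring
  have h4 := hm _ hne2 (totalDegree_aeval G E hE P D hD) (N * H) fun s => (le_lenM _ s).trans hlen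
  rw [hval, rpow_neg_mul hN1 (by linarith), ← mul_assoc] at h4
  exact h4

/-- **Inversion** of one number of a family with a measure -/
theorem measM_inv {ι : Type} {x y : ι → ℝ} (h : MeasM x) (i : ι) (hx : x i ≠ 0) (hyi : y i = (x i)⁻¹)
    (hy : ∀ j, j ≠ i → y j = x j) : MeasM y := by
  classical
  intro D
  obtain ⟨r, c, hr, hc, hm⟩ := h (2 * D)
  have hxD : 0 < |x i| ^ D := pow_pos (abs_pos.2 hx) D
  refine ⟨r, c / |x i| ^ D, hr, by positivity, fun P hP hD H hH => ?_⟩
  have hH1 := one_le_of_mcoeff hP hH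
  let ρ : (ι →₀ ℕ) → (ι →₀ ℕ) := fun s => Finsupp.single i (D - s i) + s.erase i
  have hsi : ∀ s ∈ P.support, s i ≤ D := by
    intro s hs
    refine le_trans ?_ ((MvPolynomial.le_totalDegree hs).trans hD)
    by_cases h0 : s i = 0
    · omega
    · exact Finset.single_le_sum (f := fun i => s i) (fun _ _ => Nat.zero_le _) (Finsupp.mem_support_iff.2 h0)
  have hρ : ∀ s ∈ P.support, ∀ s' ∈ P.support, ρ s = ρ s' → s = s' := by
    intro s hs s' hs' hss
    ext j
    have h1 := DFunLike.congr_fun hss j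
    simp only [ρ, Finsupp.add_apply] at h1
    by_cases hj : j = i
    · subst hj
      rw [Finsupp.erase_same, Finsupp.erase_same, Finsupp.single_eq_same, Finsupp.single_eq_same] at h1
      have := hsi s hs
      have := hsi s' hs'
      omega
    · rw [Finsupp.erase_ne hj, Finsupp.erase_ne hj, Finsupp.single_apply, Finsupp.single_apply,
        if_neg (Ne.symm hj), if_neg (Ne.symm hj)] at h1
      omega
  let Q : MvPolynomial ι ℤ := ∑ s ∈ P.support, MvPolynomial.monomial (ρ s) (P.coeff s)
  have hcoeff : ∀ s ∈ P.support, Q.coeff (ρ s) = P.coeff s := by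
    intro s hs
    show MvPolynomial.coeff (ρ s) (∑ s ∈ P.support, MvPolynomial.monomial (ρ s) (P.coeff s)) = _
    rw [MvPolynomial.coeff_sum, Finset.sum_eq_single s]
    · rw [MvPolynomial.coeff_monomial, if_pos rfl]
    · intro s' hs' hne
      rw [MvPolynomial.coeff_monomial, if_neg (fun h => hne (hρ s' hs' s hs h))]
    · intro h; exact absurd hs h
  have hQ0 : Q ≠ 0 := by
    obtain ⟨s, hs⟩ := MvPolynomial.ne_zero_iff.1 hP
    intro h0
    have h1 := hcoeff s (MvPolynomial.mem_support_iff.2 hs)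
    rw [h0, MvPolynomial.coeff_zero] at h1
    exact hs h1.symm
  have hQH : ∀ t, |((Q.coeff t : ℤ) : ℝ)| ≤ H := by
    intro t
    by_cases ht : ∃ s ∈ P.support, ρ s = t
    · obtain ⟨s, hs, rfl⟩ := ht
      rw [hcoeff s hs]
      exact hH s
    · have h1 : Q.coeff t = 0 := by
        show MvPolynomial.coeff t (∑ s ∈ P.support, MvPolynomial.monomial (ρ s) (P.coeff s)) = 0
        rw [MvPolynomial.coeff_sum]
        refine Finset.sum_eq_zero fun s hs => ?_
        rw [MvPolynomial.coeff_monomial, if_neg (fun h => ht ⟨s, hs, h⟩)]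
      rw [h1, Int.cast_zero, abs_zero]
      linarith
  have hsum_erase : ∀ s ∈ P.support, (s.erase i).degree ≤ D := by
    intro s hs
    have h1 : (s.erase i).degree ≤ s.degree := by
      conv_rhs => rw [← Finsupp.single_add_erase i s]
      rw [map_add]
      exact Nat.le_add_left _ _
    refine h1.trans ?_
    have h2 := (MvPolynomial.le_totalDegree hs).trans hD
    exact h2
  have hQD : Q.totalDegree ≤ 2 * D := by
    refine MvPolynomial.totalDegree_finsetSum_le fun s hs => ?_
    refine (MvPolynomial.totalDegree_monomial_le _ _).trans ?_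
    have h1 : (ρ s).degree ≤ 2 * D := by
      show (Finsupp.single i (D - s i) + s.erase i).degree ≤ 2 * D
      rw [map_add, Finsupp.degree_single]
      have := hsum_erase s hs
      omega
    exact h1
  have hval : MvPolynomial.aeval x Q = x i ^ D * MvPolynomial.aeval y P := by
    show MvPolynomial.aeval x (∑ s ∈ P.support, MvPolynomial.monomial (ρ s) (P.coeff s)) = _
    conv_rhs => rw [MvPolynomial.as_sum P, map_sum, mul_sum]
    rw [map_sum]
    refine Finset.sum_congr rfl fun s hs => ?_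
    rw [MvPolynomial.aeval_monomial, MvPolynomial.aeval_monomial]
    have e1 : (ρ s).prod (fun j k => x j ^ k) = x i ^ (D - s i) * (s.erase i).prod (fun j k => x j ^ k) := by
      show (Finsupp.single i (D - s i) + s.erase i).prod (fun j k => x j ^ k) = _
      rw [Finsupp.prod_add_index' (fun _ => pow_zero _) (fun _ _ _ => pow_add _ _ _),
        Finsupp.prod_single_index (h := fun j k => x j ^ k) (pow_zero _)]
    have e2 : s.prod (fun j k => y j ^ k) = y i ^ (s i) * (s.erase i).prod (fun j k => y j ^ k) := by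
      conv_lhs => rw [← Finsupp.single_add_erase i s]
      rw [Finsupp.prod_add_index' (fun _ => pow_zero _) (fun _ _ _ => pow_add _ _ _),
        Finsupp.prod_single_index (h := fun j k => y j ^ k) (pow_zero _)]
    have e3 : (s.erase i).prod (fun j k => y j ^ k) = (s.erase i).prod (fun j k => x j ^ k) := by
      refine Finsupp.prod_congr fun j hj => ?_
      rw [Finsupp.support_erase, Finset.mem_erase] at hj
      rw [hy j hj.1]
    rw [e1, e2, e3, hyi]
    have e4 : x i ^ D = x i ^ (D - s i) * x i ^ (s i) := by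
      rw [← pow_add, Nat.sub_add_cancel (hsi s hs)]
    have e5 : x i ^ (s i) * (x i)⁻¹ ^ (s i) = 1 := by
      rw [← mul_pow, mul_inv_cancel₀ hx, one_pow]
    rw [e4]
    linear_combination (-(algebraMap ℤ ℝ (P.coeff s)) * x i ^ (D - s i) *
      (s.erase i).prod (fun j k => x j ^ k)) * e5
  have h5 := hm Q hQ0 hQD H hQH
  rw [hval, abs_mul, abs_pow] at h5
  rw [div_mul_eq_mul_div, div_le_iff₀ hxD]
  linarith

end Pool.Agent.P8H10.ZM
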