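import Mathlib

/-!
# A uniform Nullstellensatz

Systems of complex polynomials of bounded degree without common zeros have certificates of bounded degree.
-/

set_option autoImplicit false

open Filter

namespace Pool.Agent.P8H10.UN

/-- the ultraproduct -/
abbrev KK : Type := Germ ((hyperfilter ℕ : Ultrafilter ℕ) : Filter ℕ) ℂ

/-- the class of a sequence -/
noncomputable def γ : (ℕ → ℂ) →+* KK := Germ.coeRingHom _

lemma γ_surj : Function.Surjective γ := by
  intro x
  induction x using Germ.inductionOn with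
  | h f => exact ⟨f, rfl⟩

lemma γ_zero (f : ℕ → ℂ) : γ f = 0 ↔ ∀ᶠ n in ((hyperfilter ℕ : Ultrafilter ℕ) : Filter ℕ), f n = 0 :=
  Germ.coe_eq (f := f) (g := 0)

/-- evaluation at an index -/
def ev (n : ℕ) : (ℕ → ℂ) →+* ℂ := Pi.evalRingHom _ n

instance : IsAlgClosed KK := by
  refine IsAlgClosed.of_exists_root KK fun p hm hirr => ?_
  obtain ⟨q, hq, hdeg, hqm⟩ := Polynomial.lifts_and_natDegree_eq_and_monic
    (Polynomial.mem_lifts_of_surjective γ_surj p) hm
  have h1 : ∀ n : ℕ, ∃ z : ℂ, (q.map (ev n)).eval z = 0 := by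
    intro n
    refine IsAlgClosed.exists_root _ ?_
    rw [hqm.degree_map, Polynomial.degree_eq_natDegree hqm.ne_zero, hdeg]
    have := hirr.natDegree_pos
    intro h
    have h2 : p.natDegree = 0 := by exact_mod_cast h
    omega
  choose z hz using h1
  refine ⟨γ z, ?_⟩
  rw [← hq, Polynomial.eval_map, Polynomial.eval₂_at_apply]
  rw [γ_zero]
  refine Eventually.of_forall fun n => ?_
  have h2 := hz n
  rw [Polynomial.eval_map] at h2
  have h3 : ev n (Polynomial.eval z q) = Polynomial.eval₂ (ev n) (ev n z) q := by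
    rw [Polynomial.eval₂_at_apply]
  show ev n (Polynomial.eval z q) = 0
  rw [h3]
  exact h2

/-- exponents at most `D` -/
noncomputable def bx (σ : Type) [Fintype σ] (D : ℕ) : Finset (σ →₀ ℕ) := by
  classical
  exact (Fintype.piFinset fun _ : σ => Finset.range (D + 1)).map Finsupp.equivFunOnFinite.symm.toEmbedding

lemma mem_bx {σ : Type} [Fintype σ] {D : ℕ} {s : σ →₀ ℕ} : s ∈ bx σ D ↔ ∀ i, s i ≤ D := by
  classical
  rw [bx, Finset.mem_map]
  constructor
  · rintro ⟨f, hf, rfl⟩ i
    rw [Fintype.mem_piFinset] at hf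
    have := Finset.mem_range.1 (hf i)
    show f i ≤ D
    omega
  · intro h
    refine ⟨fun i => s i, ?_, by ext; simp⟩
    rw [Fintype.mem_piFinset]
    intro i
    rw [Finset.mem_range, Nat.lt_succ_iff]
    exact h i

lemma support_subset_bx {σ R : Type} [Fintype σ] [CommRing R] (p : MvPolynomial σ R) (D : ℕ)
    (hD : p.totalDegree ≤ D) : p.support ⊆ bx σ D := by
  intro s hs
  rw [mem_bx]
  intro i
  have h1 := (MvPolynomial.le_totalDegree hs).trans hD
  rw [Finsupp.sum_fintype _ _ (fun _ => rfl)] at h1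
  exact (Finset.single_le_sum (f := fun j => s j) (fun _ _ => Nat.zero_le _) (Finset.mem_univ i)).trans h1

variable {σ α : Type} [Fintype σ] [Fintype α]

/-- the lift of a sequence of polynomials -/
noncomputable def lft (D : ℕ) (P : ℕ → MvPolynomial σ ℂ) : MvPolynomial σ (ℕ → ℂ) :=
  ∑ s ∈ bx σ D, MvPolynomial.monomial s (fun n => (P n).coeff s)

lemma map_lft (D : ℕ) (P : ℕ → MvPolynomial σ ℂ) (hD : ∀ n, (P n).totalDegree ≤ D) (n : ℕ) :
    MvPolynomial.map (ev n) (lft D P) = P n := by
  classical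
  have h1 : MvPolynomial.map (ev n) (lft D P) = ∑ s ∈ bx σ D, MvPolynomial.monomial s ((P n).coeff s) := by
    rw [lft, map_sum]
    refine Finset.sum_congr rfl fun s _ => ?_
    rw [MvPolynomial.map_monomial]
    rfl
  rw [h1]
  conv_rhs => rw [MvPolynomial.as_sum (P n)]
  symm
  refine Finset.sum_subset (support_subset_bx _ D (hD n)) fun s _ hs => ?_
  rw [MvPolynomial.notMem_support_iff.1 hs, map_zero]

/-- a lift of a polynomial of the same degree -/
lemma exists_lift (p : MvPolynomial σ KK) : ∃ q : MvPolynomial σ (ℕ → ℂ), MvPolynomial.map γ q = p ∧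
    ∀ n, (MvPolynomial.map (ev n) q).totalDegree ≤ p.totalDegree := by
  classical
  choose l hl using fun s => γ_surj (p.coeff s)
  refine ⟨∑ s ∈ p.support, MvPolynomial.monomial s (l s), ?_, fun n => ?_⟩
  · rw [map_sum]
    conv_rhs => rw [MvPolynomial.as_sum p]
    refine Finset.sum_congr rfl fun s _ => ?_
    rw [MvPolynomial.map_monomial, hl]
  · rw [map_sum]
    refine MvPolynomial.totalDegree_finsetSum_le fun s hs => ?_
    rw [MvPolynomial.map_monomial]
    exact (MvPolynomial.totalDegree_monomial_le _ _).trans (MvPolynomial.le_totalDegree hs)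

/-- a polynomial whose class vanishes -/
lemma map_zero_ev (q : MvPolynomial σ (ℕ → ℂ)) (h : MvPolynomial.map γ q = 0) :
    ∀ᶠ n in ((hyperfilter ℕ : Ultrafilter ℕ) : Filter ℕ), MvPolynomial.map (ev n) q = 0 := by
  have h1 : ∀ s ∈ q.support, ∀ᶠ n in ((hyperfilter ℕ : Ultrafilter ℕ) : Filter ℕ), q.coeff s n = 0 := by
    intro s _
    rw [← γ_zero, ← MvPolynomial.coeff_map, h, MvPolynomial.coeff_zero]
  have h2 := (Filter.eventually_all_finset q.support).2 h1
  refine h2.mono fun n hn => ?_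
  ext s
  rw [MvPolynomial.coeff_map, MvPolynomial.coeff_zero]
  by_cases hs : s ∈ q.support
  · exact hn s hs
  · rw [MvPolynomial.notMem_support_iff.1 hs, _root_.map_zero]

/-- **Uniform Nullstellensatz** -/
theorem unif_null (σ α : Type) [Fintype σ] [Fintype α] (D : ℕ) : ∃ N : ℕ, ∀ P : α → MvPolynomial σ ℂ,
    (∀ i, (P i).totalDegree ≤ D) → (∀ z : σ → ℂ, ∃ i, MvPolynomial.eval z (P i) ≠ 0) →
    ∃ A : α → MvPolynomial σ ℂ, (∀ i, (A i).totalDegree ≤ N) ∧ ∑ i, A i * P i = 1 := by
  classical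
  by_contra hcon
  push Not at hcon
  choose P hdeg hz hA using hcon
  obtain ⟨Q, hQ⟩ : ∃ Q : α → MvPolynomial σ (ℕ → ℂ), Q = fun i => lft D (fun n => P n i) := ⟨_, rfl⟩
  have hQev : ∀ n i, MvPolynomial.map (ev n) (Q i) = P n i := by
    intro n i
    rw [hQ]
    exact map_lft D _ (fun n => hdeg n i) n
  -- no common zeros in the ultraproduct
  have htop : Ideal.span (Set.range fun i => MvPolynomial.map γ (Q i)) = ⊤ := by
    by_contra hne
    obtain ⟨M, hM, hle⟩ := Ideal.exists_le_maximal _ hne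
    obtain ⟨x, hx⟩ := MvPolynomial.isMaximal_iff_eq_vanishingIdeal_singleton.1 hM
    have h1 : ∀ i, MvPolynomial.eval x (MvPolynomial.map γ (Q i)) = 0 := by
      intro i
      have h2 : MvPolynomial.map γ (Q i) ∈ M := hle (Ideal.subset_span ⟨i, rfl⟩)
      rw [hx, MvPolynomial.mem_vanishingIdeal_singleton_iff] at h2
      simpa [MvPolynomial.aeval_eq_eval] using h2
    choose z hzx using fun s => γ_surj (x s)
    have h3 : ∀ i, ∀ᶠ n in ((hyperfilter ℕ : Ultrafilter ℕ) : Filter ℕ), MvPolynomial.eval z (Q i) n = 0 := by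
      intro i
      rw [← γ_zero, ← h1 i, MvPolynomial.eval_map]
      have h4 : x = fun s => γ (z s) := funext fun s => (hzx s).symm
      rw [h4]
      exact (MvPolynomial.eval₂_comp_left γ (RingHom.id _) z (Q i))
    have h5 := (Filter.eventually_all.2 h3).exists
    obtain ⟨n, hn⟩ := h5
    obtain ⟨i, hi⟩ := hz n (fun s => z s n)
    apply hi
    rw [← hQev n i, MvPolynomial.eval_map, ← hn i]
    exact (MvPolynomial.eval₂_comp_left (ev n) (RingHom.id _) z (Q i)).symm
  have h1 : (1 : MvPolynomial σ KK) ∈ Ideal.span (Set.range fun i => MvPolynomial.map γ (Q i)) := by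
    rw [htop]; trivial
  rw [Ideal.mem_span_range_iff_exists_fun] at h1
  obtain ⟨A, hA1⟩ := h1
  choose B hB hBd using fun i => exists_lift (A i)
  have h2 : MvPolynomial.map γ (∑ i, B i * Q i - 1) = 0 := by
    rw [map_sub, map_sum, map_one, sub_eq_zero, ← hA1]
    refine Finset.sum_congr rfl fun i _ => ?_
    rw [map_mul, hB]
  have h3 := map_zero_ev _ h2
  obtain ⟨N, hN⟩ : ∃ N : ℕ, ∀ i, (A i).totalDegree ≤ N :=
    ⟨∑ i, (A i).totalDegree, fun i => Finset.single_le_sum (f := fun i => (A i).totalDegree)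
      (fun _ _ => Nat.zero_le _) (Finset.mem_univ i)⟩
  have h4 : ∀ᶠ n in ((hyperfilter ℕ : Ultrafilter ℕ) : Filter ℕ), N ≤ n := by
    have h5 : ∀ᶠ n in (cofinite : Filter ℕ), N ≤ n := by
      rw [Nat.cofinite_eq_atTop]
      exact eventually_ge_atTop N
    exact h5.filter_mono (hyperfilter_le_cofinite)
  obtain ⟨n, hn1, hn2⟩ := (h3.and h4).exists
  refine hA n (fun i => MvPolynomial.map (ev n) (B i)) (fun i => (hBd i n).trans ((hN i).trans hn2)) ?_
  rw [map_sub, map_sum, map_one, sub_eq_zero] at hn1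
  rw [← hn1]
  refine Finset.sum_congr rfl fun i _ => ?_
  rw [map_mul, hQev]

end Pool.Agent.P8H10.UN
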