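import Pool.Agent.TH818.SA.Sub
import Pool.Agent.Q163.LE.Sim

/-!
# Odd zeta values outside finite-dimensional spaces over simultaneously Liouville fields
-/

set_option autoImplicit false

open Filter Topology Pool.Agent.Q163.LE

namespace Pool.Agent.P8H10.ZOut

noncomputable section

/-- Finitely many elements of a space of dimension `≤ D` over a simultaneously Liouville field are
simultaneously approximable, with the same exponent as for rational spaces. -/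
theorem sim_subF {F : Subfield ℝ} (hF : SimLiouville F) (V : Submodule F ℝ) [FiniteDimensional F V]
    (D : ℕ) (hD : Module.finrank F V ≤ D) (J : Finset ℕ) (x : ℕ → ℝ) (hx : ∀ i ∈ J, x i ∈ V) (q0 : ℕ) :
    ∃ q : ℕ, q0 ≤ q ∧ ∀ i ∈ J, ∃ p : ℤ, |(q : ℝ) * x i - p| < (q : ℝ) ^ (-(1 / ((D : ℝ) + 1))) := by
  classical
  obtain ⟨d, hd⟩ : ∃ d, d = Module.finrank F V := ⟨_, rfl⟩
  let b := Module.finBasis F V
  -- the coefficients
  have h1 : ∀ i, ∃ c : Fin (Module.finrank F V) → F,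
      i ∈ J → x i = ∑ a, ((c a : F) : ℝ) * ((b a : V) : ℝ) := by
    intro i
    by_cases hi : i ∈ J
    · refine ⟨fun a => b.repr ⟨x i, hx i hi⟩ a, fun _ => ?_⟩
      have h2 := b.sum_repr ⟨x i, hx i hi⟩
      have h3 := congrArg (Submodule.subtype V) h2
      rw [map_sum] at h3
      simp only [Submodule.subtype_apply, map_smul] at h3
      exact h3.symm
    · exact ⟨0, fun h => absurd h hi⟩
  choose c hc using h1
  -- bounds
  obtain ⟨S, hS⟩ : ∃ S : ℕ, ∀ i ∈ J, ∑ a, (|((c i a : F) : ℝ)| + 1) ≤ S := by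
    obtain ⟨S, hS⟩ := exists_nat_ge (∑ i ∈ J, ∑ a, (|((c i a : F) : ℝ)| + 1))
    refine ⟨S, fun i hi => le_trans ?_ hS⟩
    exact Finset.single_le_sum (f := fun i => ∑ a, (|((c i a : F) : ℝ)| + 1))
      (fun i _ => Finset.sum_nonneg fun _ _ => by positivity) hi
  obtain ⟨B, hB⟩ : ∃ B : ℕ, ∑ a, |((b a : V) : ℝ)| ≤ B := exists_nat_ge _
  obtain ⟨w, hw⟩ : ∃ w : ℕ, w = (D + 1) * (D + 3) + 1 + (D + 1) * (D + 3) := ⟨_, rfl⟩
  -- approximation of the coefficients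
  let s : Finset ℝ := J.biUnion fun i => Finset.univ.image fun a => ((c i a : F) : ℝ)
  have hs : ∀ y ∈ s, y ∈ F := by
    intro y hy
    obtain ⟨i, -, hi⟩ := Finset.mem_biUnion.1 hy
    obtain ⟨a, -, rfl⟩ := Finset.mem_image.1 hi
    exact (c i a).2
  obtain ⟨M, hM0, hM1, hM⟩ := hF s hs w (q0 + (S + 2) + (B + 1))
  have hMr : (1 : ℝ) ≤ M := by exact_mod_cast hM1
  have hk : ∀ i, ∃ k : Fin (Module.finrank F V) → ℤ, i ∈ J →
      ∀ a, |(M : ℝ) * ((c i a : F) : ℝ) - k a| < 1 / (M : ℝ) ^ w := by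
    intro i
    by_cases hi : i ∈ J
    · have h2 : ∀ a, ∃ p : ℤ, |(M : ℝ) * ((c i a : F) : ℝ) - p| < 1 / (M : ℝ) ^ w := fun a =>
        hM _ (Finset.mem_biUnion.2 ⟨i, hi, Finset.mem_image.2 ⟨a, Finset.mem_univ _, rfl⟩⟩)
      choose k hk using h2
      exact ⟨k, fun _ => hk⟩
    · exact ⟨0, fun h => absurd h hi⟩
  choose k hk using hk
  have hkS : ∀ i ∈ J, ∑ a, |(k i a : ℝ)| ≤ S * M := by
    intro i hi
    calc ∑ a, |(k i a : ℝ)| ≤ ∑ a, (|((c i a : F) : ℝ)| + 1) * M := by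
          refine Finset.sum_le_sum fun a _ => ?_
          have h2 := (hk i hi a).le
          have h3 : 1 / (M : ℝ) ^ w ≤ 1 := by
            rw [div_le_one (by positivity)]
            exact one_le_pow₀ hMr
          have h4 : |(k i a : ℝ)| ≤ |(M : ℝ) * ((c i a : F) : ℝ)| + 1 := by
            have h5 := abs_sub_abs_le_abs_sub (k i a : ℝ) ((M : ℝ) * ((c i a : F) : ℝ))
            rw [abs_sub_comm] at h5
            linarith
          rw [abs_mul, abs_of_nonneg (by linarith : (0 : ℝ) ≤ M)] at h4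
          nlinarith [abs_nonneg ((c i a : F) : ℝ)]
      _ = (∑ a, (|((c i a : F) : ℝ)| + 1)) * M := by rw [Finset.sum_mul]
      _ ≤ S * M := mul_le_mul_of_nonneg_right (hS i hi) (by linarith)
  obtain ⟨Q, hQ⟩ : ∃ Q : ℕ, Q = (S * M + 1) ^ (D + 1) * M + 1 := ⟨_, rfl⟩
  have hQ1 : 1 ≤ Q := by omega
  obtain ⟨q, hq1, hq2, hq3⟩ := Pool.Agent.TH818.SA.dirichlet_sim (Module.finrank F V)
    (fun a => ((b a : V) : ℝ)) Q hQ1
  choose p hp using hq3
  have hQr : (0 : ℝ) < Q := by exact_mod_cast hQ1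
  have hqD : q ≤ Q ^ D := hq2.trans (Nat.pow_le_pow_right hQ1 hD)
  -- `Q ≤ M ^ (2 (D + 2))`
  have hQM : Q ≤ M ^ (2 * (D + 1) + 2) := by
    have g1 : S * M + 1 ≤ M ^ 2 := by
      have : S + 1 ≤ M := by omega
      calc S * M + 1 ≤ S * M + M := by omega
        _ = (S + 1) * M := by ring
        _ ≤ M * M := Nat.mul_le_mul_right _ this
        _ = M ^ 2 := by ring
    have g2 : (S * M + 1) ^ (D + 1) * M + 1 ≤ (M ^ 2) ^ (D + 1) * M ^ 2 := by
      have g3 : (S * M + 1) ^ (D + 1) ≤ (M ^ 2) ^ (D + 1) := Nat.pow_le_pow_left g1 _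
      have g4 : M + 1 ≤ M ^ 2 := by
        have : 2 ≤ M := by omega
        nlinarith
      have g5 : 1 ≤ (M ^ 2) ^ (D + 1) := Nat.one_le_pow _ _ (by positivity)
      calc (S * M + 1) ^ (D + 1) * M + 1 ≤ (M ^ 2) ^ (D + 1) * M + (M ^ 2) ^ (D + 1) :=
            Nat.add_le_add (Nat.mul_le_mul_right _ g3) g5
        _ = (M ^ 2) ^ (D + 1) * (M + 1) := by ring
        _ ≤ _ := Nat.mul_le_mul_left _ g4
    rw [hQ]
    refine g2.trans (le_of_eq ?_)
    rw [← pow_mul, ← pow_add]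
  have hsmall : ((B : ℝ) + 1) * Q ^ (D + 1) ≤ (M : ℝ) ^ w := by
    have g1 : (B : ℝ) + 1 ≤ M := by
      have : B + 1 ≤ M := by omega
      exact_mod_cast this
    have g2 : (Q : ℝ) ^ (D + 1) ≤ (M : ℝ) ^ ((2 * (D + 1) + 2) * (D + 1)) := by
      rw [pow_mul]
      refine pow_le_pow_left₀ hQr.le ?_ _
      exact_mod_cast hQM
    calc ((B : ℝ) + 1) * Q ^ (D + 1) ≤ M * (M : ℝ) ^ ((2 * (D + 1) + 2) * (D + 1)) :=
          mul_le_mul g1 g2 (by positivity) (by linarith)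
      _ = (M : ℝ) ^ (1 + (2 * (D + 1) + 2) * (D + 1)) := by rw [pow_add, pow_one]
      _ ≤ (M : ℝ) ^ w := by
          refine pow_le_pow_right₀ hMr ?_
          rw [hw]
          nlinarith
  refine ⟨M * q, ?_, fun i hi => ?_⟩
  · calc q0 ≤ M * 1 := by omega
      _ ≤ M * q := Nat.mul_le_mul_left M hq1
  refine ⟨∑ a, k i a * p a, ?_⟩
  have hqr : (0 : ℝ) < q := by exact_mod_cast hq1
  have e1 : ((M * q : ℕ) : ℝ) * x i - ((∑ a, k i a * p a : ℤ) : ℝ) =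
      ∑ a, ((M : ℝ) * ((c i a : F) : ℝ) - k i a) * ((q : ℝ) * ((b a : V) : ℝ)) +
      ∑ a, (k i a : ℝ) * ((q : ℝ) * ((b a : V) : ℝ) - p a) := by
    rw [hc i hi]
    push_cast
    rw [Finset.mul_sum, ← Finset.sum_sub_distrib, ← Finset.sum_add_distrib]
    refine Finset.sum_congr rfl fun a _ => ?_
    ring
  have e2 : |((M * q : ℕ) : ℝ) * x i - ((∑ a, k i a * p a : ℤ) : ℝ)| ≤ ((S * M : ℕ) + 1 : ℝ) / Q := by
    rw [e1]
    have f1 : |∑ a, ((M : ℝ) * ((c i a : F) : ℝ) - k i a) * ((q : ℝ) * ((b a : V) : ℝ))| ≤ 1 / Q := by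
      calc |∑ a, ((M : ℝ) * ((c i a : F) : ℝ) - k i a) * ((q : ℝ) * ((b a : V) : ℝ))|
          ≤ ∑ a, (1 / (M : ℝ) ^ w) * (q * |((b a : V) : ℝ)|) := by
            refine (Finset.abs_sum_le_sum_abs _ _).trans (Finset.sum_le_sum fun a _ => ?_)
            rw [abs_mul, abs_mul, abs_of_pos hqr]
            exact mul_le_mul_of_nonneg_right (hk i hi a).le (by positivity)
        _ = (1 / (M : ℝ) ^ w) * (q * ∑ a, |((b a : V) : ℝ)|) := by
            rw [← Finset.mul_sum, ← Finset.mul_sum]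
        _ ≤ (1 / (M : ℝ) ^ w) * (Q ^ D * ((B : ℝ) + 1)) := by
            refine mul_le_mul_of_nonneg_left ?_ (by positivity)
            refine mul_le_mul (by exact_mod_cast hqD) (by linarith) ?_ (by positivity)
            exact Finset.sum_nonneg fun _ _ => abs_nonneg _
        _ ≤ 1 / Q := by
            rw [one_div_mul_eq_div, div_le_div_iff₀ (by positivity) hQr, one_mul]
            calc (Q : ℝ) ^ D * ((B : ℝ) + 1) * Q = ((B : ℝ) + 1) * Q ^ (D + 1) := by ring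
              _ ≤ _ := hsmall
    have f2 : |∑ a, (k i a : ℝ) * ((q : ℝ) * ((b a : V) : ℝ) - p a)| ≤ ((S * M : ℕ) : ℝ) / Q := by
      calc |∑ a, (k i a : ℝ) * ((q : ℝ) * ((b a : V) : ℝ) - p a)|
          ≤ ∑ a, |(k i a : ℝ)| * (1 / Q) := by
            refine (Finset.abs_sum_le_sum_abs _ _).trans (Finset.sum_le_sum fun a _ => ?_)
            rw [abs_mul]
            exact mul_le_mul_of_nonneg_left (hp a).le (abs_nonneg _)
        _ = (∑ a, |(k i a : ℝ)|) * (1 / Q) := by rw [Finset.sum_mul]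
        _ ≤ ((S * M : ℕ) : ℝ) * (1 / Q) := by
            refine mul_le_mul_of_nonneg_right ?_ (by positivity)
            push_cast
            exact hkS i hi
        _ = _ := by ring
    refine (abs_add_le _ _).trans ((add_le_add f1 f2).trans (le_of_eq ?_))
    ring
  refine lt_of_le_of_lt e2 ?_
  -- comparison
  obtain ⟨T, hT⟩ : ∃ T : ℕ, T = S * M := ⟨_, rfl⟩
  rw [← hT] at hQ ⊢
  have hMqpos : (0 : ℝ) < ((M * q : ℕ) : ℝ) := by
    have : 0 < M * q := Nat.mul_pos (by omega) (by omega)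
    exact_mod_cast this
  have e3 : (((T : ℝ) + 1) / Q) ^ (D + 1) < (((M * q : ℕ) : ℝ))⁻¹ := by
    have f1 : ((M * q : ℕ) : ℝ) ≤ M * (Q : ℝ) ^ D := by
      have g1 : M * q ≤ M * Q ^ D := Nat.mul_le_mul_left M hqD
      exact_mod_cast g1
    have f2 : ((T : ℝ) + 1) ^ (D + 1) * M < Q := by
      have g1 : (T + 1) ^ (D + 1) * M < Q := by omega
      exact_mod_cast g1
    rw [div_pow, div_lt_iff₀ (by positivity), ← div_eq_inv_mul, lt_div_iff₀ hMqpos]
    calc ((T : ℝ) + 1) ^ (D + 1) * ((M * q : ℕ) : ℝ) ≤ ((T : ℝ) + 1) ^ (D + 1) * (M * (Q : ℝ) ^ D) :=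
          mul_le_mul_of_nonneg_left f1 (by positivity)
      _ = (((T : ℝ) + 1) ^ (D + 1) * M) * (Q : ℝ) ^ D := by ring
      _ < Q * (Q : ℝ) ^ D := mul_lt_mul_of_pos_right f2 (by positivity)
      _ = (Q : ℝ) ^ (D + 1) := by ring
  have e4 : ((T : ℝ) + 1) / Q = ((((T : ℝ) + 1) / Q) ^ (D + 1)) ^ (1 / ((D : ℝ) + 1)) := by
    rw [← Real.rpow_natCast, ← Real.rpow_mul (by positivity)]
    push_cast
    rw [mul_one_div_cancel (by positivity), Real.rpow_one]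
  rw [e4]
  have e5 : ((M * q : ℕ) : ℝ) ^ (-(1 / ((D : ℝ) + 1))) = (((M * q : ℕ) : ℝ)⁻¹) ^ (1 / ((D : ℝ) + 1)) := by
    rw [Real.rpow_neg hMqpos.le, Real.inv_rpow hMqpos.le]
  rw [e5]
  exact Real.rpow_lt_rpow (by positivity) e3 (by positivity)

/-- the odd zeta values -/
def zo (i : ℕ) : ℝ := ∑' n : ℕ, 1 / ((n : ℝ) + 1) ^ i

/-- **Odd zeta values outside finite-dimensional spaces over simultaneously Liouville fields.** -/
theorem t_subF : ∃ s0 : ℕ, ∀ s ≥ s0, ∀ D : ℕ, 1 ≤ D →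
    (D : ℝ) ≤ (1 / 2000) * Real.log (Real.log s) →
    ∀ (F : Subfield ℝ), SimLiouville F → ∀ V : Submodule F ℝ, FiniteDimensional F V →
    Module.finrank F V ≤ D →
    (1 / 2000) / D * Real.sqrt (s * Real.log (Real.log s) / Real.log s) ≤
      (Set.ncard {i : ℕ | 3 ≤ i ∧ i ≤ s ∧ Odd i ∧ zo i ∉ V} : ℝ) := by
  classical
  obtain ⟨s0, hs0⟩ := Pool.Agent.TH818.SA.t_final
  refine ⟨s0, fun s hs D hD hDL F hF V hV hVD => ?_⟩
  have hDr : (1 : ℝ) ≤ D := by exact_mod_cast hD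
  have h1 : ((D + 1 : ℕ) : ℝ) ≤ (1 / 1000) * Real.log (Real.log s) := by
    push_cast
    linarith
  obtain ⟨q0, hq0⟩ := hs0 s hs (D + 1) (by omega) h1
  obtain ⟨J, hJ⟩ : ∃ J : Finset ℕ, J = (Finset.Icc 3 s).filter (fun i => Odd i ∧ zo i ∈ V) := ⟨_, rfl⟩
  obtain ⟨q, hqq0, hq⟩ := sim_subF hF V D hVD J (fun i => zo i)
    (fun i hi => by
      rw [hJ, Finset.mem_filter] at hi
      exact hi.2.2) q0
  have h2 := hq0 q hqq0
  have h3 : (1 / 2000) / D * Real.sqrt (s * Real.log (Real.log s) / Real.log s) ≤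
      (1 / 1000) / ((D + 1 : ℕ) : ℝ) * Real.sqrt (s * Real.log (Real.log s) / Real.log s) := by
    apply mul_le_mul_of_nonneg_right _ (Real.sqrt_nonneg _)
    push_cast
    rw [div_le_div_iff₀ (by positivity) (by positivity)]
    linarith
  refine (h3.trans h2).trans ?_
  have hfin : {i : ℕ | 3 ≤ i ∧ i ≤ s ∧ Odd i ∧ zo i ∉ V}.Finite :=
    (Set.finite_Iic s).subset fun i hi => hi.2.1
  have hsub : {i : ℕ | 3 ≤ i ∧ i ≤ s ∧ Odd i ∧ ∀ p : ℤ, (q : ℝ) ^ (-(1 / ((D + 1 : ℕ) : ℝ))) ≤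
      |(q : ℝ) * (∑' n : ℕ, 1 / ((n : ℝ) + 1) ^ i) - p|} ⊆
      {i : ℕ | 3 ≤ i ∧ i ≤ s ∧ Odd i ∧ zo i ∉ V} := by
    rintro i ⟨a1, a2, a3, a4⟩
    refine ⟨a1, a2, a3, fun hmem => ?_⟩
    have hiJ : i ∈ J := by
      rw [hJ, Finset.mem_filter, Finset.mem_Icc]
      exact ⟨⟨a1, a2⟩, a3, hmem⟩
    obtain ⟨p, hp⟩ := hq i hiJ
    have h4 := a4 p
    push_cast at h4
    have h5 : zo i = ∑' n : ℕ, 1 / ((n : ℝ) + 1) ^ i := rfl
    rw [h5] at hp
    linarith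
  exact_mod_cast Set.ncard_le_ncard hsub hfin

end

end Pool.Agent.P8H10.ZOut
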