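import Pool.Agent.P8H10.ZMeas

/-!
# Two polynomials without common factor over a ring with a measure of algebraic independence
-/

set_option autoImplicit false

open Finset Polynomial Pool.Agent.R356 Pool.Agent.N743.SS

namespace Pool.Agent.P8H10.ZM

open Pool.Agent.TH647.NR (norm_resultant_le)

variable {ι : Type}

/-- evaluation at `x` -/
noncomputable abbrev evx (x : ι → ℝ) : MvPolynomial ι ℤ →+* ℝ :=
  (MvPolynomial.aeval x : MvPolynomial ι ℤ →ₐ[ℤ] ℝ).toRingHom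

/-- evaluation at `x`, with complex values -/
noncomputable abbrev evc (x : ι → ℝ) : MvPolynomial ι ℤ →+* ℂ := Complex.ofRealHom.comp (evx x)

lemma evc_norm (x : ι → ℝ) (p : MvPolynomial ι ℤ) : ‖evc x p‖ = |MvPolynomial.aeval x p| := by
  show ‖((MvPolynomial.aeval x p : ℝ) : ℂ)‖ = _
  rw [Complex.norm_real, Real.norm_eq_abs]

lemma evc_eval (x : ι → ℝ) (F : (MvPolynomial ι ℤ)[X]) (v : ℝ) :
    (F.map (evc x)).eval (v : ℂ) = (((F.map (evx x)).eval v : ℝ) : ℂ) := by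
  rw [← Polynomial.map_map, Polynomial.eval_map]
  exact eval₂_at_apply Complex.ofRealHom v

lemma isLen_absR : IsLen (fun z : ℝ => |z|) where
  nonneg _ := abs_nonneg _
  zero := abs_zero
  one := by simp
  neg a := abs_neg a
  add a b := abs_add_le a b
  mul a b := (abs_mul a b).le

/-- common small values of two polynomials without common factor -/
theorem pair_measure (x : ι → ℝ) (hx : MeasM x) (B : ℝ) (hB1 : 1 ≤ B) (hB : ∀ i, |x i| ≤ B) (v : ℝ) (D : ℕ) :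
    ∃ κ c : ℝ, 0 < κ ∧ 0 < c ∧ ∀ F G : (MvPolynomial ι ℤ)[X], F ≠ 0 → F.natDegree ≤ D → G.natDegree ≤ D →
      (∀ i, (F.coeff i).totalDegree ≤ D) → (∀ i, (G.coeff i).totalDegree ≤ D) →
      resultant F G F.natDegree G.natDegree ≠ 0 → ∀ H : ℝ, 1 ≤ H →
      (∀ i, lenM (F.coeff i) ≤ H) → (∀ i, lenM (G.coeff i) ≤ H) →
      c * H ^ (-κ) ≤ max |(F.map (evx x)).eval v| |(G.map (evx x)).eval v| := by
  classical
  obtain ⟨κ₀, c₀, hκ₀, hc₀, hmeas⟩ := hx (2 * D * D + D)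
  obtain ⟨T, hT⟩ : ∃ T : ℝ, T = max 1 ‖(v : ℂ)‖ := ⟨_, rfl⟩
  have hT1 : 1 ≤ T := by rw [hT]; exact le_max_left _ _
  have hTv : ‖(v : ℂ)‖ ≤ T := by rw [hT]; exact le_max_right _ _
  obtain ⟨L, hL⟩ : ∃ L : ℝ, L = B ^ D := ⟨_, rfl⟩
  have hL1 : 1 ≤ L := by rw [hL]; exact one_le_pow₀ hB1
  obtain ⟨F₀, hF₀⟩ : ∃ F₀ : ℝ, F₀ = (2 * D).factorial := ⟨_, rfl⟩
  have hF1 : (1 : ℝ) ≤ F₀ := by rw [hF₀]; exact_mod_cast Nat.factorial_pos _
  obtain ⟨W, hW⟩ : ∃ W : ℝ, W = (2 * D + 1) * T ^ (2 * D) * (F₀ * L ^ (2 * D)) := ⟨_, rfl⟩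
  have hD0 : (0 : ℝ) ≤ D := Nat.cast_nonneg D
  have hW1 : 1 ≤ W := by
    rw [hW]
    have h1 : 1 ≤ T ^ (2 * D) := one_le_pow₀ hT1
    have h3 : 1 ≤ (2 * D + 1 : ℝ) * T ^ (2 * D) := by nlinarith
    have h4 : 1 ≤ L ^ (2 * D) := one_le_pow₀ hL1
    exact one_le_mul_of_one_le_of_one_le h3 (one_le_mul_of_one_le_of_one_le hF1 h4)
  refine ⟨(2 * D + 1) * κ₀ + 2 * D + 1, c₀ * F₀ ^ (-κ₀) / W, by positivity, by positivity, ?_⟩
  intro F G hF hFD hGD hFc hGc hres H hH hFH hGH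
  have hH0 : 0 < H := by linarith
  obtain ⟨m, hm⟩ : ∃ m, m = F.natDegree := ⟨_, rfl⟩
  obtain ⟨n, hn⟩ : ∃ n, n = G.natDegree := ⟨_, rfl⟩
  rw [← hm, ← hn] at hres
  have hmn2 : m + n ≤ 2 * D := by omega
  obtain ⟨ε, hε⟩ : ∃ ε : ℝ, ε = max |(F.map (evx x)).eval v| |(G.map (evx x)).eval v| := ⟨_, rfl⟩
  rw [← hε]
  have hε1 : |(F.map (evx x)).eval v| ≤ ε := by rw [hε]; exact le_max_left _ _
  have hε2 : |(G.map (evx x)).eval v| ≤ ε := by rw [hε]; exact le_max_right _ _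
  have hε0 : 0 ≤ ε := (abs_nonneg _).trans hε1
  by_cases hmn : m + n = 0
  · -- constants
    have hm0 : F.natDegree = 0 := by omega
    have h1 : F = C (F.coeff 0) := eq_C_of_natDegree_eq_zero hm0
    have h2 : F.coeff 0 ≠ 0 := fun h => hF (by rw [h1, h, C_0])
    have h3 := hmeas (F.coeff 0) h2 ((hFc 0).trans (by omega)) H fun s => (le_lenM _ s).trans (hFH 0)
    have h4 : |(F.map (evx x)).eval v| = |MvPolynomial.aeval x (F.coeff 0)| := by
      conv_lhs => rw [h1, Polynomial.map_C, eval_C]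
      rfl
    rw [h4] at hε1
    refine le_trans ?_ (h3.trans hε1)
    have h5 : c₀ * F₀ ^ (-κ₀) / W ≤ c₀ := by
      have h6 : F₀ ^ (-κ₀) ≤ 1 := Real.rpow_le_one_of_one_le_of_nonpos hF1 (by linarith)
      rw [div_le_iff₀ (by linarith)]
      nlinarith
    refine mul_le_mul h5 ?_ (by positivity) hc₀.le
    refine Real.rpow_le_rpow_of_exponent_le hH ?_
    nlinarith
  have hmn' : 0 < m + n := by omega
  obtain ⟨N, hN⟩ : ∃ N : MvPolynomial ι ℤ, N = resultant F G m n := ⟨_, rfl⟩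
  rw [← hN] at hres
  have hNdeg : N.totalDegree ≤ 2 * D * D + D := by
    rw [hN, resultant]
    have h1 : (sylvester F G m n).det.totalDegree ≤ (m + n) * D :=
      totalDegree_det_le (m + n) D _ fun i j =>
        sylv_entry (fun z : MvPolynomial ι ℤ => z.totalDegree ≤ D) (by simp) _ _ _ _ hFc hGc i j
    refine h1.trans ((Nat.mul_le_mul_right _ hmn2).trans ?_)
    omega
  have hNlen : lenM N ≤ F₀ * H ^ (2 * D) := by
    rw [hN, resultant]
    refine (isLenM.det (m + n) _ H fun i j => ?_).trans ?_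
    · refine sylv_entry (fun z : MvPolynomial ι ℤ => lenM z ≤ H) ?_ _ _ _ _ hFH hGH i j
      show lenM 0 ≤ _
      rw [isLenM.zero]; positivity
    · have h1 : (((m + n).factorial : ℕ) : ℝ) ≤ F₀ := by
        rw [hF₀]; exact_mod_cast Nat.factorial_le hmn2
      have h2 : H ^ (m + n) ≤ H ^ (2 * D) := pow_le_pow_right₀ hH hmn2
      gcongr
  have hlow := hmeas N hres hNdeg (F₀ * H ^ (2 * D)) (fun s => (le_lenM N s).trans hNlen)
  have hcoeff : ∀ (P : (MvPolynomial ι ℤ)[X]), (∀ i, (P.coeff i).totalDegree ≤ D) → (∀ i, lenM (P.coeff i) ≤ H) →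
      ∀ i, ‖(P.map (evc x)).coeff i‖ ≤ L * H := by
    intro P hP1 hP2 i
    rw [coeff_map, evc_norm]
    have h1 := isLen_aevalM isLen_absR x B hB1 hB (P.coeff i) D (hP1 i)
    refine h1.trans ?_
    rw [hL, mul_comm]
    exact mul_le_mul_of_nonneg_left (hP2 i) (by positivity)
  have hLH : 1 ≤ L * H := one_le_mul_of_one_le_of_one_le hL1 hH
  have hup : |MvPolynomial.aeval x N| ≤ W * H ^ (2 * D) * ε := by
    rw [← evc_norm, hN, ← resultant_map_map]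
    refine (norm_resultant_le (F.map (evc x)) (G.map (evc x)) m n (natDegree_map_le.trans hm.ge)
      (natDegree_map_le.trans hn.ge) hmn' (L * H) T ε hLH (hcoeff F hFc hFH) (hcoeff G hGc hGH) (v : ℂ) hT1 hTv
      ?_ ?_).trans ?_
    · rw [evc_eval, Complex.norm_real, Real.norm_eq_abs]
      exact hε1
    · rw [evc_eval, Complex.norm_real, Real.norm_eq_abs]
      exact hε2
    · have h1 : (((m + n).factorial : ℕ) : ℝ) ≤ F₀ := by
        rw [hF₀]; exact_mod_cast Nat.factorial_le hmn2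
      have h2 : (L * H) ^ (m + n) ≤ L ^ (2 * D) * H ^ (2 * D) := by
        rw [← mul_pow]; exact pow_le_pow_right₀ hLH hmn2
      have h3 : ((m : ℝ) + n) ≤ 2 * D + 1 := by
        have : ((m + n : ℕ) : ℝ) ≤ ((2 * D : ℕ) : ℝ) := by exact_mod_cast hmn2
        push_cast at this
        linarith
      have h4 : T ^ (m + n) ≤ T ^ (2 * D) := pow_le_pow_right₀ hT1 hmn2
      calc ((m : ℝ) + n) * (T ^ (m + n) * ε) * ((((m + n).factorial : ℕ) : ℝ) * (L * H) ^ (m + n))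
          ≤ (2 * D + 1) * (T ^ (2 * D) * ε) * (F₀ * (L ^ (2 * D) * H ^ (2 * D))) := by
            gcongr
        _ = _ := by rw [hW]; ring
  have b8 : c₀ * (F₀ * H ^ (2 * D)) ^ (-κ₀) ≤ W * H ^ (2 * D) * ε := hlow.trans hup
  have e1 : (F₀ * H ^ (2 * D)) ^ (-κ₀) = F₀ ^ (-κ₀) * H ^ (-(2 * D * κ₀ : ℝ)) := by
    rw [Real.mul_rpow (by linarith) (by positivity), ← Real.rpow_natCast H (2 * D),
      ← Real.rpow_mul hH0.le]
    congr 2
    push_cast
    ring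
  have e2 : H ^ (-(2 * D * κ₀ : ℝ)) = H ^ (2 * D) * H ^ (-(2 * D * κ₀ + 2 * D : ℝ)) := by
    rw [← Real.rpow_natCast H (2 * D), ← Real.rpow_add hH0]
    congr 1
    push_cast
    ring
  have b9 : c₀ * F₀ ^ (-κ₀) / W * H ^ (-(2 * D * κ₀ + 2 * D : ℝ)) ≤ ε := by
    rw [e1, e2] at b8
    have h8 : 0 < W * H ^ (2 * D) := by positivity
    have h9 : (W * H ^ (2 * D)) * (c₀ * F₀ ^ (-κ₀) / W * H ^ (-(2 * D * κ₀ + 2 * D : ℝ))) ≤ (W * H ^ (2 * D)) * ε := by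
      calc (W * H ^ (2 * D)) * (c₀ * F₀ ^ (-κ₀) / W * H ^ (-(2 * D * κ₀ + 2 * D : ℝ)))
          = c₀ * (F₀ ^ (-κ₀) * (H ^ (2 * D) * H ^ (-(2 * D * κ₀ + 2 * D : ℝ)))) := by
            field_simp
        _ ≤ _ := b8
    exact le_of_mul_le_mul_left h9 h8
  have e3 : H ^ (-((2 * D + 1) * κ₀ + 2 * D + 1 : ℝ)) ≤ H ^ (-(2 * D * κ₀ + 2 * D : ℝ)) :=
    Real.rpow_le_rpow_of_exponent_le hH (by nlinarith)
  calc c₀ * F₀ ^ (-κ₀) / W * H ^ (-((2 * D + 1) * κ₀ + 2 * D + 1 : ℝ))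
      ≤ c₀ * F₀ ^ (-κ₀) / W * H ^ (-(2 * D * κ₀ + 2 * D : ℝ)) := by
        gcongr
    _ ≤ ε := b9

end Pool.Agent.P8H10.ZM
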