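import Pool.Agent.P8H10.ZSys

/-!
# Systems of polynomials at a point with polynomial relations to a family with a measure
-/

set_option autoImplicit false

open Finset Pool.Agent.R356 Pool.Agent.N743.SS Pool.Agent.P8H10.ZM

namespace Pool.Agent.P8H10.UN

section LenV

variable {R : Type} [CommRing R] {f : R → ℝ} {υ : Type}

/-- the length of a polynomial in several variables -/
noncomputable def lenV (f : R → ℝ) (P : MvPolynomial υ R) : ℝ := ∑ s ∈ P.support, f (P.coeff s)

lemma lenV_eq (h : IsLen f) (P : MvPolynomial υ R) (S : Finset (υ →₀ ℕ)) (hS : P.support ⊆ S) :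
    lenV f P = ∑ s ∈ S, f (P.coeff s) := by
  unfold lenV
  refine sum_subset hS fun s _ hs => ?_
  rw [MvPolynomial.notMem_support_iff.1 hs, h.zero]

lemma le_lenV (h : IsLen f) (P : MvPolynomial υ R) (s : υ →₀ ℕ) : f (P.coeff s) ≤ lenV f P := by
  by_cases hs : s ∈ P.support
  · exact single_le_sum (f := fun s => f (P.coeff s)) (fun _ _ => h.nonneg _) hs
  · rw [MvPolynomial.notMem_support_iff.1 hs, h.zero]
    exact sum_nonneg fun _ _ => h.nonneg _

lemma lenV_add (h : IsLen f) (P Q : MvPolynomial υ R) : lenV f (P + Q) ≤ lenV f P + lenV f Q := by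
  classical
  rw [lenV_eq h (P + Q) (P.support ∪ Q.support) MvPolynomial.support_add,
    lenV_eq h P (P.support ∪ Q.support) subset_union_left,
    lenV_eq h Q (P.support ∪ Q.support) subset_union_right, ← sum_add_distrib]
  refine sum_le_sum fun s _ => ?_
  rw [MvPolynomial.coeff_add]
  exact h.add _ _

lemma lenV_sum (h : IsLen f) {κ : Type*} (S : Finset κ) (P : κ → MvPolynomial υ R) :
    lenV f (∑ k ∈ S, P k) ≤ ∑ k ∈ S, lenV f (P k) := by
  classical
  induction S using Finset.induction_on with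
  | empty => simp [lenV]
  | insert k S hk ih =>
    rw [sum_insert hk, sum_insert hk]
    exact (lenV_add h _ _).trans (by linarith)

lemma lenV_monomial_mul (h : IsLen f) (s : υ →₀ ℕ) (c : R) (Q : MvPolynomial υ R) :
    lenV f (MvPolynomial.monomial s c * Q) ≤ f c * lenV f Q := by
  classical
  have hsub : (MvPolynomial.monomial s c * Q).support ⊆ Q.support.map (addLeftEmbedding s) := by
    intro m hm
    rw [MvPolynomial.mem_support_iff, MvPolynomial.coeff_monomial_mul'] at hm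
    rw [mem_map]
    split_ifs at hm with hle
    · refine ⟨m - s, MvPolynomial.mem_support_iff.2 fun h => hm (by rw [h, mul_zero]), ?_⟩
      show s + (m - s) = m
      exact add_tsub_cancel_of_le hle
    · exact absurd rfl hm
  rw [lenV_eq h _ _ hsub, sum_map, lenV, mul_sum]
  refine sum_le_sum fun m _ => ?_
  show f ((MvPolynomial.monomial s c * Q).coeff (s + m)) ≤ _
  rw [MvPolynomial.coeff_monomial_mul]
  exact h.mul _ _

lemma isLenV (h : IsLen f) : IsLen (lenV f (υ := υ)) where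
  nonneg P := sum_nonneg fun _ _ => h.nonneg _
  zero := by simp [lenV]
  one := by
    classical
    rw [lenV_eq h (1 : MvPolynomial υ R) {0} (by
      intro s hs
      rw [MvPolynomial.mem_support_iff, MvPolynomial.coeff_one] at hs
      rw [mem_singleton]
      by_contra h
      exact hs (if_neg (Ne.symm h))), sum_singleton, MvPolynomial.coeff_one, if_pos rfl]
    exact h.one
  neg P := by
    unfold lenV
    rw [MvPolynomial.support_neg]
    refine sum_congr rfl fun s _ => ?_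
    rw [MvPolynomial.coeff_neg, h.neg]
  add := lenV_add h
  mul P Q := by
    conv_lhs => rw [MvPolynomial.as_sum P, sum_mul]
    refine (lenV_sum h _ _).trans ?_
    rw [lenV, sum_mul]
    exact sum_le_sum fun s _ => lenV_monomial_mul h _ _ _

end LenV

variable {ι υ : Type}

/-- polynomials of bounded degree with coefficients of bounded degree -/
def ddF (ι υ : Type) (n : ℕ) : AddSubgroup (MvPolynomial υ (MvPolynomial ι ℤ)) where
  carrier := {F | F.totalDegree ≤ n ∧ ∀ s, (F.coeff s).totalDegree ≤ n}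
  add_mem' {a b} ha hb := ⟨(MvPolynomial.totalDegree_add _ _).trans (max_le ha.1 hb.1), fun i => by
    rw [MvPolynomial.coeff_add]
    exact (MvPolynomial.totalDegree_add _ _).trans (max_le (ha.2 i) (hb.2 i))⟩
  zero_mem' := by simp
  neg_mem' {a} ha := by
    refine ⟨?_, fun i => ?_⟩
    · rw [MvPolynomial.totalDegree_neg]; exact ha.1
    · rw [MvPolynomial.coeff_neg, MvPolynomial.totalDegree_neg]; exact ha.2 i

lemma ddF_mul {m n : ℕ} {F G : MvPolynomial υ (MvPolynomial ι ℤ)} (hF : F ∈ ddF ι υ m) (hG : G ∈ ddF ι υ n) :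
    F * G ∈ ddF ι υ (m + n) := by
  classical
  refine ⟨(MvPolynomial.totalDegree_mul _ _).trans (Nat.add_le_add hF.1 hG.1), fun s => ?_⟩
  rw [MvPolynomial.coeff_mul]
  refine MvPolynomial.totalDegree_finsetSum_le fun p _ => ?_
  exact (MvPolynomial.totalDegree_mul _ _).trans (Nat.add_le_add (hF.2 _) (hG.2 _))

/-- multiplication of the variables by `d` -/
noncomputable def scl {σ : Type} (d D : ℕ) (P : MvPolynomial σ ℤ) : MvPolynomial σ ℤ :=
  ∑ s ∈ P.support, MvPolynomial.monomial s (P.coeff s * (d : ℤ) ^ (D - s.degree))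

lemma scl_coeff {σ : Type} (d D : ℕ) (P : MvPolynomial σ ℤ) (s : σ →₀ ℕ) :
    (scl d D P).coeff s = P.coeff s * (d : ℤ) ^ (D - s.degree) := by
  classical
  rw [scl, MvPolynomial.coeff_sum]
  by_cases hs : s ∈ P.support
  · rw [Finset.sum_eq_single s]
    · rw [MvPolynomial.coeff_monomial, if_pos rfl]
    · intro t _ ht
      rw [MvPolynomial.coeff_monomial, if_neg ht]
    · intro h; exact absurd hs h
  · rw [MvPolynomial.notMem_support_iff.1 hs, zero_mul]
    refine Finset.sum_eq_zero fun t ht => ?_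
    rw [MvPolynomial.coeff_monomial, if_neg]
    rintro rfl
    exact hs ht

lemma scl_deg {σ : Type} (d D : ℕ) (P : MvPolynomial σ ℤ) (hD : P.totalDegree ≤ D) :
    (scl d D P).totalDegree ≤ D := by
  rw [scl]
  refine MvPolynomial.totalDegree_finsetSum_le fun s hs => ?_
  exact (MvPolynomial.totalDegree_monomial_le _ _).trans ((MvPolynomial.le_totalDegree hs).trans hD)

lemma scl_bound {σ : Type} (d D : ℕ) (hd : 1 ≤ d) (P : MvPolynomial σ ℤ) (H : ℝ)
    (hH : ∀ s, |((P.coeff s : ℤ) : ℝ)| ≤ H) (s : σ →₀ ℕ) :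
    |(((scl d D P).coeff s : ℤ) : ℝ)| ≤ (d : ℝ) ^ D * H := by
  rw [scl_coeff]
  push_cast
  rw [abs_mul, abs_of_nonneg (by positivity : (0 : ℝ) ≤ (d : ℝ) ^ (D - s.degree)), mul_comm]
  have hd1 : (1 : ℝ) ≤ d := by exact_mod_cast hd
  have h1 : (d : ℝ) ^ (D - s.degree) ≤ (d : ℝ) ^ D := pow_le_pow_right₀ hd1 (Nat.sub_le _ _)
  exact mul_le_mul h1 (hH s) (abs_nonneg _) (by positivity)

lemma scl_val {σ R : Type} [CommRing R] (d D : ℕ) (P : MvPolynomial σ ℤ) (hD : P.totalDegree ≤ D) (z y : σ → R)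
    (hz : ∀ k, z k = d * y k) :
    MvPolynomial.aeval z (scl d D P) = (d : R) ^ D * MvPolynomial.aeval y P := by
  classical
  rw [scl, map_sum]
  conv_rhs => rw [MvPolynomial.as_sum P, map_sum, Finset.mul_sum]
  refine Finset.sum_congr rfl fun s hs => ?_
  rw [MvPolynomial.aeval_monomial, MvPolynomial.aeval_monomial]
  have h1 : s.degree ≤ D := (MvPolynomial.le_totalDegree hs).trans hD
  have h2 : (s.prod fun i k => z i ^ k) = (d : R) ^ s.degree * s.prod fun i k => y i ^ k := by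
    rw [Finsupp.prod, Finsupp.prod, Finsupp.degree_apply, ← Finset.prod_pow_eq_pow_sum, ← Finset.prod_mul_distrib]
    refine Finset.prod_congr rfl fun i _ => ?_
    rw [hz, mul_pow]
  rw [h2, map_mul, map_pow, map_natCast]
  have h3 : (d : R) ^ D = (d : R) ^ (D - s.degree) * (d : R) ^ s.degree := by
    rw [← pow_add, Nat.sub_add_cancel h1]
  rw [h3]
  ring

lemma eval₂_aeval {σ S : Type} [CommRing S] (φ : MvPolynomial ι ℤ →+* S) (z : υ → S)
    (Γ : σ → MvPolynomial υ (MvPolynomial ι ℤ)) (P : MvPolynomial σ ℤ) :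
    MvPolynomial.eval₂ φ z (MvPolynomial.aeval Γ P) =
      MvPolynomial.aeval (fun k => MvPolynomial.eval₂ φ z (Γ k)) P := by
  have h1 : (MvPolynomial.eval₂Hom φ z).comp
      (MvPolynomial.aeval Γ : MvPolynomial σ ℤ →ₐ[ℤ] MvPolynomial υ (MvPolynomial ι ℤ)).toRingHom =
      (MvPolynomial.aeval (fun k => MvPolynomial.eval₂ φ z (Γ k)) : MvPolynomial σ ℤ →ₐ[ℤ] S).toRingHom := by
    refine MvPolynomial.ringHom_ext (fun r => ?_) (fun i => ?_)
    · simp
    · simp
  exact RingHom.congr_fun h1 P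

/-- **Systems of polynomials** at a point `θ` with `d θ = Γ (x, u)` -/
theorem sys_subst {α σ : Type} [Fintype υ] [Fintype α] [Fintype σ] (x : ι → ℝ) (hx : MeasM x) (B : ℝ) (hB1 : 1 ≤ B)
    (hB : ∀ i, |x i| ≤ B) (u : υ → ℝ) (Γ : σ → MvPolynomial υ (MvPolynomial ι ℤ)) (d : ℕ) (hd : 1 ≤ d) (θ : σ → ℝ)
    (hθ : ∀ k, MvPolynomial.eval₂ (evx x) u (Γ k) = d * θ k) (D : ℕ) :
    ∃ κ c : ℝ, 0 < κ ∧ 0 < c ∧ ∀ P : α → MvPolynomial σ ℤ, (∀ i, (P i).totalDegree ≤ D) → ∀ H : ℝ, 1 ≤ H →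
      (∀ i s, |(((P i).coeff s : ℤ) : ℝ)| ≤ H) →
      (∀ (z : υ → ℂ) (w : σ → ℂ), (∀ k, MvPolynomial.eval₂ (evc x) z (Γ k) = d * w k) →
        ∃ i, MvPolynomial.aeval w (P i) ≠ 0) →
      ∃ i, c * H ^ (-κ) ≤ |MvPolynomial.aeval θ (P i)| := by
  classical
  obtain ⟨E, hE⟩ : ∃ E : ℕ, ∀ k, Γ k ∈ ddF ι υ E := by
    refine ⟨∑ k, ((Γ k).totalDegree + ∑ s ∈ (Γ k).support, ((Γ k).coeff s).totalDegree), fun k => ?_⟩
    have h1 := Finset.single_le_sum (f := fun k => (Γ k).totalDegree + ∑ s ∈ (Γ k).support, ((Γ k).coeff s).totalDegree)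
      (fun _ _ => Nat.zero_le _) (Finset.mem_univ k)
    refine ⟨(Nat.le_add_right _ _).trans h1, fun s => ?_⟩
    by_cases hs : s ∈ (Γ k).support
    · have h2 := Finset.single_le_sum (f := fun s => ((Γ k).coeff s).totalDegree) (fun _ _ => Nat.zero_le _) hs
      exact (h2.trans (Nat.le_add_left _ _)).trans h1
    · rw [MvPolynomial.notMem_support_iff.1 hs, MvPolynomial.totalDegree_zero]
      exact Nat.zero_le _
  obtain ⟨L, hL1, hL⟩ : ∃ L : ℝ, 1 ≤ L ∧ ∀ k, lenV lenM (Γ k) ≤ L :=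
    ⟨1 + ∑ k, lenV lenM (Γ k), by
      have : 0 ≤ ∑ k, lenV lenM (Γ k) := Finset.sum_nonneg fun k _ => (isLenV isLenM).nonneg _
      linarith, fun k => by
      have := Finset.single_le_sum (f := fun k => lenV lenM (Γ k)) (fun k _ => (isLenV isLenM).nonneg _)
        (Finset.mem_univ k)
      linarith⟩
  obtain ⟨κ, c, hκ, hc, hs⟩ := sys_measure (α := α) x hx B hB1 hB u (E * D)
  obtain ⟨K, hK⟩ : ∃ K : ℝ, K = max 1 (nmon σ D : ℝ) * (d : ℝ) ^ D * L ^ D := ⟨_, rfl⟩
  have hd1 : (1 : ℝ) ≤ d := by exact_mod_cast hd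
  have hdD : (1 : ℝ) ≤ (d : ℝ) ^ D := one_le_pow₀ hd1
  have hK1 : 1 ≤ K := by
    rw [hK]
    exact one_le_mul_of_one_le_of_one_le (one_le_mul_of_one_le_of_one_le (le_max_left _ _) hdD) (one_le_pow₀ hL1)
  refine ⟨κ, c * K ^ (-κ) / (d : ℝ) ^ D, hκ, by positivity, fun P hPD H hH hPH hz => ?_⟩
  have hKH : 1 ≤ K * H := one_le_mul_of_one_le_of_one_le hK1 hH
  have hfil : ∀ i, MvPolynomial.aeval Γ (scl d D (P i)) ∈ ddF ι υ (E * D) := fun i =>
    filt_aeval (ddF ι υ) ⟨by simp, fun s => by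
        rw [MvPolynomial.coeff_one]
        split_ifs <;> simp⟩
      (fun m n hmn a ha => ⟨ha.1.trans hmn, fun i => (ha.2 i).trans hmn⟩)
      (fun m n a b ha hb => ddF_mul ha hb) Γ E hE _ D (scl_deg d D _ (hPD i))
  have hlen : ∀ i s, lenM ((MvPolynomial.aeval Γ (scl d D (P i))).coeff s) ≤ K * H := by
    intro i s
    refine (le_lenV isLenM _ s).trans ?_
    refine (isLen_aevalM (isLenV isLenM) Γ L hL1 hL _ D (scl_deg d D _ (hPD i))).trans ?_
    have h1 : lenM (scl d D (P i)) ≤ max 1 (nmon σ D : ℝ) * ((d : ℝ) ^ D * H) :=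
      (lenM_le _ D (scl_deg d D _ (hPD i)) _ (scl_bound d D hd _ H (hPH i))).trans
        (mul_le_mul_of_nonneg_right (le_max_right _ _) (by positivity))
    calc lenM (scl d D (P i)) * L ^ D ≤ (max 1 (nmon σ D : ℝ) * ((d : ℝ) ^ D * H)) * L ^ D :=
          mul_le_mul_of_nonneg_right h1 (by positivity)
      _ = K * H := by rw [hK]; ring
  obtain ⟨i, hi⟩ := hs (fun i => MvPolynomial.aeval Γ (scl d D (P i))) (fun i => (hfil i).1) (fun i s => (hfil i).2 s)
    (K * H) hKH hlen (fun z => by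
      have hd0 : (d : ℂ) ≠ 0 := by
        have : d ≠ 0 := by omega
        exact_mod_cast this
      obtain ⟨w, hw⟩ : ∃ w : σ → ℂ, w = fun k => MvPolynomial.eval₂ (evc x) z (Γ k) / d := ⟨_, rfl⟩
      have hw' : ∀ k, MvPolynomial.eval₂ (evc x) z (Γ k) = d * w k := by
        intro k
        rw [hw]
        field_simp
      obtain ⟨i, hi⟩ := hz z w hw'
      refine ⟨i, ?_⟩
      rw [eval₂_aeval, scl_val d D (P i) (hPD i) _ w hw']
      exact mul_ne_zero (pow_ne_zero _ hd0) hi)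
  refine ⟨i, ?_⟩
  rw [eval₂_aeval, scl_val d D (P i) (hPD i) _ θ hθ, abs_mul, abs_of_nonneg (by positivity : (0 : ℝ) ≤ (d : ℝ) ^ D),
    rpow_neg_mul hK1 (by linarith)] at hi
  rw [div_mul_eq_mul_div, div_le_iff₀ (by positivity)]
  linarith

end Pool.Agent.P8H10.UN
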