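import Pool.Agent.P8H10.ZNull
import Pool.Agent.P8H10.ZGram
import Pool.Agent.P8H10.ZJoint

/-!
# Systems of polynomials without common zeros are not all small
-/

set_option autoImplicit false

open Finset Pool.Agent.R356 Pool.Agent.N743.SS Pool.Agent.P8H10.ZM

namespace Pool.Agent.P8H10.UN

variable {ι υ α : Type} [Fintype υ] [Fintype α]

/-- the rows -/
noncomputable def row {R : Type} [CommRing R] (N D : ℕ) (P : α → MvPolynomial υ R) (b : α × (bx υ N : Finset (υ →₀ ℕ)))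
    (t : (bx υ (N + D) : Finset (υ →₀ ℕ))) : R :=
  (MvPolynomial.monomial (b.2 : υ →₀ ℕ) 1 * P b.1).coeff t

/-- the vector of the polynomial `1` -/
noncomputable def one1 (υ R : Type) [Fintype υ] [CommRing R] (M : ℕ) (t : (bx υ M : Finset (υ →₀ ℕ))) : R := by
  classical
  exact if (t : υ →₀ ℕ) = 0 then 1 else 0

omit [Fintype α] in
lemma row_map {R S : Type} [CommRing R] [CommRing S] (φ : R →+* S) (N D : ℕ) (P : α → MvPolynomial υ R)
    (b : α × (bx υ N : Finset (υ →₀ ℕ))) (t : (bx υ (N + D) : Finset (υ →₀ ℕ))) :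
    row N D (fun i => MvPolynomial.map φ (P i)) b t = φ (row N D P b t) := by
  unfold row
  rw [← MvPolynomial.coeff_map, map_mul, MvPolynomial.map_monomial, φ.map_one]

lemma bx_mono {M N : ℕ} (h : M ≤ N) : bx υ M ⊆ bx υ N := by
  intro s hs
  rw [mem_bx] at hs ⊢
  exact fun i => (hs i).trans h

lemma sum_bx {R : Type} [CommRing R] (p : MvPolynomial υ R) (N : ℕ) (hN : p.support ⊆ bx υ N) :
    p = ∑ s ∈ bx υ N, MvPolynomial.monomial s (p.coeff s) := by
  conv_lhs => rw [MvPolynomial.as_sum p]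
  refine Finset.sum_subset hN fun s _ hs => ?_
  rw [MvPolynomial.notMem_support_iff.1 hs, map_zero]

lemma coeff_mul_bx {R : Type} [CommRing R] (A Q : MvPolynomial υ R) (N : ℕ) (hN : A.totalDegree ≤ N)
    (t : υ →₀ ℕ) : (A * Q).coeff t = ∑ s ∈ bx υ N, A.coeff s * (MvPolynomial.monomial s 1 * Q).coeff t := by
  conv_lhs => rw [sum_bx A N (support_subset_bx A N hN)]
  rw [sum_mul, MvPolynomial.coeff_sum]
  refine Finset.sum_congr rfl fun s _ => ?_
  rw [← MvPolynomial.coeff_C_mul, ← mul_assoc, MvPolynomial.C_mul_monomial, mul_one]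

lemma cert_span (N D : ℕ) (P : α → MvPolynomial υ ℝ) (A : α → MvPolynomial υ ℂ)
    (hA : ∀ i, (A i).totalDegree ≤ N) (h : ∑ i, A i * MvPolynomial.map Complex.ofRealHom (P i) = 1) :
    one1 υ ℝ (N + D) ∈ Submodule.span ℝ (Set.range (row N D P)) := by
  classical
  rw [Submodule.mem_span_range_iff_exists_fun]
  refine ⟨fun b => ((A b.1).coeff (b.2 : υ →₀ ℕ)).re, ?_⟩
  ext t
  have h1 := congrArg (MvPolynomial.coeff (t : υ →₀ ℕ)) h
  rw [MvPolynomial.coeff_sum, MvPolynomial.coeff_one] at h1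
  have h2 := congrArg Complex.re h1
  rw [Complex.re_sum] at h2
  have h3 : (if (0 : υ →₀ ℕ) = (t : υ →₀ ℕ) then (1 : ℂ) else 0).re = one1 υ ℝ (N + D) t := by
    unfold one1
    by_cases h0 : (t : υ →₀ ℕ) = 0
    · rw [if_pos h0.symm, if_pos h0, Complex.one_re]
    · rw [if_neg (Ne.symm h0), if_neg h0, Complex.zero_re]
  rw [← h3, ← h2, Finset.sum_apply, Fintype.sum_prod_type]
  refine Finset.sum_congr rfl fun i _ => ?_
  rw [coeff_mul_bx _ _ N (hA i), Complex.re_sum, ← Finset.sum_coe_sort (bx υ N)]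
  refine Finset.sum_congr rfl fun s _ => ?_
  rw [Pi.smul_apply, smul_eq_mul]
  have h4 : (MvPolynomial.monomial (s : υ →₀ ℕ) 1 * MvPolynomial.map Complex.ofRealHom (P i)).coeff (t : υ →₀ ℕ) =
      ((row N D P (i, s) t : ℝ) : ℂ) := by
    have := row_map Complex.ofRealHom N D P (i, s) t
    unfold row at this ⊢
    exact this
  rw [h4, Complex.re_mul_ofReal]

/-- values as sums -/
lemma eval_bx (Q : MvPolynomial υ ℝ) (M : ℕ) (hQ : Q.support ⊆ bx υ M) (u : υ → ℝ) :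
    MvPolynomial.eval u Q = ∑ t : (bx υ M : Finset (υ →₀ ℕ)), Q.coeff (t : υ →₀ ℕ) * ∏ i, u i ^ (t : υ →₀ ℕ) i := by
  rw [MvPolynomial.eval_eq', Finset.sum_coe_sort (bx υ M) (fun t => Q.coeff t * ∏ i, u i ^ t i)]
  refine Finset.sum_subset hQ fun s _ hs => ?_
  rw [MvPolynomial.notMem_support_iff.1 hs, zero_mul]

omit [Fintype α] in
lemma row_eval (N D : ℕ) (P : α → MvPolynomial υ ℝ) (hD : ∀ i, (P i).totalDegree ≤ D) (u : υ → ℝ)
    (b : α × (bx υ N : Finset (υ →₀ ℕ))) :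
    ∑ t, row N D P b t * ∏ i, u i ^ (t : υ →₀ ℕ) i =
      (∏ i, u i ^ (b.2 : υ →₀ ℕ) i) * MvPolynomial.eval u (P b.1) := by
  classical
  have h1 : (MvPolynomial.monomial (b.2 : υ →₀ ℕ) (1 : ℝ) * P b.1).support ⊆ bx υ (N + D) := by
    intro t ht
    have h2 := MvPolynomial.support_mul _ _ ht
    rw [Finset.mem_add] at h2
    obtain ⟨s, hs, s', hs', rfl⟩ := h2
    have h3 := MvPolynomial.support_monomial_subset hs
    rw [Finset.mem_singleton] at h3
    rw [mem_bx]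
    intro i
    have h4 := mem_bx.1 b.2.2 i
    have h5 := mem_bx.1 (support_subset_bx _ D (hD b.1) hs') i
    rw [h3, Finsupp.add_apply]
    omega
  have h2 := eval_bx _ _ h1 u
  unfold row
  rw [← h2, map_mul, MvPolynomial.eval_monomial, one_mul, Finsupp.prod_fintype _ _ (fun _ => pow_zero _)]

omit [Fintype α] in
/-- the relation -/
lemma relation (N D : ℕ) (P : α → MvPolynomial υ ℝ) (hD : ∀ i, (P i).totalDegree ≤ D) (u : υ → ℝ) {r : ℕ}
    (a : Fin r → α × (bx υ N : Finset (υ →₀ ℕ)))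
    (he : one1 υ ℝ (N + D) ∈ Submodule.span ℝ (Set.range fun k => row N D P (a k))) :
    (gram fun k => row N D P (a k)).det = ∑ k, cof (fun k => row N D P (a k)) (one1 υ ℝ (N + D)) k *
      ((∏ i, u i ^ ((a k).2 : υ →₀ ℕ) i) * MvPolynomial.eval u (P (a k).1)) := by
  classical
  have h1 : ∀ k, cof (fun k => row N D P (a k)) (one1 υ ℝ (N + D)) k *
      ((∏ i, u i ^ ((a k).2 : υ →₀ ℕ) i) * MvPolynomial.eval u (P (a k).1)) =
      ∑ t, (cof (fun k => row N D P (a k)) (one1 υ ℝ (N + D)) k * row N D P (a k) t) *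
        ∏ i, u i ^ (t : υ →₀ ℕ) i := by
    intro k
    rw [← row_eval N D P hD u (a k), Finset.mul_sum]
    exact Finset.sum_congr rfl fun t _ => by ring
  rw [Finset.sum_congr rfl fun k _ => h1 k, Finset.sum_comm]
  have h2 : ∀ t, ∑ k, (cof (fun k => row N D P (a k)) (one1 υ ℝ (N + D)) k * row N D P (a k) t) *
        ∏ i, u i ^ (t : υ →₀ ℕ) i =
      (gram fun k => row N D P (a k)).det * one1 υ ℝ (N + D) t * ∏ i, u i ^ (t : υ →₀ ℕ) i := by
    intro t
    rw [cramer_gram (fun k => row N D P (a k)) _ he t, Finset.sum_mul]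
  rw [Finset.sum_congr rfl fun t _ => h2 t]
  have h0 : (0 : υ →₀ ℕ) ∈ bx υ (N + D) := mem_bx.2 fun i => by simp
  rw [Finset.sum_eq_single (⟨0, h0⟩ : (bx υ (N + D) : Finset (υ →₀ ℕ)))]
  · simp [one1]
  · intro t _ ht
    have h3 : (t : υ →₀ ℕ) ≠ 0 := fun h => ht (Subtype.ext h)
    unfold one1
    rw [if_neg h3, mul_zero, zero_mul]
  · intro h; exact absurd (Finset.mem_univ _) h

lemma td_map_le {υ R S : Type} [CommRing R] [CommRing S] (φ : R →+* S) (p : MvPolynomial υ R) :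
    (MvPolynomial.map φ p).totalDegree ≤ p.totalDegree :=
  Finset.sup_mono (MvPolynomial.support_map_subset φ p)

lemma isLen_adj {R : Type} [CommRing R] {f : R → ℝ} (h : IsLen f) {r : ℕ} (M : Matrix (Fin r) (Fin r) R) (K : ℝ)
    (hK : 1 ≤ K) (hM : ∀ i j, f (M i j) ≤ K) (i j : Fin r) : f (M.adjugate i j) ≤ r.factorial * K ^ r := by
  classical
  rw [Matrix.adjugate_apply]
  refine h.det r _ K fun k l => ?_
  rw [Matrix.updateRow_apply]
  split_ifs with hk
  · by_cases hl : l = i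
    · rw [hl, Pi.single_eq_same]
      exact h.one.trans hK
    · rw [Pi.single_eq_of_ne hl, h.zero]
      linarith
  · exact hM k l

lemma isLen_gram {R : Type} [CommRing R] {f : R → ℝ} (h : IsLen f) {τ : Type} [Fintype τ] {r : ℕ} (V : Fin r → τ → R)
    (E : ℝ) (hE : ∀ k t, f (V k t) ≤ E) (k l : Fin r) : f (gram V k l) ≤ Fintype.card τ * (E * E) := by
  show f (∑ t, V k t * V l t) ≤ _
  refine (h.sum _ _).trans ?_
  rw [← nsmul_eq_mul, ← Finset.card_univ]
  refine Finset.sum_le_card_nsmul _ _ _ fun t _ => ?_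
  refine (h.mul _ _).trans ?_
  exact mul_le_mul (hE k t) (hE l t) (h.nonneg _) ((h.nonneg _).trans (hE k t))

/-- **Systems of polynomials without common zeros are not all small.** -/
theorem sys_measure {ι υ α : Type} [Fintype υ] [Fintype α] (x : ι → ℝ) (hx : MeasM x) (B : ℝ) (hB1 : 1 ≤ B)
    (hB : ∀ i, |x i| ≤ B) (u : υ → ℝ) (D : ℕ) :
    ∃ κ c : ℝ, 0 < κ ∧ 0 < c ∧ ∀ P : α → MvPolynomial υ (MvPolynomial ι ℤ), (∀ i, (P i).totalDegree ≤ D) →
      (∀ i s, ((P i).coeff s).totalDegree ≤ D) → ∀ H : ℝ, 1 ≤ H → (∀ i s, lenM ((P i).coeff s) ≤ H) →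
      (∀ z : υ → ℂ, ∃ i, MvPolynomial.eval₂ (evc x) z (P i) ≠ 0) →
      ∃ i, c * H ^ (-κ) ≤ |MvPolynomial.eval₂ (evx x) u (P i)| := by
  classical
  obtain ⟨N, hN⟩ := unif_null υ α D
  obtain ⟨nb, hnb⟩ : ∃ nb : ℕ, nb = Fintype.card (α × (bx υ N : Finset (υ →₀ ℕ))) := ⟨_, rfl⟩
  obtain ⟨nt, hnt⟩ : ∃ nt : ℕ, nt = Fintype.card (bx υ (N + D) : Finset (υ →₀ ℕ)) := ⟨_, rfl⟩
  have hnt1 : 1 ≤ nt := by
    rw [hnt, Nat.one_le_iff_ne_zero, ← Nat.pos_iff_ne_zero, Fintype.card_pos_iff]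
    exact ⟨⟨0, mem_bx.2 fun i => by simp⟩⟩
  obtain ⟨κ₀, c₀, hκ₀, hc₀, hmeas⟩ := hx (nb * (D + D))
  obtain ⟨T, hT⟩ : ∃ T : ℝ, T = 1 + ∑ s ∈ bx υ N, |∏ i, u i ^ s i| := ⟨_, rfl⟩
  have hT1 : 1 ≤ T := by
    rw [hT]
    have : 0 ≤ ∑ s ∈ bx υ N, |∏ i, u i ^ s i| := Finset.sum_nonneg fun _ _ => abs_nonneg _
    linarith
  have hTs : ∀ s ∈ bx υ N, |∏ i, u i ^ s i| ≤ T := by
    intro s hs
    rw [hT]
    have := Finset.single_le_sum (f := fun s : υ →₀ ℕ => |∏ i, u i ^ s i|) (fun _ _ => abs_nonneg _) hs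
    linarith
  obtain ⟨F, hF⟩ : ∃ F : ℝ, F = nb.factorial * (nt : ℝ) ^ nb := ⟨_, rfl⟩
  have hntr : (1 : ℝ) ≤ nt := by exact_mod_cast hnt1
  have hfac : (1 : ℝ) ≤ nb.factorial := by exact_mod_cast Nat.factorial_pos _
  have hF1 : 1 ≤ F := by
    rw [hF]; exact one_le_mul_of_one_le_of_one_le hfac (one_le_pow₀ hntr)
  obtain ⟨L, hL⟩ : ∃ L : ℝ, L = nt * (B ^ D * B ^ D) := ⟨_, rfl⟩
  have hBD : 1 ≤ B ^ D := one_le_pow₀ hB1
  have hL1 : 1 ≤ L := by
    rw [hL]; exact one_le_mul_of_one_le_of_one_le hntr (one_le_mul_of_one_le_of_one_le hBD hBD)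
  -- the constant of the upper bound
  obtain ⟨W, hW⟩ : ∃ W : ℝ, W = (nb + 1) * ((nb + 1) * (L * (nb.factorial * L ^ nb)) * T) := ⟨_, rfl⟩
  have hnb0 : (0 : ℝ) ≤ nb := Nat.cast_nonneg _
  have hW1 : 0 < W := by
    rw [hW]; positivity
  refine ⟨2 * nb * κ₀ + 2 * nb + 2, c₀ * F ^ (-κ₀) / (2 * W), by positivity, by positivity, ?_⟩
  intro P hPD hPc H hH hPH hz
  have hH0 : 0 < H := by linarith
  -- the certificate
  obtain ⟨A, hA, hA1⟩ := hN (fun i => MvPolynomial.map (evc x) (P i))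
    (fun i => (td_map_le (evc x) (P i)).trans (hPD i)) (fun z => by
      obtain ⟨i, hi⟩ := hz z
      exact ⟨i, by rwa [MvPolynomial.eval_map]⟩)
  obtain ⟨PR, hPR⟩ : ∃ PR : α → MvPolynomial υ ℝ, PR = fun i => MvPolynomial.map (evx x) (P i) := ⟨_, rfl⟩
  have hPRD : ∀ i, (PR i).totalDegree ≤ D := fun i => by
    rw [hPR]
    exact (td_map_le (evx x) (P i)).trans (hPD i)
  have hspan := cert_span N D PR A hA (by
    rw [← hA1]
    refine Finset.sum_congr rfl fun i _ => ?_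
    rw [hPR, MvPolynomial.map_map])
  obtain ⟨r, a, hr, hli, hsp⟩ := exists_rows _ _ hspan
  rw [← hnb] at hr
  have hrel := relation N D PR hPRD u a hsp
  have hdet := gram_det_ne _ hli
  -- the determinant over the ring
  obtain ⟨Δ, hΔ⟩ : ∃ Δ : MvPolynomial ι ℤ, Δ = (gram fun k => row N D P (a k)).det := ⟨_, rfl⟩
  have hrow : ∀ b t, row N D PR b t = evx x (row N D P b t) := fun b t => by
    rw [hPR]; exact row_map (evx x) N D P b t
  have hΔx : MvPolynomial.aeval x Δ = (gram fun k => row N D PR (a k)).det := by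
    have h1 := gram_map (evx x) (fun k => row N D P (a k))
    rw [hΔ]
    refine h1.trans ?_
    congr 2
    funext k t
    exact (hrow _ _).symm
  have hΔ0 : Δ ≠ 0 := by
    rintro h0
    rw [h0, map_zero] at hΔx
    exact hdet hΔx.symm
  have hent : ∀ b t, (row N D P b t).totalDegree ≤ D ∧ lenM (row N D P b t) ≤ H := by
    intro b t
    unfold row
    rw [MvPolynomial.coeff_monomial_mul']
    split_ifs
    · rw [one_mul]; exact ⟨hPc _ _, hPH _ _⟩
    · refine ⟨by simp, ?_⟩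
      show lenM 0 ≤ H
      rw [isLenM.zero]; exact hH0.le
  have hΔd : Δ.totalDegree ≤ nb * (D + D) := by
    rw [hΔ]
    refine (totalDegree_det_le r (D + D) _ fun k l => ?_).trans (Nat.mul_le_mul_right _ hr)
    show (∑ t, row N D P (a k) t * row N D P (a l) t).totalDegree ≤ D + D
    refine MvPolynomial.totalDegree_finsetSum_le fun t _ => ?_
    exact (MvPolynomial.totalDegree_mul _ _).trans (Nat.add_le_add (hent _ _).1 (hent _ _).1)
  have hΔl : lenM Δ ≤ F * H ^ (2 * nb) := by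
    rw [hΔ]
    refine (isLenM.det r _ (nt * (H * H)) fun k l => ?_).trans ?_
    · rw [hnt]
      exact isLen_gram isLenM _ H (fun k t => (hent _ _).2) k l
    · have h1 : ((r.factorial : ℕ) : ℝ) ≤ nb.factorial := by exact_mod_cast Nat.factorial_le hr
      have h2 : (1 : ℝ) ≤ nt * (H * H) :=
        one_le_mul_of_one_le_of_one_le hntr (one_le_mul_of_one_le_of_one_le hH hH)
      have h3 : (nt * (H * H) : ℝ) ^ r ≤ (nt * (H * H)) ^ nb := pow_le_pow_right₀ h2 hr
      calc (r.factorial : ℝ) * (nt * (H * H)) ^ r ≤ nb.factorial * (nt * (H * H)) ^ nb := by gcongr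
        _ = F * H ^ (2 * nb) := by
            rw [hF, mul_pow, ← sq, ← pow_mul]
            ring
  have hlow := hmeas Δ hΔ0 hΔd (F * H ^ (2 * nb)) (fun s => (le_lenM Δ s).trans hΔl)
  -- the upper bound
  by_contra hcon
  push Not at hcon
  obtain ⟨ε, hε⟩ : ∃ ε : ℝ, ε = c₀ * F ^ (-κ₀) / (2 * W) * H ^ (-(2 * nb * κ₀ + 2 * nb + 2)) := ⟨_, rfl⟩
  have hε0 : 0 < ε := by rw [hε]; positivity
  have hsmall : ∀ i, |MvPolynomial.eval u (PR i)| ≤ ε := by
    intro i
    rw [hPR, MvPolynomial.eval_map, hε]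
    exact (hcon i).le
  have hVent : ∀ k t, |row N D PR (a k) t| ≤ B ^ D * H := by
    intro k t
    rw [hrow]
    have h1 := isLen_aevalM isLen_absR x B hB1 hB (row N D P (a k) t) D (hent _ _).1
    refine h1.trans ?_
    rw [mul_comm]
    exact mul_le_mul_of_nonneg_left (hent _ _).2 (by positivity)
  have hLH : 1 ≤ L * (H * H) := one_le_mul_of_one_le_of_one_le hL1 (one_le_mul_of_one_le_of_one_le hH hH)
  have hgr : ∀ k l, |gram (fun k => row N D PR (a k)) k l| ≤ L * (H * H) := by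
    intro k l
    refine (isLen_gram isLen_absR _ (B ^ D * H) hVent k l).trans (le_of_eq ?_)
    rw [hL, hnt]
    ring
  have hw : ∀ l, |∑ t, one1 υ ℝ (N + D) t * row N D PR (a l) t| ≤ L * (H * H) := by
    intro l
    refine (Finset.abs_sum_le_sum_abs _ _).trans ?_
    have h1 : ∀ t ∈ (Finset.univ : Finset (bx υ (N + D) : Finset (υ →₀ ℕ))),
        |one1 υ ℝ (N + D) t * row N D PR (a l) t| ≤ (B ^ D * B ^ D) * (H * H) := by
      intro t _
      rw [abs_mul]
      have h2 : |one1 υ ℝ (N + D) t| ≤ 1 := by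
        unfold one1
        split_ifs <;> simp
      calc |one1 υ ℝ (N + D) t| * |row N D PR (a l) t| ≤ 1 * (B ^ D * H) :=
            mul_le_mul h2 (hVent l t) (abs_nonneg _) zero_le_one
        _ = (B ^ D * 1) * (H * 1) := by ring
        _ ≤ (B ^ D * B ^ D) * (H * H) := by gcongr
    refine (Finset.sum_le_card_nsmul _ _ _ h1).trans (le_of_eq ?_)
    rw [nsmul_eq_mul, Finset.card_univ, ← hnt, hL]
    ring
  have hadj : ∀ l k, |(gram fun k => row N D PR (a k)).adjugate l k| ≤ nb.factorial * (L * (H * H)) ^ nb := by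
    intro l k
    refine (isLen_adj isLen_absR _ (L * (H * H)) hLH hgr l k).trans ?_
    have h1 : ((r.factorial : ℕ) : ℝ) ≤ nb.factorial := by exact_mod_cast Nat.factorial_le hr
    have h3 : (L * (H * H)) ^ r ≤ (L * (H * H)) ^ nb := pow_le_pow_right₀ hLH hr
    gcongr
  have hrr : (r : ℝ) ≤ nb + 1 := by
    have : (r : ℝ) ≤ nb := by exact_mod_cast hr
    linarith
  have hcof : ∀ k, |cof (fun k => row N D PR (a k)) (one1 υ ℝ (N + D)) k| ≤
      (nb + 1) * ((L * (H * H)) * (nb.factorial * (L * (H * H)) ^ nb)) := by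
    intro k
    unfold cof
    refine (Finset.abs_sum_le_sum_abs _ _).trans ?_
    have h1 : ∀ l ∈ (Finset.univ : Finset (Fin r)),
        |(∑ t, one1 υ ℝ (N + D) t * row N D PR (a l) t) * (gram fun k => row N D PR (a k)).adjugate l k| ≤
        (L * (H * H)) * (nb.factorial * (L * (H * H)) ^ nb) := by
      intro l _
      rw [abs_mul]
      exact mul_le_mul (hw l) (hadj l k) (abs_nonneg _) (by positivity)
    refine (Finset.sum_le_card_nsmul _ _ _ h1).trans ?_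
    rw [nsmul_eq_mul, Finset.card_univ, Fintype.card_fin]
    exact mul_le_mul_of_nonneg_right hrr (by positivity)
  have hup : |MvPolynomial.aeval x Δ| ≤ W * H ^ (2 * nb + 2) * ε := by
    rw [hΔx, hrel]
    refine (Finset.abs_sum_le_sum_abs _ _).trans ?_
    have h1 : ∀ k ∈ (Finset.univ : Finset (Fin r)),
        |cof (fun k => row N D PR (a k)) (one1 υ ℝ (N + D)) k *
          ((∏ i, u i ^ ((a k).2 : υ →₀ ℕ) i) * MvPolynomial.eval u (PR (a k).1))| ≤
        ((nb + 1) * ((L * (H * H)) * (nb.factorial * (L * (H * H)) ^ nb))) * (T * ε) := by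
      intro k _
      rw [abs_mul, abs_mul]
      refine mul_le_mul (hcof k) ?_ (by positivity) (by positivity)
      exact mul_le_mul (hTs _ (a k).2.2) (hsmall _) (abs_nonneg _) (by linarith)
    refine (Finset.sum_le_card_nsmul _ _ _ h1).trans ?_
    rw [nsmul_eq_mul, Finset.card_univ, Fintype.card_fin]
    calc (r : ℝ) * (((nb + 1) * ((L * (H * H)) * (nb.factorial * (L * (H * H)) ^ nb))) * (T * ε))
        ≤ (nb + 1) * (((nb + 1) * ((L * (H * H)) * (nb.factorial * (L * (H * H)) ^ nb))) * (T * ε)) :=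
          mul_le_mul_of_nonneg_right hrr (by positivity)
      _ = W * H ^ (2 * nb + 2) * ε := by
          rw [hW, mul_pow, ← sq, ← pow_mul, pow_add]
          ring
  have b8 : c₀ * (F * H ^ (2 * nb)) ^ (-κ₀) ≤ W * H ^ (2 * nb + 2) * ε := hlow.trans hup
  have e1 : (F * H ^ (2 * nb)) ^ (-κ₀) = F ^ (-κ₀) * H ^ (-(2 * nb * κ₀ : ℝ)) := by
    rw [Real.mul_rpow (by linarith) (by positivity), ← Real.rpow_natCast H (2 * nb), ← Real.rpow_mul hH0.le]
    congr 2
    push_cast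
    ring
  have e2 : H ^ (2 * nb + 2) * H ^ (-(2 * nb * κ₀ + 2 * nb + 2 : ℝ)) = H ^ (-(2 * nb * κ₀ : ℝ)) := by
    rw [← Real.rpow_natCast H (2 * nb + 2), ← Real.rpow_add hH0]
    congr 1
    push_cast
    ring
  have e3 : W * H ^ (2 * nb + 2) * ε = c₀ * F ^ (-κ₀) * H ^ (-(2 * nb * κ₀ : ℝ)) / 2 := by
    rw [hε, ← e2]
    field_simp
  rw [e1, e3] at b8
  have h9 : 0 < c₀ * F ^ (-κ₀) * H ^ (-(2 * nb * κ₀ : ℝ)) := by positivity
  have h10 : c₀ * (F ^ (-κ₀) * H ^ (-(2 * nb * κ₀ : ℝ))) = c₀ * F ^ (-κ₀) * H ^ (-(2 * nb * κ₀ : ℝ)) := by ring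
  rw [h10] at b8
  linarith

end Pool.Agent.P8H10.UN
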