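import Mathlib
import Pool.Agent.Q163.LE.Sim

/-!
# Simultaneously Liouville fields with the cardinality of the continuum
-/

set_option autoImplicit false

open Filter Topology Pool.Agent.Q163.LE Cardinal

namespace Pool.Agent.P8H10.ZOut

noncomputable section

open Classical in
/-- the digits: `1` at the places `(k + 2)!`, `k ∈ A` -/
def dig (A : Set ℕ) : ℕ → Bool := fun n => decide (∃ k ∈ A, n = (k + 2).factorial)

lemma dig_true {A : Set ℕ} {n : ℕ} : dig A n = true ↔ ∃ k ∈ A, n = (k + 2).factorial := by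
  simp [dig]

lemma dig_inj : Function.Injective dig := by
  intro A B h
  ext k
  have h1 := congrFun h (k + 2).factorial
  have key : ∀ C : Set ℕ, dig C (k + 2).factorial = true ↔ k ∈ C := by
    intro C
    rw [dig_true]
    constructor
    · rintro ⟨j, hj, hjk⟩
      have h2 : k + 2 = j + 2 := (Nat.factorial_inj (by omega)).1 hjk
      have : k = j := by omega
      rwa [this]
    · intro hk
      exact ⟨k, hk, rfl⟩
  rw [← key A, ← key B, h1]

/-- the number with the digits `dig A` -/
def xA (A : Set ℕ) : ℝ := cantorFunction (1 / 3) (dig A)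

lemma xA_inj : Function.Injective xA := by
  intro A B h
  exact dig_inj (cantorFunction_injective (by norm_num) (by norm_num) h)

/-- the scales -/
def Tn : ℕ → ℝ := fun n => (n.factorial : ℝ) * Real.log 3

lemma log3_pos : 0 < Real.log 3 := Real.log_pos (by norm_num)

lemma tendsto_Tn : Tendsto Tn atTop atTop := by
  have h : Tendsto (fun n : ℕ => (n.factorial : ℝ)) atTop atTop :=
    tendsto_atTop_mono (fun n => by exact_mod_cast Nat.self_le_factorial n) tendsto_natCast_atTop_atTop
  exact h.atTop_mul_const log3_pos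

lemma dig_gap {A : Set ℕ} {n m : ℕ} (hn : n.factorial < m) (hm : m < (n + 1).factorial) : dig A m = false := by
  rw [← Bool.not_eq_true, dig_true]
  rintro ⟨k, -, rfl⟩
  have h1 : n < k + 2 := Nat.lt_of_not_le fun h => absurd (Nat.factorial_le h) (by omega)
  have h2 : k + 2 < n + 1 := Nat.lt_of_not_le fun h => absurd (Nat.factorial_le h) (by omega)
  omega

lemma xA_ap (A : Set ℕ) : Ap Tn (xA A) := by
  refine ⟨1, zero_le_one, fun E => ?_⟩
  filter_upwards [eventually_ge_atTop (⌈|E|⌉₊ + 2)] with n hn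
  -- partial sums
  have hsum : Summable (cantorFunctionAux (1 / 3) (dig A)) :=
    summable_cantor_function _ (by norm_num) (by norm_num)
  obtain ⟨N, hN⟩ : ∃ N : ℕ, N = n.factorial := ⟨_, rfl⟩
  have hsplit : xA A = ∑ i ∈ Finset.range (N + 1), cantorFunctionAux (1 / 3) (dig A) i +
      ∑' i, cantorFunctionAux (1 / 3) (dig A) (i + (N + 1)) := (hsum.sum_add_tsum_nat_add (N + 1)).symm
  -- the numerator
  let p : ℤ := ∑ i ∈ Finset.range (N + 1), (if dig A i then 3 ^ (N - i) else 0 : ℤ)
  have hp : ∑ i ∈ Finset.range (N + 1), cantorFunctionAux (1 / 3) (dig A) i = (p : ℝ) / 3 ^ N := by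
    rw [eq_div_iff (by positivity), Finset.sum_mul]
    simp only [p]
    push_cast
    refine Finset.sum_congr rfl fun i hi => ?_
    rw [Finset.mem_range] at hi
    cases h : dig A i with
    | false => simp [cantorFunctionAux_false h]
    | true =>
      rw [cantorFunctionAux_true h]
      simp only [if_true]
      have e : (3 : ℝ) ^ N = 3 ^ i * 3 ^ (N - i) := by rw [← pow_add]; congr 1; omega
      rw [e, one_div, inv_pow]
      field_simp
  -- the tail
  have htail0 : 0 ≤ ∑' i, cantorFunctionAux (1 / 3) (dig A) (i + (N + 1)) :=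
    tsum_nonneg fun i => cantorFunctionAux_nonneg (by norm_num)
  obtain ⟨M, hM⟩ : ∃ M : ℕ, M = (n + 1).factorial := ⟨_, rfl⟩
  have hN1 : N + 1 ≤ M := by
    have h1 : n.factorial < (n + 1).factorial := (Nat.factorial_lt (by omega)).2 (by omega)
    omega
  have htail : ∑' i, cantorFunctionAux (1 / 3) (dig A) (i + (N + 1)) ≤ 2 * (1 / 3 : ℝ) ^ M := by
    have hs1 : Summable fun i => cantorFunctionAux (1 / 3) (dig A) (i + (N + 1)) :=
      (summable_nat_add_iff (N + 1)).2 hsum
    have h1 := hs1.sum_add_tsum_nat_add (M - (N + 1))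
    have h2 : ∑ i ∈ Finset.range (M - (N + 1)), cantorFunctionAux (1 / 3) (dig A) (i + (N + 1)) = 0 := by
      refine Finset.sum_eq_zero fun i hi => ?_
      rw [Finset.mem_range] at hi
      exact cantorFunctionAux_false (dig_gap (n := n) (by rw [← hN]; omega) (by rw [← hM]; omega))
    rw [h2, zero_add] at h1
    rw [← h1]
    have h3 : ∀ i, cantorFunctionAux (1 / 3) (dig A) (i + (M - (N + 1)) + (N + 1)) ≤
        (1 / 3 : ℝ) ^ M * (1 / 3) ^ i := by
      intro i
      have e : i + (M - (N + 1)) + (N + 1) = M + i := by omega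
      rw [e]
      cases h : dig A (M + i) with
      | false => rw [cantorFunctionAux_false h]; positivity
      | true => rw [cantorFunctionAux_true h, pow_add]
    have h4 : Summable fun i : ℕ => (1 / 3 : ℝ) ^ M * (1 / 3) ^ i :=
      (summable_geometric_of_lt_one (by norm_num) (by norm_num)).mul_left _
    have h5 : Summable fun i => cantorFunctionAux (1 / 3) (dig A) (i + (M - (N + 1)) + (N + 1)) :=
      (summable_nat_add_iff (f := fun i => cantorFunctionAux (1 / 3) (dig A) (i + (N + 1))) (M - (N + 1))).2 hs1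
    refine (h5.tsum_le_tsum h3 h4).trans ?_
    rw [tsum_mul_left, tsum_geometric_of_lt_one (by norm_num) (by norm_num)]
    have h6 : (0 : ℝ) < (1 / 3) ^ M := by positivity
    nlinarith
  have hexp : ∀ k : ℕ, Real.exp ((k : ℝ) * Real.log 3) = 3 ^ k := by
    intro k
    rw [Real.exp_nat_mul, Real.exp_log (by norm_num)]
  have hTN : Real.exp (1 * Tn n) = 3 ^ N := by
    rw [one_mul, Tn, ← hN, hexp]
  refine ⟨p, 3 ^ N, by positivity, ?_, ?_, ?_⟩
  · rw [hTN]
    have h0 : 0 ≤ (p : ℝ) / 3 ^ N := by
      rw [← hp]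
      exact Finset.sum_nonneg fun i _ => cantorFunctionAux_nonneg (by norm_num)
    have hp0 : (0 : ℝ) ≤ p := by
      by_contra hcon
      push Not at hcon
      have := div_neg_of_neg_of_pos hcon (show (0 : ℝ) < 3 ^ N by positivity)
      linarith
    rw [abs_of_nonneg hp0, ← one_mul ((3 : ℝ) ^ N), ← div_le_iff₀ (by positivity), ← hp]
    -- the sum of the series is at most one: no digit at the place `0`
    have h1 : ∑ i ∈ Finset.range (N + 1), cantorFunctionAux (1 / 3) (dig A) i ≤
        ∑' i, cantorFunctionAux (1 / 3) (dig A) i :=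
      hsum.sum_le_tsum _ fun i _ => cantorFunctionAux_nonneg (by norm_num)
    have h2 : dig A 0 = false := by
      rw [← Bool.not_eq_true, dig_true]
      rintro ⟨k, -, hk⟩
      exact absurd hk.symm (Nat.factorial_ne_zero _)
    have h3 : ∑' i, cantorFunctionAux (1 / 3) (dig A) i =
        ∑' i, cantorFunctionAux (1 / 3) (dig A) (i + 1) := by
      rw [hsum.tsum_eq_zero_add, cantorFunctionAux_false h2, zero_add]
    have h4 : ∑' i, cantorFunctionAux (1 / 3) (dig A) (i + 1) ≤ ∑' i : ℕ, (1 / 3 : ℝ) * (1 / 3) ^ i := by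
      refine ((summable_nat_add_iff 1).2 hsum).tsum_le_tsum (fun i => ?_)
        ((summable_geometric_of_lt_one (by norm_num) (by norm_num)).mul_left _)
      cases h : dig A (i + 1) with
      | false => rw [cantorFunctionAux_false h]; positivity
      | true => rw [cantorFunctionAux_true h, pow_succ]; linarith
    rw [tsum_mul_left, tsum_geometric_of_lt_one (by norm_num) (by norm_num)] at h4
    rw [h3] at h1
    norm_num at h4
    linarith
  · rw [hTN]
    push_cast
    rw [abs_of_nonneg (by positivity)]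
  · have e1 : xA A - (p : ℝ) / ((3 ^ N : ℤ) : ℝ) = ∑' i, cantorFunctionAux (1 / 3) (dig A) (i + (N + 1)) := by
      push_cast
      rw [← hp, hsplit]
      ring
    rw [e1, abs_of_nonneg htail0]
    refine htail.trans ?_
    have h2 : (2 : ℝ) * (1 / 3) ^ M ≤ (1 / 3) ^ (M - 1) := by
      have e : M = (M - 1) + 1 := by omega
      rw [e, pow_succ]
      simp only [Nat.add_sub_cancel]
      have : (0 : ℝ) < (1 / 3) ^ (M - 1) := by positivity
      nlinarith
    refine h2.trans ?_
    have h3 : ((1 : ℝ) / 3) ^ (M - 1) = Real.exp (-(((M - 1 : ℕ) : ℝ) * Real.log 3)) := by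
      rw [Real.exp_neg, hexp, one_div, inv_pow]
    rw [h3]
    refine Real.exp_le_exp.2 (neg_le_neg ?_)
    rw [Tn, ← mul_assoc, ← hN]
    refine mul_le_mul_of_nonneg_right ?_ log3_pos.le
    have h4 : E ≤ n := by
      have h5 : E ≤ (⌈|E|⌉₊ : ℝ) := (le_abs_self E).trans (Nat.le_ceil _)
      have h6 : ((⌈|E|⌉₊ : ℕ) : ℝ) ≤ n := by exact_mod_cast (by omega : ⌈|E|⌉₊ ≤ n)
      linarith
    have h7 : M - 1 = n * N + (N - 1) := by
      have h8 : M = (n + 1) * N := by rw [hM, hN]; exact Nat.factorial_succ n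
      have h9 : 1 ≤ N := by rw [hN]; exact Nat.factorial_pos n
      rw [h8, Nat.add_mul, one_mul]
      omega
    have h10 : (n : ℝ) * N ≤ ((M - 1 : ℕ) : ℝ) := by
      rw [h7]
      push_cast
      have : (0 : ℝ) ≤ ((N - 1 : ℕ) : ℝ) := Nat.cast_nonneg _
      linarith
    calc E * (N : ℝ) ≤ n * (N : ℝ) := mul_le_mul_of_nonneg_right h4 (by positivity)
      _ ≤ _ := h10

/-- a simultaneously Liouville field with the cardinality of the continuum -/
theorem exists_big : ∃ F : Subfield ℝ, SimLiouville F ∧ #F = 𝔠 := by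
  refine ⟨ApField Tn tendsto_Tn, sim_apField Tn tendsto_Tn, le_antisymm ?_ ?_⟩
  · exact (mk_subtype_le _).trans (le_of_eq mk_real)
  · have h : Function.Injective fun A : Set ℕ => (⟨xA A, xA_ap A⟩ : ApField Tn tendsto_Tn) := by
      intro A B hAB
      exact xA_inj (congrArg Subtype.val hAB)
    have h2 := mk_le_of_injective h
    rwa [mk_set_nat] at h2

end

end Pool.Agent.P8H10.ZOut
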